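import Pool.Agent.Lib.MP_c67b86_co.SpecC

/-!
# LST: list colourings of graphs on four vertices with at most two colours
-/

set_option autoImplicit false

namespace Pool.Agent.Lib.MPc67b86

namespace LSTM

def n (b : Bool) : ℕ := cond b 1 0

def any2 (f : Bool → Bool) : Bool := f false || f true

theorem any2_spec (f : Bool → Bool) (h : any2 f = true) : ∃ b, f b = true := by
  unfold any2 at h
  rw [Bool.or_eq_true] at h
  rcases h with h | h
  · exact ⟨_, h⟩
  · exact ⟨_, h⟩

/-- the table of a function on four elements -/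
def tb {α : Type} (a b c d : α) : Fin 4 → α
  | 0 => a
  | 1 => b
  | 2 => c
  | 3 => d

/-- the table of a symmetric relation -/
def te (a b c d x y : Bool) : Fin 4 → Fin 4 → Bool :=
  tb (tb false a b c) (tb a false d x) (tb b d false y) (tb c x y false)

def srch (E M : Fin 4 → Fin 4 → Bool) (p q : Fin 4) : Bool :=
  any2 fun s0 => M 0 (cond s0 p q) &&
  (any2 fun s1 => M 1 (cond s1 p q) && ((!(E 0 1) || xor s0 s1) &&
  (any2 fun s2 => M 2 (cond s2 p q) && ((!(E 0 2) || xor s0 s2) && ((!(E 1 2) || xor s1 s2) &&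
  (any2 fun s3 => M 3 (cond s3 p q) && ((!(E 0 3) || xor s0 s3) && ((!(E 1 3) || xor s1 s3) &&
    (!(E 2 3) || xor s2 s3)))))))))

def isTri (E : Fin 4 → Fin 4 → Bool) : Bool :=
  (!(E 0 1) && !(E 0 2) && !(E 0 3) && E 1 2 && E 1 3 && E 2 3) ||
  (!(E 0 1) && !(E 1 2) && !(E 1 3) && E 0 2 && E 0 3 && E 2 3) ||
  (!(E 0 2) && !(E 1 2) && !(E 2 3) && E 0 1 && E 0 3 && E 1 3) ||
  (!(E 0 3) && !(E 1 3) && !(E 2 3) && E 0 1 && E 0 2 && E 1 2)

def T (E M : Fin 4 → Fin 4 → Bool) : Bool :=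
  isTri E || (srch E M 0 1 || (srch E M 2 3 || (srch E M 0 2 || (srch E M 1 3 ||
    (srch E M 0 3 || srch E M 1 2)))))

theorem key : ∀ a b c d x y : Bool,
    ∀ p0 p1 p2 p3 : Bool, n p0 + n p1 + n p2 + n p3 = 2 + (n a + n b + n c) →
    ∀ q0 q1 q2 q3 : Bool, n q0 + n q1 + n q2 + n q3 = 2 + (n a + n d + n x) →
    ∀ r0 r1 r2 r3 : Bool, n r0 + n r1 + n r2 + n r3 = 2 + (n b + n d + n y) →
    ∀ s0 s1 s2 s3 : Bool, n s0 + n s1 + n s2 + n s3 = 2 + (n c + n x + n y) →
    T (te a b c d x y) (tb (tb p0 p1 p2 p3) (tb q0 q1 q2 q3) (tb r0 r1 r2 r3) (tb s0 s1 s2 s3)) =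
      true := by
  decide +kernel

theorem tb_eta {α : Type} (F : Fin 4 → α) : tb (F 0) (F 1) (F 2) (F 3) = F := by
  funext i
  fin_cases i <;> rfl

theorem n_decide (p : Prop) [Decidable p] : n (decide p) = if p then 1 else 0 := by
  by_cases h : p <;> simp [n, h]

theorem srch_spec (E M : Fin 4 → Fin 4 → Bool) (p q : Fin 4) (hpq : p ≠ q)
    (h : srch E M p q = true) : ∃ s : Fin 4 → Bool, (∀ i, M i (cond (s i) p q) = true) ∧
      ∀ i j, i < j → E i j = true → cond (s i) p q ≠ cond (s j) p q := by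
  unfold srch at h
  obtain ⟨s0, h⟩ := any2_spec _ h
  rw [Bool.and_eq_true] at h
  obtain ⟨m0, h⟩ := h
  obtain ⟨s1, h⟩ := any2_spec _ h
  rw [Bool.and_eq_true, Bool.and_eq_true] at h
  obtain ⟨m1, e01, h⟩ := h
  obtain ⟨s2, h⟩ := any2_spec _ h
  rw [Bool.and_eq_true, Bool.and_eq_true, Bool.and_eq_true] at h
  obtain ⟨m2, e02, e12, h⟩ := h
  obtain ⟨s3, h⟩ := any2_spec _ h
  rw [Bool.and_eq_true, Bool.and_eq_true, Bool.and_eq_true] at h
  obtain ⟨m3, e03, e13, e23⟩ := h
  have key : ∀ (b s t : Bool), (!b || xor s t) = true → b = true → cond s p q ≠ cond t p q := by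
    intro b s t h hb
    subst hb
    revert h
    cases s <;> cases t
    · intro h
      simp at h
    · intro _
      exact hpq.symm
    · intro _
      exact hpq
    · intro h
      simp at h
  refine ⟨tb s0 s1 s2 s3, ?_, ?_⟩
  · intro i
    fin_cases i
    · exact m0
    · exact m1
    · exact m2
    · exact m3
  · intro i j hij
    fin_cases i <;> fin_cases j <;> first
      | exact absurd hij (by decide)
      | exact key _ _ _ e01
      | exact key _ _ _ e02
      | exact key _ _ _ e03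
      | exact key _ _ _ e12
      | exact key _ _ _ e13
      | exact key _ _ _ e23

theorem isTri_spec (E : Fin 4 → Fin 4 → Bool) (hs : ∀ i j, E i j = E j i)
    (hi : ∀ i, E i i = false) (h : isTri E = true) :
    ∃ l, (∀ j, E l j = false) ∧ ∀ i j, i ≠ j → i ≠ l → j ≠ l → E i j = true := by
  unfold isTri at h
  simp only [Bool.or_eq_true, Bool.and_eq_true, Bool.not_eq_true'] at h
  rcases h with ((⟨⟨⟨⟨⟨a, b⟩, c⟩, d⟩, x⟩, y⟩ | ⟨⟨⟨⟨⟨a, b⟩, c⟩, d⟩, x⟩, y⟩) |
    ⟨⟨⟨⟨⟨a, b⟩, c⟩, d⟩, x⟩, y⟩) | ⟨⟨⟨⟨⟨a, b⟩, c⟩, d⟩, x⟩, y⟩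
  · refine ⟨0, ?_, ?_⟩
    · intro j
      fin_cases j <;> first | exact hi _ | assumption | (rw [hs]; assumption)
    · intro i j
      fin_cases i <;> fin_cases j <;> intro h1 h2 h3 <;> first
        | exact absurd rfl h1 | exact absurd rfl h2 | exact absurd rfl h3 | assumption
        | (rw [hs]; assumption)
  · refine ⟨1, ?_, ?_⟩
    · intro j
      fin_cases j <;> first | exact hi _ | assumption | (rw [hs]; assumption)
    · intro i j
      fin_cases i <;> fin_cases j <;> intro h1 h2 h3 <;> first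
        | exact absurd rfl h1 | exact absurd rfl h2 | exact absurd rfl h3 | assumption
        | (rw [hs]; assumption)
  · refine ⟨2, ?_, ?_⟩
    · intro j
      fin_cases j <;> first | exact hi _ | assumption | (rw [hs]; assumption)
    · intro i j
      fin_cases i <;> fin_cases j <;> intro h1 h2 h3 <;> first
        | exact absurd rfl h1 | exact absurd rfl h2 | exact absurd rfl h3 | assumption
        | (rw [hs]; assumption)
  · refine ⟨3, ?_, ?_⟩
    · intro j
      fin_cases j <;> first | exact hi _ | assumption | (rw [hs]; assumption)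
    · intro i j
      fin_cases i <;> fin_cases j <;> intro h1 h2 h3 <;> first
        | exact absurd rfl h1 | exact absurd rfl h2 | exact absurd rfl h3 | assumption
        | (rw [hs]; assumption)

theorem main (E M : Fin 4 → Fin 4 → Bool) (hs : ∀ i j, E i j = E j i) (hi : ∀ i, E i i = false)
    (hc : ∀ i, ∑ c, n (M i c) = 2 + ∑ j, n (E i j)) :
    (∃ f : Fin 4 → Fin 4, (∀ i, M i (f i) = true) ∧ (∀ i j, i < j → E i j = true → f i ≠ f j) ∧
      (Finset.univ.image f).card ≤ 2) ∨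
    ∃ l, (∀ j, E l j = false) ∧ ∀ i j, i ≠ j → i ≠ l → j ≠ l → E i j = true := by
  have hE : te (E 0 1) (E 0 2) (E 0 3) (E 1 2) (E 1 3) (E 2 3) = E := by
    funext i j
    fin_cases i <;> fin_cases j <;> first | rfl | exact (hi _).symm | exact hs _ _
  have hM : tb (tb (M 0 0) (M 0 1) (M 0 2) (M 0 3)) (tb (M 1 0) (M 1 1) (M 1 2) (M 1 3))
      (tb (M 2 0) (M 2 1) (M 2 2) (M 2 3)) (tb (M 3 0) (M 3 1) (M 3 2) (M 3 3)) = M := by
    rw [tb_eta (M 0), tb_eta (M 1), tb_eta (M 2), tb_eta (M 3), tb_eta M]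
  have hn : ∀ i, n (E i i) = 0 := fun i => by rw [hi]; rfl
  have h0 := hc 0
  have h1 := hc 1
  have h2 := hc 2
  have h3 := hc 3
  simp only [Fin.sum_univ_four, hn] at h0 h1 h2 h3
  rw [hs 1 0] at h1
  rw [hs 2 0, hs 2 1] at h2
  rw [hs 3 0, hs 3 1, hs 3 2] at h3
  have hk := key (E 0 1) (E 0 2) (E 0 3) (E 1 2) (E 1 3) (E 2 3)
    (M 0 0) (M 0 1) (M 0 2) (M 0 3) (by omega)
    (M 1 0) (M 1 1) (M 1 2) (M 1 3) (by omega)
    (M 2 0) (M 2 1) (M 2 2) (M 2 3) (by omega)
    (M 3 0) (M 3 1) (M 3 2) (M 3 3) (by omega)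
  rw [hE, hM] at hk
  unfold T at hk
  have fin : ∀ p q : Fin 4, p ≠ q → srch E M p q = true →
      ∃ f : Fin 4 → Fin 4, (∀ i, M i (f i) = true) ∧ (∀ i j, i < j → E i j = true → f i ≠ f j) ∧
      (Finset.univ.image f).card ≤ 2 := by
    intro p q hpq h
    obtain ⟨s, hs1, hs2⟩ := srch_spec E M p q hpq h
    refine ⟨fun i => cond (s i) p q, hs1, hs2, ?_⟩
    refine le_trans (Finset.card_le_card (t := {p, q}) ?_) Finset.card_le_two
    intro x hx
    obtain ⟨i, _, rfl⟩ := Finset.mem_image.1 hx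
    cases h : s i <;> simp [h]
  simp only [Bool.or_eq_true] at hk
  rcases hk with h | h | h | h | h | h | h
  · exact Or.inr (isTri_spec E hs hi h)
  · exact Or.inl (fin _ _ (by decide) h)
  · exact Or.inl (fin _ _ (by decide) h)
  · exact Or.inl (fin _ _ (by decide) h)
  · exact Or.inl (fin _ _ (by decide) h)
  · exact Or.inl (fin _ _ (by decide) h)
  · exact Or.inl (fin _ _ (by decide) h)

end LSTM

open LSTM in
theorem specLST : SpecLST := by
  classical
  intro e L hi hs hc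
  have hL : ∀ i, ∃ L' : Finset (Fin 4), L' ⊆ L i ∧ L'.card = 2 + {j | e i j}.ncard :=
    fun i => Finset.exists_subset_card_eq (hc i)
  choose L' hsub hcard using hL
  have hE : ∀ i, ({j | e i j}).ncard = ∑ j, n (decide (e i j)) := by
    intro i
    simp only [n_decide]
    rw [← Finset.card_filter, ← Set.ncard_coe_finset]
    congr 1
    ext j
    simp
  have hM : ∀ i, (L' i).card = ∑ c, n (decide (c ∈ L' i)) := by
    intro i
    simp only [n_decide]
    rw [← Finset.card_filter]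
    congr 1
    ext j
    simp
  rcases main (fun i j => decide (e i j)) (fun i c => decide (c ∈ L' i))
    (fun i j => by simp only [decide_eq_decide]; exact ⟨hs i j, hs j i⟩)
    (fun i => by simp only [decide_eq_false_iff_not]; exact hi i)
    (fun i => by rw [← hE i, ← hM i, hcard i]) with ⟨f, h1, h2, h3⟩ | ⟨l, h1, h2⟩
  · refine Or.inl ⟨f, fun i => hsub i (of_decide_eq_true (h1 i)), fun i j hij hf => ?_, h3⟩
    rcases lt_trichotomy i j with h | h | h
    · exact h2 i j h (decide_eq_true hij) hf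
    · subst h
      exact hi i hij
    · exact h2 j i h (decide_eq_true (hs i j hij)) hf.symm
  · exact Or.inr ⟨l, fun j => of_decide_eq_false (h1 j),
      fun i j a b c => of_decide_eq_true (h2 i j a b c)⟩

end Pool.Agent.Lib.MPc67b86
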