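import Pool.Agent.Lib.MP_c67b86_co.Spec

/-!
# MP_c67b86_co, part C: the gadget

Rules as in `Spec.lean` (`import Pool.Agent.Lib.MP_c67b86_co.SpecC`).
-/

set_option autoImplicit false

namespace Pool.Agent.Lib.MPc67b86

/-- **STR** (250 lines, from DEG, SP3, TKB). There is a gadget.
Proof. For `L : Set V` let `fill L` be the graph with `a b` adjacent if `a ≠ b`, `a, b ∉ L` and (`G.Adj a b` or `G.Adj a v`, `G.Adj v b` for some `v ∈ L`).
Claim (induction on `Elim H`): if `H = fill L`, `L` independent in `G`, every vertex of `L` has at most four neighbours, then there are `L'` independent, all vertices with at most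
four neighbours, and `c ∉ L'` adjacent to a vertex of `L'` with at most four neighbours in `fill L'`. Proof of the claim: `H = ⊥`: `G` has no edges (an edge outside `L` would be in
`H`; an edge at `v ∈ L`: `v` has two neighbours `a ≠ b` (DEG), both outside `L` and adjacent in `H`), against DEG. Step with `v'`: if `v' ∈ L` then `elim H v' = H`. If `v' ∉ L` is adjacent to
a vertex of `L`: `c = v'`. Otherwise `v'` has the same neighbours in `H` and `G`, and `elim (fill L) v' = fill (insert v' L)`.
Start with `L = ∅`. So: `L`, `c`; `R` = the neighbours of `c` in `fill L`, `|R| ≤ 4`. A vertex `v ∈ L` adjacent to `c` has exactly four neighbours (DEG): `c` and three others, in `R`.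
`G`-neighbours of `c` are in `R` or in `L`. Case `|R| = 3`: all `v ∈ L ∩ N(c)` have `N(v) = R ∪ {c}`; by DEG (second part) there is only one, so `N(c) = R ∪ {v}`, and
`Sep G R {c, v}` if there is another vertex, against SP3; otherwise there are five vertices, all pairs adjacent (DEG), `TK5 G` (TKB, `m = 0`). Case `|R| = 4`: number `R` by `r`; for
`v ∈ L ∩ N(c)` there is a unique `d` with `r d ∉ N(v)`; different `v` have different `d` (DEG, second part); `D` = the set of these `d`, `v d` = the vertex. `cov`: definition of `fill`. -/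
def SpecSTR : Prop :=
  ∀ (V : Type) [Finite V] (G : SimpleGraph V), Min G → Elim G →
    ∃ (r : Fin 4 → V) (c : V) (D : Finset (Fin 4)) (v : Fin 4 → V), Gad G r c D v

/-- **EXT** (60 lines). A colouring of the rest and a possible colour `κ` for `c`: some `v d` cannot be coloured.
Proof. Otherwise colour `c` with `κ`, `v d` with a colour `≠ κ` and different from the `f (r i)`, `i ≠ d`: `Col4 G`. -/
def SpecEXT : Prop :=
  ∀ (V : Type) [Finite V] (G : SimpleGraph V), Min G →
    ∀ (r : Fin 4 → V) (c : V) (D : Finset (Fin 4)) (v : Fin 4 → V), Gad G r c D v →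
    ∀ f, IsCol G (Rest c D v) f → ∀ κ : Fin 4, (∀ i, G.Adj c (r i) → f (r i) ≠ κ) →
      ∃ d ∈ D, ∀ κ', κ' ≠ κ → ∃ i, i ≠ d ∧ f (r i) = κ'

/-- **IMG** (60 lines, from EXT). The vertices `r i` have at least three colours; if they have three then every one of these colours occurs at a neighbour of `c`.
Proof. EXT for a `κ` not among the colours: the three other colours occur. If there are exactly three colours and the colour `κ` of some `r i` is possible for `c`: by EXT the three
colours `≠ κ` occur, that would be four colours. -/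
def SpecIMG : Prop :=
  ∀ (V : Type) [Finite V] (G : SimpleGraph V), Min G →
    ∀ (r : Fin 4 → V) (c : V) (D : Finset (Fin 4)) (v : Fin 4 → V), Gad G r c D v →
    ∀ f, IsCol G (Rest c D v) f → 3 ≤ (Finset.univ.image fun i => f (r i)).card ∧
      ((Finset.univ.image fun i => f (r i)).card = 3 → ∀ j, ∃ i, G.Adj c (r i) ∧ f (r i) = f (r j))

/-- **RDA** (150 lines, from RED, DEG, IMG). `c` is adjacent to all `r i` with at most one exception.
Proof. `U` = the set of `i` with `r i` not adjacent to `c`; suppose `|U| ≥ 2`. `|D| ≥ |U|` as `c` has at least four neighbours (DEG, `Nc`). There is an injective `σ : U → D` with `σ u ≠ u`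
(`decide` over the subsets of `Fin 4`, or Hall). RED for `W = Rest ∪ {c}` and the connections `c, r u` through `{v (σ u)}`: a colouring `f` with `f c` different from all `f (r i)`. By IMG there are
exactly three colours, so exactly one pair `f (r i) = f (r j)`, `i ≠ j`. If there is `u ∈ U` other than `i, j`: the colour of `r u` occurs only there, against IMG. Otherwise `U = {i, j}` and the
colour of `r i` occurs only at `r i`, `r j`, against IMG. -/
def SpecRDA : Prop :=
  ∀ (V : Type) [Finite V] (G : SimpleGraph V), Min G →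
    ∀ (r : Fin 4 → V) (c : V) (D : Finset (Fin 4)) (v : Fin 4 → V), Gad G r c D v →
    ∀ i j, ¬ G.Adj c (r i) → ¬ G.Adj c (r j) → i = j

/-- **RDB** (200 lines, from RED, EXT, IMG). There is no exception.
Proof. Let `r u` be the only `r i` not adjacent to `c`.
Case `u ∉ D`. Connections from `r u` to `r y` for all `y ∈ D`: if `|D| ≥ 2` through `{v (σ y)}`, `σ` a permutation of `D` without fixed points; if `D = {y}` through `{v y, c}`. RED for `W = Rest`: a
colouring `f` with `f (r u) ≠ f (r y)` for `y ∈ D`. By IMG three or four colours. Four: EXT with `κ = f (r u)`: `d ∈ D`, `d ≠ u`, and the colour of `r d` occurs at some `i ≠ d`, a contradiction.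
Three, exactly one pair `f (r i) = f (r j)`: if `u ≠ i, j` the colour of `r u` occurs only at `r u`, against IMG. If `u = i`: `j ∉ D`; EXT for the colour `κ` which does not occur: `d ∈ D`,
three colours on the `r k`, `k ≠ d`; `d ≠ i, j`, so there are only two, a contradiction.
Case `u ∈ D`. By `cov` there is `d ∈ D`, `d ≠ u`. RED for `W = {v d}ᶜ`, `m = 0`: a colouring `f` of `G - v d`. `c` and `v u` are adjacent to each other and to all `r i`, `i ≠ u`: so the `r i`, `i ≠ u` have at
most two colours, by IMG (restrict to `Rest`) exactly two, and the colour of `r u` occurs only at `r u`: against IMG. -/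
def SpecRDB : Prop :=
  ∀ (V : Type) [Finite V] (G : SimpleGraph V), Min G →
    ∀ (r : Fin 4 → V) (c : V) (D : Finset (Fin 4)) (v : Fin 4 → V), Gad G r c D v →
    ∀ u, ¬ G.Adj c (r u) → (∀ i, i ≠ u → G.Adj c (r i)) → False

/-- **RDC** (180 lines, from RED, EDG, EXT, IMG). The gadget with `c` adjacent to all `r i`.
Proof. `q1`: IMG. `q2`: let `f (r i) = f (r j)`, `i ≠ j`, `i, j ∉ D`: three colours; EXT for the missing colour `κ`: `d ∈ D`, the three colours occur at the `r k`, `k ≠ d`; but `d ≠ i, j`, so only two.
`two`: let `D = {d}`. EDG for the edge `c, r d`: a colouring `f` of all edges but this one. `c` and `v d` are adjacent to each other and to the `r i`, `i ≠ d`, which have at most two colours.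
By `q1` (restrict to `Rest`) the `r i` have exactly three colours; EXT for the missing colour: three colours at the `r i`, `i ≠ d`, a contradiction.
`three`: let `D` be everything, `d : Fin 4`. RED for `W = {v d}ᶜ`, `m = 0`: a colouring `f` of `G - v d`. `f c` is not among the `f (r i)`: three colours, `f (r i) = f (r j)` for some `i ≠ j`, one of them, say `i`, is
not `d`. `v i` sees the three colours of the `r k`, `k ≠ i`, and `f c`: a contradiction. -/
def SpecRDC : Prop :=
  ∀ (V : Type) [Finite V] (G : SimpleGraph V), Min G →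
    ∀ (r : Fin 4 → V) (c : V) (D : Finset (Fin 4)) (v : Fin 4 → V), Gad G r c D v →
    (∀ i, G.Adj c (r i)) → Gad2 G r c D v

/-- **GLB** (100 lines). The indices can be permuted: `D = {0, 1}` or `D = {0, 1, 2}`.
Proof. `r' = r ∘ σ`, `v' = v ∘ σ` with a permutation `σ` which maps `{0, 1}` (or `{0, 1, 2}`) onto `D`. -/
def SpecGLB : Prop :=
  ∀ (V : Type) (G : SimpleGraph V) (r : Fin 4 → V) (c : V) (D : Finset (Fin 4)) (v : Fin 4 → V),
    Gad2 G r c D v →
    (D.card = 2 → ∃ r' v', Gad2 G r' c {0, 1} v') ∧ (D.card = 3 → ∃ r' v', Gad2 G r' c {0, 1, 2} v')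

/-- **M2A** (200 lines, from DEG, FAN, SP3, TKB). `D = {0, 1}`.
Proof. FAN for `res G Rest`, the vertex `r 1`, `B = {r 2, r 3}`, `k = 2`. If there is a fan: `TK5` by TKB with the branch vertices `r 1, r 2, r 3, c, v 0`: `c` is adjacent to all others, `v 0` is
adjacent to `r 1, r 2, r 3`, `r 2, r 3` are connected through `{v 1}`, and `r 1` with `r 2`, `r 3` by the fan (subsets of `Rest`). So there is `T ∌ r 1`, `|T| ≤ 1`, such that no vertex of
`{r 2, r 3} \ T` is reachable from `r 1` in `res (res G Rest) Tᶜ`; `K` = the set of reachable vertices, `K ⊆ Rest`, `r 2, r 3 ∉ K`. A vertex `u ∈ K` other than `r 0, r 1` is not adjacent to `c`, `v 0`, `v 1` (`Nc`, `Nv`),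
so its neighbours are in `K ∪ T`: if there is one, `Sep G ({r 0, r 1} ∪ T) (K \ {r 0, r 1})` (`c` is outside), against SP3. So `K ⊆ {r 0, r 1}`. `r 1` has at least four neighbours (DEG), `c`, `v 0` and the others in
`(K ∪ T) \ {r 1}`: so `r 0 ∈ K`, `T = {s}`, and `r 1` is adjacent to `r 0` and `s`. The neighbours of `r 0` are `c`, `v 1` and vertices of `(K ∪ T) \ {r 0} = {r 1, s}`: by DEG both. -/
def SpecM2A : Prop :=
  ∀ (V : Type) [Finite V] (G : SimpleGraph V), Min G → ∀ (r : Fin 4 → V) (c : V) (v : Fin 4 → V),
    Gad2 G r c {0, 1} v →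
    ∃ s, s ≠ c ∧ s ≠ v 0 ∧ s ≠ v 1 ∧ s ≠ r 0 ∧ s ≠ r 1 ∧ G.Adj (r 0) (r 1) ∧ G.Adj (r 0) s ∧ G.Adj (r 1) s ∧
      (∀ w, G.Adj (r 0) w → w = c ∨ w = v 1 ∨ w = r 1 ∨ w = s) ∧
      (∀ w, G.Adj (r 1) w → w = c ∨ w = v 0 ∨ w = r 0 ∨ w = s)

/-- **M2B** (200 lines, from SP3, TKB, M2A). The case `D = {0, 1}` is impossible.
Proof. `s` from M2A. (i) There are no other vertices than `c, v 0, v 1, r i, s`: the set `O` of the others has its neighbours in `O ∪ {r 2, r 3, s}` (`Nc`, `Nv`, M2A), so
`Sep G {r 2, r 3, s} O` if it is nonempty, against SP3. (ii) `r 2, r 3` are adjacent: otherwise the colouring `r 2, r 3 ↦ 0`, and (if `s ≠ r 2, r 3`) `s ↦ 1`, `r 0 ↦ 2`, `r 1 ↦ 3`, or (if `s = r 2` or `s = r 3`)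
`r 0 ↦ 1`, `r 1 ↦ 2` is a colouring of `Rest`, against `q2`. (iii) `s = r 2` or `s = r 3`: otherwise `r 0, r 2 ↦ 0`, `r 1, r 3 ↦ 1`, `s ↦ 2` is a colouring of `Rest`, against `q1`.
(iv) Let `t` be the other one of `r 2, r 3`. TKB with `r 0, r 1, r 2, r 3, c`: all pairs are adjacent except `r 0, t` (connected through `{v 1}`) and `r 1, t` (through `{v 0}`). -/
def SpecM2B : Prop :=
  ∀ (V : Type) [Finite V] (G : SimpleGraph V), Min G → ∀ (r : Fin 4 → V) (c : V) (v : Fin 4 → V),
    Gad2 G r c {0, 1} v → False

/-- **M3A** (200 lines, from FAN, SP3, TKB). `D = {0, 1, 2}`: every `r i` has at most two neighbours in the rest.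
Proof. FAN for `res G Rest`, the vertex `r i`, `B = {r j | j ≠ i}`, `k = 3`. If there is a fan (its three ends are the three `r j`, `j ≠ i`): TKB with `r 0, r 1, r 2, r 3, c`: the three pairs of `r j`,
`j ≠ i` are connected through the `v d`. For `i = 3`: `01` by `v 2`, `02` by `v 1`, `12` by `v 0`. `i = 0`: `23` by `v 1`, `13` by `v 2`, `12` by `v 0`. `i = 1`: `02` by `v 1`, `03` by `v 2`, `23` by `v 0`.
`i = 2`: `01` by `v 2`, `03` by `v 1`, `13` by `v 0`. So there is `T ∌ r i`, `|T| ≤ 2`, such that no `r j ∉ T`, `j ≠ i`, is reachable from `r i` in `res (res G Rest) Tᶜ`; `K` = the set of reachable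
vertices. `K \ {r i}` contains no `r j`, so its neighbours are in `K ∪ T` (`Nc`, `Nv`); if it is nonempty `Sep G ({r i} ∪ T) (K \ {r i})` (`c` is outside), against SP3. So the neighbours of `r i` in
`Rest` are in `T`. -/
def SpecM3A : Prop :=
  ∀ (V : Type) [Finite V] (G : SimpleGraph V), Min G → ∀ (r : Fin 4 → V) (c : V) (v : Fin 4 → V),
    Gad2 G r c {0, 1, 2} v → ∀ i, {w | w ∈ Rest c {0, 1, 2} v ∧ G.Adj (r i) w}.ncard ≤ 2

/-- **LST** (120 lines). Lists. `e` is a graph on four vertices, `L i` has at least `2 + deg i` of the four colours (so all degrees are at most two): there is a colouring from the lists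
with at most two colours, or `e` is a triangle and an isolated vertex.
Proof. Up to permutations `e` is: empty, one edge, two disjoint edges, a path with 2 or 3 edges, a triangle, a 4-cycle. Empty: six pairs of colours, every list (at least two colours) is
missed by at most one pair; so some pair meets the four lists. One edge `ij`: `L i`, `L j` miss at most one colour; if both miss the same colour `m` use one of the three pairs without
`m`, otherwise any pair is possible for `ij`; the two other lists exclude at most two pairs. Two edges `ij`, `kl`: if both lists of `ij` miss `m` and both lists of `kl` miss `m'` use a pair without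
`m, m'`, etc. Path `i j k` and `l`: `L j` is everything; `b ∈ L i ∩ L k`, `a ∈ L l`, `a ≠ b`; `j ↦ a`, `i, k ↦ b`, `l ↦ a`. Path `i j k l`: `a ∈ L i`, `b ∈ L l`, `a ≠ b`, `i, k ↦ a`, `j, l ↦ b`. 4-cycle: all lists are
everything. -/
def SpecLST : Prop :=
  ∀ (e : Fin 4 → Fin 4 → Prop) (L : Fin 4 → Finset (Fin 4)), (∀ i, ¬ e i i) →
    (∀ i j, e i j → e j i) → (∀ i, 2 + {j | e i j}.ncard ≤ (L i).card) →
    (∃ f : Fin 4 → Fin 4, (∀ i, f i ∈ L i) ∧ (∀ i j, e i j → f i ≠ f j) ∧
      (Finset.univ.image f).card ≤ 2) ∨
    ∃ l, (∀ j, ¬ e l j) ∧ ∀ i j, i ≠ j → i ≠ l → j ≠ l → e i j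

/-- **M3B** (200 lines, from RED, DEG, SP3, TKB, M3A, LST). The case `D = {0, 1, 2}` is impossible.
Proof. RED for `W = Rest`, `m = 0` (`c` is outside): a colouring `f` of `Rest`. `O` = the vertices of `Rest` which are not an `r i`; `e i j` = `G.Adj (r i) (r j)`, `L i` = the colours different from those of
the neighbours of `r i` in `O`. By M3A `2 + deg i ≤ |L i|`. LST, first case: `g` from the lists on the `r i`, `f` on `O`: a colouring of `Rest` with at most two colours at the `r i`, against `q1`.
Second case: the three `r i`, `i ≠ l`, are pairwise adjacent and have no other neighbours in `Rest` (M3A). So the neighbours of `O` are in `O ∪ {r l}`: `O = ∅` by SP3. `r l` has no neighbours in `Rest`,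
only `c` and the `v d`, `d ≠ l`: by DEG `l = 3`. TKB with `r 0, r 1, r 2, r 3, c`: `r 3, r 0` through `{v 1}`, `r 3, r 1` through `{v 2}`, `r 3, r 2` through `{v 0}`, the other pairs are adjacent. -/
def SpecM3B : Prop :=
  ∀ (V : Type) [Finite V] (G : SimpleGraph V), Min G → ∀ (r : Fin 4 → V) (c : V) (v : Fin 4 → V),
    Gad2 G r c {0, 1, 2} v → False

/-- **GAD** (60 lines, from RDA, RDB, RDC, GLB, M2B, M3B). A minimal counterexample contains no gadget. -/
def SpecGAD : Prop :=
  ∀ (V : Type) [Finite V] (G : SimpleGraph V), Min G →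
    ∀ (r : Fin 4 → V) (c : V) (D : Finset (Fin 4)) (v : Fin 4 → V), ¬ Gad G r c D v

end Pool.Agent.Lib.MPc67b86
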