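import Pool.Agent.Lib.MP_c67b86_co.Spec

section
/-!
# MP_c67b86_co, module ARC: two vertices on a path
-/
set_option autoImplicit false

namespace Pool.Agent.Lib.MPc67b86

namespace ARCM

variable {V : Type} {G : SimpleGraph V}

theorem reach {S : Set V} {a b : V} (P : G.Walk a b) (h : ∀ v ∈ P.support, v ∈ S) :
    (res G S).Reachable a b := by
  induction P with
  | nil => exact SimpleGraph.Reachable.refl _
  | @cons u v w huv P ih =>
    have h1 : (res G S).Adj u v := ⟨huv, h u (by simp), h v (by simp)⟩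
    exact h1.reachable.trans (ih fun w' hw' => h w' (by
      rw [SimpleGraph.Walk.support_cons]; exact List.mem_cons_of_mem _ hw'))

/-- the part before `u` and the part after `v` -/
theorem key [DecidableEq V] (a b : V) (P : G.Walk a b) (hP : P.IsPath) (hab : a ≠ b) (u v : V)
    (hv : v ∈ P.support) (hu : u ∈ (P.takeUntil v hv).support) (huv : u ≠ v) :
    ∃ J K : Set V, u ≠ b ∧ v ≠ a ∧
      (∀ w ∈ J, w ∈ P.support ∧ w ≠ a ∧ w ≠ b ∧ w ≠ u ∧ w ≠ v) ∧
      (∀ w ∈ K, w ∈ P.support ∧ w ≠ a ∧ w ≠ b ∧ w ≠ u ∧ w ≠ v) ∧ Disjoint J K ∧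
      Lk G a u J ∧ Lk G v b K := by
  have hnd : P.support.Nodup := hP.support_nodup
  have hspec := P.take_spec hv
  -- a vertex in both parts is `v`
  have hboth : ∀ w, w ∈ (P.takeUntil v hv).support → w ∈ (P.dropUntil v hv).support → w = v := by
    intro w h1 h2
    have h3 : ((P.takeUntil v hv).append (P.dropUntil v hv)).support.Nodup := by
      rw [hspec]; exact hnd
    rw [SimpleGraph.Walk.support_append] at h3
    by_contra hne
    have h4 : w ∈ (P.dropUntil v hv).support.tail := by
      have h5 := SimpleGraph.Walk.cons_tail_support (P.dropUntil v hv)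
      rw [← h5] at h2
      rcases List.mem_cons.1 h2 with h6 | h6
      · exact absurd h6 hne
      · exact h6
    exact (List.disjoint_of_nodup_append h3) h1 h4
  have hbD : b ∈ (P.dropUntil v hv).support := SimpleGraph.Walk.end_mem_support _
  have haT : a ∈ (P.takeUntil v hv).support := SimpleGraph.Walk.start_mem_support _
  have hub : u ≠ b := fun h => huv (hboth u hu (h ▸ hbD))
  have hTP : (P.takeUntil v hv).IsPath := hP.takeUntil hv
  have hva : v ≠ a := by
    intro h
    subst h
    have h8 : (P.takeUntil v hv) = SimpleGraph.Walk.nil := by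
      cases hTP' : P.takeUntil v hv with
      | nil => rfl
      | cons hh q =>
        rw [hTP', SimpleGraph.Walk.cons_isPath_iff] at hTP
        exact absurd (SimpleGraph.Walk.end_mem_support q) hTP.2
    rw [h8] at hu
    simp at hu
    exact huv hu
  let T := P.takeUntil v hv
  let D := P.dropUntil v hv
  let S := T.takeUntil u hu
  have hST : ∀ w ∈ S.support, w ∈ T.support := fun w hw =>
    SimpleGraph.Walk.support_takeUntil_subset_support _ _ hw
  have hTP' : ∀ w ∈ T.support, w ∈ P.support := fun w hw =>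
    SimpleGraph.Walk.support_takeUntil_subset_support _ _ hw
  have hDP : ∀ w ∈ D.support, w ∈ P.support := fun w hw =>
    SimpleGraph.Walk.support_dropUntil_subset_support _ _ hw
  have hvS : v ∉ S.support := by
    intro h
    -- `v` is the last vertex of `T`
    have h3 : (S.append (T.dropUntil u hu)).support.Nodup := by
      rw [T.take_spec hu]; exact hTP.support_nodup
    rw [SimpleGraph.Walk.support_append] at h3
    have h4 : v ∈ (T.dropUntil u hu).support.tail := by
      have h5 := SimpleGraph.Walk.cons_tail_support (T.dropUntil u hu)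
      have h2 : v ∈ (T.dropUntil u hu).support := SimpleGraph.Walk.end_mem_support _
      rw [← h5] at h2
      rcases List.mem_cons.1 h2 with h6 | h6
      · exact absurd h6.symm huv
      · exact h6
    exact (List.disjoint_of_nodup_append h3) h h4
  refine ⟨{w | w ∈ S.support ∧ w ≠ a ∧ w ≠ u}, {w | w ∈ D.support ∧ w ≠ v ∧ w ≠ b}, hub, hva, ?_,
    ?_, ?_, ?_, ?_⟩
  · rintro w ⟨h1, h2, h3⟩
    refine ⟨hTP' w (hST w h1), h2, ?_, h3, ?_⟩
    · intro h
      subst h
      have := hboth w (hST w h1) hbD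
      subst this
      exact hvS h1
    · intro h
      subst h
      exact hvS h1
  · rintro w ⟨h1, h2, h3⟩
    refine ⟨hDP w h1, ?_, h3, ?_, h2⟩
    · intro h
      subst h
      exact h2 (hboth w haT h1)
    · intro h
      subst h
      exact h2 (hboth w hu h1)
  · rw [Set.disjoint_left]
    rintro w ⟨h1, -, -⟩ ⟨h2, h3, -⟩
    exact h3 (hboth w (hST w h1) h2)
  · refine reach S fun w hw => ?_
    by_cases h1 : w = a
    · exact Or.inl h1
    · by_cases h2 : w = u
      · exact Or.inr (Or.inl h2)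
      · exact Or.inr (Or.inr ⟨hw, h1, h2⟩)
  · refine reach D fun w hw => ?_
    by_cases h1 : w = v
    · exact Or.inl h1
    · by_cases h2 : w = b
      · exact Or.inr (Or.inl h2)
      · exact Or.inr (Or.inr ⟨hw, h1, h2⟩)

theorem order [DecidableEq V] {a b : V} (P : G.Walk a b) (u v : V) (hu : u ∈ P.support)
    (hv : v ∈ P.support) :
    u ∈ (P.takeUntil v hv).support ∨ v ∈ (P.takeUntil u hu).support := by
  induction P with
  | nil =>
    left
    simp at hu hv
    subst hu
    exact SimpleGraph.Walk.start_mem_support _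
  | @cons a c b hac P ih =>
    by_cases h1 : v = a
    · right
      subst h1
      exact SimpleGraph.Walk.start_mem_support _
    · by_cases h2 : u = a
      · left
        subst h2
        exact SimpleGraph.Walk.start_mem_support _
      · have hu' : u ∈ P.support := by
          have h := hu
          rw [SimpleGraph.Walk.support_cons] at h
          exact (List.mem_cons.1 h).resolve_left h2
        have hv' : v ∈ P.support := by
          have h := hv
          rw [SimpleGraph.Walk.support_cons] at h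
          exact (List.mem_cons.1 h).resolve_left h1
        rw [SimpleGraph.Walk.takeUntil_cons hv' (Ne.symm h1) hac,
          SimpleGraph.Walk.takeUntil_cons hu' (Ne.symm h2) hac, SimpleGraph.Walk.support_cons,
          SimpleGraph.Walk.support_cons]
        exact (ih hu' hv').imp (fun h => List.mem_cons_of_mem _ h)
          (fun h => List.mem_cons_of_mem _ h)

end ARCM

open ARCM in
theorem specARC : SpecARC := by
  classical
  intro V G a b P u v hP hab hu hv huv
  by_cases h : u ∈ (P.takeUntil v hv).support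
  · obtain ⟨J, K, h1, h2, h3⟩ := key a b P hP hab u v hv h huv
    exact ⟨u, v, J, K, Or.inl ⟨rfl, rfl⟩, h1, h2, h3⟩
  · -- then `v` is before `u`
    have hvu : v ∈ (P.takeUntil u hu).support := (order P u v hu hv).resolve_left h
    obtain ⟨J, K, h1, h2, h3, h4, h5, h6, h7⟩ := key a b P hP hab v u hu hvu huv.symm
    refine ⟨v, u, J, K, Or.inr ⟨rfl, rfl⟩, h1, h2, ?_, ?_, h5, h6, h7⟩
    · intro w hw
      obtain ⟨q1, q2, q3, q4, q5⟩ := h3 w hw
      exact ⟨q1, q2, q3, q5, q4⟩
    · intro w hw
      obtain ⟨q1, q2, q3, q4, q5⟩ := h4 w hw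
      exact ⟨q1, q2, q3, q5, q4⟩

end Pool.Agent.Lib.MPc67b86
end

section
/-!
# MP_c67b86_co: module CAP (the attached set is not a single vertex)
-/
set_option autoImplicit false

namespace Pool.Agent.Lib.MPc67b86

namespace CAPM

variable {V : Type}

theorem perm2 (a b c d : Fin 4) (h : a ≠ b) (h' : c ≠ d) :
    ∃ σ : Equiv.Perm (Fin 4), σ a = c ∧ σ b = d := by
  have h1 : Equiv.swap a c b ≠ c := by
    intro h2
    have h3 : Equiv.swap a c b = Equiv.swap a c a := by rw [h2, Equiv.swap_apply_left]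
    exact h ((Equiv.swap a c).injective h3).symm
  refine ⟨Equiv.swap (Equiv.swap a c b) d * Equiv.swap a c, ?_, ?_⟩
  · rw [Equiv.Perm.mul_apply, Equiv.swap_apply_left, Equiv.swap_apply_of_ne_of_ne h1.symm h']
  · rw [Equiv.Perm.mul_apply, Equiv.swap_apply_left]

theorem mono {G : SimpleGraph V} {A B : Set V} {f : V → Fin 4} (h : IsCol G A f) (hB : B ⊆ A) :
    IsCol G B f := fun u hu v hv huv => h u (hB hu) v (hB hv) huv

theorem glue {G : SimpleGraph V} {x y z : V} {C K : Set V} {p q : V} (hA : Att G x y z C K p q)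
    {f h : V → Fin 4} (hf : IsCol G {v | v ∈ C ∪ {x, y, z} ∧ v ∉ K} f)
    (hh : IsCol G (K \ {x} ∪ {x, p, q}) h) {c : Fin 4} {σ : Equiv.Perm (Fin 4)}
    (hx : σ (h x) = c) (hp : σ (h p) = f p) (hq : σ (h q) = f q) :
    ∃ g, IsCol G (C ∪ {x, y, z}) g ∧ (∀ v, v ∉ K → g v = f v) ∧ g x = c := by
  classical
  have hKB : ∀ u ∈ K, u ∈ K \ {x} ∪ ({x, p, q} : Set V) := by
    intro u hu
    by_cases hux : u = x
    · exact Or.inr (Or.inl hux)
    · exact Or.inl ⟨hu, hux⟩
  have key : ∀ u ∈ K, ∀ v ∈ C ∪ ({x, y, z} : Set V), v ∉ K → G.Adj u v → σ (h u) ≠ f v := by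
    intro u hu v hv hvK huv
    rcases hA.nb u hu v hv huv with h1 | h1 | h1
    · exact absurd h1 hvK
    · subst h1
      rw [← hp]
      exact fun h2 => hh u (hKB u hu) v (Or.inr (Or.inr (Or.inl rfl))) huv (σ.injective h2)
    · subst h1
      rw [← hq]
      exact fun h2 => hh u (hKB u hu) v (Or.inr (Or.inr (Or.inr rfl))) huv (σ.injective h2)
  refine ⟨fun v => if v ∈ K then σ (h v) else f v, ?_, fun v hv => if_neg hv, ?_⟩
  · intro u hu v hv huv
    by_cases huK : u ∈ K <;> by_cases hvK : v ∈ K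
    · simp only [if_pos huK, if_pos hvK]
      exact fun h2 => hh u (hKB u huK) v (hKB v hvK) huv (σ.injective h2)
    · simp only [if_pos huK, if_neg hvK]
      exact key u huK v hv hvK huv
    · simp only [if_neg huK, if_pos hvK]
      exact (key v hvK u hu huK huv.symm).symm
    · simp only [if_neg huK, if_neg hvK]
      exact hf u ⟨hu, huK⟩ v ⟨hv, hvK⟩ huv
  · show (if x ∈ K then σ (h x) else f x) = c
    rw [if_pos hA.xK, hx]

end CAPM

open CAPM

theorem specCAP : SpecCAP := by
  classical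
  intro V _ G x y z C hc K p q hA hKx
  have hxC : x ∉ C := fun h => hc.sep.dis x h (by simp)
  have hyC : y ∉ C := fun h => hc.sep.dis y h (by simp)
  have hzC : z ∉ C := fun h => hc.sep.dis z h (by simp)
  have hyK : y ∉ K := fun h => hyC (hA.KC y h hc.xy.symm)
  have hzK : z ∉ K := fun h => hzC (hA.KC z h hc.xz.symm)
  have hxp : x ≠ p := fun h => hA.pK (h ▸ hA.xK)
  have hxq : x ≠ q := fun h => hA.qK (h ▸ hA.xK)
  have hMC : K \ {x} ⊆ C := fun u hu => hA.KC u hu.1 hu.2
  have hMne : (K \ {x}).Nonempty := by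
    by_contra hcon
    rw [Set.not_nonempty_iff_eq_empty] at hcon
    apply hKx
    ext u
    constructor
    · intro hu
      by_contra hux
      have : u ∈ K \ {x} := ⟨hu, hux⟩
      rw [hcon] at this
      exact this
    · rintro rfl
      exact hA.xK
  have hout : ∃ v, v ∉ ({x, p, q} : Set V) ∧ v ∉ K \ {x} := by
    by_cases hy : y = p ∨ y = q
    · by_cases hz : z = p ∨ z = q
      · obtain ⟨c, hcC, hcK⟩ := hA.pr
        refine ⟨c, ?_, fun h => hcK h.1⟩
        have hcy : c ≠ y := fun h => hyC (h ▸ hcC)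
        have hcz : c ≠ z := fun h => hzC (h ▸ hcC)
        have hcx : c ≠ x := fun h => hxC (h ▸ hcC)
        rintro (h | h | h)
        · exact hcx h
        · rcases hy with hy | hy
          · exact hcy (h.trans hy.symm)
          · rcases hz with hz | hz
            · exact hcz (h.trans hz.symm)
            · exact hc.yz (hy.trans hz.symm)
        · rcases hy with hy | hy
          · rcases hz with hz | hz
            · exact hc.yz (hy.trans hz.symm)
            · exact hcz (h.trans hz.symm)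
          · exact hcy (h.trans hy.symm)
      · refine ⟨z, ?_, fun h => hzK h.1⟩
        rintro (h | h)
        · exact hc.xz h.symm
        · exact hz h
    · refine ⟨y, ?_, fun h => hyK h.1⟩
      rintro (h | h)
      · exact hc.xy h.symm
      · exact hy h
  have hsep : Sep G {x, p, q} (K \ {x}) := by
    refine ⟨hMne, ?_, hout, ?_⟩
    · rintro v ⟨hv, hvx⟩ (h | h | h)
      · exact hvx h
      · exact hA.pK (h ▸ hv)
      · exact hA.qK (h ▸ hv)
    · rintro u ⟨hu, hux⟩ v huv
      have hvA : v ∈ C ∪ ({x, y, z} : Set V) := hc.sep.nb u (hA.KC u hu hux) v huv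
      rcases hA.nb u hu v hvA huv with h | h
      · by_cases hvx : v = x
        · exact Or.inr (Or.inl hvx)
        · exact Or.inl ⟨h, hvx⟩
      · exact Or.inr (Or.inr h)
  have hlt : (K \ {x}).ncard < C.ncard := by
    apply Set.ncard_lt_ncard _ (Set.toFinite C)
    obtain ⟨c, hcC, hcK⟩ := hA.pr
    exact ⟨hMC, fun h => hcK (h hcC).1⟩
  obtain ⟨-, -, -, -, ⟨h1, hh1, e1, n1⟩, ⟨h2, hh2, e2, n2⟩, ⟨h3, hh3, e3, n3⟩⟩ :=
    hc.small x p q (K \ {x}) hxp hxq hA.pq hsep hlt
  -- (E1)
  have E1 : ∀ (f : V → Fin 4), IsCol G {v | v ∈ C ∪ {x, y, z} ∧ v ∉ K} f → ∀ c : Fin 4,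
      (f p = f q → c ≠ f p) → (f p ≠ f q → c = f p ∨ c = f q) →
      ∃ g, IsCol G (C ∪ {x, y, z}) g ∧ (∀ v, v ∉ K → g v = f v) ∧ g x = c := by
    intro f hf c hc1 hc2
    by_cases hpq : f p = f q
    · obtain ⟨σ, s1, s2⟩ := perm2 (h3 p) (h3 x) (f p) c n3 (hc1 hpq).symm
      exact glue hA hf hh3 s2 s1 (by rw [← e3, s1, hpq])
    · rcases hc2 hpq with rfl | rfl
      · obtain ⟨σ, s1, s2⟩ := perm2 (h1 p) (h1 q) (f p) (f q) (by rw [← e1]; exact n1) hpq
        exact glue hA hf hh1 (by rw [e1, s1]) s1 s2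
      · obtain ⟨σ, s1, s2⟩ := perm2 (h2 p) (h2 q) (f p) (f q) (by rw [← e2]; exact n2.symm) hpq
        exact glue hA hf hh2 (by rw [e2, s2]) s1 s2
  -- colours of y, z are not possible
  have E0 : ∀ (f : V → Fin 4), IsCol G {v | v ∈ C ∪ {x, y, z} ∧ v ∉ K} f → f y ≠ f z →
      ∀ c : Fin 4, (f p = f q → c ≠ f p) → (f p ≠ f q → c = f p ∨ c = f q) →
      c ≠ f y ∧ c ≠ f z := by
    intro f hf hyz c hc1 hc2
    obtain ⟨g, hg, hgK, hgx⟩ := E1 f hf c hc1 hc2
    constructor
    · intro h
      refine hc.sxy ⟨g, hg, ?_, ?_⟩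
      · rw [hgx, hgK y hyK, h]
      · rw [hgx, hgK z hzK, h]
        exact hyz
    · intro h
      refine hc.sxz ⟨g, hg, ?_, ?_⟩
      · rw [hgx, hgK z hzK, h]
      · rw [hgx, hgK y hyK, h]
        exact hyz.symm
  have hExt : Ext G x y z C K p q := by
    intro f hf hyz
    have hpq : f p ≠ f q := by
      intro hpq
      by_cases h : f y = f p
      · have := (E0 f hf hyz (f z) (fun _ h' => hyz (h.trans h'.symm)) (fun h' => absurd hpq h')).2
        exact this rfl
      · exact (E0 f hf hyz (f y) (fun _ => h) (fun h' => absurd hpq h')).1 rfl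
    obtain ⟨a1, a2⟩ := E0 f hf hyz (f p) (fun h => absurd h hpq) (fun _ => Or.inl rfl)
    obtain ⟨b1, b2⟩ := E0 f hf hyz (f q) (fun h => absurd h hpq) (fun _ => Or.inr rfl)
    exact ⟨hpq, a1, a2, b1, b2⟩
  have hsub : {v | v ∈ C ∪ ({x, y, z} : Set V) ∧ v ∉ K} ⊆ C ∪ {x, y, z} := fun v hv => hv.1
  obtain ⟨f0, hf0, -, -, hyz0⟩ := hc.r
  obtain ⟨-, p1, p2, q1, q2⟩ := hExt f0 (mono hf0 hsub) hyz0
  refine ⟨?_, ?_, ?_, hExt⟩
  · rcases hA.pA with h | h | h
    · exact h
    · exact absurd (by rw [h]) p1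
    · exact absurd (by rw [h]) p2
  · rcases hA.qA with h | h | h
    · exact h
    · exact absurd (by rw [h]) q1
    · exact absurd (by rw [h]) q2
  · intro f hf hxy hxz hyz
    obtain ⟨hpq, a1, a2, b1, b2⟩ := hExt f (mono hf hsub) hyz
    by_cases h : f p = f x
    · obtain ⟨g, hg, hgK, hgx⟩ := E1 f (mono hf hsub) (f q) (fun h' => absurd h' hpq)
        (fun _ => Or.inr rfl)
      refine ⟨g, hg, hgK, ?_, ?_, ?_⟩
      · rw [hgx, ← h]
        exact hpq.symm
      · rw [hgx]
        exact b1
      · rw [hgx]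
        exact b2
    · obtain ⟨g, hg, hgK, hgx⟩ := E1 f (mono hf hsub) (f p) (fun h' => absurd h' hpq)
        (fun _ => Or.inl rfl)
      refine ⟨g, hg, hgK, ?_, ?_, ?_⟩
      · rw [hgx]
        exact h
      · rw [hgx]
        exact a1
      · rw [hgx]
        exact a2

end Pool.Agent.Lib.MPc67b86
end

section
/-!
# MP_c67b86_co: module CAT (there is a set attached to two vertices)
-/
set_option autoImplicit false

namespace Pool.Agent.Lib.MPc67b86

namespace CATM

variable {V : Type}

theorem res_mono {G H : SimpleGraph V} (h : G ≤ H) (A : Set V) : res G A ≤ res H A :=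
  fun _ _ hu => ⟨h hu.1, hu.2.1, hu.2.2⟩

theorem res_le (G : SimpleGraph V) (A : Set V) : res G A ≤ G := fun _ _ hu => hu.1

theorem exists_adj {H : SimpleGraph V} {x u : V} (h : H.Reachable x u) (hne : u ≠ x) :
    ∃ w, H.Adj u w := by
  obtain ⟨p⟩ := h.symm
  cases p with
  | nil => exact absurd rfl hne
  | cons hadj _ => exact ⟨_, hadj⟩

theorem inner {G : SimpleGraph V} {y z : V} (P : G.Walk y z) (hyz : y ≠ z) (hn : ¬ G.Adj y z) :
    ∃ w ∈ P.support, w ≠ y ∧ w ≠ z := by
  cases P with
  | nil => exact absurd rfl hyz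
  | @cons _ w _ hadj p =>
    refine ⟨w, ?_, hadj.ne', ?_⟩
    · rw [SimpleGraph.Walk.support_cons]
      exact List.mem_cons_of_mem _ p.start_mem_support
    · rintro rfl
      exact hn hadj

end CATM

open CATM

theorem specCAT (hFAN : SpecFAN) (hCYC : SpecCYC) (hTRG : SpecTRG) : SpecCAT := by
  classical
  intro V _ G x y z C hc
  obtain ⟨P, Q, hP, hQ, hPC, hQC, hPQ⟩ := hCYC V G x y z C hc
  set A : Set V := C ∪ {x, y, z} with hA
  have hxC : x ∉ C := fun h => hc.sep.dis x h (by simp)
  have hyC : y ∉ C := fun h => hc.sep.dis y h (by simp)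
  have hzC : z ∉ C := fun h => hc.sep.dis z h (by simp)
  have hxA : x ∈ A := by simp [hA]
  have hCA : ∀ v ∈ C, v ∈ A := fun v hv => Or.inl hv
  set Z : Set V := {w | w ∈ P.support ∨ w ∈ Q.support} with hZ
  have hZC : ∀ w ∈ Z, w ∈ C ∪ {y, z} := by
    rintro w (hw | hw)
    · exact hPC w hw
    · exact hQC w hw
  have hyz_x : ∀ w ∈ C ∪ ({y, z} : Set V), w ≠ x := by
    rintro w (hw | hw) rfl
    · exact hxC hw
    · rcases hw with hw | hw
      · exact hc.xy hw
      · exact hc.xz hw
  have hyzA : ∀ w ∈ C ∪ ({y, z} : Set V), w ∈ A := by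
    rintro w (hw | hw | hw)
    · exact hCA w hw
    · exact Or.inr (Or.inr (Or.inl hw))
    · exact Or.inr (Or.inr (Or.inr hw))
  have hxZ : x ∉ Z := fun h => hyz_x x (hZC x h) rfl
  have hyZ : y ∈ Z := Or.inl P.start_mem_support
  have hzZ : z ∈ Z := Or.inl P.end_mem_support
  -- a set separating x from Z
  obtain ⟨T, hxT, hT3, hTA, hTZ⟩ : ∃ T : Set V, x ∉ T ∧ T.ncard < 3 ∧ T ⊆ A ∧
      ∀ b ∈ Z, b ∉ T → ¬ (res (res G A) Tᶜ).Reachable x b := by
    by_contra hcon
    push Not at hcon
    obtain ⟨b, I, hbi, hbZ, hIZ, hxI, hII, hL, hw⟩ := hFAN V (res G A) x Z 3 hxZ (by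
      intro T hxT hT
      have hT' : (T ∩ A).ncard < 3 := lt_of_le_of_lt (Set.ncard_le_ncard Set.inter_subset_left) hT
      obtain ⟨b, hb, hbT, hr⟩ := hcon (T ∩ A) (fun h => hxT h.1) hT' Set.inter_subset_right
      refine ⟨b, hb, fun h => hbT ⟨h, hyzA b (hZC b hb)⟩, ?_⟩
      refine hr.mono ?_
      intro u v huv
      exact ⟨huv.1, fun h => huv.2.1 ⟨h, huv.1.2.1⟩, fun h => huv.2.2 ⟨h, huv.1.2.2⟩⟩)
    refine hTRG V G x y z C hc P Q hP hQ hPC hQC hPQ b I hbi hbZ ?_ ?_ hII ?_
    · intro i u hu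
      obtain ⟨w, hw1⟩ := hw i u hu
      have huZ : u ∉ Z := fun h => (Set.disjoint_left.1 (hIZ i)) hu h
      rcases hw1.2.1 with h | h | h | h
      · exact h
      · exact absurd (h ▸ hu) (hxI i)
      · exact absurd (h ▸ hyZ : u ∈ Z) huZ
      · exact absurd (h ▸ hzZ : u ∈ Z) huZ
    · intro i v hv
      have hvZ : v ∉ Z := fun h => (Set.disjoint_left.1 (hIZ i)) hv h
      exact ⟨fun h => hvZ (Or.inl h), fun h => hvZ (Or.inr h)⟩
    · intro i
      exact (hL i).mono (res_mono (res_le G A) _)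
  set H := res (res G A) Tᶜ with hH
  set K : Set V := {v | H.Reachable x v} with hK
  have hxK : x ∈ K := SimpleGraph.Reachable.refl x
  have hKT : ∀ u ∈ K, u ∈ A ∧ u ∉ T := by
    intro u hu
    by_cases hux : u = x
    · subst hux
      exact ⟨hxA, hxT⟩
    · obtain ⟨w, hw⟩ := exists_adj hu hux
      exact ⟨hw.1.2.1, hw.2.1⟩
  have hKZ : ∀ b ∈ Z, b ∉ K := fun b hb hbK => hTZ b hb (hKT b hbK).2 hbK
  have hKC : ∀ u ∈ K, u ≠ x → u ∈ C := by
    intro u hu hux
    rcases (hKT u hu).1 with h | h | h | h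
    · exact h
    · exact absurd h hux
    · exact absurd (h ▸ hyZ : u ∈ Z) (fun h' => hKZ u h' hu)
    · exact absurd (h ▸ hzZ : u ∈ Z) (fun h' => hKZ u h' hu)
  have hnb : ∀ u ∈ K, ∀ v ∈ A, G.Adj u v → v ∈ K ∨ v ∈ T := by
    intro u hu v hv huv
    by_cases hvT : v ∈ T
    · exact Or.inr hvT
    · left
      have : H.Adj u v := ⟨⟨huv, (hKT u hu).1, hv⟩, (hKT u hu).2, hvT⟩
      exact SimpleGraph.Reachable.trans hu this.reachable
  -- T has two elements
  have hT2 : T.ncard = 2 := by
    by_contra hne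
    have hT1 : T.ncard ≤ 1 := by omega
    have h1 : ∀ a ∈ T, ∀ b ∈ T, a = b := fun a ha b hb => (Set.ncard_le_one (Set.toFinite T)).1 hT1 a ha b hb
    obtain ⟨a, ha, b, hb, hab, hxa, hxb⟩ := hc.two x (Or.inl rfl)
    obtain ⟨c0, hc0C, hc0T, hxc0⟩ : ∃ c0 ∈ C, c0 ∉ T ∧ G.Adj x c0 := by
      by_cases haT : a ∈ T
      · exact ⟨b, hb, fun hbT => hab (h1 a haT b hbT), hxb⟩
      · exact ⟨a, ha, haT, hxa⟩
    have hc0K : c0 ∈ K := by
      rcases hnb x hxK c0 (hCA c0 hc0C) hxc0 with h | h
      · exact h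
      · exact absurd h hc0T
    have hcx : c0 ≠ x := by
      rintro rfl
      exact hxC hc0C
    refine hc.no2 (insert x T) (K \ {x}) ?_ ⟨⟨c0, hc0K, hcx⟩, ?_, ?_, ?_⟩
    · exact (Set.ncard_insert_le x T).trans (by omega)
    · rintro v ⟨hv, hvx⟩ (h | h)
      · exact hvx h
      · exact (hKT v hv).2 h
    · by_cases hyT : y ∈ T
      · refine ⟨z, ?_, fun h => hKZ z hzZ h.1⟩
        rintro (h | h)
        · exact hc.xz h.symm
        · exact hc.yz (h1 y hyT z h)
      · refine ⟨y, ?_, fun h => hKZ y hyZ h.1⟩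
        rintro (h | h)
        · exact hc.xy h.symm
        · exact hyT h
    · rintro u ⟨hu, hux⟩ v huv
      have huC := hKC u hu hux
      have hvA : v ∈ A := hc.sep.nb u huC v huv
      by_cases hvx : v = x
      · exact Or.inr (Or.inl hvx)
      rcases hnb u hu v hvA huv with h | h
      · exact Or.inl ⟨h, hvx⟩
      · exact Or.inr (Or.inr h)
  obtain ⟨p, q, hpq, hTpq⟩ := Set.ncard_eq_two.1 hT2
  have hpT : p ∈ T := by simp [hTpq]
  have hqT : q ∈ T := by simp [hTpq]
  have hTA' : ∀ t ∈ T, t ∈ C ∪ {y, z} := by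
    intro t ht
    rcases hTA ht with h | h | h | h
    · exact Or.inl h
    · exact absurd (h ▸ ht) hxT
    · exact Or.inr (Or.inl h)
    · exact Or.inr (Or.inr h)
  refine ⟨K, p, q, hxK, hKC, hpq, fun h => (hKT p h).2 hpT, fun h => (hKT q h).2 hqT, hTA' p hpT,
    hTA' q hqT, ?_, ?_⟩
  · intro u hu v hv huv
    rcases hnb u hu v hv huv with h | h
    · exact Or.inl h
    · rw [hTpq] at h
      exact Or.inr h
  · rcases hTA' p hpT with h | h
    · exact ⟨p, h, fun h' => (hKT p h').2 hpT⟩
    rcases hTA' q hqT with h' | h'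
    · exact ⟨q, h', fun h'' => (hKT q h'').2 hqT⟩
    obtain ⟨w, hw, hwy, hwz⟩ := inner P hc.yz hc.nyz
    refine ⟨w, ?_, hKZ w (Or.inl hw)⟩
    rcases hPC w hw with h2 | h2 | h2
    · exact h2
    · exact absurd h2 hwy
    · exact absurd h2 hwz

end Pool.Agent.Lib.MPc67b86
end

section
set_option autoImplicit false

namespace Pool.Agent.Lib.MPc67b86

namespace CNTM

variable {V : Type}

theorem first_step {G : SimpleGraph V} {x y : V} {I : Set V} (hxy : x ≠ y)
    (h : Lk G x y I) (hn : ¬ G.Adj x y) : ∃ a ∈ I, G.Adj x a := by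
  obtain ⟨p⟩ := h
  cases p with
  | nil => exact absurd rfl hxy
  | cons h p =>
    rename_i a
    obtain ⟨h1, _, h3⟩ := h
    rcases h3 with h3 | h3 | h3
    · exact absurd h3.symm h1.ne
    · exact absurd (h3 ▸ h1) hn
    · exact ⟨_, h3, h1⟩

theorem lk_symm {G : SimpleGraph V} {x y : V} {I : Set V} (h : Lk G x y I) : Lk G y x I := by
  unfold Lk at h ⊢
  rw [Set.insert_comm]
  exact h.symm

end CNTM

/-- CNT -/
theorem specCNT : SpecCNT := by
  intro V _ G x y I hxy hx hy hlk hn
  obtain ⟨a, ha, hxa⟩ := CNTM.first_step hxy hlk hn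
  obtain ⟨b, hb, hyb⟩ := CNTM.first_step hxy.symm (CNTM.lk_symm hlk) (fun h => hn h.symm)
  have hne : s(x, a) ≠ s(y, b) := by
    intro h
    rcases Sym2.eq_iff.1 h with h | h
    · exact hxy h.1
    · exact hx (h.1 ▸ hb)
  have hsub : (lop G I x y).edgeSet ⊆ insert s(x, y) (G.edgeSet \ {s(x, a), s(y, b)}) := by
    intro e
    induction e using Sym2.ind with
    | _ u v =>
      intro he
      obtain ⟨_, h | h | h⟩ := he
      · right
        refine ⟨h.1, ?_⟩
        simp only [Set.mem_insert_iff, Set.mem_singleton_iff, not_or]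
        constructor
        · intro h'
          rcases Sym2.eq_iff.1 h' with h' | h'
          · exact h.2.2 (h'.2 ▸ ha)
          · exact h.2.1 (h'.1 ▸ ha)
        · intro h'
          rcases Sym2.eq_iff.1 h' with h' | h'
          · exact h.2.2 (h'.2 ▸ hb)
          · exact h.2.1 (h'.1 ▸ hb)
      · left
        obtain ⟨h1, h2⟩ : u = x ∧ v = y := h
        rw [h1, h2]
      · left
        obtain ⟨h1, h2⟩ : u = y ∧ v = x := h
        rw [h1, h2, Sym2.eq_swap]
  have hpair : ({s(x, a), s(y, b)} : Set (Sym2 V)) ⊆ G.edgeSet := by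
    intro e he
    rcases he with rfl | rfl
    · exact hxa
    · exact hyb
  have h1 := Set.ncard_le_ncard hsub (Set.toFinite _)
  have h2 := Set.ncard_insert_le s(x, y) (G.edgeSet \ {s(x, a), s(y, b)})
  have h3 : (G.edgeSet \ {s(x, a), s(y, b)}).ncard + ({s(x, a), s(y, b)} : Set (Sym2 V)).ncard =
      G.edgeSet.ncard := Set.ncard_sdiff_add_ncard_of_subset hpair
  rw [Set.ncard_pair hne] at h3
  omega

end Pool.Agent.Lib.MPc67b86
end

section
/-!
# MP_c67b86_co: COR (a separation of order at most three gives a core)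
-/
set_option autoImplicit false

namespace Pool.Agent.Lib.MPc67b86

namespace CORM

variable {V : Type}

/-- the data of a separation which accepts different colours -/
def Cand (G : SimpleGraph V) (x y z : V) (C : Set V) : Prop :=
  x ≠ y ∧ x ≠ z ∧ y ≠ z ∧ Sep G {x, y, z} C ∧ AccR G (C ∪ {x, y, z}) x y z

theorem exists_min (G : SimpleGraph V) (h : ∃ x y z C, Cand G x y z C) :
    ∃ x y z C, Cand G x y z C ∧ ∀ x' y' z' C', Cand G x' y' z' C' → C.ncard ≤ C'.ncard := by
  classical
  have h1 : ∃ n, ∃ x y z C, Cand G x y z C ∧ C.ncard = n := by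
    obtain ⟨x, y, z, C, hC⟩ := h
    exact ⟨_, x, y, z, C, hC, rfl⟩
  obtain ⟨x, y, z, C, hC, hn⟩ := Nat.find_spec h1
  refine ⟨x, y, z, C, hC, fun x' y' z' C' hC' => ?_⟩
  rw [hn]
  exact Nat.find_min' h1 ⟨x', y', z', C', hC', rfl⟩

theorem notAdj {G : SimpleGraph V} {A : Set V} {x y z : V} (h : AccS G A x y z) (hx : x ∈ A)
    (hy : y ∈ A) : ¬ G.Adj x y := by
  obtain ⟨f, hf, hxy, -⟩ := h
  exact fun h' => hf x hx y hy h' hxy

end CORM

open CORM in
theorem specCOR (hRED : SpecRED) (hSP2 : SpecSP2) (hOPP : SpecOPP) (hGL3 : SpecGL3)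
    (hTYP : SpecTYP) (hTRI : SpecTRI) : SpecCOR := by
  intro V _ G hG S C hS hSC
  have hno2 : ∀ S M : Set V, S.ncard ≤ 2 → ¬ Sep G S M := hSP2 V G hG
  have hS3 : S.ncard = 3 := by
    by_contra h
    exact hno2 S C (by omega) hSC
  obtain ⟨x, y, z, hxy, hxz, hyz, rfl⟩ := Set.ncard_eq_three.1 hS3
  have hex : ∃ x y z C, Cand G x y z C := by
    rcases (hTYP V G hG x y z C hxy hxz hyz hSC).1 with h | h
    · exact ⟨x, y, z, C, hxy, hxz, hyz, hSC, h⟩
    · obtain ⟨h1, h2, -⟩ := hOPP V G {x, y, z} C hSC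
      refine ⟨x, y, z, _, hxy, hxz, hyz, h1, ?_⟩
      rw [h2]
      exact h
  clear hxy hxz hyz hSC hS3 hS
  obtain ⟨x, y, z, C, ⟨hxy, hxz, hyz, hSC, hR⟩, hmin⟩ := exists_min G hex
  obtain ⟨t1, t2, t3, t4⟩ := hTRI V G hG x y z C hxy hxz hyz hSC hR
  obtain ⟨g1, g2, g3, g4⟩ := hGL3 V G hG x y z C hxy hxz hyz hSC
  have hx : x ∈ Cᶜ := fun h => hSC.dis x h (by simp)
  have hy : y ∈ Cᶜ := fun h => hSC.dis y h (by simp)
  have hz : z ∈ Cᶜ := fun h => hSC.dis z h (by simp)
  refine ⟨x, y, z, C, ?_⟩
  exact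
    { xy := hxy
      xz := hxz
      yz := hyz
      sep := hSC
      nxy := notAdj t1 hx hy
      nxz := notAdj t2 hx hz
      nyz := notAdj t3 hy hz
      r := hR
      sxy := fun h => g2 ⟨h, t1⟩
      sxz := fun h => g3 ⟨h, t2⟩
      syz := fun h => g4 ⟨h, t3⟩
      two := t4
      tri := by
        intro I J K hI hJ hK hIJ hIK hJK lI lJ lK
        obtain ⟨a, ha⟩ := hSC.ne
        obtain ⟨f, hf, hfne⟩ := hRED V G hG Cᶜ ⟨a, fun h => h ha⟩ 3 ![x, x, y] ![y, z, z]
          ![I, J, K]
          (by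
            intro j
            fin_cases j
            · exact hx
            · exact hx
            · exact hy)
          (by
            intro j
            fin_cases j
            · exact hy
            · exact hz
            · exact hz)
          (by
            intro j
            fin_cases j
            · exact hxy
            · exact hxz
            · exact hyz)
          (by
            have hd : ∀ I : Set V, I ⊆ C → Disjoint I Cᶜ := fun I hI =>
              Set.disjoint_compl_right_iff_subset.2 hI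
            intro j
            fin_cases j
            · exact hd _ hI
            · exact hd _ hJ
            · exact hd _ hK)
          (by
            intro j k
            fin_cases j <;> fin_cases k <;> intro h
            · exact absurd rfl h
            · exact hIJ
            · exact hIK
            · exact hIJ.symm
            · exact absurd rfl h
            · exact hJK
            · exact hIK.symm
            · exact hJK.symm
            · exact absurd rfl h)
          (by
            intro j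
            fin_cases j
            · exact lI
            · exact lJ
            · exact lK)
        exact g1 ⟨hR, f, hf, hfne 0, hfne 1, hfne 2⟩
      small := by
        intro u v w M huv huw hvw hM hlt
        have h1 : ¬ AccR G (M ∪ {u, v, w}) u v w := fun h =>
          absurd (hmin u v w M ⟨huv, huw, hvw, hM, h⟩) (not_le.2 hlt)
        have h2 : AccR G Mᶜ u v w :=
          ((hTYP V G hG u v w M huv huw hvw hM).1).resolve_left h1
        obtain ⟨o1, o2, o3⟩ := hOPP V G {u, v, w} M hM
        obtain ⟨s1, s2, s3, -⟩ := hTRI V G hG u v w _ huv huw hvw o1 (by rw [o2]; exact h2)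
        rw [o3] at s1 s2 s3
        have hu : u ∈ M ∪ {u, v, w} := Or.inr (by simp)
        have hv : v ∈ M ∪ {u, v, w} := Or.inr (by simp)
        have hw : w ∈ M ∪ {u, v, w} := Or.inr (by simp)
        exact ⟨notAdj s1 hu hv, notAdj s2 hu hw, notAdj s3 hv hw, h1, s1, s2, s3⟩
      no2 := hno2 }

end Pool.Agent.Lib.MPc67b86
end

section
/-!
# CSW: a core is symmetric in `x`, `y`, `z`
-/
set_option autoImplicit false

namespace Pool.Agent.Lib.MPc67b86

namespace CSWM

variable {V : Type}

theorem lk_comm {G : SimpleGraph V} {x y : V} {I : Set V} (h : Lk G x y I) : Lk G y x I := by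
  unfold Lk at h ⊢
  rw [Set.insert_comm]
  exact h.symm

theorem accS_comm {G : SimpleGraph V} {A : Set V} {x y z : V} (h : AccS G A x y z) :
    AccS G A y x z := by
  obtain ⟨f, hf, h1, h2⟩ := h
  exact ⟨f, hf, h1.symm, by rw [← h1]; exact h2⟩

end CSWM

open CSWM in
/-- **CSW**. -/
theorem specCSW : SpecCSW := by
  intro V G x y z C h
  have e1 : ({y, x, z} : Set V) = {x, y, z} := Set.insert_comm y x {z}
  have e2 : ({x, z, y} : Set V) = {x, y, z} := by rw [Set.pair_comm z y]
  constructor
  · exact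
      { xy := h.xy.symm
        xz := h.yz
        yz := h.xz
        sep := by rw [e1]; exact h.sep
        nxy := fun k => h.nxy k.symm
        nxz := h.nyz
        nyz := h.nxz
        r := by
          rw [e1]
          obtain ⟨f, hf, h1, h2, h3⟩ := h.r
          exact ⟨f, hf, h1.symm, h3, h2⟩
        sxy := by rw [e1]; exact fun k => h.sxy (accS_comm k)
        sxz := by rw [e1]; exact h.syz
        syz := by rw [e1]; exact h.sxz
        two := by
          rintro s (hs | hs | hs)
          · exact h.two s (Or.inr (Or.inl hs))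
          · exact h.two s (Or.inl hs)
          · exact h.two s (Or.inr (Or.inr hs))
        tri := by
          intro I J K hI hJ hK hIJ hIK hJK h1 h2 h3
          exact h.tri I K J hI hK hJ hIK hIJ hJK.symm (lk_comm h1) h3 h2
        small := h.small
        no2 := h.no2 }
  · exact
      { xy := h.xz
        xz := h.xy
        yz := h.yz.symm
        sep := by rw [e2]; exact h.sep
        nxy := h.nxz
        nxz := h.nxy
        nyz := fun k => h.nyz k.symm
        r := by
          rw [e2]
          obtain ⟨f, hf, h1, h2, h3⟩ := h.r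
          exact ⟨f, hf, h2, h1, h3.symm⟩
        sxy := by rw [e2]; exact h.sxz
        sxz := by rw [e2]; exact h.sxy
        syz := by rw [e2]; exact fun k => h.syz (accS_comm k)
        two := by
          rintro s (hs | hs | hs)
          · exact h.two s (Or.inl hs)
          · exact h.two s (Or.inr (Or.inr hs))
          · exact h.two s (Or.inr (Or.inl hs))
        tri := by
          intro I J K hI hJ hK hIJ hIK hJK h1 h2 h3
          exact h.tri J I K hJ hI hK hIJ.symm hJK hIK h2 h1 (lk_comm h3)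
        small := h.small
        no2 := h.no2 }

end Pool.Agent.Lib.MPc67b86
end

section
/-!
# CYC: two disjoint paths from `y` to `z` in the side without `x`
-/
set_option autoImplicit false

namespace Pool.Agent.Lib.MPc67b86

namespace CYCM

variable {V : Type} {G : SimpleGraph V}

/-- A vertex different from the start and reachable in `res G A` is in `A`. -/
theorem mem_of_reach {A : Set V} {v u : V} (hne : u ≠ v) (h : (res G A).Reachable v u) :
    u ∈ A := by
  obtain ⟨w⟩ := h.symm
  cases w with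
  | nil => exact absurd rfl hne
  | cons hadj _ => exact hadj.2.1

theorem res_le (G : SimpleGraph V) (A : Set V) : res G A ≤ G := fun _ _ h => h.1

/-- The vertices of a walk of `res G A` which starts in `A` are in `A`. -/
theorem walk_mem {A : Set V} {a b : V} (P : (res G A).Walk a b) (ha : a ∈ A) :
    ∀ v ∈ P.support, v ∈ A := by
  induction P with
  | nil =>
    intro v hv
    rw [SimpleGraph.Walk.support_nil, List.mem_singleton] at hv
    rw [hv]; exact ha
  | cons hadj p ih =>
    intro v hv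
    rw [SimpleGraph.Walk.support_cons, List.mem_cons] at hv
    rcases hv with rfl | hv
    · exact ha
    · exact ih hadj.2.2 v hv

/-- the vertices reachable from `a` in the side without `T` -/
def Rch (G : SimpleGraph V) (A T : Set V) (a : V) : Set V :=
  {u | (res (res G A) Tᶜ).Reachable a u}

theorem rch_self (A T : Set V) (a : V) : a ∈ Rch G A T a := SimpleGraph.Reachable.refl a

theorem rch_not_T {A T : Set V} {a u : V} (h : u ∈ Rch G A T a) (hne : u ≠ a) : u ∉ T :=
  mem_of_reach hne h

theorem rch_A {A T : Set V} {a u : V} (h : u ∈ Rch G A T a) (hne : u ≠ a) : u ∈ A :=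
  mem_of_reach hne (SimpleGraph.Reachable.mono (res_le (res G A) Tᶜ) h)

theorem rch_step {A T : Set V} {a u v : V} (haA : a ∈ A) (haT : a ∉ T) (h : u ∈ Rch G A T a)
    (huv : G.Adj u v) (hvA : v ∈ A) (hvT : v ∉ T) : v ∈ Rch G A T a := by
  have huA : u ∈ A := by
    by_cases h1 : u = a
    · rw [h1]; exact haA
    · exact rch_A h h1
  have huT : u ∉ T := by
    by_cases h1 : u = a
    · rw [h1]; exact haT
    · exact rch_not_T h h1
  have hadj : (res (res G A) Tᶜ).Adj u v := ⟨⟨huv, huA, hvA⟩, huT, hvT⟩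
  exact SimpleGraph.Reachable.trans h hadj.reachable

end CYCM

/-- **CYC** (from KPT, GLU). -/
theorem specCYC (hKPT : SpecKPT) (hGLU : SpecGLU) : SpecCYC := by
  intro V _ G x y z C hc
  have hxC : x ∉ C := fun h => hc.sep.dis x h (by simp)
  have hyC : y ∉ C := fun h => hc.sep.dis y h (by simp)
  have hzC : z ∉ C := fun h => hc.sep.dis z h (by simp)
  have hmemS : ∀ s : V, s ∈ ({x, y, z} : Set V) ↔ s = x ∨ s = y ∨ s = z := by
    intro s; simp
  have hyA : y ∈ C ∪ {y, z} := Or.inr (by simp)
  have hzA : z ∈ C ∪ {y, z} := Or.inr (by simp)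
  have key : ∀ T : Set V, y ∉ T → z ∉ T → T.ncard < 2 →
      (res (res G (C ∪ {y, z})) Tᶜ).Reachable y z := by
    intro T hyT hzT hT
    by_contra hcon
    have hTone : ∀ p ∈ T, ∀ q ∈ T, p = q := by
      intro p hp q hq
      exact (Set.ncard_le_one (Set.toFinite T)).1 (by omega) p hp q hq
    -- the facts for one of the two ends
    have half : ∀ a b : V, (a = y ∧ b = z) ∨ (a = z ∧ b = y) →
        b ∉ CYCM.Rch G (C ∪ {y, z}) T a ∧
        (∀ u ∈ CYCM.Rch G (C ∪ {y, z}) T a, u ≠ a → u ∈ C) ∧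
        (∃ u ∈ CYCM.Rch G (C ∪ {y, z}) T a, u ≠ a) ∧
        (∀ u ∈ CYCM.Rch G (C ∪ {y, z}) T a, u ≠ a → ∀ v, G.Adj u v →
          v ∈ CYCM.Rch G (C ∪ {y, z}) T a ∨ v = x ∨ (v ∈ T ∧ v ∈ C)) := by
      intro a b hab
      have haT : a ∉ T := by
        rcases hab with ⟨rfl, rfl⟩ | ⟨rfl, rfl⟩
        · exact hyT
        · exact hzT
      have haA : a ∈ C ∪ {y, z} := by
        rcases hab with ⟨rfl, rfl⟩ | ⟨rfl, rfl⟩
        · exact hyA
        · exact hzA
      have hb : b ∉ CYCM.Rch G (C ∪ {y, z}) T a := by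
        intro h
        rcases hab with ⟨rfl, rfl⟩ | ⟨rfl, rfl⟩
        · exact hcon h
        · exact hcon (SimpleGraph.Reachable.symm h)
      have hC : ∀ u ∈ CYCM.Rch G (C ∪ {y, z}) T a, u ≠ a → u ∈ C := by
        intro u hu hne
        rcases CYCM.rch_A hu hne with h | h
        · exact h
        · exfalso
          have h' : u = y ∨ u = z := h
          rcases hab with ⟨rfl, rfl⟩ | ⟨rfl, rfl⟩
          · rcases h' with h' | h'
            · exact hne h'
            · exact hb (h' ▸ hu)
          · rcases h' with h' | h'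
            · exact hb (h' ▸ hu)
            · exact hne h'
      refine ⟨hb, hC, ?_, ?_⟩
      · obtain ⟨p, hp, q, hq, hpq, hap, haq⟩ := hc.two a (by
          rcases hab with ⟨rfl, rfl⟩ | ⟨rfl, rfl⟩
          · exact Or.inr (Or.inl rfl)
          · exact Or.inr (Or.inr rfl))
        by_cases hpT : p ∈ T
        · have hqT : q ∉ T := fun h => hpq (hTone p hpT q h)
          exact ⟨q, CYCM.rch_step haA haT (CYCM.rch_self _ _ _) haq (Or.inl hq) hqT, haq.ne'⟩
        · exact ⟨p, CYCM.rch_step haA haT (CYCM.rch_self _ _ _) hap (Or.inl hp) hpT, hap.ne'⟩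
      · intro u hu hne v huv
        have huC := hC u hu hne
        rcases hc.sep.nb u huC v huv with h | h
        · by_cases hvT : v ∈ T
          · exact Or.inr (Or.inr ⟨hvT, h⟩)
          · exact Or.inl (CYCM.rch_step haA haT hu huv (Or.inl h) hvT)
        · rcases (hmemS v).1 h with rfl | rfl | rfl
          · exact Or.inr (Or.inl rfl)
          · exact Or.inl (CYCM.rch_step haA haT hu huv hyA hyT)
          · exact Or.inl (CYCM.rch_step haA haT hu huv hzA hzT)
    obtain ⟨zK, KC, Kne, Knb⟩ := half y z (Or.inl ⟨rfl, rfl⟩)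
    obtain ⟨yL, LC, Lne, Lnb⟩ := half z y (Or.inr ⟨rfl, rfl⟩)
    by_cases hTC : ∃ w ∈ T, w ∈ C
    · obtain ⟨w, hwT, hwC⟩ := hTC
      have hTw : ∀ v ∈ T, v = w := fun v hv => hTone v hv w hwT
      have hwx : w ≠ x := fun h => hxC (h ▸ hwC)
      have hwy : w ≠ y := fun h => hyC (h ▸ hwC)
      have hwz : w ≠ z := fun h => hzC (h ▸ hwC)
      -- one side
      have side : ∀ (a b : V) (R : Set V), (a = y ∧ b = z) ∨ (a = z ∧ b = y) → a ∈ R → b ∉ R →
          (∀ u ∈ R, u ≠ a → u ∉ T) → (∀ u ∈ R, u ≠ a → u ∈ C) → (∃ u ∈ R, u ≠ a) →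
          (∀ u ∈ R, u ≠ a → ∀ v, G.Adj u v → v ∈ R ∨ v = x ∨ (v ∈ T ∧ v ∈ C)) →
          ∃ f, IsCol G (R \ {a} ∪ {w, a, x}) f ∧ f w = f a ∧ f w ≠ f x := by
        intro a b R hab haR hbR hRT hRC hRne hRnb
        have hax : a ≠ x := by
          rcases hab with ⟨rfl, rfl⟩ | ⟨rfl, rfl⟩
          · exact hc.xy.symm
          · exact hc.xz.symm
        have hbx : b ≠ x := by
          rcases hab with ⟨rfl, rfl⟩ | ⟨rfl, rfl⟩
          · exact hc.xz.symm
          · exact hc.xy.symm
        have hba : b ≠ a := by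
          rcases hab with ⟨rfl, rfl⟩ | ⟨rfl, rfl⟩
          · exact hc.yz.symm
          · exact hc.yz
        have hwa : w ≠ a := by
          rcases hab with ⟨rfl, rfl⟩ | ⟨rfl, rfl⟩
          · exact hwy
          · exact hwz
        have hwb : w ≠ b := by
          rcases hab with ⟨rfl, rfl⟩ | ⟨rfl, rfl⟩
          · exact hwz
          · exact hwy
        have hs : Sep G {w, a, x} (R \ {a}) := by
          refine ⟨?_, ?_, ?_, ?_⟩
          · obtain ⟨u, hu, hne⟩ := hRne
            exact ⟨u, hu, hne⟩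
          · intro v hv hvS
            have hva : v ≠ a := fun h => hv.2 h
            have hvS' : v = w ∨ v = a ∨ v = x := by simpa using hvS
            rcases hvS' with h | h | h
            · exact hRT v hv.1 hva (h ▸ hwT)
            · exact hva h
            · exact hxC (h ▸ hRC v hv.1 hva)
          · refine ⟨b, ?_, fun h => hbR h.1⟩
            intro h
            have h' : b = w ∨ b = a ∨ b = x := by simpa using h
            rcases h' with h | h | h
            · exact hwb h.symm
            · exact hba h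
            · exact hbx h
          · intro u hu v huv
            have hua : u ≠ a := fun h => hu.2 h
            rcases hRnb u hu.1 hua v huv with h | h | h
            · by_cases hva : v = a
              · right; rw [hva]; simp
              · exact Or.inl ⟨h, hva⟩
            · right; rw [h]; simp
            · right; rw [hTw v h.1]; simp
        have hlt : (R \ {a}).ncard < C.ncard := by
          refine Set.ncard_lt_ncard ?_ (Set.toFinite C)
          refine ⟨fun u hu => hRC u hu.1 (fun h => hu.2 h), fun h => ?_⟩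
          have := h hwC
          exact hRT w this.1 hwa hwT
        obtain ⟨-, -, -, -, h, -, -⟩ := hc.small w a x (R \ {a}) hwa hwx hax hs hlt
        exact h
      obtain ⟨f, hf, hfy, hfx⟩ := side y z _ (Or.inl ⟨rfl, rfl⟩) (CYCM.rch_self _ _ _) zK
        (fun u hu hne => CYCM.rch_not_T hu hne) KC Kne Knb
      obtain ⟨g, hg, hgz, hgx⟩ := side z y _ (Or.inr ⟨rfl, rfl⟩) (CYCM.rch_self _ _ _) yL
        (fun u hu hne => CYCM.rch_not_T hu hne) LC Lne Lnb
      set K : Set V := CYCM.Rch G (C ∪ {y, z}) T y with hK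
      set L : Set V := CYCM.Rch G (C ∪ {y, z}) T z with hL
      have hKL : ∀ u, u ∈ K → u ∈ L → False := by
        intro u hu hu'
        exact hcon (SimpleGraph.Reachable.trans hu (SimpleGraph.Reachable.symm hu'))
      -- membership of the two sides
      have memA : ∀ u, u ∈ K \ {y} ∪ {w, y, x} ↔ (u ∈ K ∨ u = w ∨ u = x) := by
        intro u
        constructor
        · rintro (h | h)
          · exact Or.inl h.1
          · have h' : u = w ∨ u = y ∨ u = x := by simpa using h
            rcases h' with h | h | h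
            · exact Or.inr (Or.inl h)
            · exact Or.inl (h ▸ CYCM.rch_self _ _ _)
            · exact Or.inr (Or.inr h)
        · rintro (h | h | h)
          · by_cases h' : u = y
            · right; rw [h']; simp
            · exact Or.inl ⟨h, h'⟩
          · right; rw [h]; simp
          · right; rw [h]; simp
      have memB : ∀ u, u ∈ L \ {z} ∪ {w, z, x} ↔ (u ∈ L ∨ u = w ∨ u = x) := by
        intro u
        constructor
        · rintro (h | h)
          · exact Or.inl h.1
          · have h' : u = w ∨ u = z ∨ u = x := by simpa using h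
            rcases h' with h | h | h
            · exact Or.inr (Or.inl h)
            · exact Or.inl (h ▸ CYCM.rch_self _ _ _)
            · exact Or.inr (Or.inr h)
        · rintro (h | h | h)
          · by_cases h' : u = z
            · right; rw [h']; simp
            · exact Or.inl ⟨h, h'⟩
          · right; rw [h]; simp
          · right; rw [h]; simp
      have hyK : y ∈ K := CYCM.rch_self _ _ _
      have hzL : z ∈ L := CYCM.rch_self _ _ _
      have hwK : w ∉ K := fun h => CYCM.rch_not_T h hwy hwT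
      have hwL : w ∉ L := fun h => CYCM.rch_not_T h hwz hwT
      have hxK : x ∉ K := fun h => hxC (KC x h hc.xy)
      have hxL : x ∉ L := fun h => hxC (LC x h hc.xz)
      -- glue
      obtain ⟨h, hh, hhA, σ, hhB⟩ := hGLU V G (K \ {y} ∪ {w, y, x}) (L \ {z} ∪ {w, z, x}) f g hf hg
        (by
          intro u hu huB v hv hvA huv
          rw [memA] at hu hvA
          rw [memB] at hv huB
          push Not at hvA huB
          have huK : u ∈ K := by
            rcases hu with h | h | h
            · exact h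
            · exact absurd h huB.2.1
            · exact absurd h huB.2.2
          have hvL : v ∈ L := by
            rcases hv with h | h | h
            · exact h
            · exact absurd h hvA.2.1
            · exact absurd h hvA.2.2
          by_cases huy : u = y
          · by_cases hvz : v = z
            · rw [huy, hvz] at huv
              exact hc.nyz huv
            · rcases Lnb v hvL hvz u huv.symm with h | h | h
              · exact huB.1 h
              · exact huB.2.2 h
              · exact huB.2.1 (hTw u h.1)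
          · rcases Knb u huK huy v huv with h | h | h
            · exact hvA.1 h
            · exact hvA.2.2 h
            · exact hvA.2.1 (hTw v h.1))
        (by
          have hint : ∀ s, s ∈ K \ {y} ∪ {w, y, x} → s ∈ L \ {z} ∪ {w, z, x} → s = w ∨ s = x := by
            intro s h1 h2
            rw [memA] at h1
            rw [memB] at h2
            rcases h1 with h1 | h1 | h1
            · rcases h2 with h2 | h2 | h2
              · exact absurd h2 (fun h => hKL s h1 h)
              · exact Or.inl h2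
              · exact Or.inr h2
            · exact Or.inl h1
            · exact Or.inr h1
          intro s hs hs' t ht ht'
          rcases hint s hs hs' with rfl | rfl <;> rcases hint t ht ht' with rfl | rfl
          · simp
          · exact ⟨fun h => absurd h hfx, fun h => absurd h hgx⟩
          · exact ⟨fun h => absurd h.symm hfx, fun h => absurd h.symm hgx⟩
          · simp)
      -- the rest is empty
      have hrest : ∀ u ∈ C, u ∈ K ∨ u ∈ L ∨ u = w := by
        by_contra hne
        push Not at hne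
        obtain ⟨q, hq, hqK, hqL, hqw⟩ := hne
        refine hc.no2 {x, w} {u | u ∈ C ∧ u ∉ K ∧ u ∉ L ∧ u ≠ w} ?_ ⟨?_, ?_, ?_, ?_⟩
        · have h1 := Set.ncard_insert_le x ({w} : Set V)
          have h2 := Set.ncard_singleton w
          omega
        · exact ⟨q, hq, hqK, hqL, hqw⟩
        · intro v hv hvS
          have hvS' : v = x ∨ v = w := by simpa using hvS
          rcases hvS' with h | h
          · exact hxC (h ▸ hv.1)
          · exact hv.2.2.2 h
        · refine ⟨y, ?_, fun h => hyC h.1⟩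
          intro h
          have h' : y = x ∨ y = w := by simpa using h
          rcases h' with h | h
          · exact hc.xy h.symm
          · exact hwy h.symm
        · intro u hu v huv
          obtain ⟨huC, huK, huL, huw⟩ := hu
          have huT : u ∉ T := fun h => huw (hTw u h)
          have nK : v ∉ K := by
            intro h
            exact huK (CYCM.rch_step hyA hyT h huv.symm (Or.inl huC) huT)
          have nL : v ∉ L := by
            intro h
            exact huL (CYCM.rch_step hzA hzT h huv.symm (Or.inl huC) huT)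
          rcases hc.sep.nb u huC v huv with h | h
          · by_cases hvw : v = w
            · right; rw [hvw]; simp
            · exact Or.inl ⟨h, nK, nL, hvw⟩
          · rcases (hmemS v).1 h with rfl | rfl | rfl
            · right; simp
            · exact absurd hyK nK
            · exact absurd hzL nL
      apply hc.syz
      have eA : ∀ u, (u ∈ K ∨ u = w ∨ u = x) → h u = f u := fun u hu => hhA u ((memA u).2 hu)
      have eB : ∀ u, (u ∈ L ∨ u = w ∨ u = x) → h u = σ (g u) := fun u hu => hhB u ((memB u).2 hu)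
      have hyw : h y = h w := by
        rw [eA y (Or.inl hyK), eA w (Or.inr (Or.inl rfl))]
        exact hfy.symm
      have hzw : h z = h w := by
        rw [eB z (Or.inl hzL), eB w (Or.inr (Or.inl rfl)), hgz]
      have hxw : h w ≠ h x := by
        rw [eA w (Or.inr (Or.inl rfl)), eA x (Or.inr (Or.inr rfl))]
        exact hfx
      refine ⟨h, ?_, hyw.trans hzw.symm, ?_⟩
      · have hsub : ∀ u ∈ C ∪ {x, y, z}, u ∈ K \ {y} ∪ {w, y, x} ∪ (L \ {z} ∪ {w, z, x}) := by
          intro u hu
          rcases hu with hu | hu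
          · rcases hrest u hu with h1 | h1 | h1
            · exact Or.inl ((memA u).2 (Or.inl h1))
            · exact Or.inr ((memB u).2 (Or.inl h1))
            · exact Or.inl ((memA u).2 (Or.inr (Or.inl h1)))
          · rcases (hmemS u).1 hu with h1 | h1 | h1
            · exact Or.inl ((memA u).2 (Or.inr (Or.inr h1)))
            · exact Or.inl ((memA u).2 (Or.inl (h1 ▸ hyK)))
            · exact Or.inr ((memB u).2 (Or.inl (h1 ▸ hzL)))
        intro u hu v hv huv
        exact hh u (hsub u hu) v (hsub v hv) huv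
      · rw [hyw]; exact hxw
    · -- no vertex of `T` in `C`
      push Not at hTC
      refine hc.no2 {x, y} (CYCM.Rch G (C ∪ {y, z}) T y \ {y}) ?_ ⟨?_, ?_, ?_, ?_⟩
      · have h1 := Set.ncard_insert_le x ({y} : Set V)
        have h2 := Set.ncard_singleton y
        omega
      · obtain ⟨u, hu, hne⟩ := Kne
        exact ⟨u, hu, hne⟩
      · intro v hv hvS
        have hvy : v ≠ y := fun h => hv.2 h
        have hvS' : v = x ∨ v = y := by simpa using hvS
        rcases hvS' with h | h
        · exact hxC (h ▸ KC v hv.1 hvy)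
        · exact hvy h
      · refine ⟨z, ?_, fun h => zK h.1⟩
        intro h
        have h' : z = x ∨ z = y := by simpa using h
        rcases h' with h | h
        · exact hc.xz h.symm
        · exact hc.yz h.symm
      · intro u hu v huv
        have huy : u ≠ y := fun h => hu.2 h
        rcases Knb u hu.1 huy v huv with h | h | h
        · by_cases hvy : v = y
          · right; rw [hvy]; simp
          · exact Or.inl ⟨h, hvy⟩
        · right; rw [h]; simp
        · exact absurd h.2 (hTC v h.1)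
  obtain ⟨P, Q, hP, hQ, hPQ⟩ := hKPT V (res G (C ∪ {y, z})) y z hc.yz
    (fun h => hc.nyz h.1) key
  refine ⟨P.mapLe (CYCM.res_le G _), Q.mapLe (CYCM.res_le G _), ?_, ?_, ?_, ?_, ?_⟩
  · rw [SimpleGraph.Walk.isPath_mapLe]; exact hP
  · rw [SimpleGraph.Walk.isPath_mapLe]; exact hQ
  · rw [SimpleGraph.Walk.support_mapLe_eq_support]
    exact CYCM.walk_mem P hyA
  · rw [SimpleGraph.Walk.support_mapLe_eq_support]
    exact CYCM.walk_mem Q hyA
  · rw [SimpleGraph.Walk.support_mapLe_eq_support, SimpleGraph.Walk.support_mapLe_eq_support]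
    exact hPQ

end Pool.Agent.Lib.MPc67b86
end

section
/-!
MP_c67b86_co: module DEG (degrees and neighbourhoods in a minimal counterexample).  (helper76)
-/
set_option autoImplicit false

namespace Pool.Agent.Lib.MPc67b86

namespace DEGM

open Classical in
/-- extension of a colouring of `G - v` -/
theorem col_of_update {V : Type} {G : SimpleGraph V} {v : V} {f : V → Fin 4} (hf : IsCol G ({v}ᶜ) f) (c : Fin 4)
    (hc : ∀ u, G.Adj v u → f u ≠ c) : Col4 G := by
  refine ⟨Function.update f v c, fun a b hab => ?_⟩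
  by_cases ha : a = v
  · subst ha
    rw [Function.update_self, Function.update_of_ne hab.ne']
    exact fun h => hc b hab h.symm
  · by_cases hb : b = v
    · subst hb
      rw [Function.update_self, Function.update_of_ne ha]
      exact hc a hab.symm
    · rw [Function.update_of_ne ha, Function.update_of_ne hb]
      exact hf a ha b hb hab

theorem red0 (hRED : SpecRED) {V : Type} [Finite V] {G : SimpleGraph V} (hG : Min G) (v : V) :
    ∃ f : V → Fin 4, IsCol G ({v}ᶜ) f := by
  obtain ⟨f, hf, -⟩ := hRED V G hG ({v}ᶜ) ⟨v, fun h => h rfl⟩ 0 (fun i => i.elim0) (fun i => i.elim0) (fun i => i.elim0)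
    (fun i => i.elim0) (fun i => i.elim0) (fun i => i.elim0) (fun i => i.elim0) (fun i => i.elim0) (fun i => i.elim0)
  exact ⟨f, hf⟩

end DEGM

theorem specDEG (hRED : SpecRED) : SpecDEG := by
  intro V _ G hG
  refine ⟨fun v => ?_, fun v w hvw hn hsub => ?_⟩
  · by_contra hlt
    obtain ⟨f, hf⟩ := DEGM.red0 hRED hG v
    have h1 : (f '' G.neighborSet v).ncard ≤ 3 :=
      (Set.ncard_image_le (Set.toFinite _)).trans (by omega)
    have h2 : ∃ c, c ∉ f '' G.neighborSet v := by
      by_contra hall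
      push Not at hall
      have h3 : f '' G.neighborSet v = Set.univ := Set.eq_univ_of_forall hall
      rw [h3, Set.ncard_univ, Nat.card_eq_fintype_card, Fintype.card_fin] at h1
      omega
    obtain ⟨c, hc⟩ := h2
    exact hG.bad.2.2 (DEGM.col_of_update hf c fun u hu h => hc ⟨u, hu, h⟩)
  · obtain ⟨f, hf⟩ := DEGM.red0 hRED hG v
    refine hG.bad.2.2 (DEGM.col_of_update hf (f w) fun u hu => ?_)
    have hwu : G.Adj w u := hsub hu
    exact (hf w (fun h => hvw (Set.mem_singleton_iff.1 h).symm) u (fun h => hu.ne' (Set.mem_singleton_iff.1 h)) hwu).symm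

end Pool.Agent.Lib.MPc67b86
end

section
/-!
# MP_c67b86_co, module DG2: the case `K = {x}`
-/
set_option autoImplicit false

namespace Pool.Agent.Lib.MPc67b86

namespace DG2M

/-- changing the colour of `x` only, away from the colours of `p` and `q` -/
theorem upd {V : Type} {G : SimpleGraph V} {x y z : V} {C : Set V} {p q : V}
    (hA : Att G x y z C {x} p q) (f : V → Fin 4) (hf : IsCol G (C ∪ {x, y, z}) f) (κ : Fin 4)
    (hp : κ ≠ f p) (hq : κ ≠ f q) :
    ∃ g : V → Fin 4, IsCol G (C ∪ {x, y, z}) g ∧ (∀ v, v ≠ x → g v = f v) ∧ g x = κ := by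
  classical
  have hnb : ∀ v ∈ C ∪ {x, y, z}, G.Adj x v → κ ≠ f v := by
    intro v hv hxv
    rcases hA.nb x rfl v hv hxv with h | h | h
    · exact absurd (Set.mem_singleton_iff.mp h) hxv.ne'
    · rw [h]; exact hp
    · rw [h]; exact hq
  refine ⟨Function.update f x κ, ?_, ?_, ?_⟩
  · intro u hu v hv huv
    by_cases hux : u = x
    · subst hux
      have hvu : v ≠ u := huv.ne'
      rw [Function.update_self, Function.update_of_ne hvu]
      exact hnb v hv huv
    · by_cases hvx : v = x
      · subst hvx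
        rw [Function.update_self, Function.update_of_ne hux]
        exact (hnb u hu huv.symm).symm
      · rw [Function.update_of_ne hux, Function.update_of_ne hvx]
        exact hf u hu v hv huv
  · intro v hv
    exact Function.update_of_ne hv _ _
  · exact Function.update_self _ _ _

theorem fourth (a b c : Fin 4) : ∃ d : Fin 4, d ≠ a ∧ d ≠ b ∧ d ≠ c := by
  revert a b c; decide

end DG2M

theorem specDG2 : SpecDG2 := by
  intro V _ G x y z C hC p q hA
  obtain ⟨a, ha, b, hb, hab, hxa, hxb⟩ := hC.two x (Or.inl rfl)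
  have key : ∀ a ∈ C, G.Adj x a → a = p ∨ a = q := by
    intro a ha hxa
    rcases hA.nb x rfl a (Or.inl ha) hxa with h | h | h
    · exact absurd (Set.mem_singleton_iff.mp h) hxa.ne'
    · exact Or.inl h
    · exact Or.inr h
  have hpq : p ∈ C ∧ q ∈ C := by
    rcases key a ha hxa with h1 | h1 <;> rcases key b hb hxb with h2 | h2
    · exact absurd (h1.trans h2.symm) hab
    · exact ⟨h1 ▸ ha, h2 ▸ hb⟩
    · exact ⟨h2 ▸ hb, h1 ▸ ha⟩
    · exact absurd (h1.trans h2.symm) hab
  refine ⟨hpq.1, hpq.2, ?_⟩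
  intro f hf hxy hxz hyz
  have h1 : f y = f p ∨ f y = f q := by
    by_contra hcon
    push Not at hcon
    obtain ⟨g, hg, hgv, hgx⟩ := DG2M.upd hA f hf (f y) hcon.1 hcon.2
    apply hC.sxy
    refine ⟨g, hg, ?_, ?_⟩
    · rw [hgx, hgv y hC.xy.symm]
    · rw [hgx, hgv z hC.xz.symm]; exact hyz
  have h2 : f z = f p ∨ f z = f q := by
    by_contra hcon
    push Not at hcon
    obtain ⟨g, hg, hgv, hgx⟩ := DG2M.upd hA f hf (f z) hcon.1 hcon.2
    apply hC.sxz
    refine ⟨g, hg, ?_, ?_⟩
    · rw [hgx, hgv z hC.xz.symm]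
    · rw [hgx, hgv y hC.xy.symm]; exact hyz.symm
  obtain ⟨d, hdx, hdy, hdz⟩ := DG2M.fourth (f x) (f y) (f z)
  have hdp : d ≠ f p := by
    rcases h1 with h | h
    · rw [← h]; exact hdy
    · rcases h2 with h' | h'
      · rw [← h']; exact hdz
      · exact absurd (h.trans h'.symm) hyz
  have hdq : d ≠ f q := by
    rcases h1 with h | h
    · rcases h2 with h' | h'
      · exact absurd (h.trans h'.symm) hyz
      · rw [← h']; exact hdz
    · rw [← h]; exact hdy
  obtain ⟨g, hg, hgv, hgx⟩ := DG2M.upd hA f hf d hdp hdq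
  refine ⟨g, hg, ?_, ?_, ?_, ?_⟩
  · intro v hv
    exact hgv v (fun h => hv (Set.mem_singleton_iff.mpr h))
  · rw [hgx]; exact hdx
  · rw [hgx]; exact hdy
  · rw [hgx]; exact hdz

end Pool.Agent.Lib.MPc67b86
end

section
set_option autoImplicit false

namespace Pool.Agent.Lib.MPc67b86

/-- EDG -/
theorem specEDG (hTKL : SpecTKL) : SpecEDG := by
  intro V _ G hG a b hab
  obtain ⟨P, hP, hPG, hmin⟩ := hG.ex
  set G' : SimpleGraph V := G.deleteEdges {s(a, b)} with hG'
  have hle : G' ≤ G := SimpleGraph.deleteEdges_le _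
  have hlt : G'.edgeSet.ncard < G.edgeSet.ncard := by
    apply Set.ncard_lt_ncard
    · rw [hG', SimpleGraph.edgeSet_deleteEdges]
      refine ⟨Set.sdiff_subset, fun h => ?_⟩
      have h1 : s(a, b) ∈ G.edgeSet := hab
      exact (h h1).2 rfl
    · exact Set.toFinite _
  have h1 : P G' := hP.1 G G' hle hPG
  have h2 : ¬ TK5 G' := fun h => hG.bad.2.1 (hTKL.1 V G G' hle h)
  have h3 : Col4 G' := by
    by_contra h3
    exact hmin G' h1 h2 h3 hlt
  obtain ⟨f, hf⟩ := h3
  refine ⟨f, fun u v huv hne => hf u v ?_⟩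
  rw [hG', SimpleGraph.deleteEdges_adj]
  exact ⟨huv, hne⟩

end Pool.Agent.Lib.MPc67b86
end

section
/-! # ELC: the class of graphs is closed under the contraction of an edge -/
set_option autoImplicit false

namespace Pool.Agent.Lib.MPc67b86

namespace ELCM

variable {V : Type}

lemma comap [Finite V] (G : SimpleGraph V) (hE : Elim G) (σ : Equiv.Perm V) : Elim (G.comap σ) := by
  induction hE with
  | nil =>
    have h : (⊥ : SimpleGraph V).comap σ = ⊥ := by
      ext a b
      simp
    rw [h]
    exact Elim.nil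
  | step G v h h' ih =>
    refine Elim.step _ (σ.symm v) ?_ ?_
    · have h1 : (G.comap σ).neighborSet (σ.symm v) = σ.symm '' G.neighborSet v := by
        ext w
        rw [Equiv.image_symm_eq_preimage]
        simp
      rw [h1, Set.ncard_image_of_injective _ σ.symm.injective]
      exact h
    · have h1 : elim (G.comap σ) (σ.symm v) = (elim G v).comap σ := by
        ext a b
        simp only [elim, SimpleGraph.comap_adj, Equiv.apply_symm_apply, ne_eq, σ.injective.eq_iff,
          Equiv.eq_symm_apply]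
      rw [h1]
      exact ih

end ELCM

theorem specELC (hELM : SpecELM) : SpecELC := by
  intro V _ G p y hpy hE
  induction hE with
  | nil => exact absurd hpy (by simp)
  | step G v h h' ih =>
    by_cases hvp : v = p
    · subst hvp
      refine hELM V (elim G v) _ ?_ h'
      rintro a b ⟨h1, h2, h3, h4⟩
      refine ⟨h1, h2, h3, ?_⟩
      rcases h4 with h4 | ⟨rfl, h4⟩ | ⟨rfl, h4⟩
      · exact Or.inl h4
      · exact Or.inr ⟨hpy.symm, h4⟩
      · exact Or.inr ⟨h4.symm, hpy⟩
    by_cases hvy : v = y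
    · subst hvy
      classical
      refine hELM V ((elim G v).comap (Equiv.swap p v)) _ ?_ (ELCM.comap _ h' _)
      have key : ∀ a b, a ≠ b → a ≠ p → b ≠ p → a = v → (G.Adj a b ∨ G.Adj p b) →
          ((elim G v).comap (Equiv.swap p v)).Adj a b := by
        rintro a b h1 h2 h3 rfl h4
        rw [SimpleGraph.comap_adj, Equiv.swap_apply_right, Equiv.swap_apply_of_ne_of_ne h3 h1.symm]
        exact ⟨h3.symm, h2.symm, h1.symm, h4.elim (fun h => Or.inr ⟨hpy, h⟩) Or.inl⟩
      rintro a b ⟨h1, h2, h3, h4⟩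
      by_cases ha : a = v
      · refine key a b h1 h2 h3 ha ?_
        rcases h4 with h4 | ⟨_, h4⟩ | ⟨hb, h4⟩
        · exact Or.inl h4
        · exact Or.inr h4
        · exact absurd (ha.trans hb.symm) h1
      by_cases hb : b = v
      · refine (key b a h1.symm h3 h2 hb ?_).symm
        rcases h4 with h4 | ⟨ha', h4⟩ | ⟨_, h4⟩
        · exact Or.inl h4.symm
        · exact absurd ha' ha
        · exact Or.inr h4
      · rw [SimpleGraph.comap_adj, Equiv.swap_apply_of_ne_of_ne h2 ha, Equiv.swap_apply_of_ne_of_ne h3 hb]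
        refine ⟨h1, ha, hb, Or.inl ?_⟩
        rcases h4 with h4 | ⟨ha', _⟩ | ⟨hb', _⟩
        · exact h4
        · exact absurd ha' ha
        · exact absurd hb' hb
    · have hpv : p ≠ v := fun h => hvp h.symm
      have hyv : y ≠ v := fun h => hvy h.symm
      have h1 : (elim G v).Adj p y := ⟨hpy.ne, hpv, hyv, Or.inl hpy⟩
      refine Elim.step _ v ?_ (hELM V (con (elim G v) p y) _ ?_ (ih h1))
      · classical
        have h2 : (con G p y).neighborSet v ⊆ (fun w => if w = p then y else w) '' G.neighborSet v := by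
          rintro w ⟨g1, g2, g3, g4⟩
          rcases g4 with g4 | ⟨g4, _⟩ | ⟨g4, g5⟩
          · exact ⟨w, g4, if_neg g3⟩
          · exact absurd g4 hvy
          · exact ⟨p, g5.symm, by rw [g4]; exact if_pos rfl⟩
        exact ((Set.ncard_le_ncard h2 (Set.toFinite _)).trans (Set.ncard_image_le (Set.toFinite _))).trans h
      · rintro a b ⟨g1, g2, g3, g4⟩
        rcases g4 with ⟨_, k2, k3, k4⟩ | ⟨⟨_, k2, _, k4⟩, ⟨_, _, m3, m4⟩⟩
        · refine ⟨g1, k2, k3, ?_⟩
          rcases k4 with k4 | ⟨k4, k5⟩ | ⟨k4, k5⟩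
          · exact Or.inl ⟨g1, g2, g3, Or.inl k4⟩
          · exact Or.inr (Or.inl ⟨k4, fun h => k3 h.symm, hpv, g3, Or.inl k5⟩)
          · exact Or.inr (Or.inr ⟨k4, fun h => k2 h.symm, hpv, g2, Or.inl k5⟩)
        · refine ⟨g1, k2, m3, ?_⟩
          rcases k4 with k4 | ⟨k4, k5⟩ | ⟨k4, k5⟩
          · rcases m4 with m4 | ⟨m4, m5⟩ | ⟨m4, m5⟩
            · exact Or.inl ⟨g1, g2, g3, Or.inr ⟨k4, m4⟩⟩
            · exact absurd m4 hvy
            · exact Or.inr (Or.inr ⟨m4, fun h => k2 h.symm, hpv, g2, Or.inr ⟨m5, k4.symm⟩⟩)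
          · rcases m4 with m4 | ⟨m4, m5⟩ | ⟨m4, m5⟩
            · exact Or.inr (Or.inl ⟨k4, fun h => m3 h.symm, hpv, g3, Or.inr ⟨k5, m4⟩⟩)
            · exact absurd m4 hvy
            · exact absurd (k4.trans m4.symm) g1
          · exact absurd k4 hvy

end Pool.Agent.Lib.MPc67b86
end

section
/-! # ELL: a connection may be replaced by an edge -/
set_option autoImplicit false

namespace Pool.Agent.Lib.MPc67b86

namespace ELLM

variable {V : Type}

lemma reach_map (G H : SimpleGraph V) (φ : V → V) (h : ∀ a b, G.Adj a b → H.Reachable (φ a) (φ b)) {a b : V}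
    (hab : G.Reachable a b) : H.Reachable (φ a) (φ b) := by
  obtain ⟨w⟩ := hab
  induction w with
  | nil => exact SimpleGraph.Reachable.refl _
  | cons h' _ ih => exact (h _ _ h').trans ih

lemma last {G : SimpleGraph V} {x y : V} (hxy : x ≠ y) (h : G.Reachable x y) : ∃ p, G.Adj p y := by
  obtain ⟨w⟩ := h.symm
  cases w with
  | nil => exact absurd rfl hxy
  | cons h' _ => exact ⟨_, h'.symm⟩

lemma main (hELM : SpecELM) (hELC : SpecELC) [Finite V] (x y : V) (hxy : x ≠ y) (n : ℕ) :
    ∀ (G : SimpleGraph V) (I : Set V), I.ncard = n → x ∉ I → y ∉ I → Lk G x y I → Elim G → Elim (lop G I x y) := by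
  induction n with
  | zero =>
    intro G I hI hx hy hL hE
    have hI0 : I = ∅ := (Set.ncard_eq_zero (Set.toFinite _)).1 hI
    obtain ⟨p, hp1, hp2, hp3⟩ := last hxy hL
    have hpx : G.Adj x y := by
      subst hI0
      rcases hp2 with rfl | rfl | hp2
      · exact hp1
      · exact absurd rfl hp1.ne
      · exact absurd hp2 (Set.notMem_empty _)
    refine hELM V G _ ?_ hE
    rintro a b ⟨h1, ⟨h2, _⟩ | ⟨rfl, rfl⟩ | ⟨rfl, rfl⟩⟩
    · exact h2
    · exact hpx
    · exact hpx.symm
  | succ n ih =>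
    intro G I hI hx hy hL hE
    by_cases hadj : G.Adj x y
    · refine hELM V G _ ?_ hE
      rintro a b ⟨h1, ⟨h2, _⟩ | ⟨rfl, rfl⟩ | ⟨rfl, rfl⟩⟩
      · exact h2
      · exact hadj
      · exact hadj.symm
    obtain ⟨p, hp1, hp2, hp3⟩ := last hxy hL
    have hpI : p ∈ I := by
      rcases hp2 with rfl | rfl | hp2
      · exact absurd hp1 hadj
      · exact absurd rfl hp1.ne
      · exact hp2
    have hxp : x ≠ p := fun h => hx (h ▸ hpI)
    have hyp : y ≠ p := fun h => hy (h ▸ hpI)
    classical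
    have hL' : Lk (con G p y) x y (I \ {p}) := by
      have h1 := reach_map (res G (insert x (insert y I))) (res (con G p y) (insert x (insert y (I \ {p}))))
        (fun w => if w = p then y else w) ?_ hL
      · simp only [if_neg hxp, if_neg hyp] at h1
        exact h1
      · rintro a b ⟨g1, g2, g3⟩
        have hmem : ∀ c, c ∈ insert x (insert y I) → c ≠ p → c ∈ insert x (insert y (I \ {p})) := by
          intro c hc hcp
          rcases hc with rfl | rfl | hc
          · exact Or.inl rfl
          · exact Or.inr (Or.inl rfl)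
          · exact Or.inr (Or.inr ⟨hc, hcp⟩)
        have hmy : y ∈ insert x (insert y (I \ {p})) := Or.inr (Or.inl rfl)
        by_cases hap : a = p
        · by_cases hby : b = y
          · simp only [if_pos hap, hby, if_neg hyp]
            exact SimpleGraph.Reachable.refl _
          · have hbp : b ≠ p := fun h => g1.ne (hap.trans h.symm)
            simp only [if_pos hap, if_neg hbp]
            refine SimpleGraph.Adj.reachable ⟨⟨fun h => hby h.symm, hyp, hbp, Or.inr (Or.inl ⟨rfl, ?_⟩)⟩, hmy,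
              hmem b g3 hbp⟩
            rw [← hap]
            exact g1
        · by_cases hbp : b = p
          · by_cases hay : a = y
            · simp only [if_pos hbp, hay, if_neg hyp]
              exact SimpleGraph.Reachable.refl _
            · simp only [if_pos hbp, if_neg hap]
              refine SimpleGraph.Adj.reachable ⟨⟨hay, hap, hyp, Or.inr (Or.inr ⟨rfl, ?_⟩)⟩, hmem a g2 hap, hmy⟩
              rw [← hbp]
              exact g1.symm
          · simp only [if_neg hbp, if_neg hap]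
            exact SimpleGraph.Adj.reachable ⟨⟨g1.ne, hap, hbp, Or.inl g1⟩, hmem a g2 hap, hmem b g3 hbp⟩
    have hcard : (I \ {p}).ncard = n := by
      rw [Set.ncard_sdiff_singleton_of_mem hpI, hI]
      rfl
    refine hELM V _ _ ?_ (ih (con G p y) (I \ {p}) hcard (fun h => hx h.1) (fun h => hy h.1) hL'
      (hELC V G p y hp1 hE))
    rintro a b ⟨h1, ⟨h2, h3, h4⟩ | h2⟩
    · exact ⟨h1, Or.inl ⟨⟨h1, fun h => h3 (h ▸ hpI), fun h => h4 (h ▸ hpI), Or.inl h2⟩, fun h => h3 h.1, fun h => h4 h.1⟩⟩
    · exact ⟨h1, Or.inr h2⟩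

end ELLM

theorem specELL (hELM : SpecELM) (hELC : SpecELC) : SpecELL := by
  intro V _ G x y I hxy hx hy hL hE
  exact ELLM.main hELM hELC x y hxy _ G I rfl hx hy hL hE

end Pool.Agent.Lib.MPc67b86
end

section
/-! # ELM: the class of graphs is closed under subgraphs -/
set_option autoImplicit false

namespace Pool.Agent.Lib.MPc67b86

theorem specELM : SpecELM := by
  intro V _ G G' hle hE
  induction hE generalizing G' with
  | nil => rw [le_bot_iff.1 hle]; exact Elim.nil
  | step G v h h' ih =>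
    refine Elim.step G' v ?_ (ih (elim G' v) ?_)
    · exact (Set.ncard_le_ncard (fun w hw => hle hw) (Set.toFinite _)).trans h
    · intro a b hab
      exact ⟨hab.1, hab.2.1, hab.2.2.1, hab.2.2.2.imp (fun h => hle h) fun h => ⟨hle h.1, hle h.2⟩⟩

end Pool.Agent.Lib.MPc67b86
end

section
/-!
# MP_c67b86_co, the class `Elim` is closed under induced subgraphs
-/
set_option autoImplicit false

namespace Pool.Agent.Lib.MPc67b86

namespace ELIM

variable {V W : Type}

/-- elimination in induced subgraphs (pulled back along an injection) -/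
theorem elim_comap (hELM : SpecELM) [Finite V] [Finite W] (e : W ↪ V) {G : SimpleGraph V}
    (h : Elim G) : Elim (G.comap e) := by
  induction h with
  | nil =>
    have h0 : (⊥ : SimpleGraph V).comap e = (⊥ : SimpleGraph W) := by
      ext a b; simp
    rw [h0]
    exact Elim.nil
  | step G v h h' ih =>
    by_cases hv : ∃ w, e w = v
    · obtain ⟨w, rfl⟩ := hv
      refine Elim.step _ w ?_ ?_
      · refine le_trans ?_ h
        refine Set.ncard_le_ncard_of_injOn e ?_ e.injective.injOn (Set.toFinite _)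
        intro a ha
        exact ha
      · refine hELM W _ _ ?_ ih
        rintro a b ⟨h1, h2, h3, h4⟩
        refine ⟨fun h => h1 (e.injective h), fun h => h2 (e.injective h),
          fun h => h3 (e.injective h), ?_⟩
        rcases h4 with h4 | h4
        · exact Or.inl h4
        · exact Or.inr h4
    · refine hELM W _ _ ?_ ih
      intro a b hab
      exact ⟨fun h => hab.ne (e.injective h), fun h => hv ⟨a, h⟩, fun h => hv ⟨b, h⟩, Or.inl hab⟩

end ELIM

end Pool.Agent.Lib.MPc67b86
end

section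
/-!
# TKW: subdivisions by sets give subdivisions by paths
-/
set_option autoImplicit false

namespace Pool.Agent.Lib.MPc67b86

namespace TKWM

variable {V : Type}

theorem res_le (G : SimpleGraph V) (A : Set V) : res G A ≤ G := fun _ _ h => h.1

theorem supp_sub (G : SimpleGraph V) (A : Set V) {x y : V} (w : (res G A).Walk x y) (hx : x ∈ A) :
    ∀ v ∈ w.support, v ∈ A := by
  induction w with
  | nil =>
    intro v hv
    rw [SimpleGraph.Walk.support_nil, List.mem_singleton] at hv
    rw [hv]
    exact hx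
  | cons h w ih =>
    intro v hv
    rw [SimpleGraph.Walk.support_cons, List.mem_cons] at hv
    rcases hv with rfl | hv
    · exact hx
    · exact ih h.2.2 v hv

theorem exists_path (G : SimpleGraph V) (x y : V) (I : Set V) (h : Lk G x y I) :
    ∃ p : G.Walk x y, p.IsPath ∧ ∀ v ∈ p.support, v = x ∨ v = y ∨ v ∈ I := by
  classical
  obtain ⟨w⟩ := h
  refine ⟨w.toPath.1.mapLe (res_le G _), ?_, ?_⟩
  · exact (SimpleGraph.Walk.isPath_mapLe (res_le G _)).2 w.toPath.2
  · intro v hv
    rw [SimpleGraph.Walk.support_mapLe_eq_support] at hv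
    have := supp_sub G _ _ (Set.mem_insert _ _) v hv
    simpa only [Set.mem_insert_iff] using this

end TKWM

open TKWM in
theorem specTKW : SpecTKW := by
  classical
  intro V G h
  obtain ⟨f, I, hf, hk, hd, hl⟩ := h
  have hP : ∀ i j : Fin 5, ∃ p : G.Walk (f i) (f j), i < j →
      (p.IsPath ∧ ∀ v ∈ p.support, v = f i ∨ v = f j ∨ v ∈ I i j) := by
    intro i j
    rcases lt_trichotomy i j with h | h | h
    · obtain ⟨p, hp⟩ := exists_path G _ _ _ (hl i j h)
      exact ⟨p, fun _ => hp⟩
    · subst h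
      exact ⟨SimpleGraph.Walk.nil, fun h => absurd h (lt_irrefl _)⟩
    · obtain ⟨p, hp⟩ := exists_path G _ _ _ (hl j i h)
      exact ⟨p.reverse, fun h' => absurd h' (lt_asymm h)⟩
  choose P hP using hP
  refine ⟨⟨f, hf⟩, P, fun i j hij => (hP i j hij).1, ?_, ?_⟩
  · intro i j hij k hk'
    rcases (hP i j hij).2 _ hk' with h | h | h
    · exact Or.inl (hf h)
    · exact Or.inr (hf h)
    · exact absurd h (hk i j k hij)
  · intro i j i' j' hij hij' hne v hv hv'
    rcases (hP i j hij).2 v hv with h | h | h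
    · exact ⟨i, h.symm⟩
    · exact ⟨j, h.symm⟩
    · rcases (hP i' j' hij').2 v hv' with h' | h' | h'
      · exact ⟨i', h'.symm⟩
      · exact ⟨j', h'.symm⟩
      · exact absurd h' (Set.disjoint_left.1 (hd i j i' j' hij hij' hne) h)

end Pool.Agent.Lib.MPc67b86
end

section
/-!
# GL3: the two sides of a separation of order three have no common pattern
-/
set_option autoImplicit false

namespace Pool.Agent.Lib.MPc67b86

namespace GL3M

/-- Colourings of the two sides with the same pattern on the separator cannot exist. -/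
theorem glue (hGLU : SpecGLU) {V : Type} [Finite V] {G : SimpleGraph V} (hm : Min G)
    {S C : Set V} (hs : Sep G S C) {f g : V → Fin 4} (hf : IsCol G (C ∪ S) f)
    (hg : IsCol G Cᶜ g) (hp : ∀ s ∈ S, ∀ t ∈ S, (f s = f t ↔ g s = g t)) : False := by
  obtain ⟨h, hh, -, -⟩ := hGLU V G (C ∪ S) Cᶜ f g hf hg
    (by
      intro u hu huB v hv hvA huv
      have huC : u ∈ C := by
        by_contra hn
        exact huB hn
      exact hvA (hs.nb u huC v huv))
    (by
      intro s hsA hsB t htA htB
      exact hp s (hsA.resolve_left hsB) t (htA.resolve_left htB))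
  refine hm.bad.2.2 ⟨h, fun u v huv => hh u ?_ v ?_ huv⟩
  · by_cases hu : u ∈ C
    · exact Or.inl (Or.inl hu)
    · exact Or.inr hu
  · by_cases hv : v ∈ C
    · exact Or.inl (Or.inl hv)
    · exact Or.inr hv

end GL3M

/-- **GL3** (from GLU). -/
theorem specGL3 (hGLU : SpecGLU) : SpecGL3 := by
  intro V _ G hm x y z C _ _ _ hs
  refine ⟨?_, ?_, ?_, ?_⟩
  · rintro ⟨⟨f, hf, f1, f2, f3⟩, ⟨g, hg, g1, g2, g3⟩⟩
    refine GL3M.glue hGLU hm hs hf hg ?_
    rintro s (rfl | rfl | rfl) t (rfl | rfl | rfl) <;>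
      simp_all [Ne, eq_comm]
  · rintro ⟨⟨f, hf, f1, f2⟩, ⟨g, hg, g1, g2⟩⟩
    refine GL3M.glue hGLU hm hs hf hg ?_
    rintro s (rfl | rfl | rfl) t (rfl | rfl | rfl) <;>
      simp_all [Ne, eq_comm]
  · rintro ⟨⟨f, hf, f1, f2⟩, ⟨g, hg, g1, g2⟩⟩
    refine GL3M.glue hGLU hm hs hf hg ?_
    rintro s (rfl | rfl | rfl) t (rfl | rfl | rfl) <;>
      simp_all [Ne, eq_comm]
  · rintro ⟨⟨f, hf, f1, f2⟩, ⟨g, hg, g1, g2⟩⟩
    refine GL3M.glue hGLU hm hs hf hg ?_
    rintro s (rfl | rfl | rfl) t (rfl | rfl | rfl) <;>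
      simp_all [Ne, eq_comm]

end Pool.Agent.Lib.MPc67b86
end

section
/-!
MP_c67b86_co: module GLU (gluing of colourings with the same pattern).  (helper76)
-/
set_option autoImplicit false

namespace Pool.Agent.Lib.MPc67b86

namespace GLUM

open Classical in
/-- a permutation extending the recolouring on the intersection -/
theorem exists_perm {V : Type} (S : Set V) (f g : V → Fin 4)
    (h : ∀ s ∈ S, ∀ t ∈ S, (f s = f t ↔ g s = g t)) : ∃ σ : Equiv.Perm (Fin 4), ∀ s ∈ S, σ (g s) = f s := by
  let φ : Fin 4 → Fin 4 := fun c => if h : ∃ s, s ∈ S ∧ g s = c then f h.choose else c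
  have hφ : ∀ s ∈ S, φ (g s) = f s := by
    intro s hs
    have hex : ∃ t, t ∈ S ∧ g t = g s := ⟨s, hs, rfl⟩
    show (if h : ∃ t, t ∈ S ∧ g t = g s then f h.choose else g s) = f s
    rw [dif_pos hex]
    exact (h _ hex.choose_spec.1 _ hs).2 hex.choose_spec.2
  have hinj : Set.InjOn φ (g '' S) := by
    rintro _ ⟨s, hs, rfl⟩ _ ⟨t, ht, rfl⟩ hst
    rw [hφ s hs, hφ t ht] at hst
    exact (h s hs t ht).1 hst
  let e : {x // x ∈ g '' S} ≃ {x // x ∈ φ '' (g '' S)} := Equiv.Set.imageOfInjOn φ (g '' S) hinj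
  refine ⟨e.extendSubtype, fun s hs => ?_⟩
  have hmem : g s ∈ g '' S := ⟨s, hs, rfl⟩
  rw [Equiv.extendSubtype_apply_of_mem e (g s) hmem]
  exact hφ s hs

end GLUM

theorem specGLU : SpecGLU := by
  classical
  intro V G A B f g hf hg hno hpat
  obtain ⟨σ, hσ⟩ := GLUM.exists_perm (A ∩ B) f g (fun s hs t ht => hpat s hs.1 hs.2 t ht.1 ht.2)
  refine ⟨fun u => if u ∈ A then f u else σ (g u), ?_, fun u hu => if_pos hu, σ, fun u hu => ?_⟩
  · intro u hu v hv huv
    show (if u ∈ A then f u else σ (g u)) ≠ (if v ∈ A then f v else σ (g v))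
    by_cases hA : u ∈ A
    · by_cases hA' : v ∈ A
      · rw [if_pos hA, if_pos hA']
        exact hf u hA v hA' huv
      · rw [if_pos hA, if_neg hA']
        have hvB : v ∈ B := hv.resolve_left hA'
        have huB : u ∈ B := by
          by_contra huB
          exact hno u hA huB v hvB hA' huv
        rw [← hσ u ⟨hA, huB⟩]
        exact fun h => hg u huB v hvB huv (σ.injective h)
    · have huB : u ∈ B := hu.resolve_left hA
      by_cases hA' : v ∈ A
      · rw [if_neg hA, if_pos hA']
        have hvB : v ∈ B := by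
          by_contra hvB
          exact hno v hA' hvB u huB hA huv.symm
        rw [← hσ v ⟨hA', hvB⟩]
        exact fun h => hg u huB v hvB huv (σ.injective h)
      · rw [if_neg hA, if_neg hA']
        have hvB : v ∈ B := hv.resolve_left hA'
        exact fun h => hg u huB v hvB huv (σ.injective h)
  · show (if u ∈ A then f u else σ (g u)) = σ (g u)
    by_cases hA : u ∈ A
    · rw [if_pos hA]
      exact (hσ u ⟨hA, hu⟩).symm
    · rw [if_neg hA]

end Pool.Agent.Lib.MPc67b86
end

section
/-!
# Module IN1 (MP_c67b86_co): two attached sets, counting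
-/
set_option autoImplicit false

namespace Pool.Agent.Lib.MPc67b86

theorem specIN1 : SpecIN1 := by
  intro V _ G x y z C hC K p q hK hp hq L r s hL hr hs
  have xC : x ∉ C := fun h => hC.sep.dis x h (by simp)
  have yC : y ∉ C := fun h => hC.sep.dis y h (by simp)
  have zC : z ∉ C := fun h => hC.sep.dis z h (by simp)
  have zK : z ∉ K := fun h => zC (hK.KC z h hC.xz.symm)
  have zL : z ∉ L := fun h => zC (hL.KC z h hC.yz.symm)
  have xL : x ∉ L := fun h => xC (hL.KC x h hC.xy)
  have yK : y ∉ K := fun h => yC (hK.KC y h hC.xy.symm)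
  have side : ∀ v, v ∈ C ∪ {x, y, z} → v ∈ C ∪ {y, x, z} := by
    intro v hv
    rcases hv with h | h | h | h
    · exact Or.inl h
    · exact Or.inr (Or.inr (Or.inl h))
    · exact Or.inr (Or.inl h)
    · exact Or.inr (Or.inr (Or.inr h))
  -- `N₂`
  have N2C : ∀ v, v ∈ (({p, q} \ L) ∪ ({r, s} \ K) : Set V) → v ∈ C := by
    intro v hv
    rcases hv with ⟨h | h, _⟩ | ⟨h | h, _⟩
    · rw [h]; exact hp
    · rw [h]; exact hq
    · rw [h]; exact hr
    · rw [h]; exact hs
  have nbK : ∀ u ∈ K, ∀ v ∈ C ∪ {x, y, z}, G.Adj u v →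
      v ∈ K ∨ v ∈ L ∨ v ∈ (({p, q} \ L) ∪ ({r, s} \ K) : Set V) := by
    intro u hu v hv huv
    by_cases hvL : v ∈ L
    · exact Or.inr (Or.inl hvL)
    rcases hK.nb u hu v hv huv with h | h | h
    · exact Or.inl h
    · exact Or.inr (Or.inr (Or.inl ⟨Or.inl h, hvL⟩))
    · exact Or.inr (Or.inr (Or.inl ⟨Or.inr h, hvL⟩))
  have nbL : ∀ u ∈ L, ∀ v ∈ C ∪ {x, y, z}, G.Adj u v →
      v ∈ K ∨ v ∈ L ∨ v ∈ (({p, q} \ L) ∪ ({r, s} \ K) : Set V) := by
    intro u hu v hv huv
    by_cases hvK : v ∈ K
    · exact Or.inl hvK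
    rcases hL.nb u hu v (side v hv) huv with h | h | h
    · exact Or.inr (Or.inl h)
    · exact Or.inr (Or.inr (Or.inr ⟨Or.inl h, hvK⟩))
    · exact Or.inr (Or.inr (Or.inr ⟨Or.inr h, hvK⟩))
  have part1 : 2 ≤ (({p, q} \ L) ∪ ({r, s} \ K) : Set V).ncard := by
    by_contra hlt
    push Not at hlt
    have hQ : ∀ v ∈ C, v ∈ K ∨ v ∈ L ∨ v ∈ (({p, q} \ L) ∪ ({r, s} \ K) : Set V) := by
      by_contra hne
      push Not at hne
      obtain ⟨v0, hv0C, hv0K, hv0L, hv0N⟩ := hne
      refine hC.no2 (insert z (({p, q} \ L) ∪ ({r, s} \ K) : Set V))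
        {v | v ∈ C ∧ v ∉ K ∧ v ∉ L ∧ v ∉ (({p, q} \ L) ∪ ({r, s} \ K) : Set V)} ?_ ?_
      · have := Set.ncard_insert_le z (({p, q} \ L) ∪ ({r, s} \ K) : Set V)
        omega
      · refine ⟨⟨v0, hv0C, hv0K, hv0L, hv0N⟩, ?_, ⟨x, ?_, fun h => xC h.1⟩, ?_⟩
        · intro v hv hv'
          rcases hv' with h | h
          · rw [h] at hv; exact zC hv.1
          · exact hv.2.2.2 h
        · intro h
          rcases h with h | h
          · exact hC.xz h
          · exact xC (N2C x h)
        · intro u hu v huv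
          have hback : v ∈ K ∨ v ∈ L → False := by
            intro h
            have hu' : u ∈ C ∪ {x, y, z} := Or.inl hu.1
            rcases h with h | h
            · rcases nbK v h u hu' huv.symm with h1 | h1 | h1
              · exact hu.2.1 h1
              · exact hu.2.2.1 h1
              · exact hu.2.2.2 h1
            · rcases nbL v h u hu' huv.symm with h1 | h1 | h1
              · exact hu.2.1 h1
              · exact hu.2.2.1 h1
              · exact hu.2.2.2 h1
          rcases hC.sep.nb u hu.1 v huv with h | h | h | h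
          · by_cases hN : v ∈ (({p, q} \ L) ∪ ({r, s} \ K) : Set V)
            · exact Or.inr (Or.inr hN)
            · exact Or.inl ⟨h, fun h1 => hback (Or.inl h1), fun h1 => hback (Or.inr h1), hN⟩
          · exact absurd (Or.inl (by rw [h]; exact hK.xK)) hback
          · exact absurd (Or.inr (by rw [h]; exact hL.xK)) hback
          · exact Or.inr (Or.inl h)
    obtain ⟨a, ha, b, hb, hab, hza, hzb⟩ := hC.two z (Or.inr (Or.inr rfl))
    have hz : z ∈ C ∪ {x, y, z} := Or.inr (Or.inr (Or.inr rfl))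
    have hin : ∀ c ∈ C, G.Adj z c → c ∈ (({p, q} \ L) ∪ ({r, s} \ K) : Set V) := by
      intro c hc hzc
      rcases hQ c hc with h | h | h
      · rcases nbK c h z hz hzc.symm with h1 | h1 | h1
        · exact absurd h1 zK
        · exact absurd h1 zL
        · exact absurd (N2C z h1) zC
      · rcases nbL c h z hz hzc.symm with h1 | h1 | h1
        · exact absurd h1 zK
        · exact absurd h1 zL
        · exact absurd (N2C z h1) zC
      · exact h
    have h2 : 1 < (({p, q} \ L) ∪ ({r, s} \ K) : Set V).ncard := by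
      rw [Set.one_lt_ncard (Set.toFinite _)]
      exact ⟨a, hin a ha hza, b, hin b hb hzb, hab⟩
    omega
  refine ⟨part1, ?_⟩
  rw [Set.disjoint_left]
  intro u0 hu0K hu0L
  have N1C : ∀ v, v ∈ ((K ∩ {r, s}) ∪ ({p, q} ∩ L) ∪ ({p, q} ∩ {r, s}) : Set V) → v ∈ C := by
    intro v hv
    rcases hv with (⟨_, h | h⟩ | ⟨h | h, _⟩) | ⟨h | h, _⟩
    · rw [h]; exact hr
    · rw [h]; exact hs
    · rw [h]; exact hp
    · rw [h]; exact hq
    · rw [h]; exact hp
    · rw [h]; exact hq
  have MC : ∀ v, v ∈ K → v ∈ L → v ∈ C := by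
    intro v h1 h2
    exact hK.KC v h1 (fun h => xL (h ▸ h2))
  have hcard : 3 ≤ ((K ∩ {r, s}) ∪ ({p, q} ∩ L) ∪ ({p, q} ∩ {r, s}) : Set V).ncard := by
    by_contra hlt
    push Not at hlt
    refine hC.no2 ((K ∩ {r, s}) ∪ ({p, q} ∩ L) ∪ ({p, q} ∩ {r, s}) : Set V) (K ∩ L) (by omega) ?_
    refine ⟨⟨u0, hu0K, hu0L⟩, ?_, ⟨x, fun h => xC (N1C x h), fun h => xL h.2⟩, ?_⟩
    · intro v hv hv'
      rcases hv' with (⟨_, h | h⟩ | ⟨h | h, _⟩) | ⟨h | h, _⟩
      · exact hL.pK (h ▸ hv.2)
      · exact hL.qK (h ▸ hv.2)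
      · exact hK.pK (h ▸ hv.1)
      · exact hK.qK (h ▸ hv.1)
      · exact hK.pK (h ▸ hv.1)
      · exact hK.qK (h ▸ hv.1)
    · intro u hu v huv
      have huC := MC u hu.1 hu.2
      have hv : v ∈ C ∪ {x, y, z} := hC.sep.nb u huC v huv
      have h1 := hK.nb u hu.1 v hv huv
      have h2 := hL.nb u hu.2 v (side v hv) huv
      rcases h1 with h1 | h1
      · rcases h2 with h2 | h2
        · exact Or.inl ⟨h1, h2⟩
        · exact Or.inr (Or.inl (Or.inl ⟨h1, h2⟩))
      · rcases h2 with h2 | h2
        · exact Or.inr (Or.inl (Or.inr ⟨h1, h2⟩))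
        · exact Or.inr (Or.inr ⟨h1, h2⟩)
  have e1 := Set.ncard_inter_add_ncard_sdiff_eq_ncard ({p, q} : Set V) L (Set.toFinite _)
  have e2 := Set.ncard_inter_add_ncard_sdiff_eq_ncard ({r, s} : Set V) K (Set.toFinite _)
  have e3 := Set.ncard_union_add_ncard_inter (({p, q} : Set V) \ L) (({r, s} : Set V) \ K)
    (Set.toFinite _) (Set.toFinite _)
  have e4 : ((({p, q} : Set V) \ L) ∩ (({r, s} : Set V) \ K)) = {p, q} ∩ {r, s} := by
    ext v
    constructor
    · rintro ⟨h1, h2⟩
      exact ⟨h1.1, h2.1⟩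
    · rintro ⟨h1, h2⟩
      refine ⟨⟨h1, ?_⟩, ⟨h2, ?_⟩⟩
      · rcases h2 with h | h
        · rw [h]; exact hL.pK
        · rw [h]; exact hL.qK
      · rcases h1 with h | h
        · rw [h]; exact hK.pK
        · rw [h]; exact hK.qK
  rw [e4] at e3
  have e5 := Set.ncard_pair hK.pq
  have e6 := Set.ncard_pair hL.pq
  have e7 := Set.ncard_union_le (K ∩ {r, s} ∪ {p, q} ∩ L) ({p, q} ∩ {r, s})
  have e8 := Set.ncard_union_le (K ∩ {r, s}) ({p, q} ∩ L)
  have e9 : K ∩ {r, s} = {r, s} ∩ K := Set.inter_comm _ _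
  rw [e9] at e8
  rw [e9] at e7 hcard
  omega

end Pool.Agent.Lib.MPc67b86
end

section
/-!
# MP_c67b86_co: IN2 (two attached sets: the colours)
-/
set_option autoImplicit false

namespace Pool.Agent.Lib.MPc67b86

theorem specIN2 : SpecIN2 := by
  classical
  intro V _ G x y z C hc K p q hK hp hq hEK L r s hL hr hs hEL hKL hpL hqL hrK hsK
  obtain ⟨f, hf, hxy, hxz, hyz⟩ := hc.r
  have hside : ∀ v, v ∈ C ∪ {y, x, z} ↔ v ∈ C ∪ {x, y, z} := by
    intro v
    simp only [Set.mem_union, Set.mem_insert_iff, Set.mem_singleton_iff]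
    tauto
  have hzC : z ∉ C := fun h => hc.sep.dis z h (by simp)
  have hzL : z ∉ L := fun h => hzC (hL.KC z h hc.yz.symm)
  have hyL : y ∈ L := hL.xK
  obtain ⟨h1, h2, h3, h4, h5⟩ := hEK f (fun u hu v hv => hf u hu.1 v hv.1) hyz
  obtain ⟨-, -, -, -, g5⟩ := hEL f (fun u hu v hv => hf u ((hside u).1 hu.1) v ((hside v).1 hv.1)) hxz
  have key : ∀ θ : Equiv.Perm (Fin 4), θ (f s) = f s → θ (f y) ≠ f z →
      θ (f p) ≠ f q ∧ θ (f p) ≠ f z ∧ f q ≠ θ (f y) := by
    intro θ hθ hθy
    have hgcol : IsCol G {v | v ∈ C ∪ {x, y, z} ∧ v ∉ K} (fun v => if v ∈ L then θ (f v) else f v) := by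
      have haux : ∀ u ∈ L, ∀ v, v ∈ C ∪ {x, y, z} → v ∉ K → v ∉ L → G.Adj u v → θ (f u) ≠ f v := by
        intro u hu v hv hvK hvL huv
        have huA : u ∈ C ∪ {x, y, z} := by
          by_cases huy : u = y
          · subst huy; simp
          · exact Or.inl (hL.KC u hu huy)
        have hvs : v = s := by
          rcases hL.nb u hu v ((hside v).2 hv) huv with h | h | h
          · exact absurd h hvL
          · exact absurd (h ▸ hrK) hvK
          · exact h
        subst hvs
        intro h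
        rw [← hθ] at h
        exact hf u huA v hv huv (θ.injective h)
      intro u hu v hv huv
      by_cases huL : u ∈ L <;> by_cases hvL : v ∈ L
      · simp only [huL, hvL, if_true]
        exact fun h => hf u hu.1 v hv.1 huv (θ.injective h)
      · simp only [huL, hvL, if_true, if_false]
        exact haux u huL v hv.1 hv.2 hvL huv
      · simp only [huL, hvL, if_true, if_false]
        exact (haux v hvL u hu.1 hu.2 huL huv.symm).symm
      · simp only [huL, hvL, if_false]
        exact hf u hu.1 v hv.1 huv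
    have := hEK _ hgcol (by simp only [hyL, hzL, if_true, if_false]; exact hθy)
    simp only [hyL, hzL, hpL, hqL, if_true, if_false] at this
    exact ⟨this.1, this.2.2.1, this.2.2.2.1⟩
  by_cases hps : f s = f p
  · have := key (Equiv.swap (f q) (f y))
      (Equiv.swap_apply_of_ne_of_ne (by rw [hps]; exact h1) (by rw [hps]; exact h2))
      (by rw [Equiv.swap_apply_right]; exact h5)
    exact this.2.2 (by rw [Equiv.swap_apply_right])
  · have := key (Equiv.swap (f p) (f z))
      (Equiv.swap_apply_of_ne_of_ne hps g5)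
      (by rw [Equiv.swap_apply_of_ne_of_ne h2.symm hyz]; exact hyz)
    exact this.2.1 (by rw [Equiv.swap_apply_left])

end Pool.Agent.Lib.MPc67b86
end

section
/-!
# IN3: no edges between the two attached sets

`specIN3` from `SpecIN1`, `SpecIN2`.
-/
set_option autoImplicit false

namespace Pool.Agent.Lib.MPc67b86

namespace IN3M

lemma att_swap {V : Type} {G : SimpleGraph V} {x y z : V} {C K : Set V} {p q : V}
    (h : Att G x y z C K p q) : Att G x y z C K q p where
  xK := h.xK
  KC := h.KC
  pq := h.pq.symm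
  pK := h.qK
  qK := h.pK
  pA := h.qA
  qA := h.pA
  nb := fun u hu v hv huv => (h.nb u hu v hv huv).imp id Or.symm
  pr := h.pr

lemma ext_swap {V : Type} {G : SimpleGraph V} {x y z : V} {C K : Set V} {p q : V}
    (h : Ext G x y z C K p q) : Ext G x y z C K q p := by
  intro f hf hyz
  obtain ⟨h1, h2, h3, h4, h5⟩ := h f hf hyz
  exact ⟨h1.symm, h4, h5, h2, h3⟩

lemma main (h1 : SpecIN1) (h2 : SpecIN2) {V : Type} [Finite V] {G : SimpleGraph V} {x y z : V}
    {C : Set V} (hC : Core G x y z C) {K : Set V} {p q : V} (hK : Att G x y z C K p q)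
    (hp : p ∈ C) (hq : q ∈ C) (eK : Ext G x y z C K p q) {L : Set V} {r s : V}
    (hL : Att G y x z C L r s) (hr : r ∈ C) (hs : s ∈ C) (eL : Ext G y x z C L r s)
    (hpL : p ∈ L) (hrK : r ∈ K) : False := by
  obtain ⟨h2', hd⟩ := h1 V G x y z C hC K p q hK hp hq L r s hL hr hs
  have hqL : q ∉ L := by
    intro hqL
    have hsub : (({p, q} \ L) ∪ ({r, s} \ K) : Set V) ⊆ {s} := by
      rintro w (⟨hw | hw, hw'⟩ | ⟨hw | hw, hw'⟩)
      · exact (hw' (hw ▸ hpL)).elim
      · exact (hw' (hw ▸ hqL)).elim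
      · exact (hw' (hw ▸ hrK)).elim
      · exact hw
    have := Set.ncard_le_ncard hsub (Set.toFinite _)
    rw [Set.ncard_singleton] at this
    omega
  have hsK : s ∉ K := by
    intro hsK
    have hsub : (({p, q} \ L) ∪ ({r, s} \ K) : Set V) ⊆ {q} := by
      rintro w (⟨hw | hw, hw'⟩ | ⟨hw | hw, hw'⟩)
      · exact (hw' (hw ▸ hpL)).elim
      · exact hw
      · exact (hw' (hw ▸ hrK)).elim
      · exact (hw' (hw ▸ hsK)).elim
    have := Set.ncard_le_ncard hsub (Set.toFinite _)
    rw [Set.ncard_singleton] at this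
    omega
  exact h2 V G x y z C hC K p q hK hp hq eK L r s hL hr hs eL hd hpL hqL hrK hsK

end IN3M

open IN3M in
theorem specIN3 (h1 : SpecIN1) (h2 : SpecIN2) : SpecIN3 := by
  intro V _ G x y z C hC K p q hK hp hq eK L r s hL hr hs eL
  obtain ⟨_, hd⟩ := h1 V G x y z C hC K p q hK hp hq L r s hL hr hs
  refine ⟨hd, fun u hu v hv huv => ?_⟩
  have hxC : x ∉ C := fun h => hC.sep.dis x h (by simp)
  have hyC : y ∉ C := fun h => hC.sep.dis y h (by simp)
  have hvA : v ∈ C ∪ {x, y, z} := by
    by_cases h : v = y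
    · right; simp [h]
    · exact Or.inl (hL.KC v hv h)
  have huA : u ∈ C ∪ {y, x, z} := by
    by_cases h : u = x
    · right; simp [h]
    · exact Or.inl (hK.KC u hu h)
  have hv' : v = p ∨ v = q := (hK.nb u hu v hvA huv).resolve_left
    fun h => Set.disjoint_left.1 hd h hv
  have hu' : u = r ∨ u = s := (hL.nb v hv u huA huv.symm).resolve_left
    fun h => Set.disjoint_left.1 hd hu h
  have eK' : Ext G x y z C K p q := by
    refine eK.resolve_left fun h => ?_
    rw [h] at hu
    rw [Set.mem_singleton_iff.1 hu] at hu'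
    exact hxC (hu'.elim (fun h => h ▸ hr) (fun h => h ▸ hs))
  have eL' : Ext G y x z C L r s := by
    refine eL.resolve_left fun h => ?_
    rw [h] at hv
    rw [Set.mem_singleton_iff.1 hv] at hv'
    exact hyC (hv'.elim (fun h => h ▸ hp) (fun h => h ▸ hq))
  rcases hv' with rfl | rfl <;> rcases hu' with rfl | rfl
  · exact main h1 h2 hC hK hp hq eK' hL hr hs eL' hv hu
  · exact main h1 h2 hC hK hp hq eK' (att_swap hL) hs hr (ext_swap eL') hv hu
  · exact main h1 h2 hC (att_swap hK) hq hp (ext_swap eK') hL hr hs eL' hv hu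
  · exact main h1 h2 hC (att_swap hK) hq hp (ext_swap eK') (att_swap hL) hs hr (ext_swap eL') hv hu

end Pool.Agent.Lib.MPc67b86
end

section
/-!
# LKS: in a separation of order three all vertices of the separator are connected through the side
-/
set_option autoImplicit false

namespace Pool.Agent.Lib.MPc67b86

namespace LKSM

variable {V : Type} {G : SimpleGraph V}

/-- `res` is monotone in the vertex set. -/
theorem res_mono {A B : Set V} (h : A ⊆ B) : res G A ≤ res G B := by
  intro u v huv
  exact ⟨huv.1, h huv.2.1, h huv.2.2⟩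

/-- A vertex reachable in `res G C` from a vertex of `C` is in `C`. -/
theorem mem_of_reach {C : Set V} {v u : V} (hv : v ∈ C) (h : (res G C).Reachable v u) :
    u ∈ C := by
  obtain ⟨w⟩ := h
  induction w with
  | nil => exact hv
  | cons hadj _ ih => exact ih hadj.2.2

end LKSM

/-- **LKS** (from SP2). -/
theorem specLKS (hSP2 : SpecSP2) : SpecLKS := by
  intro V _ G hm S C hS hsep
  obtain ⟨v, hv⟩ := hsep.ne
  have key : ∀ s ∈ S, ∃ a, (res G C).Reachable v a ∧ G.Adj s a := by
    intro s hs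
    by_contra hcon
    push Not at hcon
    refine hSP2 V G hm (S \ {s}) {u | (res G C).Reachable v u} ?_ ⟨?_, ?_, ?_, ?_⟩
    · have := Set.ncard_sdiff_singleton_of_mem hs
      omega
    · exact ⟨v, SimpleGraph.Reachable.refl v⟩
    · intro u hu huS
      exact hsep.dis u (LKSM.mem_of_reach hv hu) huS.1
    · refine ⟨s, fun h => h.2 rfl, fun h => ?_⟩
      exact hsep.dis s (LKSM.mem_of_reach hv h) hs
    · intro u hu w huw
      have huC := LKSM.mem_of_reach hv hu
      rcases hsep.nb u huC w huw with hw | hw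
      · left
        have : (res G C).Adj u w := ⟨huw, huC, hw⟩
        exact SimpleGraph.Reachable.trans hu this.reachable
      · right
        refine ⟨hw, fun h => ?_⟩
        have h' : w = s := h
        subst h'
        exact hcon u hu huw.symm
  refine ⟨fun s hs => ?_, fun s hs t ht hst => ?_⟩
  · obtain ⟨a, ha, hsa⟩ := key s hs
    exact ⟨a, LKSM.mem_of_reach hv ha, hsa⟩
  · obtain ⟨a, ha, hsa⟩ := key s hs
    obtain ⟨b, hb, htb⟩ := key t ht
    have haC := LKSM.mem_of_reach hv ha
    have hbC := LKSM.mem_of_reach hv hb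
    have hsub : C ⊆ insert s (insert t C) := fun u hu => Or.inr (Or.inr hu)
    have h1 : (res G (insert s (insert t C))).Adj s a := ⟨hsa, Or.inl rfl, hsub haC⟩
    have h2 : (res G (insert s (insert t C))).Adj b t := ⟨htb.symm, hsub hbC, Or.inr (Or.inl rfl)⟩
    have h3 : (res G C).Reachable a b := (SimpleGraph.Reachable.symm ha).trans hb
    exact (h1.reachable.trans (h3.mono (LKSM.res_mono hsub))).trans h2.reachable

end Pool.Agent.Lib.MPc67b86
end

section
/-!
# MP_c67b86_co, module NIV: a minimal counterexample without isolated vertices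
-/
set_option autoImplicit false

namespace Pool.Agent.Lib.MPc67b86

namespace NIVM

variable {V W : Type}

/-- connections in an induced subgraph -/
theorem lk_comap (e : W ↪ V) {G : SimpleGraph V} {x y : W} {I : Set W} (h : Lk (G.comap e) x y I) :
    Lk G (e x) (e y) (e '' I) := by
  have hz : ∀ c, c ∈ insert x (insert y I) → e c ∈ insert (e x) (insert (e y) (e '' I)) := by
    rintro c (rfl | rfl | hc)
    · exact Or.inl rfl
    · exact Or.inr (Or.inl rfl)
    · exact Or.inr (Or.inr ⟨c, hc, rfl⟩)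
  exact h.map (⟨e, fun {a b} hab => ⟨hab.1, hz _ hab.2.1, hz _ hab.2.2⟩⟩ :
    res (G.comap e) (insert x (insert y I)) →g res G (insert (e x) (insert (e y) (e '' I))))

theorem tk_comap (e : W ↪ V) {G : SimpleGraph V} (h : TK5 (G.comap e)) : TK5 G := by
  obtain ⟨f, I, hf, h1, h2, h3⟩ := h
  refine ⟨fun i => e (f i), fun i j => e '' I i j, fun i j hij => hf (e.injective hij), ?_, ?_, ?_⟩
  · rintro i j k hij ⟨w, hw, hwk⟩
    exact h1 i j k hij (e.injective hwk ▸ hw)
  · intro i j i' j' hij hij' hne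
    exact Set.disjoint_image_of_injective e.injective (h2 i j i' j' hij hij' hne)
  · intro i j hij
    exact lk_comap e (h3 i j hij)

/-- a counterexample in the class -/
def Bd (CC : ∀ (V : Type), SimpleGraph V → Prop) (G : SimpleGraph V) : Prop :=
  CC V G ∧ ¬ TK5 G ∧ ¬ Col4 G

theorem bad_comap {CC : ∀ (V : Type), SimpleGraph V → Prop}
    (hCC : ∀ (V W : Type) [Finite V] [Finite W] (e : W ↪ V) (G : SimpleGraph V), CC V G →
      CC W (G.comap e)) [Finite V] [Finite W] (e : W ↪ V) {G : SimpleGraph V}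
    (hiso : ∀ v, (∀ w, e w ≠ v) → ∀ u, ¬ G.Adj v u) (h : Bd CC G) : Bd CC (G.comap e) := by
  classical
  refine ⟨hCC V W e G h.1, fun h' => h.2.1 (tk_comap e h'), fun h' => h.2.2 ?_⟩
  obtain ⟨f, hf⟩ := h'
  have hr : ∀ u v, G.Adj u v → ∃ w, e w = u := by
    intro u v huv
    by_contra hne
    exact hiso u (fun w hw => hne ⟨w, hw⟩) v huv
  refine ⟨fun v => if h : ∃ w, e w = v then f h.choose else 0, fun u v huv => ?_⟩
  have hu := hr u v huv
  have hv := hr v u huv.symm
  simp only [dif_pos hu, dif_pos hv]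
  refine hf _ _ ?_
  show G.Adj (e hu.choose) (e hv.choose)
  rw [hu.choose_spec, hv.choose_spec]
  exact huv

end NIVM

open NIVM in
theorem specNIV : SpecNIV := by
  classical
  intro CC hcl hco V _ G hG1 hG2 hG3
  obtain ⟨n, ⟨e⟩⟩ := Finite.exists_equiv_fin V
  have hP : ∃ n : ℕ, ∃ G' : SimpleGraph (Fin n), Bd CC G' :=
    ⟨n, G.comap e.symm.toEmbedding, bad_comap hco e.symm.toEmbedding
      (fun v hv => absurd (e.symm_apply_apply v) (hv (e v))) ⟨hG1, hG2, hG3⟩⟩
  have hn := Nat.find_spec hP
  have hmin := fun m (hm : m < Nat.find hP) => Nat.find_min hP hm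
  generalize Nat.find hP = n₀ at hn hmin
  have hQ : ∃ k : ℕ, ∃ G' : SimpleGraph (Fin n₀), Bd CC G' ∧ G'.edgeSet.ncard = k := by
    obtain ⟨G', hG'⟩ := hn
    exact ⟨_, G', hG', rfl⟩
  obtain ⟨G', hG', hk⟩ := Nat.find_spec hQ
  refine ⟨n₀, G', ⟨⟨trivial, hG'.2⟩, ⟨CC (Fin n₀), hcl (Fin n₀), hG'.1, ?_⟩, ?_⟩, hG'.1⟩
  · intro G'' h1 h2 h3 hlt
    rw [hk] at hlt
    exact Nat.find_min hQ hlt ⟨G'', ⟨h1, h2, h3⟩, rfl⟩
  · intro v
    by_contra hv
    push Not at hv
    obtain ⟨m, rfl⟩ : ∃ m, n₀ = m + 1 := by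
      cases n₀ with
      | zero => exact v.elim0
      | succ m => exact ⟨m, rfl⟩
    refine hmin m (Nat.lt_succ_self m) ⟨G'.comap (Fin.succAboveEmb v), bad_comap hco _ ?_ hG'⟩
    intro u hu w hadj
    by_cases huv : u = v
    · subst huv; exact hv w hadj
    · obtain ⟨z, hz⟩ := Fin.exists_succAbove_eq huv
      exact hu z hz

end Pool.Agent.Lib.MPc67b86
end

section
/-!
# OPP: the opposite side of a separation
-/
set_option autoImplicit false

namespace Pool.Agent.Lib.MPc67b86

/-- **OPP.** -/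
theorem specOPP : SpecOPP := by
  intro V G S C h
  refine ⟨⟨?_, ?_, ?_, ?_⟩, ?_, compl_compl _⟩
  · obtain ⟨v, hvS, hvC⟩ := h.out
    exact ⟨v, fun hv => hv.elim hvC hvS⟩
  · intro v hv hvS
    exact hv (Or.inr hvS)
  · obtain ⟨v, hv⟩ := h.ne
    exact ⟨v, h.dis v hv, fun hn => hn (Or.inl hv)⟩
  · intro u hu v huv
    by_cases hvS : v ∈ S
    · exact Or.inr hvS
    · left
      rintro (hvC | hvS')
      · exact hu (h.nb v hvC u huv.symm)
      · exact hvS hvS'
  · ext v
    constructor
    · rintro (hv | hv) hvC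
      · exact hv (Or.inl hvC)
      · exact h.dis v hvC hv
    · intro hvC
      by_cases hvS : v ∈ S
      · exact Or.inr hvS
      · left
        rintro (h' | h')
        · exact hvC h'
        · exact hvS h'

end Pool.Agent.Lib.MPc67b86
end

section
/-!
# MP_c67b86_co, module RED: the reduction theorem
-/
set_option autoImplicit false

namespace Pool.Agent.Lib.MPc67b86

namespace REDM

variable {V : Type}

/-- the reduced graph -/
def Hg (G : SimpleGraph V) (W : Set V) {m : ℕ} (x y : Fin m → V) : SimpleGraph V where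
  Adj a b := a ≠ b ∧ ((G.Adj a b ∧ a ∈ W ∧ b ∈ W) ∨ ∃ j, (a = x j ∧ b = y j) ∨ (a = y j ∧ b = x j))
  symm := ⟨fun _ _ h => ⟨h.1.symm, h.2.imp (fun h => ⟨h.1.symm, h.2.2, h.2.1⟩)
    (fun ⟨j, h⟩ => ⟨j, h.elim (fun h => Or.inr ⟨h.2, h.1⟩) (fun h => Or.inl ⟨h.2, h.1⟩)⟩)⟩⟩
  loopless := ⟨fun _ h => h.1 rfl⟩

theorem ncard_mono [Finite V] {G H : SimpleGraph V} (h : H ≤ G) :
    H.edgeSet.ncard ≤ G.edgeSet.ncard :=
  Set.ncard_le_ncard (SimpleGraph.edgeSet_mono h) (Set.toFinite _)

theorem lk_mono {G H : SimpleGraph V} {x y : V} {I : Set V}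
    (h : ∀ a b, a ∈ insert x (insert y I) → b ∈ insert x (insert y I) → G.Adj a b → H.Adj a b)
    (hL : Lk G x y I) : Lk H x y I := by
  refine SimpleGraph.Reachable.mono ?_ hL
  intro a b hab
  exact ⟨h a b hab.2.1 hab.2.2 hab.1, hab.2.1, hab.2.2⟩

theorem step (P : SimpleGraph V → Prop) (hP : Closed P) (hTKL : SpecTKL) (hCNT : SpecCNT) [Finite V]
    (W : Set V) : ∀ (m : ℕ) (G : SimpleGraph V) (x y : Fin m → V) (I : Fin m → Set V),
    P G → ¬ TK5 G →
    (∀ j, x j ∈ W) → (∀ j, y j ∈ W) → (∀ j, x j ≠ y j) → (∀ j, Disjoint (I j) W) →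
    (∀ j k, j ≠ k → Disjoint (I j) (I k)) → (∀ j, Lk G (x j) (y j) (I j)) →
    P (Hg G W x y) ∧ ¬ TK5 (Hg G W x y) ∧ (Hg G W x y).edgeSet.ncard ≤ G.edgeSet.ncard ∧
      ((∃ j, ¬ G.Adj (x j) (y j)) → (Hg G W x y).edgeSet.ncard < G.edgeSet.ncard) := by
  intro m
  induction m with
  | zero =>
    intro G x y I hE hT _ _ _ _ _ _
    have hle : Hg G W x y ≤ G := by
      rintro a b ⟨_, h | ⟨j, _⟩⟩
      · exact h.1
      · exact j.elim0
    exact ⟨hP.1 G _ hle hE, fun h => hT (hTKL.1 V G _ hle h), ncard_mono hle,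
      fun ⟨j, _⟩ => j.elim0⟩
  | succ m ih =>
    intro G x y I hE hT hx hy hxy hIW hII hL
    by_cases hadj : G.Adj (x 0) (y 0)
    · obtain ⟨i1, i2, i3, i4⟩ := ih G (fun j => x j.succ) (fun j => y j.succ)
        (fun j => I j.succ) hE hT (fun j => hx _) (fun j => hy _) (fun j => hxy _)
        (fun j => hIW _) (fun j k hjk => hII _ _ fun h => hjk (Fin.succ_injective _ h))
        (fun j => hL _)
      have hle : Hg G W x y ≤ Hg G W (fun j : Fin m => x j.succ) (fun j => y j.succ) := by
        rintro a b ⟨hab, h | ⟨j, h⟩⟩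
        · exact ⟨hab, Or.inl h⟩
        · revert h
          refine Fin.cases ?_ (fun j => ?_) j
          · rintro (⟨rfl, rfl⟩ | ⟨rfl, rfl⟩)
            · exact ⟨hab, Or.inl ⟨hadj, hx 0, hy 0⟩⟩
            · exact ⟨hab, Or.inl ⟨hadj.symm, hy 0, hx 0⟩⟩
          · intro h
            exact ⟨hab, Or.inr ⟨j, h⟩⟩
      refine ⟨hP.1 _ _ hle i1, fun h => i2 (hTKL.1 V _ _ hle h), (ncard_mono hle).trans i3, ?_⟩
      rintro ⟨j, hj⟩
      refine lt_of_le_of_lt (ncard_mono hle) (i4 ?_)
      revert hj
      refine Fin.cases ?_ (fun j => ?_) j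
      · intro h; exact absurd hadj h
      · intro h; exact ⟨j, h⟩
    · have h0x : x 0 ∉ I 0 := fun h => (Set.disjoint_left.1 (hIW 0)) h (hx 0)
      have h0y : y 0 ∉ I 0 := fun h => (Set.disjoint_left.1 (hIW 0)) h (hy 0)
      have hE1 := hP.2 G (x 0) (y 0) (I 0) (hxy 0) h0x h0y (hL 0) hE
      have hT1 : ¬ TK5 (lop G (I 0) (x 0) (y 0)) := fun h =>
        hT (hTKL.2 V G (x 0) (y 0) (I 0) (hxy 0) h0x h0y (hL 0) h)
      have hc := hCNT V G (x 0) (y 0) (I 0) (hxy 0) h0x h0y (hL 0) hadj
      have hWI : ∀ w ∈ W, w ∉ I 0 := fun w hw h => (Set.disjoint_left.1 (hIW 0)) h hw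
      obtain ⟨i1, i2, i3, _⟩ := ih (lop G (I 0) (x 0) (y 0)) (fun j => x j.succ)
        (fun j => y j.succ) (fun j => I j.succ) hE1 hT1 (fun j => hx _) (fun j => hy _)
        (fun j => hxy _) (fun j => hIW _)
        (fun j k hjk => hII _ _ fun h => hjk (Fin.succ_injective _ h))
        (fun j => by
          refine lk_mono ?_ (hL j.succ)
          have hz : ∀ a, a ∈ insert (x j.succ) (insert (y j.succ) (I j.succ)) → a ∉ I 0 := by
            rintro a (rfl | rfl | ha)
            · exact hWI _ (hx _)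
            · exact hWI _ (hy _)
            · exact fun h => Set.disjoint_left.1 (hII j.succ 0 (Fin.succ_ne_zero j)) ha h
          intro a b ha hb hab
          exact ⟨hab.ne, Or.inl ⟨hab, hz a ha, hz b hb⟩⟩)
      have hle : Hg G W x y ≤ Hg (lop G (I 0) (x 0) (y 0)) W (fun j : Fin m => x j.succ)
          (fun j => y j.succ) := by
        rintro a b ⟨hab, h | ⟨j, h⟩⟩
        · exact ⟨hab, Or.inl ⟨⟨hab, Or.inl ⟨h.1, hWI a h.2.1, hWI b h.2.2⟩⟩, h.2.1, h.2.2⟩⟩
        · revert h
          refine Fin.cases ?_ (fun j => ?_) j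
          · rintro (⟨rfl, rfl⟩ | ⟨rfl, rfl⟩)
            · exact ⟨hab, Or.inl ⟨⟨hab, Or.inr (Or.inl ⟨rfl, rfl⟩)⟩, hx 0, hy 0⟩⟩
            · exact ⟨hab, Or.inl ⟨⟨hab, Or.inr (Or.inr ⟨rfl, rfl⟩)⟩, hy 0, hx 0⟩⟩
          · intro h
            exact ⟨hab, Or.inr ⟨j, h⟩⟩
      have hlt := lt_of_le_of_lt ((ncard_mono hle).trans i3) hc
      exact ⟨hP.1 _ _ hle i1, fun h => i2 (hTKL.1 V _ _ hle h), hlt.le, fun _ => hlt⟩

end REDM

open REDM in
theorem specRED (hTKL : SpecTKL) (hCNT : SpecCNT) : SpecRED := by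
  intro V _ G hG W hW m x y I hx hy hxy hIW hII hL
  obtain ⟨P, hP, hPG, hmin⟩ := hG.ex
  obtain ⟨h1, h2, h3, h4⟩ := step P hP hTKL hCNT W m G x y I hPG hG.bad.2.1 hx hy hxy
    hIW hII hL
  have hlt : (Hg G W x y).edgeSet.ncard < G.edgeSet.ncard := by
    by_cases hall : ∃ j, ¬ G.Adj (x j) (y j)
    · exact h4 hall
    · push Not at hall
      obtain ⟨a, ha⟩ := hW
      obtain ⟨w, hw⟩ := hG.iso a
      refine Set.ncard_lt_ncard ⟨?_, ?_⟩ (Set.toFinite _)
      · refine SimpleGraph.edgeSet_mono ?_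
        rintro u v ⟨_, h | ⟨j, ⟨rfl, rfl⟩ | ⟨rfl, rfl⟩⟩⟩
        · exact h.1
        · exact hall j
        · exact (hall j).symm
      · intro hsub
        have h5 : s(a, w) ∈ (Hg G W x y).edgeSet := hsub ((SimpleGraph.mem_edgeSet G).2 hw)
        rw [SimpleGraph.mem_edgeSet] at h5
        rcases h5 with ⟨_, h | ⟨j, ⟨h, _⟩ | ⟨h, _⟩⟩⟩
        · exact ha h.2.1
        · exact ha (h ▸ hx j)
        · exact ha (h ▸ hy j)
  have hcol : Col4 (Hg G W x y) := by
    by_contra hc
    exact hmin _ h1 h2 hc hlt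
  obtain ⟨f, hf⟩ := hcol
  refine ⟨f, fun u hu v hv huv => hf u v ⟨huv.ne, Or.inl ⟨huv, hu, hv⟩⟩, fun j => ?_⟩
  exact hf _ _ ⟨hxy j, Or.inr ⟨j, Or.inl ⟨rfl, rfl⟩⟩⟩

end Pool.Agent.Lib.MPc67b86
end

section
/-!
# SP2: no separation of order at most two
-/
set_option autoImplicit false

namespace Pool.Agent.Lib.MPc67b86

namespace SP2M

variable {V : Type}

theorem core [Finite V] (hRED : SpecRED) (G : SimpleGraph V) (hG : Min G) (x y : V) (hxy : x ≠ y)
    (X Y : Set V) (hxX : x ∈ X) (hyX : y ∈ X) (hxY : x ∈ Y) (hyY : y ∈ Y)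
    (hd : ∀ v ∈ Y, v ∈ X → v = x ∨ v = y) (ha : ∃ a, a ∉ X)
    (hY : ∀ f, IsCol G Y f → f x ≠ f y) (hX : ∀ f, IsCol G X f → f x = f y)
    (f : V → Fin 4) (hf : IsCol G Y f) : False := by
  classical
  have hreach : (res G Y).Reachable x y := by
    by_contra hn
    let K : Set V := {v | (res G Y).Reachable x v}
    let g : V → Fin 4 := fun v => if v ∈ K then Equiv.swap (f x) (f y) (f v) else f v
    have hxK : x ∈ K := SimpleGraph.Reachable.refl x
    have hyK : y ∉ K := hn
    have hg : IsCol G Y g := by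
      intro u hu v hv huv
      have hadj : (res G Y).Adj u v := ⟨huv, hu, hv⟩
      have huvK : u ∈ K ↔ v ∈ K :=
        ⟨fun h => SimpleGraph.Reachable.trans h hadj.reachable,
          fun h => SimpleGraph.Reachable.trans h hadj.symm.reachable⟩
      have hne := hf u hu v hv huv
      show (if u ∈ K then Equiv.swap (f x) (f y) (f u) else f u)
        ≠ (if v ∈ K then Equiv.swap (f x) (f y) (f v) else f v)
      by_cases hk : u ∈ K
      · rw [if_pos hk, if_pos (huvK.1 hk)]
        exact fun h => hne ((Equiv.swap (f x) (f y)).injective h)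
      · rw [if_neg hk, if_neg (fun h => hk (huvK.2 h))]
        exact hne
    apply hY g hg
    show (if x ∈ K then Equiv.swap (f x) (f y) (f x) else f x)
        = (if y ∈ K then Equiv.swap (f x) (f y) (f y) else f y)
    rw [if_pos hxK, if_neg hyK, Equiv.swap_apply_left]
  have hset : insert x (insert y (Y \ {x, y})) = Y := by
    ext v
    simp only [Set.mem_insert_iff, Set.mem_sdiff, Set.mem_singleton_iff]
    constructor
    · rintro (h | h | h)
      · rw [h]; exact hxY
      · rw [h]; exact hyY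
      · exact h.1
    · intro h
      by_cases h1 : v = x
      · exact Or.inl h1
      · by_cases h2 : v = y
        · exact Or.inr (Or.inl h2)
        · exact Or.inr (Or.inr ⟨h, fun h3 => h3.elim h1 h2⟩)
  obtain ⟨g, hg, hgxy⟩ := hRED V G hG X ha 1 (fun _ => x) (fun _ => y) (fun _ => Y \ {x, y})
    (fun _ => hxX) (fun _ => hyX) (fun _ => hxy) (fun _ => by
      rw [Set.disjoint_left]
      intro v hv hvX
      have h1 := hd v hv.1 hvX
      exact hv.2 (by simpa using h1)) (fun j k hjk => absurd (Subsingleton.elim j k) hjk) (fun _ => by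
      show (res G (insert x (insert y (Y \ {x, y})))).Reachable x y
      rw [hset]
      exact hreach)
  exact hgxy 0 (hX g hg)

end SP2M

open SP2M in
theorem specSP2 (hRED : SpecRED) (hGLU : SpecGLU) : SpecSP2 := by
  intro V _ G hG S C hS hsep
  have hnc : ¬ Col4 G := hG.bad.2.2
  -- colourings of the two sides
  have hA : ∃ a, a ∉ C ∪ S := by
    obtain ⟨v, h1, h2⟩ := hsep.out
    exact ⟨v, fun h => h.elim h2 h1⟩
  have hB : ∃ a, a ∉ Cᶜ := by
    obtain ⟨v, hv⟩ := hsep.ne
    exact ⟨v, fun h => h hv⟩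
  obtain ⟨f0, hf0, -⟩ := hRED V G hG (C ∪ S) hA 0 Fin.elim0 Fin.elim0 Fin.elim0
    (fun j => j.elim0) (fun j => j.elim0) (fun j => j.elim0) (fun j => j.elim0) (fun j => j.elim0)
    (fun j => j.elim0)
  obtain ⟨g0, hg0, -⟩ := hRED V G hG Cᶜ hB 0 Fin.elim0 Fin.elim0 Fin.elim0
    (fun j => j.elim0) (fun j => j.elim0) (fun j => j.elim0) (fun j => j.elim0) (fun j => j.elim0)
    (fun j => j.elim0)
  have glue : ∀ f g, IsCol G (C ∪ S) f → IsCol G Cᶜ g →
      (∀ s ∈ S, ∀ t ∈ S, (f s = f t ↔ g s = g t)) → False := by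
    intro f g hf hg hpat
    obtain ⟨h, hh, -⟩ := hGLU V G (C ∪ S) Cᶜ f g hf hg (by
      intro u hu hu' v hv hv' huv
      have huC : u ∈ C := by
        by_contra hc
        exact hu' hc
      rcases hsep.nb u huC v huv with h | h
      · exact hv' (Or.inl h)
      · exact hv' (Or.inr h)) (by
      intro s hs hs' t ht ht'
      exact hpat s (hs.resolve_left hs') t (ht.resolve_left ht'))
    apply hnc
    refine ⟨h, fun u v huv => hh u ?_ v ?_ huv⟩
    · by_cases hu : u ∈ C
      · exact Or.inl (Or.inl hu)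
      · exact Or.inr hu
    · by_cases hu : v ∈ C
      · exact Or.inl (Or.inl hu)
      · exact Or.inr hu
  by_cases hS1 : S.ncard ≤ 1
  · apply glue f0 g0 hf0 hg0
    intro s hs t ht
    have hst : s = t := (Set.ncard_le_one S.toFinite).1 hS1 s hs t ht
    rw [hst]
    exact ⟨fun _ => rfl, fun _ => rfl⟩
  · have hS2 : S.ncard = 2 := by omega
    obtain ⟨x, y, hxy, hSxy⟩ := Set.ncard_eq_two.1 hS2
    have hxS : x ∈ S := by rw [hSxy]; exact Or.inl rfl
    have hyS : y ∈ S := by rw [hSxy]; exact Or.inr rfl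
    have hxC : x ∈ Cᶜ := fun h => hsep.dis x h hxS
    have hyC : y ∈ Cᶜ := fun h => hsep.dis y h hyS
    have noglue : ∀ f g, IsCol G (C ∪ S) f → IsCol G Cᶜ g → ¬ (f x = f y ↔ g x = g y) := by
      intro f g hf hg hpat
      apply glue f g hf hg
      intro s hs t ht
      rw [hSxy] at hs ht
      rcases hs with hs | hs <;> rcases ht with ht | ht
      · rw [hs, ht]; exact ⟨fun _ => rfl, fun _ => rfl⟩
      · rw [hs, Set.mem_singleton_iff.1 ht]; exact hpat
      · rw [ht, Set.mem_singleton_iff.1 hs]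
        constructor
        · intro h; exact (hpat.1 h.symm).symm
        · intro h; exact (hpat.2 h.symm).symm
      · rw [Set.mem_singleton_iff.1 hs, Set.mem_singleton_iff.1 ht]
        exact ⟨fun _ => rfl, fun _ => rfl⟩
    have memS : ∀ v ∈ S, v = x ∨ v = y := by
      intro v hv
      rw [hSxy] at hv
      exact hv
    by_cases h0 : f0 x = f0 y
    · -- `Y = Cᶜ`, `X = C ∪ S`
      have hY : ∀ g, IsCol G Cᶜ g → g x ≠ g y := fun g hg h =>
        noglue f0 g hf0 hg ⟨fun _ => h, fun _ => h0⟩
      have hX : ∀ f, IsCol G (C ∪ S) f → f x = f y := by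
        intro f hf
        by_contra h
        exact noglue f g0 hf hg0 ⟨fun h' => absurd h' h, fun h' => absurd h' (hY g0 hg0)⟩
      exact core hRED G hG x y hxy (C ∪ S) Cᶜ (Or.inr hxS) (Or.inr hyS) hxC hyC
        (fun v hv hv' => memS v (hv'.resolve_left hv)) hA hY hX g0 hg0
    · have hX : ∀ g, IsCol G Cᶜ g → g x = g y := by
        intro g hg
        by_contra h
        exact noglue f0 g hf0 hg ⟨fun h' => absurd h' h0, fun h' => absurd h' h⟩
      have hY : ∀ f, IsCol G (C ∪ S) f → f x ≠ f y := fun f hf h =>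
        noglue f g0 hf hg0 ⟨fun _ => hX g0 hg0, fun _ => h⟩
      exact core hRED G hG x y hxy Cᶜ (C ∪ S) hxC hyC (Or.inr hxS) (Or.inr hyS)
        (fun v hv hv' => memS v (hv.resolve_left hv')) hB hY hX f0 hf0

end Pool.Agent.Lib.MPc67b86
end

section
/-!
# MP_c67b86_co, module SP3: no separation of order at most three
-/
set_option autoImplicit false

namespace Pool.Agent.Lib.MPc67b86

namespace SP3M

theorem side {V : Type} (C : Set V) (x y z : V) :
    C ∪ ({y, x, z} : Set V) = C ∪ {x, y, z} := by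
  ext v
  simp only [Set.mem_union, Set.mem_insert_iff, Set.mem_singleton_iff]
  tauto

theorem four (a b c d e : Fin 4) (h1 : a ≠ b) (h2 : a ≠ c) (h3 : b ≠ c) (h4 : d ≠ a) (h5 : d ≠ b)
    (h6 : d ≠ c) (h7 : e ≠ a) (h8 : e ≠ b) (h9 : e ≠ c) : d = e := by
  revert a b c d e
  decide

end SP3M

open SP3M in
theorem specSP3 (hCOR : SpecCOR) (hCSW : SpecCSW) (hCAT : SpecCAT) (hDG2 : SpecDG2)
    (hCAP : SpecCAP) (hIN3 : SpecIN3) : SpecSP3 := by
  classical
  intro V _ G hG S C₀ hS hsep
  obtain ⟨x, y, z, C, hC⟩ := hCOR V G hG S C₀ hS hsep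
  have hC' := (hCSW V G x y z C hC).1
  obtain ⟨K, p, q, hK⟩ := hCAT V G x y z C hC
  obtain ⟨L, r, s, hL⟩ := hCAT V G y x z C hC'
  have h1 : p ∈ C ∧ q ∈ C ∧ Flex G x y z C K ∧ (K = {x} ∨ Ext G x y z C K p q) := by
    by_cases h : K = {x}
    · subst h
      obtain ⟨a, b, c⟩ := hDG2 V G x y z C hC p q hK
      exact ⟨a, b, c, Or.inl rfl⟩
    · obtain ⟨a, b, c, d⟩ := hCAP V G x y z C hC K p q hK h
      exact ⟨a, b, c, Or.inr d⟩
  have h2 : r ∈ C ∧ s ∈ C ∧ Flex G y x z C L ∧ (L = {y} ∨ Ext G y x z C L r s) := by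
    by_cases h : L = {y}
    · subst h
      obtain ⟨a, b, c⟩ := hDG2 V G y x z C hC' r s hL
      exact ⟨a, b, c, Or.inl rfl⟩
    · obtain ⟨a, b, c, d⟩ := hCAP V G y x z C hC' L r s hL h
      exact ⟨a, b, c, Or.inr d⟩
  obtain ⟨hp, hq, fK, eK⟩ := h1
  obtain ⟨hr, hs, fL, eL⟩ := h2
  obtain ⟨hd, hno⟩ := hIN3 V G x y z C hC K p q hK hp hq eK L r s hL hr hs eL
  obtain ⟨f, hf, hxy, hxz, hyz⟩ := hC.r
  obtain ⟨g, hg, gK, g1, g2, g3⟩ := fK f hf hxy hxz hyz
  obtain ⟨h, hh, hL', h1, h2, h3⟩ := fL f (by rw [side]; exact hf) hxy.symm hyz hxz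
  rw [side] at hh
  have hzC : z ∉ C := fun h => hC.sep.dis z h (by simp)
  have hzK : z ∉ K := fun h => hzC (hK.KC z h hC.xz.symm)
  have hzL : z ∉ L := fun h => hzC (hL.KC z h hC.yz.symm)
  have hyK : y ∉ K := fun h => Set.disjoint_left.1 hd h hL.xK
  have hxL : x ∉ L := fun h => Set.disjoint_left.1 hd hK.xK h
  refine hC.sxy ⟨fun v => if v ∈ K then g v else if v ∈ L then h v else f v, ?_, ?_, ?_⟩
  · -- a colouring
    have kk : ∀ v, v ∉ L → (if v ∈ K then g v else if v ∈ L then h v else f v) = g v := by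
      intro v hv
      by_cases hvK : v ∈ K
      · rw [if_pos hvK]
      · rw [if_neg hvK, if_neg hv, gK v hvK]
    have ll : ∀ v, v ∉ K → (if v ∈ K then g v else if v ∈ L then h v else f v) = h v := by
      intro v hv
      rw [if_neg hv]
      by_cases hvL : v ∈ L
      · rw [if_pos hvL]
      · rw [if_neg hvL, hL' v hvL]
    intro u hu v hv huv
    show (if u ∈ K then g u else if u ∈ L then h u else f u) ≠
      (if v ∈ K then g v else if v ∈ L then h v else f v)
    by_cases huL : u ∈ L
    · have huK : u ∉ K := fun h' => Set.disjoint_left.1 hd h' huL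
      have hvK : v ∉ K := fun h' => hno v h' u huL huv.symm
      rw [ll u huK, ll v hvK]
      exact hh u hu v hv huv
    · by_cases hvL : v ∈ L
      · have hvK : v ∉ K := fun h' => Set.disjoint_left.1 hd h' hvL
        have huK : u ∉ K := fun h' => hno u h' v hvL huv
        rw [ll u huK, ll v hvK]
        exact hh u hu v hv huv
      · rw [kk u huL, kk v hvL]
        exact hg u hu v hv huv
  · show (if x ∈ K then g x else if x ∈ L then h x else f x) =
      (if y ∈ K then g y else if y ∈ L then h y else f y)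
    rw [if_pos hK.xK, if_neg hyK, if_pos hL.xK]
    exact four (f x) (f y) (f z) (g x) (h y) hxy hxz hyz g1 g2 g3 h2 h1 h3
  · show (if x ∈ K then g x else if x ∈ L then h x else f x) ≠
      (if z ∈ K then g z else if z ∈ L then h z else f z)
    rw [if_pos hK.xK, if_neg hzK, if_neg hzL]
    exact g3

end Pool.Agent.Lib.MPc67b86
end

section
/-!
# STA: the star at `z`
-/
set_option autoImplicit false

namespace Pool.Agent.Lib.MPc67b86

namespace STAM

variable {V : Type} {G : SimpleGraph V}

/-- A vertex different from the start and reachable in `res G A` is in `A`. -/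
theorem mem_of_reach {A : Set V} {v u : V} (hne : u ≠ v) (h : (res G A).Reachable v u) :
    u ∈ A := by
  obtain ⟨w⟩ := h.symm
  cases w with
  | nil => exact absurd rfl hne
  | cons hadj _ => exact hadj.2.1

/-- recolouring `z` -/
theorem update_col {A : Set V} {f : V → Fin 4} (hf : IsCol G A f) (z : V) (c : Fin 4)
    (h : ∀ v ∈ A, G.Adj z v → f v ≠ c) : ∃ g, IsCol G A g ∧ g z = c ∧ ∀ v, v ≠ z → g v = f v := by
  classical
  refine ⟨Function.update f z c, ?_, by simp, fun v hv => by simp [hv]⟩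
  intro u hu v hv huv
  have huv' := huv.ne
  by_cases h1 : u = z
  · subst h1
    have h2 : v ≠ u := huv'.symm
    simp only [Function.update_self, Function.update_of_ne h2]
    exact (h v hv huv).symm
  · by_cases h2 : v = z
    · subst h2
      simp only [Function.update_self, Function.update_of_ne h1]
      exact h u hu huv.symm
    · simp only [Function.update_of_ne h1, Function.update_of_ne h2]
      exact hf u hu v hv huv

end STAM

/-- **STA** (from RED, FAN, SP2, LKS, GL3). -/
theorem specSTA (hRED : SpecRED) (hFAN : SpecFAN) (hSP2 : SpecSP2) (hLKS : SpecLKS)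
    (hGL3 : SpecGL3) : SpecSTA := by
  intro V _ G hm x y z C hxy hxz hyz hsep hR hS1 hS2
  obtain ⟨g1, g2, g3, g4⟩ := hGL3 V G hm x y z C hxy hxz hyz hsep
  have hxC : x ∉ C := fun h => hsep.dis x h (by simp)
  have hyC : y ∉ C := fun h => hsep.dis y h (by simp)
  have hzC : z ∉ C := fun h => hsep.dis z h (by simp)
  have nxz : ¬ G.Adj x z := by
    intro h
    obtain ⟨f, hf, h1, h2⟩ := hS1
    exact hf x hxC z hzC h h1
  have nyz : ¬ G.Adj y z := by
    intro h
    obtain ⟨f, hf, h1, h2⟩ := hS2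
    exact hf y hyC z hzC h h1
  have hcard : ({x, y, z} : Set V).ncard ≤ 3 := by
    refine (Set.ncard_insert_le _ _).trans ?_
    have h1 := Set.ncard_insert_le y ({z} : Set V)
    have h2 := Set.ncard_singleton z
    omega
  have hmemS : ∀ s : V, s ∈ ({x, y, z} : Set V) ↔ s = x ∨ s = y ∨ s = z := by
    intro s; simp
  -- part one
  have htwo : ∃ a ∈ C, ∃ b ∈ C, a ≠ b ∧ G.Adj z a ∧ G.Adj z b := by
    obtain ⟨w, hwC, hzw⟩ := (hLKS V G hm {x, y, z} C hcard hsep).1 z (by simp)
    by_contra hcon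
    push Not at hcon
    have huniq : ∀ v ∈ C ∪ {x, y, z}, G.Adj z v → v = w := by
      intro v hv hzv
      rcases hv with hv | hv
      · by_contra hne
        exact hcon v hv w hwC hne hzv hzw
      · rcases (hmemS v).1 hv with rfl | rfl | rfl
        · exact absurd hzv.symm nxz
        · exact absurd hzv.symm nyz
        · exact absurd rfl hzv.ne
    obtain ⟨f, hf, h1, h2, h3⟩ := hR
    by_cases hwx : f w = f x
    · have hwy : f w ≠ f y := by rw [hwx]; exact h1
      obtain ⟨g, hg, gz, gv⟩ := STAM.update_col hf z (f y) (by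
        intro v hv hzv
        rw [huniq v hv hzv]
        exact hwy)
      refine g4 ⟨⟨g, hg, ?_, ?_⟩, hS2⟩
      · rw [gv y hyz, gz]
      · rw [gv y hyz, gv x hxz]
        exact h1.symm
    · obtain ⟨g, hg, gz, gv⟩ := STAM.update_col hf z (f x) (by
        intro v hv hzv
        rw [huniq v hv hzv]
        exact hwx)
      refine g3 ⟨⟨g, hg, ?_, ?_⟩, hS1⟩
      · rw [gv x hxz, gz]
      · rw [gv y hyz, gv x hxz]
        exact h1
  refine ⟨?_, htwo⟩
  -- part two
  obtain ⟨a, haC, b, hbC, hab, hza, hzb⟩ := htwo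
  have hzB : z ∉ ({x, y} : Set V) := by
    simp only [Set.mem_insert_iff, Set.mem_singleton_iff, not_or]
    exact ⟨fun h => hxz h.symm, fun h => hyz h.symm⟩
  obtain ⟨bb, I, hinj, hbB, hIB, hzI, hII, hlk, hiso⟩ :=
    hFAN V (res G (C ∪ {x, y, z})) z {x, y} 2 hzB (by
      intro T hzT hT
      by_contra hcon
      push Not at hcon
      set K : Set V := {u | (res (res G (C ∪ {x, y, z})) Tᶜ).Reachable z u} with hK
      have hKT : ∀ u ∈ K, u ≠ z → u ∉ T := by
        intro u hu hne
        exact STAM.mem_of_reach hne hu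
      have hxK : x ∉ K := fun h => hcon x (by simp) (hKT x h hxz) h
      have hyK : y ∉ K := fun h => hcon y (by simp) (hKT y h hyz) h
      have hKC : ∀ u ∈ K, u ≠ z → u ∈ C := by
        intro u hu hne
        have h1 : u ∈ C ∪ {x, y, z} := by
          have h2 : (res (res G (C ∪ {x, y, z})) Tᶜ) ≤ res G (C ∪ {x, y, z}) := by
            intro p q hpq
            exact hpq.1
          exact STAM.mem_of_reach hne (SimpleGraph.Reachable.mono h2 hu)
        rcases h1 with h1 | h1
        · exact h1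
        · rcases (hmemS u).1 h1 with rfl | rfl | rfl
          · exact absurd hu hxK
          · exact absurd hu hyK
          · exact absurd rfl hne
      have hzK : z ∈ K := SimpleGraph.Reachable.refl z
      have hzmem : z ∈ C ∪ {x, y, z} := Or.inr (by simp)
      have hstep : ∀ u ∈ K, ∀ v, G.Adj u v → v ∈ C ∪ {x, y, z} → v ∉ T → v ∈ K := by
        intro u hu v huv hv hvT
        have huA : u ∈ C ∪ {x, y, z} := by
          by_cases h : u = z
          · rw [h]; exact hzmem
          · exact Or.inl (hKC u hu h)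
        have huT : u ∉ T := by
          by_cases h : u = z
          · rw [h]; exact hzT
          · exact hKT u hu h
        have hadj : (res (res G (C ∪ {x, y, z})) Tᶜ).Adj u v := ⟨⟨huv, huA, hv⟩, huT, hvT⟩
        exact SimpleGraph.Reachable.trans hu hadj.reachable
      have hTle : T.ncard ≤ 1 := by omega
      have hTone : ∀ p ∈ T, ∀ q ∈ T, p = q := by
        intro p hp q hq
        exact (Set.ncard_le_one (Set.toFinite T)).1 hTle p hp q hq
      refine hSP2 V G hm (insert z T) (K \ {z}) ?_ ⟨?_, ?_, ?_, ?_⟩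
      · exact (Set.ncard_insert_le _ _).trans (by omega)
      · by_cases haT : a ∈ T
        · have hbT : b ∉ T := fun h => hab (hTone a haT b h)
          refine ⟨b, hstep z hzK b hzb (Or.inl hbC) hbT, ?_⟩
          intro h
          exact hzb.ne (show z = b from (show b = z from h).symm)
        · refine ⟨a, hstep z hzK a hza (Or.inl haC) haT, ?_⟩
          intro h
          exact hza.ne (show z = a from (show a = z from h).symm)
      · intro v hv hvS
        have hvz : v ≠ z := fun h => hv.2 h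
        rcases hvS with h | h
        · exact hvz h
        · exact hKT v hv.1 hvz h
      · by_cases hxT : x ∈ T
        · have hyT : y ∉ T := fun h => hxy (hTone x hxT y h)
          refine ⟨y, ?_, fun h => hyK h.1⟩
          rintro (h | h)
          · exact hyz h
          · exact hyT h
        · refine ⟨x, ?_, fun h => hxK h.1⟩
          rintro (h | h)
          · exact hxz h
          · exact hxT h
      · intro u hu v huv
        have huz : u ≠ z := fun h => hu.2 h
        have huC := hKC u hu.1 huz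
        have hvA : v ∈ C ∪ {x, y, z} := by
          rcases hsep.nb u huC v huv with h | h
          · exact Or.inl h
          · exact Or.inr h
        by_cases hvz : v = z
        · right; rw [hvz]; exact Or.inl rfl
        · by_cases hvT : v ∈ T
          · right; exact Or.inr hvT
          · left
            exact ⟨hstep u hu.1 v huv hvA hvT, hvz⟩)
  have hIC : ∀ i, ∀ u ∈ I i, u ∈ C := by
    intro i u hu
    obtain ⟨w, hw⟩ := hiso i u hu
    have huA : u ∈ C ∪ {x, y, z} := hw.2.1
    rcases huA with h | h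
    · exact h
    · rcases (hmemS u).1 h with rfl | rfl | rfl
      · exact absurd (show u ∈ ({u, y} : Set V) by simp) (Set.disjoint_left.1 (hIB i) hu)
      · exact absurd (show u ∈ ({x, u} : Set V) by simp) (Set.disjoint_left.1 (hIB i) hu)
      · exact absurd hu (hzI i)
  have hbne : ∀ i, z ≠ bb i := by
    intro i h
    exact hzB (h ▸ hbB i)
  have hbCc : ∀ i, bb i ∈ Cᶜ := by
    intro i
    rcases hbB i with h | h
    · rw [h]; exact hxC
    · rw [show bb i = y from h]; exact hyC
  obtain ⟨f, hf, hfb⟩ := hRED V G hm Cᶜ (by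
      obtain ⟨c, hc⟩ := hsep.ne
      exact ⟨c, fun h => h hc⟩) 2 (fun _ => z) bb I (fun _ => hzC) hbCc hbne
    (by
      intro j
      rw [Set.disjoint_left]
      intro u hu h
      exact h (hIC j u hu))
    hII
    (by
      intro j
      have h := hlk j
      unfold Lk at h ⊢
      refine SimpleGraph.Reachable.mono ?_ h
      intro p q hpq
      exact ⟨hpq.1.1, hpq.2.1, hpq.2.2⟩)
  have hzx : f z ≠ f x ∧ f z ≠ f y := by
    have h01 : bb 0 ≠ bb 1 := fun h => by
      have := hinj h
      exact absurd this (by decide)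
    have e0 : bb 0 = x ∨ bb 0 = y := by
      rcases hbB 0 with h | h
      · exact Or.inl h
      · exact Or.inr h
    have e1 : bb 1 = x ∨ bb 1 = y := by
      rcases hbB 1 with h | h
      · exact Or.inl h
      · exact Or.inr h
    have f0 : f z ≠ f (bb 0) := hfb 0
    have f1 : f z ≠ f (bb 1) := hfb 1
    rcases e0 with e0 | e0 <;> rcases e1 with e1 | e1
    · exact absurd (e0.trans e1.symm) h01
    · rw [e0] at f0; rw [e1] at f1; exact ⟨f0, f1⟩
    · rw [e0] at f0; rw [e1] at f1; exact ⟨f1, f0⟩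
    · exact absurd (e0.trans e1.symm) h01
  by_cases hfxy : f x = f y
  · exact ⟨f, hf, hfxy, hzx.1.symm⟩
  · exact absurd ⟨hR, f, hf, hfxy, hzx.1.symm, hzx.2.symm⟩ g1

end Pool.Agent.Lib.MPc67b86
end

section
/-!
# TDE: a graph with a tree decomposition with bags of at most five vertices is in the class `Elim`

Proof.  Root the tree at `r`, let `top v` be the node of the subtree of `v` nearest to `r`, and eliminate a
vertex `v` which is not isolated with `top v` as far from `r` as possible: all its neighbours are in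
`bag (top v)`, so the same tree decomposition works after the elimination of `v`.
-/
set_option autoImplicit false

namespace Pool.Agent.Lib.MPc67b86

namespace TDEM

variable {ι : Type}

/-- a shortest path to the nearest point of a connected set meets the set only there, and every walk
to the set passes through this point -/
theorem gate (T : SimpleGraph ι) (hT : T.IsTree) (A : Set ι) (hA : (T.induce A).Connected)
    (r a i : ι) (ha : a ∈ A) (hmin : ∀ b ∈ A, T.dist r a ≤ T.dist r b) (hi : i ∈ A)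
    (w : T.Walk r i) : a ∈ w.support := by
  classical
  obtain ⟨s, hs⟩ := hT.connected.exists_walk_length_eq_dist r a
  have hsP : s.IsPath := s.isPath_of_length_eq_dist hs
  have hsA : ∀ x ∈ s.support, x ∈ A → x = a := by
    intro x hx hxA
    by_contra hne
    have h1 := SimpleGraph.Walk.length_takeUntil_lt_length hx hne
    have h2 := SimpleGraph.dist_le (s.takeUntil x hx)
    have h3 := hmin x hxA
    omega
  obtain ⟨q0⟩ := hA.preconnected ⟨a, ha⟩ ⟨i, hi⟩
  let q1 := q0.bypass
  have hq1 : q1.IsPath := q0.bypass_isPath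
  let q : T.Walk a i := q1.map (SimpleGraph.Embedding.induce A).toHom
  have hqP : q.IsPath := SimpleGraph.Walk.IsPath.map
    (SimpleGraph.Embedding.induce (G := T) A).injective hq1
  have hqA : ∀ x ∈ q.support, x ∈ A := by
    intro x hx
    have hx' : x ∈ (q1.map (SimpleGraph.Embedding.induce A).toHom).support := hx
    rw [SimpleGraph.Walk.support_map, List.mem_map] at hx'
    obtain ⟨y, -, hy⟩ := hx'
    rw [← hy]
    exact y.2
  have hP : (s.append q).IsPath := by
    rw [SimpleGraph.Walk.isPath_def, SimpleGraph.Walk.support_append, List.nodup_append]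
    refine ⟨hsP.support_nodup, hqP.support_nodup.sublist (List.tail_sublist _), ?_⟩
    intro x hx y hy hxy
    subst hxy
    have hxA : x ∈ A := hqA x (List.mem_of_mem_tail hy)
    have hxa := hsA x hx hxA
    subst hxa
    have h1 := hqP.support_nodup
    rw [← SimpleGraph.Walk.cons_tail_support q, List.nodup_cons] at h1
    exact h1.1 hy
  have huniq := hT.isAcyclic.path_unique ⟨s.append q, hP⟩ ⟨w.bypass, w.bypass_isPath⟩
  have h2 : s.append q = w.bypass := congrArg Subtype.val huniq
  have h3 : a ∈ (s.append q).support := by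
    rw [SimpleGraph.Walk.mem_support_append_iff]
    exact Or.inl s.end_mem_support
  rw [h2] at h3
  exact w.support_bypass_subset_support h3

/-- the key fact on subtrees -/
theorem key (T : SimpleGraph ι) (hT : T.IsTree) (A B : Set ι) (hA : (T.induce A).Connected)
    (hB : (T.induce B).Connected) (r a b i : ι) (ha : a ∈ A)
    (hmin : ∀ c ∈ A, T.dist r a ≤ T.dist r c) (hb : b ∈ B) (hba : T.dist r b ≤ T.dist r a)
    (hiA : i ∈ A) (hiB : i ∈ B) : a ∈ B := by
  classical
  obtain ⟨s, hs⟩ := hT.connected.exists_walk_length_eq_dist r b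
  obtain ⟨q0⟩ := hB.preconnected ⟨b, hb⟩ ⟨i, hiB⟩
  let q : T.Walk b i := q0.map (SimpleGraph.Embedding.induce B).toHom
  have h := gate T hT A hA r a i ha hmin hiA (s.append q)
  rw [SimpleGraph.Walk.mem_support_append_iff] at h
  rcases h with h | h
  · by_contra hne
    have hab : a ≠ b := fun h' => hne (h' ▸ hb)
    have h1 := SimpleGraph.Walk.length_takeUntil_lt_length h hab
    have h2 := SimpleGraph.dist_le (s.takeUntil a h)
    omega
  · have hx' : a ∈ (q0.map (SimpleGraph.Embedding.induce B).toHom).support := h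
    rw [SimpleGraph.Walk.support_map, List.mem_map] at hx'
    obtain ⟨y, -, hy⟩ := hx'
    rw [← hy]
    exact y.2

end TDEM

open TDEM in
theorem specTDE : SpecTDE := by
  intro V _ G ι _ T bag hT hcov hedge hconn hcard
  obtain ⟨r⟩ := hT.connected.nonempty
  have htop : ∀ v : V, ∃ a, v ∈ bag a ∧ ∀ c, v ∈ bag c → T.dist r a ≤ T.dist r c := by
    intro v
    obtain ⟨i, hi⟩ := hcov v
    obtain ⟨a, ha, hmin⟩ := Set.exists_min_image {i | v ∈ bag i} (fun i => T.dist r i)
      (Set.toFinite _) ⟨i, hi⟩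
    exact ⟨a, ha, fun c hc => hmin c hc⟩
  choose top htop1 htop2 using htop
  have main : ∀ n : ℕ, ∀ G : SimpleGraph V, {v | ∃ w, G.Adj v w}.ncard = n →
      (∀ u v, G.Adj u v → ∃ i, u ∈ bag i ∧ v ∈ bag i) → Elim G := by
    intro n
    induction n using Nat.strong_induction_on with
    | _ n ih =>
      intro G hn hG
      by_cases hne : {v | ∃ w, G.Adj v w}.Nonempty
      · obtain ⟨v, hv, hmax⟩ := Set.exists_max_image {v | ∃ w, G.Adj v w}
          (fun v => T.dist r (top v)) (Set.toFinite _) hne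
        have hN : ∀ u, G.Adj v u → u ∈ bag (top v) := by
          intro u hu
          obtain ⟨i, hi1, hi2⟩ := hG v u hu
          exact key T hT {i | v ∈ bag i} {i | u ∈ bag i} (hconn v) (hconn u) r (top v) (top u) i
            (htop1 v) (fun c hc => htop2 v c hc) (htop1 u) (hmax u ⟨v, hu.symm⟩) hi1 hi2
        have hsub : G.neighborSet v ⊆ bag (top v) \ {v} := by
          intro u hu
          exact ⟨hN u hu, fun h => G.ne_of_adj hu (Set.mem_singleton_iff.1 h).symm⟩
        have h4 : (G.neighborSet v).ncard ≤ 4 := by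
          have h5 := Set.ncard_le_ncard hsub (Set.toFinite _)
          rw [Set.ncard_sdiff_singleton_of_mem (htop1 v)] at h5
          have := hcard (top v)
          omega
        refine Elim.step G v h4 ?_
        refine ih _ ?_ (elim G v) rfl ?_
        · rw [← hn]
          apply Set.ncard_lt_ncard _ (Set.toFinite _)
          rw [Set.ssubset_iff_of_subset]
          · refine ⟨v, hv, ?_⟩
            rintro ⟨w, hw⟩
            exact hw.2.1 rfl
          · rintro a ⟨b, hb⟩
            rcases hb.2.2.2 with h | h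
            · exact ⟨b, h⟩
            · exact ⟨v, h.1⟩
        · intro a b hab
          rcases hab.2.2.2 with h | h
          · exact hG a b h
          · exact ⟨top v, hN a h.1.symm, hN b h.2⟩
      · have : G = ⊥ := by
          ext a b
          constructor
          · intro h
            exact absurd ⟨a, b, h⟩ hne
          · intro h
            exact absurd h (by simp)
        rw [this]
        exact Elim.nil
  exact main _ G rfl hedge

end Pool.Agent.Lib.MPc67b86
end

section
/-!
# MP_c67b86_co: TKB (how to construct a subdivision)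
-/
set_option autoImplicit false

namespace Pool.Agent.Lib.MPc67b86

namespace TKBM

theorem lk_symm {V : Type} {G : SimpleGraph V} {x y : V} {I : Set V} (h : Lk G x y I) :
    Lk G y x I := by
  unfold Lk at h ⊢
  rw [Set.insert_comm]
  exact h.symm

theorem lk_adj {V : Type} {G : SimpleGraph V} {x y : V} {I : Set V} (h : G.Adj x y) :
    Lk G x y I := by
  unfold Lk
  refine SimpleGraph.Adj.reachable ?_
  exact ⟨h, Set.mem_insert _ _, Set.mem_insert_of_mem _ (Set.mem_insert _ _)⟩

end TKBM

open TKBM in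
theorem specTKB : SpecTKB := by
  classical
  intro V G f m a b J hf hav hdis hlk hcov
  -- the chosen connection of a pair
  have hch : ∀ i k : Fin 5, ∃ I : Set V, (i ≠ k →
      ((I = ∅ ∧ G.Adj (f i) (f k)) ∨
        ∃ j, ((a j = i ∧ b j = k) ∨ (a j = k ∧ b j = i)) ∧ I = J j)) := by
    intro i k
    by_cases hik : i = k
    · exact ⟨∅, fun h => absurd hik h⟩
    · rcases hcov i k hik with h | ⟨j, hj⟩
      · exact ⟨∅, fun _ => Or.inl ⟨rfl, h⟩⟩
      · exact ⟨J j, fun _ => Or.inr ⟨j, hj, rfl⟩⟩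
  choose I hI using hch
  refine ⟨f, I, hf, ?_, ?_, ?_⟩
  · intro i j k hij
    rcases hI i j hij.ne with ⟨h, -⟩ | ⟨l, -, h⟩
    · rw [h]; exact Set.notMem_empty _
    · rw [h]; exact hav l k
  · intro i j i' j' hij hij' hne
    rcases hI i j hij.ne with ⟨h, -⟩ | ⟨l, hl, h⟩
    · rw [h]; exact Set.empty_disjoint _
    · rcases hI i' j' hij'.ne with ⟨h', -⟩ | ⟨l', hl', h'⟩
      · rw [h']; exact Set.disjoint_empty _
      · rw [h, h']
        refine hdis l l' ?_
        rintro rfl
        rcases hl with ⟨h1, h2⟩ | ⟨h1, h2⟩ <;> rcases hl' with ⟨h3, h4⟩ | ⟨h3, h4⟩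
        · rcases hne with h5 | h5
          · exact h5 (h1.symm.trans h3)
          · exact h5 (h2.symm.trans h4)
        · have e1 : i = j' := h1.symm.trans h3
          have e2 : j = i' := h2.symm.trans h4
          subst e1 e2
          exact lt_asymm hij hij'
        · have e1 : j = i' := h1.symm.trans h3
          have e2 : i = j' := h2.symm.trans h4
          subst e1 e2
          exact lt_asymm hij hij'
        · rcases hne with h5 | h5
          · exact h5 (h2.symm.trans h4)
          · exact h5 (h1.symm.trans h3)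
  · intro i j hij
    rcases hI i j hij.ne with ⟨-, h⟩ | ⟨l, hl, h⟩
    · exact lk_adj h
    · rw [h]
      rcases hl with ⟨h1, h2⟩ | ⟨h1, h2⟩
      · have := hlk l
        rwa [h1, h2] at this
      · have := hlk l
        rw [h1, h2] at this
        exact lk_symm this

end Pool.Agent.Lib.MPc67b86
end

section
/-!
# Module TKL (MP_c67b86_co): subdivisions of `K_5` in subgraphs and in `lop`
-/
set_option autoImplicit false

namespace Pool.Agent.Lib.MPc67b86

namespace TKLM

variable {V : Type}

lemma reach_lift (H H' : SimpleGraph V) (h : ∀ a b, H.Adj a b → H'.Reachable a b) (u v : V)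
    (huv : H.Reachable u v) : H'.Reachable u v := by
  obtain ⟨p⟩ := huv
  induction p with
  | nil => exact SimpleGraph.Reachable.refl _
  | cons hab _ ih => exact (h _ _ hab).trans ih

lemma nbr_of_reach (H : SimpleGraph V) (u v : V) (huv : H.Reachable u v) (hne : u ≠ v) :
    ∃ w, H.Adj u w := by
  obtain ⟨p⟩ := huv
  cases p with
  | nil => exact absurd rfl hne
  | cons hab _ => exact ⟨_, hab⟩

lemma lk_mono (G G' : SimpleGraph V) (hle : G' ≤ G) (x y : V) (I : Set V) (h : Lk G' x y I) : Lk G x y I := by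
  refine SimpleGraph.Reachable.mono ?_ h
  intro a b hab
  exact ⟨hle hab.1, hab.2.1, hab.2.2⟩

lemma lop_not_mem (G : SimpleGraph V) (x y : V) (I : Set V) (hx : x ∉ I) (hy : y ∉ I) (a b : V)
    (h : (lop G I x y).Adj a b) : a ∉ I := by
  rcases h.2 with h1 | h1 | h1
  · exact h1.2.1
  · rw [h1.1]; exact hx
  · rw [h1.1]; exact hy

end TKLM

open TKLM in
theorem specTKL : SpecTKL := by
  refine ⟨?_, ?_⟩
  · rintro V G G' hle ⟨f, I, hinj, hk, hd, hl⟩
    exact ⟨f, I, hinj, hk, hd, fun i j hij => lk_mono G G' hle _ _ _ (hl i j hij)⟩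
  · rintro V G x y I hxy hx hy hL ⟨f, J, hinj, hk, hd, hl⟩
    -- branch vertices are not in `I`
    have hfI : ∀ k, f k ∉ I := by
      intro k
      obtain ⟨j, hj⟩ : ∃ j : Fin 5, j ≠ k := by
        by_cases h0 : k = 0
        · exact ⟨1, by rw [h0]; decide⟩
        · exact ⟨0, fun h => h0 h.symm⟩
      rcases lt_or_gt_of_ne hj with h | h
      · obtain ⟨w, hw⟩ := nbr_of_reach _ _ _ (hl j k h).symm (fun e => hj (hinj e).symm)
        exact lop_not_mem G x y I hx hy _ _ hw.1
      · obtain ⟨w, hw⟩ := nbr_of_reach _ _ _ (hl k j h) (fun e => hj (hinj e).symm)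
        exact lop_not_mem G x y I hx hy _ _ hw.1
    refine ⟨f, fun i j => {v | (v ∈ J i j ∧ v ∉ I) ∨ (v ∈ I ∧ x ∈ insert (f i) (insert (f j) (J i j)) ∧
      y ∈ insert (f i) (insert (f j) (J i j)))}, hinj, ?_, ?_, ?_⟩
    · intro i j k hij hmem
      rcases hmem with h | h
      · exact hk i j k hij h.1
      · exact hfI k h.1
    · intro i j i' j' hij hij' hne
      rw [Set.disjoint_left]
      intro v hv hv'
      have key : ∀ z, z ∈ insert (f i) (insert (f j) (J i j)) → z ∈ insert (f i') (insert (f j') (J i' j')) →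
          (z = f i ∨ z = f j) ∧ (z = f i' ∨ z = f j') := by
        intro z hz hz'
        rcases hz with h | h | h
        · refine ⟨Or.inl h, ?_⟩
          rcases hz' with h' | h' | h'
          · exact Or.inl h'
          · exact Or.inr h'
          · rw [h] at h'; exact absurd h' (hk i' j' i hij')
        · refine ⟨Or.inr h, ?_⟩
          rcases hz' with h' | h' | h'
          · exact Or.inl h'
          · exact Or.inr h'
          · rw [h] at h'; exact absurd h' (hk i' j' j hij')
        · rcases hz' with h' | h' | h'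
          · rw [h'] at h; exact absurd h (hk i j i' hij)
          · rw [h'] at h; exact absurd h (hk i j j' hij)
          · exact absurd h' (Set.disjoint_left.1 (hd i j i' j' hij hij' hne) h)
      rcases hv with h | h
      · rcases hv' with h' | h'
        · exact Set.disjoint_left.1 (hd i j i' j' hij hij' hne) h.1 h'.1
        · exact h.2 h'.1
      · rcases hv' with h' | h'
        · exact h'.2 h.1
        · obtain ⟨hx1, hx2⟩ := key x h.2.1 h'.2.1
          obtain ⟨hy1, hy2⟩ := key y h.2.2 h'.2.2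
          have e1 : ∀ a b : Fin 5, f a = f b → a = b := fun a b e => hinj e
          have hcase : i = i' ∧ j = j' := by
            rcases hx1 with a1 | a1 <;> rcases hy1 with b1 | b1 <;> rcases hx2 with a2 | a2 <;>
              rcases hy2 with b2 | b2
            all_goals first
              | exact absurd (a1.trans b1.symm) hxy
              | exact absurd (a2.trans b2.symm) hxy
              | exact ⟨e1 _ _ (a1.symm.trans a2), e1 _ _ (b1.symm.trans b2)⟩
              | exact ⟨e1 _ _ (b1.symm.trans b2), e1 _ _ (a1.symm.trans a2)⟩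
              | (exfalso
                 have c1 := e1 _ _ (a1.symm.trans a2)
                 have c2 := e1 _ _ (b1.symm.trans b2)
                 subst c1
                 subst c2
                 exact absurd hij (not_lt.2 hij'.le))
          rcases hne with h3 | h3
          · exact h3 hcase.1
          · exact h3 hcase.2
    · intro i j hij
      refine reach_lift _ _ ?_ _ _ (hl i j hij)
      intro a b hab
      obtain ⟨h1, ha, hb⟩ := hab
      have haI := lop_not_mem G x y I hx hy a b h1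
      have hbI := lop_not_mem G x y I hx hy b a h1.symm
      have hmem : ∀ z, z ∈ insert (f i) (insert (f j) (J i j)) → z ∉ I →
          z ∈ insert (f i) (insert (f j) {v | (v ∈ J i j ∧ v ∉ I) ∨
            (v ∈ I ∧ x ∈ insert (f i) (insert (f j) (J i j)) ∧ y ∈ insert (f i) (insert (f j) (J i j)))}) := by
        intro z hz hzI
        rcases hz with h | h | h
        · exact Or.inl h
        · exact Or.inr (Or.inl h)
        · exact Or.inr (Or.inr (Or.inl ⟨h, hzI⟩))
      have hxy' : x ∈ insert (f i) (insert (f j) (J i j)) → y ∈ insert (f i) (insert (f j) (J i j)) →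
          (res G (insert (f i) (insert (f j) {v | (v ∈ J i j ∧ v ∉ I) ∨
            (v ∈ I ∧ x ∈ insert (f i) (insert (f j) (J i j)) ∧
              y ∈ insert (f i) (insert (f j) (J i j)))}))).Reachable x y := by
        intro hxS hyS
        refine SimpleGraph.Reachable.mono ?_ hL
        intro c d hcd
        have hin : ∀ z, z ∈ insert x (insert y I) → z ∈ insert (f i) (insert (f j) {v | (v ∈ J i j ∧ v ∉ I) ∨
            (v ∈ I ∧ x ∈ insert (f i) (insert (f j) (J i j)) ∧ y ∈ insert (f i) (insert (f j) (J i j)))}) := by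
          intro z hz
          rcases hz with h | h | h
          · rw [h]; exact hmem x hxS hx
          · rw [h]; exact hmem y hyS hy
          · exact Or.inr (Or.inr (Or.inr ⟨h, hxS, hyS⟩))
        exact ⟨hcd.1, hin c hcd.2.1, hin d hcd.2.2⟩
      rcases h1.2 with h2 | h2 | h2
      · exact SimpleGraph.Adj.reachable ⟨h2.1, hmem a ha haI, hmem b hb hbI⟩
      · rw [h2.1, h2.2]
        exact hxy' (h2.1 ▸ ha) (h2.2 ▸ hb)
      · rw [h2.1, h2.2]
        exact (hxy' (h2.2 ▸ hb) (h2.1 ▸ ha)).symm

end Pool.Agent.Lib.MPc67b86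
end

section
/-!
# TRG: three connections from `x` to the cycle are not possible

`specTRG` from `SpecARC`.
-/
set_option autoImplicit false

namespace Pool.Agent.Lib.MPc67b86

namespace TRGM

variable {V : Type} {G : SimpleGraph V}

lemma res_mono {A B : Set V} (h : A ⊆ B) : res G A ≤ res G B :=
  fun _ _ h' => ⟨h'.1, h h'.2.1, h h'.2.2⟩

/-- a walk gives a connection inside its support -/
lemma reach_of_walk {S : Set V} {a b : V} (P : G.Walk a b) (h : ∀ v ∈ P.support, v ∈ S) :
    (res G S).Reachable a b := by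
  induction P with
  | nil => exact SimpleGraph.Reachable.refl _
  | @cons u v w huv P ih =>
    have h1 : (res G S).Adj u v := ⟨huv, h u (by simp), h v (by simp)⟩
    exact h1.reachable.trans (ih fun w' hw' => h w' (by
      rw [SimpleGraph.Walk.support_cons]; exact List.mem_cons_of_mem _ hw'))

/-- two connections through a common vertex -/
lemma glue {x y u : V} {I J : Set V} (h1 : Lk G x u I) (h2 : (res G (insert y (insert u J))).Reachable
    y u) : Lk G x y ((J ∪ {u} ∪ I) \ {y}) := by
  have key : ∀ w, w ∈ J ∪ {u} ∪ I → w ∈ insert x (insert y ((J ∪ {u} ∪ I) \ {y})) := by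
    intro w hw
    by_cases h : w = y
    · right; left; exact h
    · right; right; exact ⟨hw, h⟩
  refine (SimpleGraph.Reachable.mono (res_mono ?_) h1).trans
    (SimpleGraph.Reachable.mono (res_mono ?_) h2).symm
  · rintro w (rfl | rfl | hw)
    · left; rfl
    · exact key _ (Or.inl (Or.inr rfl))
    · exact key _ (Or.inr hw)
  · rintro w (rfl | rfl | hw)
    · right; left; rfl
    · exact key _ (Or.inl (Or.inr rfl))
    · exact key _ (Or.inl (Or.inl hw))

lemma fin {x y z : V} {C : Set V} (hC : Core G x y z C) (P Q : G.Walk y z)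
    (hPC : ∀ v ∈ P.support, v ∈ C ∪ {y, z}) (hQC : ∀ v ∈ Q.support, v ∈ C ∪ {y, z})
    (hPQ : ∀ v, v ∈ P.support → v ∈ Q.support → v = y ∨ v = z)
    {u v : V} {I I' J K : Set V} (hu : u ∈ P.support) (hv : v ∈ P.support) (huv : u ≠ v)
    (hIC : I ⊆ C) (hI'C : I' ⊆ C) (hI : ∀ w ∈ I, w ∉ P.support ∧ w ∉ Q.support)
    (hI' : ∀ w ∈ I', w ∉ P.support ∧ w ∉ Q.support) (hII' : Disjoint I I')
    (hxu : Lk G x u I) (hxv : Lk G x v I') (huz : u ≠ z) (hvy : v ≠ y)
    (hJ : ∀ w ∈ J, w ∈ P.support ∧ w ≠ y ∧ w ≠ z ∧ w ≠ u ∧ w ≠ v)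
    (hK : ∀ w ∈ K, w ∈ P.support ∧ w ≠ y ∧ w ≠ z ∧ w ≠ u ∧ w ≠ v) (hJK : Disjoint J K)
    (hyu : Lk G y u J) (hvz : Lk G v z K) : False := by
  have hmem : ∀ w, w ∈ C ∪ {y, z} → w ≠ y → w ≠ z → w ∈ C := by
    rintro w (hw | hw | hw) h1 h2
    · exact hw
    · exact (h1 hw).elim
    · exact (h2 hw).elim
  have L1 : Lk G x y ((J ∪ {u} ∪ I) \ {y}) := glue hxu hyu
  have L2 : Lk G x z ((K ∪ {v} ∪ I') \ {z}) := by
    refine glue hxv ?_
    have h := hvz
    unfold Lk at h
    rw [Set.insert_comm] at h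
    exact h.symm
  have L3 : Lk G y z {w | w ∈ Q.support ∧ w ≠ y ∧ w ≠ z} := by
    refine reach_of_walk Q fun w hw => ?_
    by_cases h1 : w = y
    · left; exact h1
    · by_cases h2 : w = z
      · right; left; exact h2
      · right; right; exact ⟨hw, h1, h2⟩
  refine hC.tri _ _ _ ?_ ?_ ?_ ?_ ?_ ?_ L1 L2 L3
  · rintro w ⟨(hw | hw) | hw, hwy⟩
    · exact hmem w (hPC w (hJ w hw).1) (hJ w hw).2.1 (hJ w hw).2.2.1
    · rw [Set.mem_singleton_iff] at hw
      subst hw
      exact hmem w (hPC w hu) hwy huz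
    · exact hIC hw
  · rintro w ⟨(hw | hw) | hw, hwz⟩
    · exact hmem w (hPC w (hK w hw).1) (hK w hw).2.1 (hK w hw).2.2.1
    · rw [Set.mem_singleton_iff] at hw
      subst hw
      exact hmem w (hPC w hv) hvy hwz
    · exact hI'C hw
  · rintro w ⟨hw, h1, h2⟩
    exact hmem w (hQC w hw) h1 h2
  · rw [Set.disjoint_left]
    rintro w ⟨(hw | hw) | hw, _⟩ ⟨(hw' | hw') | hw', _⟩
    · exact Set.disjoint_left.1 hJK hw hw'
    · exact (hJ w hw).2.2.2.2 hw'
    · exact (hI' w hw').1 (hJ w hw).1
    · exact (hK w hw').2.2.2.1 hw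
    · exact huv (hw.symm.trans hw')
    · rw [Set.mem_singleton_iff] at hw
      subst hw
      exact (hI' w hw').1 hu
    · exact (hI w hw).1 (hK w hw').1
    · rw [Set.mem_singleton_iff] at hw'
      subst hw'
      exact (hI w hw).1 hv
    · exact Set.disjoint_left.1 hII' hw hw'
  · rw [Set.disjoint_left]
    rintro w ⟨(hw | hw) | hw, _⟩ ⟨hw', h1, h2⟩
    · exact (hPQ w (hJ w hw).1 hw').elim h1 h2
    · rw [Set.mem_singleton_iff] at hw
      subst hw
      exact (hPQ w hu hw').elim h1 h2
    · exact (hI w hw).2 hw'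
  · rw [Set.disjoint_left]
    rintro w ⟨(hw | hw) | hw, _⟩ ⟨hw', h1, h2⟩
    · exact (hPQ w (hK w hw).1 hw').elim h1 h2
    · rw [Set.mem_singleton_iff] at hw
      subst hw
      exact (hPQ w hv hw').elim h1 h2
    · exact (hI' w hw).2 hw'

lemma aux (hA : SpecARC) {x y z : V} {C : Set V} (hC : Core G x y z C) (P Q : G.Walk y z)
    (hP : P.IsPath)
    (hPC : ∀ v ∈ P.support, v ∈ C ∪ {y, z}) (hQC : ∀ v ∈ Q.support, v ∈ C ∪ {y, z})
    (hPQ : ∀ v, v ∈ P.support → v ∈ Q.support → v = y ∨ v = z)
    {u v : V} {I I' : Set V} (hu : u ∈ P.support) (hv : v ∈ P.support) (huv : u ≠ v)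
    (hIC : I ⊆ C) (hI'C : I' ⊆ C) (hI : ∀ w ∈ I, w ∉ P.support ∧ w ∉ Q.support)
    (hI' : ∀ w ∈ I', w ∉ P.support ∧ w ∉ Q.support) (hII' : Disjoint I I')
    (hxu : Lk G x u I) (hxv : Lk G x v I') : False := by
  obtain ⟨u', v', J, K, hc, huz, hvy, hJ, hK, hJK, hyu, hvz⟩ :=
    hA V G y z P u v hP hC.yz hu hv huv
  rcases hc with ⟨rfl, rfl⟩ | ⟨rfl, rfl⟩
  · exact fin hC P Q hPC hQC hPQ hu hv huv hIC hI'C hI hI' hII' hxu hxv huz hvy hJ hK hJK hyu hvz
  · exact fin hC P Q hPC hQC hPQ hv hu huv.symm hI'C hIC hI' hI hII'.symm hxv hxu huz hvy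
      (fun w hw => ⟨(hJ w hw).1, (hJ w hw).2.1, (hJ w hw).2.2.1, (hJ w hw).2.2.2.2,
        (hJ w hw).2.2.2.1⟩)
      (fun w hw => ⟨(hK w hw).1, (hK w hw).2.1, (hK w hw).2.2.1, (hK w hw).2.2.2.2,
        (hK w hw).2.2.2.1⟩) hJK hyu hvz

end TRGM

open TRGM in
theorem specTRG (hA : SpecARC) : SpecTRG := by
  intro V _ G x y z C hC P Q hP hQ hPC hQC hPQ b I hb hbPQ hIC hI hII hL
  have goP : ∀ i j, i ≠ j → b i ∈ P.support → b j ∈ P.support → False := fun i j hij hi hj =>
    aux hA hC P Q hP hPC hQC hPQ hi hj (fun h => hij (hb h)) (hIC i) (hIC j) (hI i) (hI j)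
      (hII i j hij) (hL i) (hL j)
  have goQ : ∀ i j, i ≠ j → b i ∈ Q.support → b j ∈ Q.support → False := fun i j hij hi hj =>
    aux hA hC Q P hQ hQC hPC (fun v h1 h2 => hPQ v h2 h1) hi hj (fun h => hij (hb h)) (hIC i)
      (hIC j) (fun w hw => (hI i w hw).symm) (fun w hw => (hI j w hw).symm)
      (hII i j hij) (hL i) (hL j)
  rcases hbPQ 0 with h0 | h0 <;> rcases hbPQ 1 with h1 | h1 <;> rcases hbPQ 2 with h2 | h2
  · exact goP 0 1 (by decide) h0 h1
  · exact goP 0 1 (by decide) h0 h1
  · exact goP 0 2 (by decide) h0 h2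
  · exact goQ 1 2 (by decide) h1 h2
  · exact goP 1 2 (by decide) h1 h2
  · exact goQ 0 2 (by decide) h0 h2
  · exact goQ 0 1 (by decide) h0 h1
  · exact goQ 0 1 (by decide) h0 h1

end Pool.Agent.Lib.MPc67b86
end

section
/-!
# MP_c67b86_co: TRI (the other side accepts all single patterns)
-/
set_option autoImplicit false

namespace Pool.Agent.Lib.MPc67b86

namespace TRIM

theorem accS_symm {V : Type} {G : SimpleGraph V} {A : Set V} {x y z : V}
    (h : AccS G A x y z) : AccS G A y x z := by
  obtain ⟨f, hf, h1, h2⟩ := h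
  exact ⟨f, hf, h1.symm, fun h => h2 (h1.trans h)⟩

theorem rot {V : Type} (x y z : V) : ({x, y, z} : Set V) = {y, z, x} := by
  ext w; simp only [Set.mem_insert_iff, Set.mem_singleton_iff]; tauto

theorem swp {V : Type} (x y z : V) : ({x, y, z} : Set V) = {x, z, y} := by
  ext w; simp only [Set.mem_insert_iff, Set.mem_singleton_iff]; tauto

theorem accR_rot {V : Type} {G : SimpleGraph V} {A : Set V} {x y z : V}
    (h : AccR G A x y z) : AccR G A y z x := by
  obtain ⟨f, hf, h1, h2, h3⟩ := h
  exact ⟨f, hf, h3, h1.symm, h2.symm⟩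

theorem accR_swp {V : Type} {G : SimpleGraph V} {A : Set V} {x y z : V}
    (h : AccR G A x y z) : AccR G A x z y := by
  obtain ⟨f, hf, h1, h2, h3⟩ := h
  exact ⟨f, hf, h2, h1, h3.symm⟩

end TRIM

open TRIM in
theorem specTRI (hTYP : SpecTYP) (hSTA : SpecSTA) : SpecTRI := by
  intro V _ G hG x y z C hxy hxz hyz hsep hacc
  -- STA with third vertex z, x, y
  have stz : AccS G Cᶜ x z y → AccS G Cᶜ y z x →
      AccS G Cᶜ x y z ∧ ∃ a ∈ C, ∃ b ∈ C, a ≠ b ∧ G.Adj z a ∧ G.Adj z b :=
    fun h1 h2 => hSTA V G hG x y z C hxy hxz hyz hsep hacc h1 h2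
  have stx : AccS G Cᶜ x y z → AccS G Cᶜ x z y →
      AccS G Cᶜ y z x ∧ ∃ a ∈ C, ∃ b ∈ C, a ≠ b ∧ G.Adj x a ∧ G.Adj x b := by
    intro h1 h2
    have hs : Sep G {y, z, x} C := by rw [← rot]; exact hsep
    have ha : AccR G (C ∪ {y, z, x}) y z x := by rw [← rot]; exact accR_rot hacc
    exact hSTA V G hG y z x C hyz hxy.symm hxz.symm hs ha (accS_symm h1) (accS_symm h2)
  have sty : AccS G Cᶜ x y z → AccS G Cᶜ y z x →
      AccS G Cᶜ x z y ∧ ∃ a ∈ C, ∃ b ∈ C, a ≠ b ∧ G.Adj y a ∧ G.Adj y b := by
    intro h1 h2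
    have hs : Sep G {x, z, y} C := by rw [← swp]; exact hsep
    have ha : AccR G (C ∪ {x, z, y}) x z y := by rw [← swp]; exact accR_swp hacc
    exact hSTA V G hG x z y C hxz hxy hyz.symm hs ha h1 (accS_symm h2)
  have hall : AccS G Cᶜ x y z ∧ AccS G Cᶜ x z y ∧ AccS G Cᶜ y z x := by
    rcases (hTYP V G hG x y z C hxy hxz hyz hsep).2 hacc with ⟨h1, h2⟩ | ⟨h1, h2⟩ | ⟨h1, h2⟩
    · exact ⟨h1, h2, (stx h1 h2).1⟩
    · exact ⟨h1, (sty h1 h2).1, h2⟩
    · exact ⟨(stz h1 h2).1, h1, h2⟩
  obtain ⟨h1, h2, h3⟩ := hall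
  refine ⟨h1, h2, h3, ?_⟩
  rintro s (rfl | rfl | rfl)
  · exact (stx h1 h2).2
  · exact (sty h1 h3).2
  · exact (stz h2 h3).2

end Pool.Agent.Lib.MPc67b86
end

section
/-!
# TYP: the patterns accepted by the two sides of a separation of order three

`specTYP` from `SpecRED`, `SpecLKS`, `SpecOPP`, `SpecGL3`.
-/
set_option autoImplicit false

namespace Pool.Agent.Lib.MPc67b86

namespace TYPM

lemma ncard_three {V : Type} (x y z : V) : ({x, y, z} : Set V).ncard ≤ 3 := by
  refine (Set.ncard_insert_le _ _).trans ?_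
  have := Set.ncard_insert_le y ({z} : Set V)
  rw [Set.ncard_singleton] at this
  omega

/-- one connection replaced by an edge -/
lemma one (hR : SpecRED) {V : Type} [Finite V] {G : SimpleGraph V} (hG : Min G) (W I : Set V)
    (s t : V) (hW : ∃ a, a ∉ W) (hs : s ∈ W) (ht : t ∈ W) (hst : s ≠ t) (hI : Disjoint I W)
    (hL : Lk G s t I) : ∃ f, IsCol G W f ∧ f s ≠ f t := by
  obtain ⟨f, hf, h⟩ := hR V G hG W hW 1 (fun _ => s) (fun _ => t) (fun _ => I) (fun _ => hs)
    (fun _ => ht) (fun _ => hst) (fun _ => hI) (fun j k hjk => (hjk (Subsingleton.elim _ _)).elim)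
    (fun _ => hL)
  exact ⟨f, hf, h 0⟩

/-- from the three pairs to the patterns -/
lemma pat {V : Type} {G : SimpleGraph V} {A : Set V} {x y z : V}
    (h1 : ∃ f, IsCol G A f ∧ f x ≠ f y) (h2 : ∃ f, IsCol G A f ∧ f x ≠ f z)
    (h3 : ∃ f, IsCol G A f ∧ f y ≠ f z) :
    AccR G A x y z ∨ ((AccS G A x y z ∨ AccS G A x z y) ∧ (AccS G A x y z ∨ AccS G A y z x) ∧
      (AccS G A x z y ∨ AccS G A y z x)) := by
  have key : ∀ f, IsCol G A f → (f x ≠ f y ∧ f x ≠ f z ∧ f y ≠ f z) → AccR G A x y z :=
    fun f hf h => ⟨f, hf, h⟩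
  obtain ⟨f, hf, hf'⟩ := h1
  obtain ⟨g, hg, hg'⟩ := h2
  obtain ⟨h, hh, hh'⟩ := h3
  by_cases hr : AccR G A x y z
  · exact Or.inl hr
  refine Or.inr ⟨?_, ?_, ?_⟩
  · by_cases h1 : h x = h y
    · exact Or.inl ⟨h, hh, h1, by rw [h1]; exact hh'⟩
    · by_cases h2 : h x = h z
      · exact Or.inr ⟨h, hh, h2, h1⟩
      · exact (hr (key h hh ⟨h1, h2, hh'⟩)).elim
  · by_cases h1 : g x = g y
    · exact Or.inl ⟨g, hg, h1, hg'⟩
    · by_cases h2 : g y = g z
      · exact Or.inr ⟨g, hg, h2, fun h => h1 h.symm⟩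
      · exact (hr (key g hg ⟨h1, hg', h2⟩)).elim
  · by_cases h1 : f x = f z
    · exact Or.inl ⟨f, hf, h1, hf'⟩
    · by_cases h2 : f y = f z
      · exact Or.inr ⟨f, hf, h2, fun h => hf' h.symm⟩
      · exact (hr (key f hf ⟨hf', h1, h2⟩)).elim

end TYPM

open TYPM in
theorem specTYP (hR : SpecRED) (hL : SpecLKS) (hO : SpecOPP) (hGL : SpecGL3) : SpecTYP := by
  intro V _ G hG x y z C hxy hxz hyz hS
  obtain ⟨hS', _, _⟩ := hO V G {x, y, z} C hS
  have l1 := (hL V G hG {x, y, z} C (ncard_three x y z) hS).2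
  have l2 := (hL V G hG {x, y, z} _ (ncard_three x y z) hS').2
  have mx : x ∈ ({x, y, z} : Set V) := by simp
  have my : y ∈ ({x, y, z} : Set V) := by simp
  have mz : z ∈ ({x, y, z} : Set V) := by simp
  have hA : ∀ s ∈ ({x, y, z} : Set V), ∀ t ∈ ({x, y, z} : Set V), s ≠ t →
      ∃ f, IsCol G (C ∪ {x, y, z}) f ∧ f s ≠ f t := by
    intro s hs t ht hst
    refine one hR hG _ (C ∪ {x, y, z})ᶜ s t ?_ (Or.inr hs) (Or.inr ht) hst ?_ (l2 s hs t ht hst)
    · obtain ⟨v, hv, hv'⟩ := hS.out
      exact ⟨v, fun h => h.elim hv' hv⟩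
    · exact disjoint_compl_left
  have hB : ∀ s ∈ ({x, y, z} : Set V), ∀ t ∈ ({x, y, z} : Set V), s ≠ t →
      ∃ f, IsCol G Cᶜ f ∧ f s ≠ f t := by
    intro s hs t ht hst
    refine one hR hG _ C s t ?_ (fun h => hS.dis s h hs) (fun h => hS.dis t h ht) hst ?_
      (l1 s hs t ht hst)
    · obtain ⟨v, hv⟩ := hS.ne
      exact ⟨v, fun h => h hv⟩
    · exact disjoint_compl_right
  have pA := pat (hA x mx y my hxy) (hA x mx z mz hxz) (hA y my z mz hyz)
  have pB := pat (hB x mx y my hxy) (hB x mx z mz hxz) (hB y my z mz hyz)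
  obtain ⟨g0, g1, g2, g3⟩ := hGL V G hG x y z C hxy hxz hyz hS
  clear hA hB l1 l2 mx my mz hS' hS hxy hxz hyz hG hR hL hO hGL
  constructor
  · by_contra hcon
    rw [not_or] at hcon
    obtain ⟨a1, a2, a3⟩ := pA.resolve_left hcon.1
    obtain ⟨b1, b2, b3⟩ := pB.resolve_left hcon.2
    rcases a1 with a1 | a1 <;> rcases b3 with b3 | b3 <;> rcases a2 with a2 | a2 <;>
      rcases b1 with b1 | b1 <;> rcases b2 with b2 | b2 <;> rcases a3 with a3 | a3 <;>
      first
        | exact g1 ⟨‹_›, ‹_›⟩
        | exact g2 ⟨‹_›, ‹_›⟩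
        | exact g3 ⟨‹_›, ‹_›⟩
  · intro hRA
    obtain ⟨b1, b2, b3⟩ := pB.resolve_left fun h => g0 ⟨hRA, h⟩
    rcases b1 with b1 | b1
    · rcases b3 with b3 | b3
      · exact Or.inl ⟨b1, b3⟩
      · exact Or.inr (Or.inl ⟨b1, b3⟩)
    · rcases b2 with b2 | b2
      · exact Or.inl ⟨b2, b1⟩
      · exact Or.inr (Or.inr ⟨b1, b2⟩)

end Pool.Agent.Lib.MPc67b86
end
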