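import Pool.Agent.Lib.MP_c67b86_co.SpecC

section
/-!
# EXT: extending a colouring of the rest to the gadget
-/
set_option autoImplicit false

namespace Pool.Agent.Lib.MPc67b86

/-- **EXT**. -/
theorem specEXT : SpecEXT := by
  classical
  intro V _ G hm r c D v hg f hf κ hκ
  by_contra hcon
  push Not at hcon
  have hch : ∀ d : Fin 4, ∃ κ' : Fin 4, d ∈ D → κ' ≠ κ ∧ ∀ i, i ≠ d → f (r i) ≠ κ' := by
    intro d
    by_cases hd : d ∈ D
    · obtain ⟨κ', h1, h2⟩ := hcon d hd
      exact ⟨κ', fun _ => ⟨h1, h2⟩⟩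
    · exact ⟨κ, fun h => absurd h hd⟩
  choose k hk using hch
  let g : V → Fin 4 := fun w =>
    if w = c then κ else if h : ∃ d ∈ D, w = v d then k h.choose else f w
  have gc : g c = κ := if_pos rfl
  have gv : ∀ d ∈ D, g (v d) = k d := by
    intro d hd
    have h : ∃ e ∈ D, v d = v e := ⟨d, hd, rfl⟩
    have h1 : g (v d) = k h.choose := by
      show (if v d = c then κ else if h : ∃ e ∈ D, v d = v e then k h.choose else f (v d)) = _
      rw [if_neg (hg.vc d hd), dif_pos h]
    rw [h1, ← hg.vinj d hd _ h.choose_spec.1 h.choose_spec.2]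
  have gr : ∀ w ∈ Rest c D v, g w = f w := by
    intro w hw
    have h : ¬ ∃ e ∈ D, w = v e := by
      rintro ⟨e, he, hwe⟩
      exact hw.2 e he hwe
    show (if w = c then κ else if h : ∃ e ∈ D, w = v e then k h.choose else f w) = _
    rw [if_neg hw.1, dif_neg h]
  have rr : ∀ i, r i ∈ Rest c D v := fun i => ⟨hg.cr i, fun d hd h => hg.vr d hd i h.symm⟩
  -- edges at `c`
  have ec : ∀ w, G.Adj c w → g c ≠ g w := by
    intro w hw
    rw [gc]
    rcases hg.Nc w hw with ⟨i, rfl⟩ | ⟨d, hd, rfl⟩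
    · rw [gr _ (rr i)]
      exact (hκ i hw).symm
    · rw [gv d hd]
      exact (hk d hd).1.symm
  -- edges at `v d`
  have ev : ∀ d ∈ D, ∀ w, G.Adj (v d) w → g (v d) ≠ g w := by
    intro d hd w hw
    rcases (hg.Nv d hd w).1 hw with rfl | ⟨i, hi, rfl⟩
    · exact (ec _ hw.symm).symm
    · rw [gv d hd, gr _ (rr i)]
      exact ((hk d hd).2 i hi).symm
  refine hm.bad.2.2 ⟨g, ?_⟩
  intro a b hab
  by_cases ha : a ∈ Rest c D v
  · by_cases hb : b ∈ Rest c D v
    · rw [gr a ha, gr b hb]
      exact hf a ha b hb hab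
    · by_cases hbc : b = c
      · subst hbc
        exact (ec a hab.symm).symm
      · have : ∃ d ∈ D, b = v d := by
          by_contra hn
          push Not at hn
          exact hb ⟨hbc, hn⟩
        obtain ⟨d, hd, rfl⟩ := this
        exact (ev d hd a hab.symm).symm
  · by_cases hac : a = c
    · subst hac
      exact ec b hab
    · have : ∃ d ∈ D, a = v d := by
        by_contra hn
        push Not at hn
        exact ha ⟨hac, hn⟩
      obtain ⟨d, hd, rfl⟩ := this
      exact ev d hd b hab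

end Pool.Agent.Lib.MPc67b86
end

section
/-!
# MP_c67b86_co, module GAD: a minimal counterexample contains no gadget
-/
set_option autoImplicit false

namespace Pool.Agent.Lib.MPc67b86

theorem specGAD (hRDA : SpecRDA) (hRDB : SpecRDB) (hRDC : SpecRDC) (hGLB : SpecGLB)
    (hM2B : SpecM2B) (hM3B : SpecM3B) : SpecGAD := by
  intro V _ G' hG' r c D v hg
  have hfull : ∀ i, G'.Adj c (r i) := by
    intro u
    by_contra hu
    refine hRDB V G' hG' r c D v hg u hu fun i hi => ?_
    by_contra hi'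
    exact hi (hRDA V G' hG' r c D v hg i u hi' hu)
  have h2 := hRDC V G' hG' r c D v hg hfull
  obtain ⟨h3, h4⟩ := hGLB V G' r c D v h2
  have hcard : D.card = 2 ∨ D.card = 3 := by
    have := h2.two
    have := h2.three
    omega
  rcases hcard with h | h
  · obtain ⟨r', v', h5⟩ := h3 h
    exact hM2B V G' hG' r' c v' h5
  · obtain ⟨r', v', h5⟩ := h4 h
    exact hM3B V G' hG' r' c v' h5

end Pool.Agent.Lib.MPc67b86
end

section
/-!
# MP_c67b86_co, module GLB: the indices of a gadget can be permuted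
-/
set_option autoImplicit false

namespace Pool.Agent.Lib.MPc67b86

namespace GLBx

/-- Renaming the indices of a gadget by a permutation. -/
lemma perm {V : Type} {G : SimpleGraph V} {r : Fin 4 → V} {c : V} {D D' : Finset (Fin 4)}
    {v : Fin 4 → V} (h : Gad2 G r c D v) (σ : Equiv.Perm (Fin 4)) (hD : D'.image σ = D) :
    Gad2 G (r ∘ σ) c D' (v ∘ σ) := by
  classical
  have hm : ∀ d, d ∈ D' ↔ σ d ∈ D := by
    intro d
    rw [← hD, Finset.mem_image]
    constructor
    · intro hd
      exact ⟨d, hd, rfl⟩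
    · rintro ⟨e, he, hed⟩
      rwa [← σ.injective hed]
  have hRest : Rest c D' (v ∘ σ) = Rest c D v := by
    ext w
    unfold Rest
    simp only [Set.mem_ofPred_eq, Function.comp_apply]
    constructor
    · rintro ⟨h1, h2⟩
      refine ⟨h1, fun d hd => ?_⟩
      have h3 := h2 (σ.symm d) ((hm _).2 (by rwa [Equiv.apply_symm_apply]))
      rwa [Equiv.apply_symm_apply] at h3
    · rintro ⟨h1, h2⟩
      exact ⟨h1, fun d hd => h2 _ ((hm d).1 hd)⟩
  have hcard : D'.card = D.card := by
    rw [← hD, Finset.card_image_of_injective _ σ.injective]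
  have hex : ∀ P : Fin 4 → Prop, (∃ i, P i) ↔ ∃ i, P (σ i) := fun P =>
    ⟨fun ⟨i, hi⟩ => ⟨σ.symm i, by rwa [Equiv.apply_symm_apply]⟩, fun ⟨i, hi⟩ => ⟨σ i, hi⟩⟩
  refine ⟨⟨h.gad.inj.comp σ.injective, fun i => h.gad.cr _, fun d hd i => h.gad.vr _ ((hm d).1 hd) _,
    fun d hd => h.gad.vc _ ((hm d).1 hd), fun d hd e he hde => σ.injective
      (h.gad.vinj _ ((hm d).1 hd) _ ((hm e).1 he) hde), ?_, ?_, ?_, ?_⟩, fun i => h.full _, ?_, ?_,
      ?_, ?_⟩
  · obtain ⟨d, hd⟩ := h.gad.D0
    exact ⟨σ.symm d, (hm _).2 (by rwa [Equiv.apply_symm_apply])⟩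
  · intro d hd w
    rw [Function.comp_apply, h.gad.Nv _ ((hm d).1 hd) w, hex (fun i => i ≠ σ d ∧ w = r i)]
    simp only [Function.comp_apply, ne_eq, EmbeddingLike.apply_eq_iff_eq]
  · intro w hw
    rcases h.gad.Nc w hw with h1 | ⟨d, hd, h1⟩
    · left
      exact (hex (fun i => w = r i)).1 h1
    · right
      refine ⟨σ.symm d, (hm _).2 (by rwa [Equiv.apply_symm_apply]), ?_⟩
      rw [Function.comp_apply, Equiv.apply_symm_apply]
      exact h1
  · intro i
    rcases h.gad.cov (σ i) with h1 | ⟨d, hd, h1⟩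
    · left
      exact h1
    · right
      refine ⟨σ.symm d, (hm _).2 (by rwa [Equiv.apply_symm_apply]), fun h2 => h1 ?_⟩
      rw [← h2, Equiv.apply_symm_apply]
  · rw [hcard]; exact h.two
  · rw [hcard]; exact h.three
  · intro f hf
    rw [hRest] at hf
    refine (h.q1 f hf).trans (le_of_eq ?_)
    congr 1
    ext x
    simp only [Finset.mem_image, Finset.mem_univ, true_and, Function.comp_apply]
    exact hex (fun i => f (r i) = x)
  · intro f hf i j hij hfr
    rw [hRest] at hf
    rcases h.q2 f hf (σ i) (σ j) (fun h1 => hij (σ.injective h1)) hfr with h1 | h1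
    · left; exact (hm i).2 h1
    · right; exact (hm j).2 h1

lemma exists2 : ∀ D : Finset (Fin 4), D.card = 2 → ∃ σ : Equiv.Perm (Fin 4),
    ({0, 1} : Finset (Fin 4)).image σ = D := by
  decide

lemma exists3 : ∀ D : Finset (Fin 4), D.card = 3 → ∃ σ : Equiv.Perm (Fin 4),
    ({0, 1, 2} : Finset (Fin 4)).image σ = D := by
  decide

end GLBx

theorem specGLB : SpecGLB := by
  intro V G r c D v h
  refine ⟨fun h2 => ?_, fun h3 => ?_⟩
  · obtain ⟨σ, hσ⟩ := GLBx.exists2 D h2
    exact ⟨r ∘ σ, v ∘ σ, GLBx.perm h σ hσ⟩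
  · obtain ⟨σ, hσ⟩ := GLBx.exists3 D h3
    exact ⟨r ∘ σ, v ∘ σ, GLBx.perm h σ hσ⟩

end Pool.Agent.Lib.MPc67b86
end

section
/-!
# IMG: the vertices `r i` have at least three colours

`specIMG` from `SpecEXT`.
-/
set_option autoImplicit false

namespace Pool.Agent.Lib.MPc67b86

theorem specIMG (hE : SpecEXT) : SpecIMG := by
  intro V _ G hG r c D v hg f hf
  constructor
  · by_contra hlt
    have hne : (Finset.univ.image fun i => f (r i)) ≠ Finset.univ := by
      intro h
      rw [h] at hlt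
      simp at hlt
    obtain ⟨κ, hκ⟩ : ∃ κ, κ ∉ (Finset.univ.image fun i => f (r i)) := by
      by_contra hcon
      push Not at hcon
      exact hne (Finset.eq_univ_iff_forall.2 hcon)
    obtain ⟨d, _, hd⟩ := hE V G hG r c D v hg f hf κ (fun i _ h => hκ
      (Finset.mem_image.2 ⟨i, Finset.mem_univ _, h⟩))
    have hsub : Finset.univ.erase κ ⊆ (Finset.univ.image fun i => f (r i)) := by
      intro κ' hκ'
      obtain ⟨i, _, hi⟩ := hd κ' (Finset.ne_of_mem_erase hκ')
      exact Finset.mem_image.2 ⟨i, Finset.mem_univ _, hi⟩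
    have := Finset.card_le_card hsub
    rw [Finset.card_erase_of_mem (Finset.mem_univ _)] at this
    simp only [Finset.card_univ, Fintype.card_fin] at this
    omega
  · intro h3 j
    by_contra hcon
    push Not at hcon
    obtain ⟨d, _, hd⟩ := hE V G hG r c D v hg f hf (f (r j)) (fun i hi h => hcon i hi h)
    have hsub : Finset.univ ⊆ (Finset.univ.image fun i => f (r i)) := by
      intro κ' _
      by_cases hκ : κ' = f (r j)
      · exact Finset.mem_image.2 ⟨j, Finset.mem_univ _, hκ.symm⟩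
      · obtain ⟨i, _, hi⟩ := hd κ' hκ
        exact Finset.mem_image.2 ⟨i, Finset.mem_univ _, hi⟩
    have := Finset.card_le_card hsub
    simp only [Finset.card_univ, Fintype.card_fin] at this
    omega

end Pool.Agent.Lib.MPc67b86
end

section
/-!
# MP_c67b86_co: module M2A (`D = {0, 1}`, the neighbours of `r 0` and `r 1`)
-/
set_option autoImplicit false

namespace Pool.Agent.Lib.MPc67b86

namespace M2AM

variable {V : Type}

theorem lk1 {G : SimpleGraph V} {a b w : V} (h1 : G.Adj a w) (h2 : G.Adj w b) : Lk G a b {w} := by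
  have e1 : (res G (insert a (insert b {w}))).Adj a w := ⟨h1, by simp, by simp⟩
  have e2 : (res G (insert a (insert b {w}))).Adj w b := ⟨h2, by simp, by simp⟩
  exact e1.reachable.trans e2.reachable

theorem lk_res {G : SimpleGraph V} {R : Set V} {x y : V} {I : Set V} (h : Lk (res G R) x y I) :
    Lk G x y I := by
  refine SimpleGraph.Reachable.mono ?_ h
  intro a b hab
  exact ⟨hab.1.1, hab.2.1, hab.2.2⟩

theorem mem_of_reach {G : SimpleGraph V} {A : Set V} {v u : V} (hne : u ≠ v)
    (h : (res G A).Reachable v u) : u ∈ A := by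
  obtain ⟨p⟩ := h
  cases hp : p.reverse with
  | nil => exact absurd rfl hne
  | cons hadj _ => exact hadj.2.1

theorem ncard3 {N : Set V} {a b d : V} (h : N ⊆ {a, b, d}) : N.ncard ≤ 3 := by
  have hf : ({a, b, d} : Set V).Finite := Set.toFinite _
  refine (Set.ncard_le_ncard h hf).trans ?_
  exact (Set.ncard_insert_le _ _).trans (Nat.succ_le_succ ((Set.ncard_insert_le _ _).trans
    (Nat.succ_le_succ (Set.ncard_singleton _).le)))

theorem ncard4 {a b d e : V} : ({a, b, d, e} : Set V).ncard ≤ 4 :=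
  (Set.ncard_insert_le _ _).trans (Nat.succ_le_succ (ncard3 subset_rfl))

theorem eq4 {N : Set V} {a b d e : V} (h : N ⊆ {a, b, d, e}) (h4 : 4 ≤ N.ncard) :
    N = {a, b, d, e} :=
  Set.eq_of_subset_of_ncard_le h (ncard4.trans h4) (Set.toFinite _)

/-- the subdivision -/
theorem tk (hTKB : SpecTKB) {G : SimpleGraph V} (r : Fin 4 → V) (c v0 v1 : V)
    (hr : Function.Injective r) (hcr : ∀ i, r i ≠ c) (h0c : v0 ≠ c) (h1c : v1 ≠ c)
    (h0r : ∀ i, v0 ≠ r i) (h1r : ∀ i, v1 ≠ r i) (hv : v0 ≠ v1) (hc : ∀ i, G.Adj c (r i))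
    (hc0 : G.Adj c v0) (n0 : ∀ i, i ≠ 0 → G.Adj (r i) v0) (n1 : ∀ i, i ≠ 1 → G.Adj (r i) v1)
    (I J : Set V) (hI : Lk G (r 1) (r 2) I) (hJ : Lk G (r 1) (r 3) J) (hIJ : Disjoint I J)
    (hIr : ∀ u ∈ I, u ≠ r 1 ∧ u ≠ r 2 ∧ u ≠ r 3 ∧ u ≠ c ∧ u ≠ v0 ∧ u ≠ v1)
    (hJr : ∀ u ∈ J, u ≠ r 1 ∧ u ≠ r 2 ∧ u ≠ r 3 ∧ u ≠ c ∧ u ≠ v0 ∧ u ≠ v1) : TK5 G := by
  have hf : Function.Injective (![r 1, r 2, r 3, c, v0] : Fin 5 → V) := by
    have e : ∀ i j : Fin 4, r i = r j → i = j := fun i j h => hr h
    intro i k h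
    fin_cases i <;> fin_cases k <;>
      first
      | rfl
      | exact absurd h (hcr _)
      | exact absurd h.symm (hcr _)
      | exact absurd h h0c
      | exact absurd h.symm h0c
      | exact absurd h (h0r _)
      | exact absurd h.symm (h0r _)
      | exact absurd (e _ _ h) (by decide)
  have hJ0 : ∀ k, (![r 1, r 2, r 3, c, v0] : Fin 5 → V) k ∉ I := by
    intro k hk
    obtain ⟨a1, a2, a3, a4, a5, a6⟩ := hIr _ hk
    fin_cases k <;>
      first
      | exact a1 rfl
      | exact a2 rfl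
      | exact a3 rfl
      | exact a4 rfl
      | exact a5 rfl
  have hJ1 : ∀ k, (![r 1, r 2, r 3, c, v0] : Fin 5 → V) k ∉ J := by
    intro k hk
    obtain ⟨a1, a2, a3, a4, a5, a6⟩ := hJr _ hk
    fin_cases k <;>
      first
      | exact a1 rfl
      | exact a2 rfl
      | exact a3 rfl
      | exact a4 rfl
      | exact a5 rfl
  have hJ2 : ∀ k, (![r 1, r 2, r 3, c, v0] : Fin 5 → V) k ≠ v1 := by
    intro k
    fin_cases k <;>
      first
      | exact h1c.symm
      | exact hv
      | exact (h1r _).symm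
  have d1 : Disjoint I ({v1} : Set V) := by
    rw [Set.disjoint_singleton_right]
    exact fun h => (hIr _ h).2.2.2.2.2 rfl
  have d2 : Disjoint J ({v1} : Set V) := by
    rw [Set.disjoint_singleton_right]
    exact fun h => (hJr _ h).2.2.2.2.2 rfl
  refine hTKB V G ![r 1, r 2, r 3, c, v0] 3 ![0, 0, 1] ![1, 2, 2] ![I, J, {v1}] hf ?_ ?_ ?_ ?_
  · intro j k
    fin_cases j
    · exact hJ0 k
    · exact hJ1 k
    · exact hJ2 k
  · intro j k hjk
    fin_cases j <;> fin_cases k <;>
      first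
      | exact absurd rfl hjk
      | exact hIJ
      | exact hIJ.symm
      | exact d1
      | exact d1.symm
      | exact d2
      | exact d2.symm
  · intro j
    fin_cases j
    · exact hI
    · exact hJ
    · exact lk1 (n1 2 (by decide)) (n1 3 (by decide)).symm
  · intro i k hik
    fin_cases i <;> fin_cases k <;>
      first
      | exact absurd rfl hik
      | exact Or.inl (hc _)
      | exact Or.inl (hc _).symm
      | exact Or.inl hc0
      | exact Or.inl hc0.symm
      | exact Or.inl (n0 _ (by decide))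
      | exact Or.inl (n0 _ (by decide)).symm
      | exact Or.inr ⟨0, Or.inl ⟨rfl, rfl⟩⟩
      | exact Or.inr ⟨0, Or.inr ⟨rfl, rfl⟩⟩
      | exact Or.inr ⟨1, Or.inl ⟨rfl, rfl⟩⟩
      | exact Or.inr ⟨1, Or.inr ⟨rfl, rfl⟩⟩
      | exact Or.inr ⟨2, Or.inl ⟨rfl, rfl⟩⟩
      | exact Or.inr ⟨2, Or.inr ⟨rfl, rfl⟩⟩

end M2AM

open M2AM

theorem specM2A (hDEG : SpecDEG) (hFAN : SpecFAN) (hSP3 : SpecSP3) (hTKB : SpecTKB) : SpecM2A := by
  classical
  intro V _ G hG r c v hg
  have g := hg.gad
  have hfull := hg.full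
  have d0 : (0 : Fin 4) ∈ ({0, 1} : Finset (Fin 4)) := by decide
  have d1 : (1 : Fin 4) ∈ ({0, 1} : Finset (Fin 4)) := by decide
  have hvv : v 0 ≠ v 1 := fun h => absurd (g.vinj 0 d0 1 d1 h) (by decide)
  have hri : ∀ i j : Fin 4, i ≠ j → r i ≠ r j := fun i j h h' => h (g.inj h')
  have n0 : ∀ i : Fin 4, i ≠ 0 → G.Adj (r i) (v 0) := fun i hi =>
    ((g.Nv 0 d0 (r i)).2 (Or.inr ⟨i, hi, rfl⟩)).symm
  have n1 : ∀ i : Fin 4, i ≠ 1 → G.Adj (r i) (v 1) := fun i hi =>
    ((g.Nv 1 d1 (r i)).2 (Or.inr ⟨i, hi, rfl⟩)).symm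
  have hc0 : G.Adj c (v 0) := ((g.Nv 0 d0 c).2 (Or.inl rfl)).symm
  have n0' : ¬ G.Adj (r 0) (v 0) := by
    intro h
    rcases (g.Nv 0 d0 _).1 h.symm with h | ⟨i, hi, h⟩
    · exact g.cr 0 h
    · exact hi (g.inj h).symm
  have n1' : ¬ G.Adj (r 1) (v 1) := by
    intro h
    rcases (g.Nv 1 d1 _).1 h.symm with h | ⟨i, hi, h⟩
    · exact g.cr 1 h
    · exact hi (g.inj h).symm
  have hNc : ∀ w, G.Adj c w → (∃ i, w = r i) ∨ w = v 0 ∨ w = v 1 := by
    intro w hw
    rcases g.Nc w hw with h | ⟨d, hd, h⟩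
    · exact Or.inl h
    · rcases Finset.mem_insert.1 hd with rfl | hd
      · exact Or.inr (Or.inl h)
      · rw [Finset.mem_singleton] at hd
        subst hd
        exact Or.inr (Or.inr h)
  set RS : Set V := {w | w ≠ c ∧ w ≠ v 0 ∧ w ≠ v 1} with hRS
  have hrRS : ∀ i, r i ∈ RS := fun i => ⟨g.cr i, (g.vr 0 d0 i).symm, (g.vr 1 d1 i).symm⟩
  -- vertices of the rest which are not among the `r i`
  have hrest : ∀ u ∈ RS, (∀ i, u ≠ r i) → ∀ w, G.Adj u w → w ∈ RS := by
    rintro u ⟨u1, u2, u3⟩ hu w hw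
    refine ⟨?_, ?_, ?_⟩
    · rintro rfl
      rcases hNc u hw.symm with ⟨i, h⟩ | h | h
      · exact hu i h
      · exact u2 h
      · exact u3 h
    · rintro rfl
      rcases (g.Nv 0 d0 u).1 hw.symm with h | ⟨i, hi, h⟩
      · exact u1 h
      · exact hu i h
    · rintro rfl
      rcases (g.Nv 1 d1 u).1 hw.symm with h | ⟨i, hi, h⟩
      · exact u1 h
      · exact hu i h
  have hB : r 1 ∉ ({r 2, r 3} : Set V) := by
    rintro (h | h)
    · exact hri 1 2 (by decide) h
    · exact hri 1 3 (by decide) h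
  by_cases hT : ∀ T : Set V, r 1 ∉ T → T.ncard < 2 →
      ∃ b ∈ ({r 2, r 3} : Set V), b ∉ T ∧ (res (res G RS) Tᶜ).Reachable (r 1) b
  · exfalso
    obtain ⟨b, I, hb1, hb2, hb3, hb4, hb5, hb6, hb7⟩ := hFAN V (res G RS) (r 1) {r 2, r 3} 2 hB hT
    have hIR : ∀ i, ∀ u ∈ I i, u ≠ r 1 ∧ u ≠ r 2 ∧ u ≠ r 3 ∧ u ≠ c ∧ u ≠ v 0 ∧ u ≠ v 1 := by
      intro i u hu
      obtain ⟨w, hw⟩ := hb7 i u hu
      have h1 : u ∈ RS := hw.2.1
      have h2 : u ∉ ({r 2, r 3} : Set V) := Set.disjoint_left.1 (hb3 i) hu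
      refine ⟨fun h => hb4 i (h ▸ hu), fun h => h2 (Or.inl h), fun h => h2 (Or.inr h), h1.1, h1.2.1, h1.2.2⟩
    have hlk := fun i => lk_res (hb6 i)
    apply hG.bad.2.1
    have hcase : (b 0 = r 2 ∧ b 1 = r 3) ∨ (b 0 = r 3 ∧ b 1 = r 2) := by
      have h0 := hb2 0
      have h1 := hb2 1
      have hne : b 0 ≠ b 1 := fun h => absurd (hb1 h) (by decide)
      rcases h0 with h0 | h0 <;> rcases h1 with h1 | h1
      · exact absurd (h0.trans h1.symm) hne
      · exact Or.inl ⟨h0, h1⟩
      · exact Or.inr ⟨h0, h1⟩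
      · exact absurd (h0.trans h1.symm) hne
    have hd : Disjoint (I 0) (I 1) := hb5 0 1 (by decide)
    rcases hcase with ⟨e0, e1⟩ | ⟨e0, e1⟩
    · have l0 := hlk 0
      have l1 := hlk 1
      rw [e0] at l0
      rw [e1] at l1
      exact tk hTKB r c (v 0) (v 1) g.inj g.cr (g.vc 0 d0) (g.vc 1 d1) (g.vr 0 d0) (g.vr 1 d1) hvv
        hfull hc0 n0 n1 (I 0) (I 1) l0 l1 hd (hIR 0) (hIR 1)
    · have l0 := hlk 0
      have l1 := hlk 1
      rw [e0] at l0
      rw [e1] at l1
      exact tk hTKB r c (v 0) (v 1) g.inj g.cr (g.vc 0 d0) (g.vc 1 d1) (g.vr 0 d0) (g.vr 1 d1) hvv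
        hfull hc0 n0 n1 (I 1) (I 0) l1 l0 hd.symm (hIR 1) (hIR 0)
  · push Not at hT
    obtain ⟨T, hT1, hT2, hT3⟩ := hT
    set K : Set V := {u | (res (res G RS) Tᶜ).Reachable (r 1) u} with hK
    have hK1 : ∀ u ∈ K, u ≠ r 1 → u ∉ T ∧ u ∈ RS := by
      intro u hu hne
      have h1 : u ∈ Tᶜ := mem_of_reach hne hu
      have h2 : (res G RS).Reachable (r 1) u := by
        refine SimpleGraph.Reachable.mono ?_ hu
        intro a b hab
        exact hab.1
      exact ⟨h1, mem_of_reach hne h2⟩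
    have hK2 : ∀ b ∈ ({r 2, r 3} : Set V), b ∉ K := by
      intro b hb hbK
      have hne : b ≠ r 1 := fun h => hB (h ▸ hb)
      exact hT3 b hb (hK1 b hbK hne).1 hbK
    have hr1K : r 1 ∈ K := SimpleGraph.Reachable.refl _
    have hstep : ∀ u ∈ K, u ∉ T → u ∈ RS → ∀ w ∈ RS, w ∉ T → G.Adj u w → w ∈ K := by
      intro u hu huT huR w hwR hwT hw
      have h1 : (res (res G RS) Tᶜ).Adj u w := ⟨⟨hw, huR, hwR⟩, huT, hwT⟩
      exact SimpleGraph.Reachable.trans hu h1.reachable
    have hTf : T.Finite := Set.toFinite _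
    -- `K ⊆ {r 0, r 1}`
    have hK3 : ∀ u ∈ K, u = r 0 ∨ u = r 1 := by
      intro u hu
      by_contra hne
      push Not at hne
      obtain ⟨w, hw1, hw2⟩ : ∃ w, (w = c ∨ w = v 0) ∧ w ∉ T := by
        by_contra hcon
        push Not at hcon
        have h1 : ({c, v 0} : Set V) ⊆ T := by
          rintro x (hx | hx)
          · exact hcon x (Or.inl hx)
          · exact hcon x (Or.inr hx)
        have h2 := Set.ncard_le_ncard h1 hTf
        rw [Set.ncard_pair (g.vc 0 d0).symm] at h2
        omega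
      have hwR : w ∉ RS := by
        rintro ⟨h1, h2, -⟩
        rcases hw1 with h | h
        · exact h1 h
        · exact h2 h
      have hwr : ∀ i, w ≠ r i := fun i h => hwR (h ▸ hrRS i)
      refine hSP3 V G hG ({r 0, r 1} ∪ T) {x | x ∈ K ∧ x ≠ r 0 ∧ x ≠ r 1} ?_
        ⟨⟨u, hu, hne.1, hne.2⟩, ?_, ⟨w, ?_, ?_⟩, ?_⟩
      · refine (Set.ncard_union_le _ _).trans ?_
        have h1 : ({r 0, r 1} : Set V).ncard ≤ 2 :=
          (Set.ncard_insert_le _ _).trans (Nat.succ_le_succ (Set.ncard_singleton _).le)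
        omega
      · rintro x ⟨hx, hx0, hx1⟩ (h | h)
        · rcases h with h | h
          · exact hx0 h
          · exact hx1 h
        · exact (hK1 x hx hx1).1 h
      · rintro (h | h)
        · rcases h with h | h
          · exact hwr 0 h
          · exact hwr 1 h
        · exact hw2 h
      · rintro ⟨h1, -, h3⟩
        exact hwR (hK1 w h1 h3).2
      · rintro x ⟨hx, hx0, hx1⟩ y hxy
        have hxR := (hK1 x hx hx1).2
        have hxT := (hK1 x hx hx1).1
        have hxr : ∀ i, x ≠ r i := by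
          intro i h
          fin_cases i
          · exact hx0 h
          · exact hx1 h
          · exact hK2 (r 2) (Or.inl rfl) (h ▸ hx)
          · exact hK2 (r 3) (Or.inr rfl) (h ▸ hx)
        have hyR := hrest x hxR hxr y hxy
        by_cases hyT : y ∈ T
        · exact Or.inr (Or.inr hyT)
        · have hyK := hstep x hx hxT hxR y hyR hyT hxy
          by_cases h0 : y = r 0
          · exact Or.inr (Or.inl (Or.inl h0))
          · by_cases h1 : y = r 1
            · exact Or.inr (Or.inl (Or.inr h1))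
            · exact Or.inl ⟨hyK, h0, h1⟩
    -- the neighbours of `r 1`
    have hN1 : ∀ w, G.Adj (r 1) w → w = c ∨ w = v 0 ∨ w = r 0 ∨ w ∈ T := by
      intro w hw
      by_cases hwc : w = c
      · exact Or.inl hwc
      by_cases hw0 : w = v 0
      · exact Or.inr (Or.inl hw0)
      by_cases hwT : w ∈ T
      · exact Or.inr (Or.inr (Or.inr hwT))
      have hw1 : w ≠ v 1 := fun h => n1' (h ▸ hw)
      have hwK := hstep (r 1) hr1K hT1 (hrRS 1) w ⟨hwc, hw0, hw1⟩ hwT hw
      rcases hK3 w hwK with h | h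
      · exact Or.inr (Or.inr (Or.inl h))
      · exact absurd h.symm hw.ne
    have hdeg := (hDEG V G hG).1
    have hTe : ∃ s, T = {s} := by
      by_contra hcon
      have h1 : T.ncard ≠ 1 := fun h => hcon (Set.ncard_eq_one.1 h)
      have h2 : T = ∅ := (Set.ncard_eq_zero hTf).1 (by omega)
      have h3 : G.neighborSet (r 1) ⊆ {c, v 0, r 0} := by
        intro w hw
        rcases hN1 w hw with h | h | h | h
        · exact Or.inl h
        · exact Or.inr (Or.inl h)
        · exact Or.inr (Or.inr h)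
        · rw [h2] at h
          exact absurd h (Set.notMem_empty _)
      have := ncard3 h3
      have := hdeg (r 1)
      omega
    obtain ⟨s, hs⟩ := hTe
    have hsub : G.neighborSet (r 1) ⊆ {s, c, v 0, r 0} := by
      intro w hw
      rcases hN1 w hw with h | h | h | h
      · exact Or.inr (Or.inl h)
      · exact Or.inr (Or.inr (Or.inl h))
      · exact Or.inr (Or.inr (Or.inr h))
      · rw [hs] at h
        exact Or.inl h
    have heq := eq4 hsub (hdeg (r 1))
    have hsne : ∀ x, x = c ∨ x = v 0 ∨ x = r 0 → s ≠ x := by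
      intro x hx hsx
      have h3 : G.neighborSet (r 1) ⊆ {c, v 0, r 0} := by
        intro w hw
        rcases hsub hw with h | h
        · have h' : w = x := by rw [← hsx]; exact h
          rw [h']
          rcases hx with h | h | h
          · exact Or.inl h
          · exact Or.inr (Or.inl h)
          · exact Or.inr (Or.inr h)
        · exact h
      have := ncard3 h3
      have := hdeg (r 1)
      omega
    have h1s : G.Adj (r 1) s := by
      have : s ∈ G.neighborSet (r 1) := by rw [heq]; exact Or.inl rfl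
      exact this
    have h10 : G.Adj (r 1) (r 0) := by
      have : r 0 ∈ G.neighborSet (r 1) := by rw [heq]; exact Or.inr (Or.inr (Or.inr rfl))
      exact this
    have hsc : s ≠ c := hsne c (Or.inl rfl)
    have hs0 : s ≠ v 0 := hsne (v 0) (Or.inr (Or.inl rfl))
    have hsr0 : s ≠ r 0 := hsne (r 0) (Or.inr (Or.inr rfl))
    have hs1 : s ≠ v 1 := fun h => n1' (h ▸ h1s)
    have hsr1 : s ≠ r 1 := fun h => h1s.ne h.symm
    have hr0T : r 0 ∉ T := by
      rw [hs]
      exact fun h => hsr0 (Set.mem_singleton_iff.1 h).symm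
    have hr0K : r 0 ∈ K := hstep (r 1) hr1K hT1 (hrRS 1) (r 0) (hrRS 0) hr0T h10
    -- the neighbours of `r 0`
    have hN0 : ∀ w, G.Adj (r 0) w → w = c ∨ w = v 1 ∨ w = r 1 ∨ w = s := by
      intro w hw
      by_cases hwc : w = c
      · exact Or.inl hwc
      by_cases hw1 : w = v 1
      · exact Or.inr (Or.inl hw1)
      by_cases hwT : w ∈ T
      · rw [hs] at hwT
        exact Or.inr (Or.inr (Or.inr hwT))
      have hw0 : w ≠ v 0 := fun h => n0' (h ▸ hw)
      have hwK := hstep (r 0) hr0K hr0T (hrRS 0) w ⟨hwc, hw0, hw1⟩ hwT hw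
      rcases hK3 w hwK with h | h
      · exact absurd h.symm hw.ne
      · exact Or.inr (Or.inr (Or.inl h))
    have hsub0 : G.neighborSet (r 0) ⊆ {c, v 1, r 1, s} := fun w hw => hN0 w hw
    have heq0 := eq4 hsub0 (hdeg (r 0))
    have h0s : G.Adj (r 0) s := by
      have : s ∈ G.neighborSet (r 0) := by rw [heq0]; exact Or.inr (Or.inr (Or.inr rfl))
      exact this
    refine ⟨s, hsc, hs0, hs1, hsr0, hsr1, h10.symm, h0s, h1s, hN0, ?_⟩
    intro w hw
    rcases hN1 w hw with h | h | h | h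
    · exact Or.inl h
    · exact Or.inr (Or.inl h)
    · exact Or.inr (Or.inr (Or.inl h))
    · rw [hs] at h
      exact Or.inr (Or.inr (Or.inr h))

end Pool.Agent.Lib.MPc67b86
end

section
/-!
# MP_c67b86_co: module M2B (the case `D = {0, 1}` is impossible)
-/
set_option autoImplicit false

namespace Pool.Agent.Lib.MPc67b86

namespace M2BM

variable {V : Type}

theorem lk1 {G : SimpleGraph V} {a b w : V} (h1 : G.Adj a w) (h2 : G.Adj w b) : Lk G a b {w} := by
  have e1 : (res G (insert a (insert b {w}))).Adj a w := ⟨h1, by simp, by simp⟩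
  have e2 : (res G (insert a (insert b {w}))).Adj w b := ⟨h2, by simp, by simp⟩
  exact e1.reachable.trans e2.reachable

/-- the subdivision -/
theorem tk (hTKB : SpecTKB) {G : SimpleGraph V} (r : Fin 4 → V) (c v0 v1 : V)
    (hr : Function.Injective r) (hcr : ∀ i, r i ≠ c) (h0c : v0 ≠ c) (h1c : v1 ≠ c)
    (h0r : ∀ i, v0 ≠ r i) (h1r : ∀ i, v1 ≠ r i) (hv : v0 ≠ v1) (hc : ∀ i, G.Adj c (r i))
    (h01 : G.Adj (r 0) (r 1)) (h23 : G.Adj (r 2) (r 3)) (n0 : ∀ i, i ≠ 0 → G.Adj (r i) v0)
    (n1 : ∀ i, i ≠ 1 → G.Adj (r i) v1)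
    (hs : (G.Adj (r 0) (r 2) ∧ G.Adj (r 1) (r 2)) ∨ (G.Adj (r 0) (r 3) ∧ G.Adj (r 1) (r 3))) :
    TK5 G := by
  have hf : Function.Injective (![r 0, r 1, r 2, r 3, c] : Fin 5 → V) := by
    have e : ∀ i j : Fin 4, r i = r j → i = j := fun i j h => hr h
    intro i k h
    fin_cases i <;> fin_cases k <;>
      first
      | rfl
      | exact absurd h (hcr _)
      | exact absurd h.symm (hcr _)
      | exact absurd (e _ _ h) (by decide)
  have hJ1 : ∀ k, (![r 0, r 1, r 2, r 3, c] : Fin 5 → V) k ≠ v1 := by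
    intro k
    fin_cases k <;>
      first
      | exact h1c.symm
      | exact (h1r _).symm
  have hJ0 : ∀ k, (![r 0, r 1, r 2, r 3, c] : Fin 5 → V) k ≠ v0 := by
    intro k
    fin_cases k <;>
      first
      | exact h0c.symm
      | exact (h0r _).symm
  have hJ : ∀ (j : Fin 2) (k : Fin 5), (![r 0, r 1, r 2, r 3, c] : Fin 5 → V) k ∉
      (![{v1}, {v0}] : Fin 2 → Set V) j := by
    intro j k
    fin_cases j
    · exact hJ1 k
    · exact hJ0 k
  have hdis : ∀ j k : Fin 2, j ≠ k → Disjoint ((![{v1}, {v0}] : Fin 2 → Set V) j)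
      ((![{v1}, {v0}] : Fin 2 → Set V) k) := by
    intro j k hjk
    fin_cases j <;> fin_cases k
    · exact absurd rfl hjk
    · exact Set.disjoint_singleton.2 hv.symm
    · exact Set.disjoint_singleton.2 hv
    · exact absurd rfl hjk
  rcases hs with ⟨h02, h12⟩ | ⟨h03, h13⟩
  · refine hTKB V G ![r 0, r 1, r 2, r 3, c] 2 ![0, 1] ![3, 3] ![{v1}, {v0}] hf hJ hdis ?_ ?_
    · intro j
      fin_cases j
      · exact lk1 (n1 0 (by decide)) (n1 3 (by decide)).symm
      · exact lk1 (n0 1 (by decide)) (n0 3 (by decide)).symm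
    · intro i k hik
      fin_cases i <;> fin_cases k <;>
        first
        | exact absurd rfl hik
        | exact Or.inl (hc _)
        | exact Or.inl (hc _).symm
        | exact Or.inl h01
        | exact Or.inl h01.symm
        | exact Or.inl h23
        | exact Or.inl h23.symm
        | exact Or.inl h02
        | exact Or.inl h02.symm
        | exact Or.inl h12
        | exact Or.inl h12.symm
        | exact Or.inr ⟨0, Or.inl ⟨rfl, rfl⟩⟩
        | exact Or.inr ⟨0, Or.inr ⟨rfl, rfl⟩⟩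
        | exact Or.inr ⟨1, Or.inl ⟨rfl, rfl⟩⟩
        | exact Or.inr ⟨1, Or.inr ⟨rfl, rfl⟩⟩
  · refine hTKB V G ![r 0, r 1, r 2, r 3, c] 2 ![0, 1] ![2, 2] ![{v1}, {v0}] hf hJ hdis ?_ ?_
    · intro j
      fin_cases j
      · exact lk1 (n1 0 (by decide)) (n1 2 (by decide)).symm
      · exact lk1 (n0 1 (by decide)) (n0 2 (by decide)).symm
    · intro i k hik
      fin_cases i <;> fin_cases k <;>
        first
        | exact absurd rfl hik
        | exact Or.inl (hc _)
        | exact Or.inl (hc _).symm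
        | exact Or.inl h01
        | exact Or.inl h01.symm
        | exact Or.inl h23
        | exact Or.inl h23.symm
        | exact Or.inl h03
        | exact Or.inl h03.symm
        | exact Or.inl h13
        | exact Or.inl h13.symm
        | exact Or.inr ⟨0, Or.inl ⟨rfl, rfl⟩⟩
        | exact Or.inr ⟨0, Or.inr ⟨rfl, rfl⟩⟩
        | exact Or.inr ⟨1, Or.inl ⟨rfl, rfl⟩⟩
        | exact Or.inr ⟨1, Or.inr ⟨rfl, rfl⟩⟩

end M2BM

open M2BM

theorem specM2B (hSP3 : SpecSP3) (hTKB : SpecTKB) (hM2A : SpecM2A) : SpecM2B := by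
  classical
  intro V _ G hG r c v hg
  obtain ⟨s, hsc, hs0, hs1, hsr0, hsr1, h01, h0s, h1s, hN0, hN1⟩ := hM2A V G hG r c v hg
  have g := hg.gad
  have d0 : (0 : Fin 4) ∈ ({0, 1} : Finset (Fin 4)) := by decide
  have d1 : (1 : Fin 4) ∈ ({0, 1} : Finset (Fin 4)) := by decide
  have hvv : v 0 ≠ v 1 := fun h => absurd (g.vinj 0 d0 1 d1 h) (by decide)
  have hri : ∀ i j : Fin 4, i ≠ j → r i ≠ r j := fun i j h h' => h (g.inj h')
  have hNc : ∀ w, G.Adj c w → (∃ i, w = r i) ∨ w = v 0 ∨ w = v 1 := by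
    intro w hw
    rcases g.Nc w hw with h | ⟨d, hd, h⟩
    · exact Or.inl h
    · rcases Finset.mem_insert.1 hd with rfl | hd
      · exact Or.inr (Or.inl h)
      · rw [Finset.mem_singleton] at hd
        subst hd
        exact Or.inr (Or.inr h)
  -- (i) there are no other vertices
  have hall : ∀ w, w ≠ c → w ≠ v 0 → w ≠ v 1 → (∀ i, w ≠ r i) → w = s := by
    intro w hwc hw0 hw1 hwr
    by_contra hws
    refine hSP3 V G hG {r 2, r 3, s}
      {w | w ≠ c ∧ w ≠ v 0 ∧ w ≠ v 1 ∧ (∀ i, w ≠ r i) ∧ w ≠ s} ?_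
      ⟨⟨w, hwc, hw0, hw1, hwr, hws⟩, ?_, ⟨c, ?_, fun h => h.1 rfl⟩, ?_⟩
    · exact (Set.ncard_insert_le _ _).trans (Nat.succ_le_succ ((Set.ncard_insert_le _ _).trans
        (Nat.succ_le_succ (Set.ncard_singleton _).le)))
    · rintro a ⟨-, -, -, ha, has⟩ (h | h | h)
      · exact ha 2 h
      · exact ha 3 h
      · exact has h
    · rintro (h | h | h)
      · exact g.cr 2 h.symm
      · exact g.cr 3 h.symm
      · exact hsc h.symm
    · rintro u ⟨huc, hu0, hu1, hur, hus⟩ a hua
      by_cases hac : a = c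
      · subst hac
        rcases hNc u hua.symm with ⟨i, h⟩ | h | h
        · exact absurd h (hur i)
        · exact absurd h hu0
        · exact absurd h hu1
      by_cases ha0 : a = v 0
      · subst ha0
        rcases (g.Nv 0 d0 u).1 hua.symm with h | ⟨i, -, h⟩
        · exact absurd h huc
        · exact absurd h (hur i)
      by_cases ha1 : a = v 1
      · subst ha1
        rcases (g.Nv 1 d1 u).1 hua.symm with h | ⟨i, -, h⟩
        · exact absurd h huc
        · exact absurd h (hur i)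
      by_cases hr0 : a = r 0
      · subst hr0
        rcases hN0 u hua.symm with h | h | h | h
        · exact absurd h huc
        · exact absurd h hu1
        · exact absurd h (hur 1)
        · exact absurd h hus
      by_cases hr1 : a = r 1
      · subst hr1
        rcases hN1 u hua.symm with h | h | h | h
        · exact absurd h huc
        · exact absurd h hu0
        · exact absurd h (hur 0)
        · exact absurd h hus
      by_cases hr2 : a = r 2
      · exact Or.inr (Or.inl hr2)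
      by_cases hr3 : a = r 3
      · exact Or.inr (Or.inr (Or.inl hr3))
      by_cases has : a = s
      · exact Or.inr (Or.inr (Or.inr has))
      · refine Or.inl ⟨hac, ha0, ha1, ?_, has⟩
        intro i
        fin_cases i
        · exact hr0
        · exact hr1
        · exact hr2
        · exact hr3
  have hRest : ∀ w ∈ Rest c {0, 1} v, w = r 0 ∨ w = r 1 ∨ w = r 2 ∨ w = r 3 ∨ w = s := by
    intro w hw
    by_cases h : ∀ i, w ≠ r i
    · exact Or.inr (Or.inr (Or.inr (Or.inr (hall w hw.1 (hw.2 0 d0) (hw.2 1 d1) h))))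
    · push Not at h
      obtain ⟨i, hi⟩ := h
      fin_cases i
      · exact Or.inl hi
      · exact Or.inr (Or.inl hi)
      · exact Or.inr (Or.inr (Or.inl hi))
      · exact Or.inr (Or.inr (Or.inr (Or.inl hi)))
  -- (ii)
  have h23 : G.Adj (r 2) (r 3) := by
    by_contra hn
    have hq := hg.q2 (fun w => if w = r 0 then 2 else if w = r 1 then 3 else
      if w = r 2 ∨ w = r 3 then 0 else 1) ?_ 2 3 (by decide) ?_
    · rcases hq with h | h
      · exact absurd h (by decide)
      · exact absurd h (by decide)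
    · intro a ha b hb hab
      by_cases a0 : a = r 0
      · have b0 : b ≠ r 0 := fun h => hab.ne (a0.trans h.symm)
        simp only [if_pos a0, if_neg b0]
        split_ifs <;> decide
      by_cases b0 : b = r 0
      · simp only [if_neg a0, if_pos b0]
        split_ifs <;> decide
      by_cases a1 : a = r 1
      · have b1 : b ≠ r 1 := fun h => hab.ne (a1.trans h.symm)
        simp only [if_neg a0, if_pos a1, if_neg b0, if_neg b1]
        split_ifs <;> decide
      by_cases b1 : b = r 1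
      · simp only [if_neg a0, if_neg a1, if_neg b0, if_pos b1]
        split_ifs <;> decide
      simp only [if_neg a0, if_neg a1, if_neg b0, if_neg b1]
      by_cases a2 : a = r 2 ∨ a = r 3
      · by_cases b2 : b = r 2 ∨ b = r 3
        · exfalso
          rcases a2 with rfl | rfl <;> rcases b2 with rfl | rfl
          · exact hab.ne rfl
          · exact hn hab
          · exact hn hab.symm
          · exact hab.ne rfl
        · simp only [if_pos a2, if_neg b2]
          decide
      · by_cases b2 : b = r 2 ∨ b = r 3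
        · simp only [if_neg a2, if_pos b2]
          decide
        · exfalso
          have ha' : a = s := by
            rcases hRest a ha with h | h | h | h | h
            · exact absurd h a0
            · exact absurd h a1
            · exact absurd (Or.inl h) a2
            · exact absurd (Or.inr h) a2
            · exact h
          have hb' : b = s := by
            rcases hRest b hb with h | h | h | h | h
            · exact absurd h b0
            · exact absurd h b1
            · exact absurd (Or.inl h) b2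
            · exact absurd (Or.inr h) b2
            · exact h
          exact hab.ne (ha'.trans hb'.symm)
    · simp [hri 2 0 (by decide), hri 2 1 (by decide), hri 3 0 (by decide), hri 3 1 (by decide)]
  -- (iii)
  have hs23 : s = r 2 ∨ s = r 3 := by
    by_contra hn
    push Not at hn
    obtain ⟨hn2, hn3⟩ := hn
    have n02 : ¬ G.Adj (r 0) (r 2) := by
      intro h
      rcases hN0 _ h with h | h | h | h
      · exact g.cr 2 h
      · exact g.vr 1 d1 2 h.symm
      · exact hri 2 1 (by decide) h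
      · exact hn2 h.symm
    have n13 : ¬ G.Adj (r 1) (r 3) := by
      intro h
      rcases hN1 _ h with h | h | h | h
      · exact g.cr 3 h
      · exact g.vr 0 d0 3 h.symm
      · exact hri 3 0 (by decide) h
      · exact hn3 h.symm
    have hq := hg.q1 (fun w => if w = r 0 ∨ w = r 2 then 0 else if w = r 1 ∨ w = r 3 then 1 else 2)
      ?_
    · have hsub : (Finset.univ.image fun i : Fin 4 => (if r i = r 0 ∨ r i = r 2 then (0 : Fin 4)
          else if r i = r 1 ∨ r i = r 3 then 1 else 2)) ⊆ {0, 1} := by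
        intro κ hκ
        obtain ⟨i, -, rfl⟩ := Finset.mem_image.1 hκ
        fin_cases i <;> simp [hri 1 0 (by decide), hri 1 2 (by decide), hri 3 0 (by decide),
          hri 3 2 (by decide)]
      have := hq.trans (Finset.card_le_card hsub)
      exact absurd this (by decide)
    · intro a ha b hb hab
      by_cases a0 : a = r 0 ∨ a = r 2
      · have b0 : ¬ (b = r 0 ∨ b = r 2) := by
          intro b0
          rcases a0 with rfl | rfl <;> rcases b0 with rfl | rfl
          · exact hab.ne rfl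
          · exact n02 hab
          · exact n02 hab.symm
          · exact hab.ne rfl
        simp only [if_pos a0, if_neg b0]
        split_ifs <;> decide
      by_cases b0 : b = r 0 ∨ b = r 2
      · simp only [if_neg a0, if_pos b0]
        split_ifs <;> decide
      simp only [if_neg a0, if_neg b0]
      by_cases a1 : a = r 1 ∨ a = r 3
      · have b1 : ¬ (b = r 1 ∨ b = r 3) := by
          intro b1
          rcases a1 with rfl | rfl <;> rcases b1 with rfl | rfl
          · exact hab.ne rfl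
          · exact n13 hab
          · exact n13 hab.symm
          · exact hab.ne rfl
        simp only [if_pos a1, if_neg b1]
        decide
      · by_cases b1 : b = r 1 ∨ b = r 3
        · simp only [if_neg a1, if_pos b1]
          decide
        · exfalso
          have ha' : a = s := by
            rcases hRest a ha with h | h | h | h | h
            · exact absurd (Or.inl h) a0
            · exact absurd (Or.inl h) a1
            · exact absurd (Or.inr h) a0
            · exact absurd (Or.inr h) a1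
            · exact h
          have hb' : b = s := by
            rcases hRest b hb with h | h | h | h | h
            · exact absurd (Or.inl h) b0
            · exact absurd (Or.inl h) b1
            · exact absurd (Or.inr h) b0
            · exact absurd (Or.inr h) b1
            · exact h
          exact hab.ne (ha'.trans hb'.symm)
  -- (iv)
  refine hG.bad.2.1 (tk hTKB r c (v 0) (v 1) g.inj g.cr (g.vc 0 d0) (g.vc 1 d1) (g.vr 0 d0)
    (g.vr 1 d1) hvv hg.full h01 h23 (fun i hi => ((g.Nv 0 d0 (r i)).2 (Or.inr ⟨i, hi, rfl⟩)).symm)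
    (fun i hi => ((g.Nv 1 d1 (r i)).2 (Or.inr ⟨i, hi, rfl⟩)).symm) ?_)
  rcases hs23 with h | h
  · exact Or.inl ⟨h ▸ h0s, h ▸ h1s⟩
  · exact Or.inr ⟨h ▸ h0s, h ▸ h1s⟩

end Pool.Agent.Lib.MPc67b86
end

section
/-!
# MP_c67b86_co: module M3A (`D = {0, 1, 2}`, degrees in the rest)
-/
set_option autoImplicit false

namespace Pool.Agent.Lib.MPc67b86

namespace M3AM

variable {V : Type}

theorem lk1 {G : SimpleGraph V} {a b w : V} (h1 : G.Adj a w) (h2 : G.Adj w b) : Lk G a b {w} := by
  have e1 : (res G (insert a (insert b {w}))).Adj a w := ⟨h1, by simp, by simp⟩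
  have e2 : (res G (insert a (insert b {w}))).Adj w b := ⟨h2, by simp, by simp⟩
  exact e1.reachable.trans e2.reachable

theorem lk_res {G : SimpleGraph V} {R : Set V} {x y : V} {I : Set V} (h : Lk (res G R) x y I) :
    Lk G x y I := by
  refine SimpleGraph.Reachable.mono ?_ h
  intro a b hab
  exact ⟨hab.1.1, hab.2.1, hab.2.2⟩

theorem mem_of_reach {G : SimpleGraph V} {A : Set V} {v u : V} (hne : u ≠ v)
    (h : (res G A).Reachable v u) : u ∈ A := by
  obtain ⟨p⟩ := h
  cases hp : p.reverse with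
  | nil => exact absurd rfl hne
  | cons hadj _ => exact hadj.2.1

theorem surj3 : ∀ (i : Fin 4) (φ : Fin 3 → Fin 4), Function.Injective φ → (∀ t, φ t ≠ i) →
    ∀ j, j ≠ i → ∃ t, φ t = j := by
  decide

/-- the subdivision -/
theorem tk (hTKB : SpecTKB) {G : SimpleGraph V} (r : Fin 4 → V) (c : V) (p : Fin 4 → Fin 4)
    (hp : Function.Injective p) (w : Fin 3 → V) (hw : Function.Injective w)
    (hr : Function.Injective r) (hcr : ∀ i, r i ≠ c) (hwc : ∀ d, w d ≠ c)
    (hwr : ∀ d i, w d ≠ r i) (hc : ∀ i, G.Adj c (r i))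
    (h0 : G.Adj (r (p 1)) (w 0) ∧ G.Adj (w 0) (r (p 2)))
    (h1 : G.Adj (r (p 1)) (w 1) ∧ G.Adj (w 1) (r (p 3)))
    (h2 : G.Adj (r (p 2)) (w 2) ∧ G.Adj (w 2) (r (p 3)))
    (I : Fin 3 → Set V) (hI1 : Lk G (r (p 0)) (r (p 1)) (I 0))
    (hI2 : Lk G (r (p 0)) (r (p 2)) (I 1)) (hI3 : Lk G (r (p 0)) (r (p 3)) (I 2))
    (hII : ∀ i j, i ≠ j → Disjoint (I i) (I j))
    (hIr : ∀ i, ∀ u ∈ I i, (∀ j, u ≠ r j) ∧ u ≠ c ∧ ∀ d, u ≠ w d) : TK5 G := by
  have hf : Function.Injective (![r (p 0), r (p 1), r (p 2), r (p 3), c] : Fin 5 → V) := by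
    have e : ∀ i j : Fin 4, r (p i) = r (p j) → i = j := fun i j h => hp (hr h)
    intro i k h
    fin_cases i <;> fin_cases k <;>
      first
      | rfl
      | exact absurd h (hcr _)
      | exact absurd h.symm (hcr _)
      | exact absurd (e _ _ h) (by decide)
  have hJ0 : ∀ i k, (![r (p 0), r (p 1), r (p 2), r (p 3), c] : Fin 5 → V) k ∉ I i := by
    intro i k hk
    obtain ⟨a1, a2, a3⟩ := hIr i _ hk
    fin_cases k <;>
      first
      | exact a2 rfl
      | exact a1 _ rfl
  have hJ2 : ∀ d k, (![r (p 0), r (p 1), r (p 2), r (p 3), c] : Fin 5 → V) k ∉ ({w d} : Set V) := by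
    intro d k hk
    have hk' := Set.mem_singleton_iff.1 hk
    fin_cases k <;>
      first
      | exact hwc d hk'.symm
      | exact hwr d _ hk'.symm
  have d1 : ∀ i d, Disjoint (I i) ({w d} : Set V) := by
    intro i d
    rw [Set.disjoint_singleton_right]
    exact fun h => (hIr i _ h).2.2 d rfl
  have d2 : ∀ d e, d ≠ e → Disjoint ({w d} : Set V) ({w e} : Set V) := by
    intro d e hde
    exact Set.disjoint_singleton.2 fun h => hde (hw h)
  refine hTKB V G ![r (p 0), r (p 1), r (p 2), r (p 3), c] 6 ![0, 0, 0, 1, 1, 2] ![1, 2, 3, 2, 3, 3]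
    ![I 0, I 1, I 2, {w 0}, {w 1}, {w 2}] hf ?_ ?_ ?_ ?_
  · intro j k
    fin_cases j
    · exact hJ0 0 k
    · exact hJ0 1 k
    · exact hJ0 2 k
    · exact hJ2 0 k
    · exact hJ2 1 k
    · exact hJ2 2 k
  · intro j k hjk
    fin_cases j <;> fin_cases k <;>
      first
      | exact absurd rfl hjk
      | exact hII _ _ (by decide)
      | exact d1 _ _
      | exact (d1 _ _).symm
      | exact d2 _ _ (by decide)
  · intro j
    fin_cases j
    · exact hI1
    · exact hI2
    · exact hI3
    · exact lk1 h0.1 h0.2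
    · exact lk1 h1.1 h1.2
    · exact lk1 h2.1 h2.2
  · intro i k hik
    fin_cases i <;> fin_cases k <;>
      first
      | exact absurd rfl hik
      | exact Or.inl (hc _)
      | exact Or.inl (hc _).symm
      | exact Or.inr ⟨0, Or.inl ⟨rfl, rfl⟩⟩
      | exact Or.inr ⟨0, Or.inr ⟨rfl, rfl⟩⟩
      | exact Or.inr ⟨1, Or.inl ⟨rfl, rfl⟩⟩
      | exact Or.inr ⟨1, Or.inr ⟨rfl, rfl⟩⟩
      | exact Or.inr ⟨2, Or.inl ⟨rfl, rfl⟩⟩
      | exact Or.inr ⟨2, Or.inr ⟨rfl, rfl⟩⟩
      | exact Or.inr ⟨3, Or.inl ⟨rfl, rfl⟩⟩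
      | exact Or.inr ⟨3, Or.inr ⟨rfl, rfl⟩⟩
      | exact Or.inr ⟨4, Or.inl ⟨rfl, rfl⟩⟩
      | exact Or.inr ⟨4, Or.inr ⟨rfl, rfl⟩⟩
      | exact Or.inr ⟨5, Or.inl ⟨rfl, rfl⟩⟩
      | exact Or.inr ⟨5, Or.inr ⟨rfl, rfl⟩⟩

end M3AM

open M3AM

theorem specM3A (hFAN : SpecFAN) (hSP3 : SpecSP3) (hTKB : SpecTKB) : SpecM3A := by
  classical
  intro V _ G hG r c v hg i
  have g := hg.gad
  have hfull := hg.full
  have hD : ∀ d : Fin 3, (d.castSucc : Fin 4) ∈ ({0, 1, 2} : Finset (Fin 4)) := by decide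
  have hD' : ∀ d ∈ ({0, 1, 2} : Finset (Fin 4)), ∃ e : Fin 3, d = e.castSucc := by decide
  have hvr : ∀ (d : Fin 3) i, v d.castSucc ≠ r i := fun d => g.vr _ (hD d)
  have hvc : ∀ d : Fin 3, v d.castSucc ≠ c := fun d => g.vc _ (hD d)
  have hvi : ∀ d e : Fin 3, v d.castSucc = v e.castSucc → d = e := fun d e h =>
    Fin.castSucc_injective _ (g.vinj _ (hD d) _ (hD e) h)
  have nv : ∀ (d : Fin 3) (j : Fin 4), j ≠ d.castSucc → G.Adj (r j) (v d.castSucc) := fun d j hj =>
    ((g.Nv _ (hD d) (r j)).2 (Or.inr ⟨j, hj, rfl⟩)).symm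
  set RS : Set V := Rest c {0, 1, 2} v with hRS
  have hRSiff : ∀ w, w ∈ RS ↔ w ≠ c ∧ ∀ d : Fin 3, w ≠ v d.castSucc := by
    intro w
    constructor
    · rintro ⟨h1, h2⟩
      exact ⟨h1, fun d => h2 _ (hD d)⟩
    · rintro ⟨h1, h2⟩
      refine ⟨h1, fun d hd => ?_⟩
      obtain ⟨e, he⟩ := hD' d hd
      rw [he]
      exact h2 e
  have hrRS : ∀ i, r i ∈ RS := fun i => (hRSiff _).2 ⟨g.cr i, fun d h => hvr d i h.symm⟩
  -- vertices of the rest which are not among the `r i`
  have hrest : ∀ u ∈ RS, (∀ i, u ≠ r i) → ∀ w, G.Adj u w → w ∈ RS := by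
    intro u hu0 hu w hw
    obtain ⟨u1, u2⟩ := (hRSiff u).1 hu0
    refine (hRSiff w).2 ⟨?_, ?_⟩
    · rintro rfl
      rcases g.Nc u hw.symm with ⟨i, h⟩ | ⟨d, hd, h⟩
      · exact hu i h
      · obtain ⟨e, he⟩ := hD' d hd
        rw [he] at h
        exact u2 e h
    · rintro d rfl
      rcases (g.Nv _ (hD d) u).1 hw.symm with h | ⟨i, hi, h⟩
      · exact u1 h
      · exact hu i h
  set B : Set V := {b | ∃ j, j ≠ i ∧ b = r j} with hBdef
  have hB : r i ∉ B := by
    rintro ⟨j, hj, h⟩
    exact hj (g.inj h).symm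
  by_cases hT : ∀ T : Set V, r i ∉ T → T.ncard < 3 →
      ∃ b ∈ B, b ∉ T ∧ (res (res G RS) Tᶜ).Reachable (r i) b
  · exfalso
    obtain ⟨b, I, hb1, hb2, hb3, hb4, hb5, hb6, hb7⟩ := hFAN V (res G RS) (r i) B 3 hB hT
    choose φ hφ1 hφ2 using hb2
    have hφi : Function.Injective φ := by
      intro s t h
      apply hb1
      rw [hφ2 s, hφ2 t, h]
    have hsur := surj3 i φ hφi hφ1
    have hIR : ∀ t, ∀ u ∈ I t, (∀ j, u ≠ r j) ∧ u ≠ c ∧ ∀ d : Fin 3, u ≠ v d.castSucc := by
      intro t u hu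
      obtain ⟨w, hw⟩ := hb7 t u hu
      have h1 := (hRSiff u).1 hw.2.1
      have h2 : u ∉ B := Set.disjoint_left.1 (hb3 t) hu
      refine ⟨fun j h => ?_, h1.1, h1.2⟩
      by_cases hj : j = i
      · subst hj
        exact hb4 t (h ▸ hu)
      · exact h2 ⟨j, hj, h⟩
    have main : ∀ (p : Fin 4 → Fin 4) (q : Fin 3 → Fin 3), Function.Injective p →
        Function.Injective q → p 0 = i →
        (p 1 ≠ (q 0).castSucc ∧ p 2 ≠ (q 0).castSucc) → (p 1 ≠ (q 1).castSucc ∧ p 3 ≠ (q 1).castSucc) →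
        (p 2 ≠ (q 2).castSucc ∧ p 3 ≠ (q 2).castSucc) → TK5 G := by
      intro p q hp hq hp0 a0 a1 a2
      have hpi : ∀ k, k ≠ 0 → p k ≠ i := fun k hk h => hk (hp (h.trans hp0.symm))
      obtain ⟨t1, ht1⟩ := hsur (p 1) (hpi 1 (by decide))
      obtain ⟨t2, ht2⟩ := hsur (p 2) (hpi 2 (by decide))
      obtain ⟨t3, ht3⟩ := hsur (p 3) (hpi 3 (by decide))
      have hlk : ∀ t, Lk G (r i) (r (φ t)) (I t) := fun t => by
        have := lk_res (hb6 t)
        rw [hφ2 t] at this
        exact this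
      have e12 : t1 ≠ t2 := fun h => absurd (hp (ht1.symm.trans ((congrArg φ h).trans ht2))) (by decide)
      have e13 : t1 ≠ t3 := fun h => absurd (hp (ht1.symm.trans ((congrArg φ h).trans ht3))) (by decide)
      have e23 : t2 ≠ t3 := fun h => absurd (hp (ht2.symm.trans ((congrArg φ h).trans ht3))) (by decide)
      refine tk hTKB r c p hp (fun d => v (q d).castSucc) (fun d e h => hq (hvi _ _ h)) g.inj g.cr
        (fun d => hvc _) (fun d j => hvr _ _) hfull ⟨nv _ _ a0.1, (nv _ _ a0.2).symm⟩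
        ⟨nv _ _ a1.1, (nv _ _ a1.2).symm⟩ ⟨nv _ _ a2.1, (nv _ _ a2.2).symm⟩ ![I t1, I t2, I t3]
        ?_ ?_ ?_ ?_ ?_
      · rw [hp0, ← ht1]
        exact hlk t1
      · rw [hp0, ← ht2]
        exact hlk t2
      · rw [hp0, ← ht3]
        exact hlk t3
      · intro a b hab
        fin_cases a <;> fin_cases b <;>
          first
          | exact absurd rfl hab
          | exact hb5 _ _ e12
          | exact (hb5 _ _ e12).symm
          | exact hb5 _ _ e13
          | exact (hb5 _ _ e13).symm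
          | exact hb5 _ _ e23
          | exact (hb5 _ _ e23).symm
      · intro a u hu
        have : ∃ t, u ∈ I t := by
          fin_cases a
          · exact ⟨t1, hu⟩
          · exact ⟨t2, hu⟩
          · exact ⟨t3, hu⟩
        obtain ⟨t, ht⟩ := this
        obtain ⟨x1, x2, x3⟩ := hIR t u ht
        exact ⟨x1, x2, fun d => x3 _⟩
    apply hG.bad.2.1
    fin_cases i
    · exact main ![0, 1, 2, 3] ![0, 2, 1] (by decide) (by decide) rfl (by decide) (by decide) (by decide)
    · exact main ![1, 0, 2, 3] ![1, 2, 0] (by decide) (by decide) rfl (by decide) (by decide) (by decide)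
    · exact main ![2, 0, 1, 3] ![2, 1, 0] (by decide) (by decide) rfl (by decide) (by decide) (by decide)
    · exact main ![3, 0, 1, 2] ![2, 1, 0] (by decide) (by decide) rfl (by decide) (by decide) (by decide)
  · push Not at hT
    obtain ⟨T, hT1, hT2, hT3⟩ := hT
    have hTf : T.Finite := Set.toFinite _
    set K : Set V := {u | (res (res G RS) Tᶜ).Reachable (r i) u} with hK
    have hK1 : ∀ u ∈ K, u ≠ r i → u ∉ T ∧ u ∈ RS := by
      intro u hu hne
      have h1 : u ∈ Tᶜ := mem_of_reach hne hu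
      have h2 : (res G RS).Reachable (r i) u := by
        refine SimpleGraph.Reachable.mono ?_ hu
        intro a b hab
        exact hab.1
      exact ⟨h1, mem_of_reach hne h2⟩
    have hK2 : ∀ b ∈ B, b ∉ K := by
      intro b hb hbK
      have hne : b ≠ r i := fun h => hB (h ▸ hb)
      exact hT3 b hb (hK1 b hbK hne).1 hbK
    have hriK : r i ∈ K := SimpleGraph.Reachable.refl _
    have hstep : ∀ u ∈ K, u ∉ T → u ∈ RS → ∀ w ∈ RS, w ∉ T → G.Adj u w → w ∈ K := by
      intro u hu huT huR w hwR hwT hw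
      have h1 : (res (res G RS) Tᶜ).Adj u w := ⟨⟨hw, huR, hwR⟩, huT, hwT⟩
      exact SimpleGraph.Reachable.trans hu h1.reachable
    have hK3 : ∀ u ∈ K, u = r i := by
      intro u hu
      by_contra hne
      obtain ⟨w, hw1, hw2⟩ : ∃ w, (w = c ∨ w = v 0 ∨ w = v 1) ∧ w ∉ T := by
        by_contra hcon
        push Not at hcon
        have h1 : ({c, v 0, v 1} : Set V) ⊆ T := by
          rintro x (hx | hx | hx)
          · exact hcon x (Or.inl hx)
          · exact hcon x (Or.inr (Or.inl hx))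
          · exact hcon x (Or.inr (Or.inr hx))
        have h2 := Set.ncard_le_ncard h1 hTf
        have h3 : ({c, v 0, v 1} : Set V).ncard = 3 := by
          refine Set.ncard_eq_three.2 ⟨c, v 0, v 1, (hvc 0).symm, (hvc 1).symm, ?_, rfl⟩
          intro h
          exact absurd (hvi 0 1 h) (by decide)
        omega
      have hwR : w ∉ RS := by
        intro h
        obtain ⟨h1, h2⟩ := (hRSiff w).1 h
        rcases hw1 with h | h | h
        · exact h1 h
        · exact h2 0 h
        · exact h2 1 h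
      have hwr : ∀ i, w ≠ r i := fun i h => hwR (h ▸ hrRS i)
      refine hSP3 V G hG ({r i} ∪ T) {x | x ∈ K ∧ x ≠ r i} ?_ ⟨⟨u, hu, hne⟩, ?_, ⟨w, ?_, ?_⟩, ?_⟩
      · refine (Set.ncard_union_le _ _).trans ?_
        have h1 : ({r i} : Set V).ncard ≤ 1 := (Set.ncard_singleton _).le
        omega
      · rintro x ⟨hx, hx0⟩ (h | h)
        · exact hx0 h
        · exact (hK1 x hx hx0).1 h
      · rintro (h | h)
        · exact hwr i h
        · exact hw2 h
      · rintro ⟨h1, h3⟩
        exact hwR (hK1 w h1 h3).2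
      · rintro x ⟨hx, hx0⟩ y hxy
        have hxR := (hK1 x hx hx0).2
        have hxT := (hK1 x hx hx0).1
        have hxr : ∀ j, x ≠ r j := by
          intro j h
          by_cases hj : j = i
          · exact hx0 (hj ▸ h)
          · exact hK2 (r j) ⟨j, hj, rfl⟩ (h ▸ hx)
        have hyR := hrest x hxR hxr y hxy
        by_cases hyT : y ∈ T
        · exact Or.inr (Or.inr hyT)
        · have hyK := hstep x hx hxT hxR y hyR hyT hxy
          by_cases h0 : y = r i
          · exact Or.inr (Or.inl h0)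
          · exact Or.inl ⟨hyK, h0⟩
    have hsub : {w | w ∈ RS ∧ G.Adj (r i) w} ⊆ T := by
      rintro w ⟨hw1, hw2⟩
      by_contra hwT
      have hwK := hstep (r i) hriK hT1 (hrRS i) w hw1 hwT hw2
      exact hw2.ne (hK3 w hwK).symm
    have := Set.ncard_le_ncard hsub hTf
    omega

end Pool.Agent.Lib.MPc67b86
end

section
/-!
# MP_c67b86_co: module M3B (the case `D = {0, 1, 2}` is impossible)
-/
set_option autoImplicit false

namespace Pool.Agent.Lib.MPc67b86

namespace M3BM

variable {V : Type}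

theorem lk1 {G : SimpleGraph V} {a b w : V} (h1 : G.Adj a w) (h2 : G.Adj w b) : Lk G a b {w} := by
  have e1 : (res G (insert a (insert b {w}))).Adj a w := ⟨h1, by simp, by simp⟩
  have e2 : (res G (insert a (insert b {w}))).Adj w b := ⟨h2, by simp, by simp⟩
  exact e1.reachable.trans e2.reachable

theorem ncard3 {N : Set V} {a b d : V} (h : N ⊆ {a, b, d}) : N.ncard ≤ 3 := by
  have hf : ({a, b, d} : Set V).Finite := Set.toFinite _
  refine (Set.ncard_le_ncard h hf).trans ?_
  exact (Set.ncard_insert_le _ _).trans (Nat.succ_le_succ ((Set.ncard_insert_le _ _).trans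
    (Nat.succ_le_succ (Set.ncard_singleton _).le)))

theorem two_others : ∀ i l : Fin 4, i ≠ l → ∃ j k : Fin 4, j ≠ k ∧ j ≠ i ∧ k ≠ i ∧ j ≠ l ∧ k ≠ l := by
  decide

/-- the subdivision -/
theorem tk (hTKB : SpecTKB) {G : SimpleGraph V} (r : Fin 4 → V) (c : V) (w : Fin 3 → V)
    (hw : Function.Injective w) (hr : Function.Injective r) (hcr : ∀ i, r i ≠ c)
    (hwc : ∀ d, w d ≠ c) (hwr : ∀ d i, w d ≠ r i) (hc : ∀ i, G.Adj c (r i))
    (h3 : ∀ d, G.Adj (r 3) (w d)) (h0 : G.Adj (w 1) (r 0)) (h1 : G.Adj (w 2) (r 1))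
    (h2 : G.Adj (w 0) (r 2)) (h01 : G.Adj (r 0) (r 1)) (h02 : G.Adj (r 0) (r 2))
    (h12 : G.Adj (r 1) (r 2)) : TK5 G := by
  have hf : Function.Injective (![r 0, r 1, r 2, r 3, c] : Fin 5 → V) := by
    have e : ∀ i j : Fin 4, r i = r j → i = j := fun i j h => hr h
    intro i k h
    fin_cases i <;> fin_cases k <;>
      first
      | rfl
      | exact absurd h (hcr _)
      | exact absurd h.symm (hcr _)
      | exact absurd (e _ _ h) (by decide)
  have hJ2 : ∀ d k, (![r 0, r 1, r 2, r 3, c] : Fin 5 → V) k ∉ ({w d} : Set V) := by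
    intro d k hk
    have hk' := Set.mem_singleton_iff.1 hk
    fin_cases k <;>
      first
      | exact hwc d hk'.symm
      | exact hwr d _ hk'.symm
  have d2 : ∀ d e, d ≠ e → Disjoint ({w d} : Set V) ({w e} : Set V) := by
    intro d e hde
    exact Set.disjoint_singleton.2 fun h => hde (hw h)
  refine hTKB V G ![r 0, r 1, r 2, r 3, c] 3 ![3, 3, 3] ![0, 1, 2] ![{w 1}, {w 2}, {w 0}] hf ?_ ?_ ?_ ?_
  · intro j k
    fin_cases j
    · exact hJ2 1 k
    · exact hJ2 2 k
    · exact hJ2 0 k
  · intro j k hjk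
    fin_cases j <;> fin_cases k <;>
      first
      | exact absurd rfl hjk
      | exact d2 _ _ (by decide)
  · intro j
    fin_cases j
    · exact lk1 (h3 1) h0
    · exact lk1 (h3 2) h1
    · exact lk1 (h3 0) h2
  · intro i k hik
    fin_cases i <;> fin_cases k <;>
      first
      | exact absurd rfl hik
      | exact Or.inl (hc _)
      | exact Or.inl (hc _).symm
      | exact Or.inl h01
      | exact Or.inl h01.symm
      | exact Or.inl h02
      | exact Or.inl h02.symm
      | exact Or.inl h12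
      | exact Or.inl h12.symm
      | exact Or.inr ⟨0, Or.inl ⟨rfl, rfl⟩⟩
      | exact Or.inr ⟨0, Or.inr ⟨rfl, rfl⟩⟩
      | exact Or.inr ⟨1, Or.inl ⟨rfl, rfl⟩⟩
      | exact Or.inr ⟨1, Or.inr ⟨rfl, rfl⟩⟩
      | exact Or.inr ⟨2, Or.inl ⟨rfl, rfl⟩⟩
      | exact Or.inr ⟨2, Or.inr ⟨rfl, rfl⟩⟩

end M3BM

open M3BM

theorem specM3B (hRED : SpecRED) (hDEG : SpecDEG) (hSP3 : SpecSP3) (hTKB : SpecTKB)
    (hM3A : SpecM3A) (hLST : SpecLST) : SpecM3B := by
  classical
  intro V _ G hG r c v hg
  have g := hg.gad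
  have hfull := hg.full
  have hD : ∀ d : Fin 3, (d.castSucc : Fin 4) ∈ ({0, 1, 2} : Finset (Fin 4)) := by decide
  have hD' : ∀ d ∈ ({0, 1, 2} : Finset (Fin 4)), ∃ e : Fin 3, d = e.castSucc := by decide
  have hvr : ∀ (d : Fin 3) i, v d.castSucc ≠ r i := fun d => g.vr _ (hD d)
  have hvc : ∀ d : Fin 3, v d.castSucc ≠ c := fun d => g.vc _ (hD d)
  have hvi : ∀ d e : Fin 3, v d.castSucc = v e.castSucc → d = e := fun d e h =>
    Fin.castSucc_injective _ (g.vinj _ (hD d) _ (hD e) h)
  have nv : ∀ (d : Fin 3) (j : Fin 4), j ≠ d.castSucc → G.Adj (r j) (v d.castSucc) := fun d j hj =>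
    ((g.Nv _ (hD d) (r j)).2 (Or.inr ⟨j, hj, rfl⟩)).symm
  set RS : Set V := Rest c {0, 1, 2} v with hRS
  have hRSiff : ∀ w, w ∈ RS ↔ w ≠ c ∧ ∀ d : Fin 3, w ≠ v d.castSucc := by
    intro w
    constructor
    · rintro ⟨h1, h2⟩
      exact ⟨h1, fun d => h2 _ (hD d)⟩
    · rintro ⟨h1, h2⟩
      refine ⟨h1, fun d hd => ?_⟩
      obtain ⟨e, he⟩ := hD' d hd
      rw [he]
      exact h2 e
  have hrRS : ∀ i, r i ∈ RS := fun i => (hRSiff _).2 ⟨g.cr i, fun d h => hvr d i h.symm⟩
  have hcRS : c ∉ RS := fun h => ((hRSiff c).1 h).1 rfl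
  have hrest : ∀ u ∈ RS, (∀ i, u ≠ r i) → ∀ w, G.Adj u w → w ∈ RS := by
    intro u hu0 hu w hw
    obtain ⟨u1, u2⟩ := (hRSiff u).1 hu0
    refine (hRSiff w).2 ⟨?_, ?_⟩
    · rintro rfl
      rcases g.Nc u hw.symm with ⟨i, h⟩ | ⟨d, hd, h⟩
      · exact hu i h
      · obtain ⟨e, he⟩ := hD' d hd
        rw [he] at h
        exact u2 e h
    · rintro d rfl
      rcases (g.Nv _ (hD d) u).1 hw.symm with h | ⟨i, hi, h⟩
      · exact u1 h
      · exact hu i h
  obtain ⟨f, hf, -⟩ := hRED V G hG RS ⟨c, hcRS⟩ 0 (fun j => j.elim0) (fun j => j.elim0)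
    (fun j => j.elim0) (fun j => j.elim0) (fun j => j.elim0) (fun j => j.elim0) (fun j => j.elim0)
    (fun j => j.elim0) (fun j => j.elim0)
  have hM := hM3A V G hG r c v hg
  set O : Set V := {w | w ∈ RS ∧ ∀ i, w ≠ r i} with hO
  have hfin : ∀ s : Set V, s.Finite := fun s => Set.toFinite s
  -- degrees
  have hdeg2 : ∀ i, {j | G.Adj (r i) (r j)}.ncard + {w | w ∈ O ∧ G.Adj (r i) w}.ncard ≤ 2 := by
    intro i
    have h1 : (r '' {j | G.Adj (r i) (r j)}).ncard = {j | G.Adj (r i) (r j)}.ncard :=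
      Set.ncard_image_of_injective _ g.inj
    have h2 : Disjoint (r '' {j | G.Adj (r i) (r j)}) {w | w ∈ O ∧ G.Adj (r i) w} := by
      rw [Set.disjoint_left]
      rintro _ ⟨j, -, rfl⟩ ⟨h, -⟩
      exact h.2 j rfl
    rw [← h1, ← Set.ncard_union_eq h2 (hfin _) (hfin _)]
    refine (Set.ncard_le_ncard ?_ (hfin _)).trans (hM i)
    rintro w (⟨j, hj, rfl⟩ | ⟨h3, h4⟩)
    · exact ⟨hrRS j, hj⟩
    · exact ⟨h3.1, h4⟩
  let L : Fin 4 → Finset (Fin 4) := fun i =>
    Finset.univ.filter fun κ => ∀ w ∈ O, G.Adj (r i) w → f w ≠ κ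
  have hL : ∀ i, 2 + {j | G.Adj (r i) (r j)}.ncard ≤ (L i).card := by
    intro i
    have h1 : ((L i)ᶜ : Finset (Fin 4)).card ≤ {w | w ∈ O ∧ G.Adj (r i) w}.ncard := by
      rw [← Set.ncard_coe_finset]
      refine (Set.ncard_le_ncard (t := f '' {w | w ∈ O ∧ G.Adj (r i) w}) ?_ (Set.toFinite _)).trans
        (Set.ncard_image_le (hfin _))
      intro κ hκ
      rw [Finset.mem_coe, Finset.mem_compl, Finset.mem_filter] at hκ
      push Not at hκ
      obtain ⟨w, hw1, hw2, hw3⟩ := hκ (Finset.mem_univ _)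
      exact ⟨w, ⟨hw1, hw2⟩, hw3⟩
    rw [Finset.card_compl, Fintype.card_fin] at h1
    have h2 := hdeg2 i
    omega
  rcases hLST (fun i j => G.Adj (r i) (r j)) L (fun i h => h.ne rfl) (fun i j h => h.symm) hL with
    ⟨k, hk1, hk2, hk3⟩ | ⟨l, hl1, hl2⟩
  · -- first case
    let h : V → Fin 4 := fun w => if hw : ∃ i, w = r i then k hw.choose else f w
    have hhr : ∀ i, h (r i) = k i := by
      intro i
      have hw : ∃ j, r i = r j := ⟨i, rfl⟩
      have e : h (r i) = k hw.choose := dif_pos hw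
      rw [e, ← g.inj hw.choose_spec]
    have hho : ∀ w, (∀ i, w ≠ r i) → h w = f w := by
      intro w hw
      exact dif_neg fun ⟨i, hi⟩ => hw i hi
    have hcol : IsCol G RS h := by
      intro a ha b hb hab
      by_cases ha' : ∃ i, a = r i
      · obtain ⟨i, rfl⟩ := ha'
        by_cases hb' : ∃ j, b = r j
        · obtain ⟨j, rfl⟩ := hb'
          rw [hhr, hhr]
          exact hk2 i j hab
        · push Not at hb'
          rw [hhr, hho b hb']
          have := (Finset.mem_filter.1 (hk1 i)).2 b ⟨hb, hb'⟩ hab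
          exact this.symm
      · push Not at ha'
        by_cases hb' : ∃ j, b = r j
        · obtain ⟨j, rfl⟩ := hb'
          rw [hhr, hho a ha']
          exact (Finset.mem_filter.1 (hk1 j)).2 a ⟨ha, ha'⟩ hab.symm
        · push Not at hb'
          rw [hho a ha', hho b hb']
          exact hf a ha b hb hab
    have h3 := hg.q1 h hcol
    have h4 : (Finset.univ.image fun i => h (r i)) = Finset.univ.image k := by
      congr 1
      funext i
      exact hhr i
    rw [h4] at h3
    omega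
  · -- second case
    have hnoO : ∀ i, i ≠ l → ∀ w ∈ O, ¬ G.Adj (r i) w := by
      intro i hi w hw hadj
      obtain ⟨j, k, hjk, hji, hki, hjl, hkl⟩ := two_others i l hi
      have h1 : ({r j, r k, w} : Set V) ⊆ {w | w ∈ RS ∧ G.Adj (r i) w} := by
        rintro x (hx | hx | hx)
        · rw [hx]
          exact ⟨hrRS j, hl2 i j hji.symm hi hjl⟩
        · rw [hx]
          exact ⟨hrRS k, hl2 i k hki.symm hi hkl⟩
        · rw [hx]
          exact ⟨hw.1, hadj⟩
      have h2 : ({r j, r k, w} : Set V).ncard = 3 :=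
        Set.ncard_eq_three.2 ⟨r j, r k, w, fun h => hjk (g.inj h), (hw.2 j).symm, (hw.2 k).symm, rfl⟩
      have h3 := Set.ncard_le_ncard h1 (hfin _)
      have h4 : {w | w ∈ RS ∧ G.Adj (r i) w}.ncard ≤ 2 := hM i
      omega
    have hOe : ∀ w, w ∉ O := by
      intro o ho
      refine hSP3 V G hG {r l} O ?_ ⟨⟨o, ho⟩, ?_, ⟨c, ?_, ?_⟩, ?_⟩
      · rw [Set.ncard_singleton]
        omega
      · intro x hx h
        exact hx.2 l h
      · intro h
        exact g.cr l (Set.mem_singleton_iff.1 h).symm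
      · intro h
        exact hcRS h.1
      · intro u hu w hw
        have hwR := hrest u hu.1 hu.2 w hw
        by_cases hwr : ∃ i, w = r i
        · obtain ⟨i, rfl⟩ := hwr
          by_cases hil : i = l
          · exact Or.inr (by rw [hil]; exact rfl)
          · exact absurd hw.symm (hnoO i hil u hu)
        · push Not at hwr
          exact Or.inl ⟨hwR, hwr⟩
    have hNl : ∀ w, G.Adj (r l) w → w = c ∨ ∃ d : Fin 3, d.castSucc ≠ l ∧ w = v d.castSucc := by
      intro w hw
      have hwR : w ∉ RS := by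
        intro hwR
        by_cases hwr : ∃ i, w = r i
        · obtain ⟨i, rfl⟩ := hwr
          exact hl1 i hw
        · push Not at hwr
          exact hOe w ⟨hwR, hwr⟩
      rw [hRSiff] at hwR
      by_cases hwc : w = c
      · exact Or.inl hwc
      · push Not at hwR
        obtain ⟨d, hd⟩ := hwR hwc
        refine Or.inr ⟨d, ?_, hd⟩
        rintro rfl
        rw [hd] at hw
        rcases (g.Nv _ (hD d) _).1 hw.symm with h | ⟨i, hi, h⟩
        · exact g.cr _ h
        · exact hi (g.inj h).symm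
    have hdl := (hDEG V G hG).1 (r l)
    have hex : ∀ x y : V, (∀ d : Fin 3, d.castSucc ≠ l → v d.castSucc = x ∨ v d.castSucc = y) → False := by
      intro x y hxy
      have h1 : G.neighborSet (r l) ⊆ {c, x, y} := by
        intro w hw
        rcases hNl w hw with h | ⟨d, hd, h⟩
        · exact Or.inl h
        · rcases hxy d hd with h' | h'
          · exact Or.inr (Or.inl (h.trans h'))
          · exact Or.inr (Or.inr (h.trans h'))
      have := ncard3 h1
      omega
    have hl3 : l = 3 := by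
      by_contra hl3
      have : l = 0 ∨ l = 1 ∨ l = 2 := by
        fin_cases l
        · exact Or.inl rfl
        · exact Or.inr (Or.inl rfl)
        · exact Or.inr (Or.inr rfl)
        · exact absurd rfl hl3
      rcases this with h | h | h
      · refine hex (v 1) (v 2) fun d hd => ?_
        fin_cases d
        · exact absurd h.symm hd
        · exact Or.inl rfl
        · exact Or.inr rfl
      · refine hex (v 0) (v 2) fun d hd => ?_
        fin_cases d
        · exact Or.inl rfl
        · exact absurd h.symm hd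
        · exact Or.inr rfl
      · refine hex (v 0) (v 1) fun d hd => ?_
        fin_cases d
        · exact Or.inl rfl
        · exact Or.inr rfl
        · exact absurd h.symm hd
    subst hl3
    exact hG.bad.2.1 (tk hTKB r c (fun d => v d.castSucc) (fun d e h => hvi d e h) g.inj g.cr hvc hvr
      hfull (fun d => nv d 3 (by revert d; decide)) (nv 1 0 (by decide)).symm (nv 2 1 (by decide)).symm
      (nv 0 2 (by decide)).symm (hl2 0 1 (by decide) (by decide) (by decide))
      (hl2 0 2 (by decide) (by decide) (by decide)) (hl2 1 2 (by decide) (by decide) (by decide)))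

end Pool.Agent.Lib.MPc67b86
end

section
/-!
# RDA: `c` is adjacent to all `r i` with at most one exception
-/
set_option autoImplicit false

namespace Pool.Agent.Lib.MPc67b86

namespace RDAM

/-- Hall's theorem for the system `u ↦ D \ {u}` -/
theorem hall (U D : Finset (Fin 4)) (hU : 2 ≤ U.card) (hD : U.card ≤ D.card) :
    ∃ σ : U → Fin 4, Function.Injective σ ∧ ∀ u, σ u ∈ D ∧ σ u ≠ u := by
  have := (Finset.all_card_le_biUnion_card_iff_exists_injective
    (fun u : U => D.erase (u : Fin 4))).1 (by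
    intro s
    rcases Nat.lt_or_ge s.card 2 with h | h
    · rcases Finset.eq_empty_or_nonempty s with rfl | ⟨u, hu⟩
      · simp
      · have h1 : D.erase (u : Fin 4) ⊆ s.biUnion (fun u : U => D.erase (u : Fin 4)) :=
          Finset.subset_biUnion_of_mem (fun u : U => D.erase (u : Fin 4)) hu
        have h2 := Finset.card_le_card h1
        have h3 := Finset.pred_card_le_card_erase (s := D) (a := (u : Fin 4))
        omega
    · obtain ⟨a, ha, b, hb, hab⟩ := Finset.one_lt_card.1 h
      have h1 : D ⊆ s.biUnion (fun u : U => D.erase (u : Fin 4)) := by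
        intro d hd
        rw [Finset.mem_biUnion]
        by_cases hda : d = (a : Fin 4)
        · exact ⟨b, hb, Finset.mem_erase.2
            ⟨fun h => hab (Subtype.ext (hda.symm.trans h)), hd⟩⟩
        · exact ⟨a, ha, Finset.mem_erase.2 ⟨hda, hd⟩⟩
      have h2 := Finset.card_le_card h1
      have h3 : s.card ≤ U.card := by
        have := Finset.card_le_univ s
        rwa [Fintype.card_coe] at this
      omega)
  obtain ⟨σ, h1, h2⟩ := this
  exact ⟨σ, h1, fun u => ⟨(Finset.mem_erase.1 (h2 u)).2, (Finset.mem_erase.1 (h2 u)).1⟩⟩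

end RDAM

open RDAM in
theorem specRDA (hRED : SpecRED) (hDEG : SpecDEG) (hIMG : SpecIMG) : SpecRDA := by
  classical
  intro V _ G hG r c D v hg i j hi hj
  by_contra hij
  obtain ⟨U, hU⟩ : ∃ U : Finset (Fin 4), ∀ u, u ∈ U ↔ ¬ G.Adj c (r u) :=
    ⟨Finset.univ.filter (fun u => ¬ G.Adj c (r u)), fun u => by simp⟩
  have hU2 : 2 ≤ U.card := by
    have : ({i, j} : Finset (Fin 4)) ⊆ U := by
      intro u hu
      rcases Finset.mem_insert.1 hu with rfl | hu
      · exact (hU _).2 hi
      · rw [Finset.mem_singleton.1 hu]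
        exact (hU _).2 hj
    have h := Finset.card_le_card this
    rwa [Finset.card_pair hij] at h
  -- the number of neighbours of `c`
  have hUD : U.card ≤ D.card := by
    have h1 := (hDEG V G hG).1 c
    have h2 : G.neighborSet c ⊆ ((Uᶜ.image r ∪ D.image v : Finset V) : Set V) := by
      intro w hw
      rw [SimpleGraph.mem_neighborSet] at hw
      rw [Finset.mem_coe, Finset.mem_union, Finset.mem_image, Finset.mem_image]
      rcases hg.Nc w hw with ⟨k, rfl⟩ | ⟨d, hd, rfl⟩
      · refine Or.inl ⟨k, ?_, rfl⟩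
        rw [Finset.mem_compl, hU]
        exact fun h => h hw
      · exact Or.inr ⟨d, hd, rfl⟩
    have h3 := Set.ncard_le_ncard h2 (Finset.finite_toSet _)
    rw [Set.ncard_coe_finset] at h3
    have h4 := Finset.card_union_le (Uᶜ.image r) (D.image v)
    have h5 := Finset.card_image_le (s := Uᶜ) (f := r)
    have h6 := Finset.card_image_le (s := D) (f := v)
    have h7 := Finset.card_compl U
    rw [Fintype.card_fin] at h7
    have h8 := Finset.card_le_univ U
    rw [Fintype.card_fin] at h8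
    omega
  obtain ⟨σ, hσ, hσD⟩ := hall U D hU2 hUD
  have rRest : ∀ k, r k ∈ Rest c D v := fun k => ⟨hg.cr k, fun d hd h => hg.vr d hd k h.symm⟩
  have vRest : ∀ d ∈ D, v d ∉ Rest c D v := fun d hd h => h.2 d hd rfl
  obtain ⟨d0, hd0⟩ := hg.D0
  have e := U.equivFin.symm
  obtain ⟨f, hf, hf2⟩ := hRED V G hG (insert c (Rest c D v))
    ⟨v d0, fun h => h.elim (hg.vc d0 hd0) (vRest d0 hd0)⟩ U.card
    (fun _ => c) (fun k => r (e k)) (fun k => {v (σ (e k))})
    (fun _ => Set.mem_insert _ _) (fun k => Set.mem_insert_of_mem _ (rRest _))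
    (fun k => (hg.cr _).symm)
    (fun k => Set.disjoint_singleton_left.2 fun h =>
      h.elim (hg.vc _ (hσD _).1) (vRest _ (hσD _).1))
    (fun k l hkl => Set.disjoint_singleton.2 fun h =>
      hkl (e.injective (hσ (hg.vinj _ (hσD _).1 _ (hσD _).1 h))))
    (fun k => by
      have h1 : G.Adj (v (σ (e k))) c := (hg.Nv _ (hσD _).1 _).2 (Or.inl rfl)
      have h2 : G.Adj (v (σ (e k))) (r (e k)) :=
        (hg.Nv _ (hσD _).1 _).2 (Or.inr ⟨_, (hσD _).2.symm, rfl⟩)
      have a1 : (res G (insert c (insert (r (e k)) {v (σ (e k))}))).Adj c (v (σ (e k))) :=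
        ⟨h1.symm, by simp, by simp⟩
      have a2 : (res G (insert c (insert (r (e k)) {v (σ (e k))}))).Adj (v (σ (e k)))
          (r (e k)) := ⟨h2, by simp, by simp⟩
      exact a1.reachable.trans a2.reachable)
  -- `f c` does not occur
  have hfc : ∀ k, f (r k) ≠ f c := by
    intro k
    by_cases hk : G.Adj c (r k)
    · exact (hf c (Set.mem_insert _ _) (r k) (Set.mem_insert_of_mem _ (rRest k)) hk).symm
    · have h := hf2 (e.symm ⟨k, (hU k).2 hk⟩)
      simp only [Equiv.apply_symm_apply] at h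
      exact h.symm
  have hfR : IsCol G (Rest c D v) f := fun a ha b hb =>
    hf a (Set.mem_insert_of_mem _ ha) b (Set.mem_insert_of_mem _ hb)
  obtain ⟨h3, h4⟩ := hIMG V G hG r c D v hg f hfR
  have h5 : (Finset.univ.image fun k => f (r k)).card ≤ 3 := by
    have : (Finset.univ.image fun k => f (r k)) ⊆ Finset.univ.erase (f c) := by
      intro x hx
      obtain ⟨k, _, rfl⟩ := Finset.mem_image.1 hx
      exact Finset.mem_erase.2 ⟨hfc k, Finset.mem_univ _⟩
    have h := Finset.card_le_card this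
    rw [Finset.card_erase_of_mem (Finset.mem_univ _), Finset.card_univ, Fintype.card_fin] at h
    exact h
  have h6 := h4 (le_antisymm h5 h3)
  have h7 : (Finset.univ.image fun k => f (r k)) ⊆ Uᶜ.image (fun k => f (r k)) := by
    intro x hx
    obtain ⟨k, _, rfl⟩ := Finset.mem_image.1 hx
    obtain ⟨l, hl, hl'⟩ := h6 k
    refine Finset.mem_image.2 ⟨l, ?_, hl'⟩
    rw [Finset.mem_compl, hU]
    exact fun h => h hl
  have h8 := Finset.card_le_card h7
  have h9 := Finset.card_image_le (s := Uᶜ) (f := fun k => f (r k))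
  have h10 := Finset.card_compl U
  rw [Fintype.card_fin] at h10
  omega

end Pool.Agent.Lib.MPc67b86
end

section
/-!
# MP_c67b86_co: module RDB (`c` is adjacent to all `r i`)
-/
set_option autoImplicit false

namespace Pool.Agent.Lib.MPc67b86

namespace RDBM

variable {V : Type}

theorem lk1 {G : SimpleGraph V} {a b w : V} (h1 : G.Adj a w) (h2 : G.Adj w b) : Lk G a b {w} := by
  have e1 : (res G (insert a (insert b {w}))).Adj a w := ⟨h1, by simp, by simp⟩
  have e2 : (res G (insert a (insert b {w}))).Adj w b := ⟨h2, by simp, by simp⟩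
  exact e1.reachable.trans e2.reachable

theorem lk2 {G : SimpleGraph V} {a b w w' : V} (h1 : G.Adj a w) (h2 : G.Adj w w')
    (h3 : G.Adj w' b) : Lk G a b {w, w'} := by
  have e1 : (res G (insert a (insert b {w, w'}))).Adj a w := ⟨h1, by simp, by simp⟩
  have e2 : (res G (insert a (insert b {w, w'}))).Adj w w' := ⟨h2, by simp, by simp⟩
  have e3 : (res G (insert a (insert b {w, w'}))).Adj w' b := ⟨h3, by simp, by simp⟩
  exact (e1.reachable.trans e2.reachable).trans e3.reachable

theorem mono {G : SimpleGraph V} {A B : Set V} {f : V → Fin 4} (h : IsCol G A f) (hB : B ⊆ A) :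
    IsCol G B f := fun u hu v hv huv => h u (hB hu) v (hB hv) huv

theorem rot (m : ℕ) (hm : 2 ≤ m) : ∃ σ : Equiv.Perm (Fin m), ∀ k, σ k ≠ k := by
  obtain ⟨n, rfl⟩ : ∃ n, m = n + 2 := ⟨m - 2, by omega⟩
  refine ⟨finRotate (n + 2), fun k => ?_⟩
  have h : k ∈ (finRotate (n + 2)).support := by
    rw [support_finRotate]
    exact Finset.mem_univ k
  exact Equiv.Perm.mem_support.1 h

end RDBM

open RDBM

theorem specRDB (hRED : SpecRED) (hEXT : SpecEXT) (hIMG : SpecIMG) : SpecRDB := by
  classical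
  intro V _ G hG r c D v hg u hcu hci
  have hrRest : ∀ i, r i ∈ Rest c D v := fun i => ⟨hg.cr i, fun d hd h => hg.vr d hd i h.symm⟩
  have hcRest : c ∉ Rest c D v := fun h => h.1 rfl
  have hvRest : ∀ d ∈ D, v d ∉ Rest c D v := fun d hd h => h.2 d hd rfl
  by_cases huD : u ∈ D
  · -- the case u ∈ D
    obtain ⟨d, hd, hdu⟩ : ∃ d ∈ D, d ≠ u := by
      rcases hg.cov u with h | h
      · exact absurd h hcu
      · exact h
    obtain ⟨f, hf, -⟩ := hRED V G hG ({v d}ᶜ) ⟨v d, fun h => h rfl⟩ 0 (fun k => k.elim0)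
      (fun k => k.elim0) (fun k => k.elim0) (fun k => k.elim0) (fun k => k.elim0)
      (fun k => k.elim0) (fun k => k.elim0) (fun k => k.elim0) (fun k => k.elim0)
    have hmem : ∀ w, w ≠ v d → w ∈ ({v d}ᶜ : Set V) := fun w hw => hw
    have hfR : IsCol G (Rest c D v) f := mono hf fun w hw => hw.2 d hd
    obtain ⟨h3, h4⟩ := hIMG V G hG r c D v hg f hfR
    have hcm := hmem c (hg.vc d hd).symm
    have hum := hmem (v u) (fun h => hdu (hg.vinj u huD d hd h).symm)
    have hrm : ∀ i, r i ∈ ({v d}ᶜ : Set V) := fun i => hmem _ (hg.vr d hd i).symm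
    have hcv : f (v u) ≠ f c := hf _ hum _ hcm ((hg.Nv u huD c).2 (Or.inl rfl))
    have hsub : ((Finset.univ.erase u).image fun i => f (r i)) ⊆
        (Finset.univ.erase (f c)).erase (f (v u)) := by
      intro κ hκ
      obtain ⟨i, hi, rfl⟩ := Finset.mem_image.1 hκ
      have hiu : i ≠ u := (Finset.mem_erase.1 hi).1
      refine Finset.mem_erase.2 ⟨?_, Finset.mem_erase.2 ⟨?_, Finset.mem_univ _⟩⟩
      · exact hf _ (hrm i) _ hum ((hg.Nv u huD (r i)).2 (Or.inr ⟨i, hiu, rfl⟩)).symm
      · exact hf _ (hrm i) _ hcm (hci i hiu).symm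
    have hcard : ((Finset.univ.erase u).image fun i => f (r i)).card ≤ 2 := by
      refine (Finset.card_le_card hsub).trans ?_
      rw [Finset.card_erase_of_mem (Finset.mem_erase.2 ⟨hcv, Finset.mem_univ _⟩),
        Finset.card_erase_of_mem (Finset.mem_univ _)]
      simp
    have himg : (Finset.univ.image fun i => f (r i)) =
        insert (f (r u)) ((Finset.univ.erase u).image fun i => f (r i)) := by
      have h5 := Finset.image_insert (fun i => f (r i)) u (Finset.univ.erase u)
      rw [Finset.insert_erase (Finset.mem_univ u)] at h5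
      exact h5
    have hle : (Finset.univ.image fun i => f (r i)).card ≤ 3 := by
      rw [himg]
      exact (Finset.card_insert_le _ _).trans (by omega)
    obtain ⟨i, hi1, hi2⟩ := h4 (le_antisymm hle h3) u
    have hiu : i ≠ u := fun h => hcu (h ▸ hi1)
    rw [himg, Finset.insert_eq_of_mem (Finset.mem_image.2
      ⟨i, Finset.mem_erase.2 ⟨hiu, Finset.mem_univ _⟩, hi2⟩)] at h3
    omega
  · -- the case u ∉ D
    have hrv : ∀ d ∈ D, ∀ i, i ≠ d → G.Adj (r i) (v d) := fun d hd i hi =>
      ((hg.Nv d hd (r i)).2 (Or.inr ⟨i, hi, rfl⟩)).symm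
    have hDu : ∀ d ∈ D, d ≠ u := fun d hd h => huD (h ▸ hd)
    obtain ⟨f, hf, hfD⟩ : ∃ f : V → Fin 4, IsCol G (Rest c D v) f ∧ ∀ y ∈ D, f (r u) ≠ f (r y) := by
      by_cases hD : 2 ≤ D.card
      · obtain ⟨σ, hσ⟩ := rot D.card hD
        let e := D.orderEmbOfFin (rfl : D.card = D.card)
        have heD : ∀ k, e k ∈ D := fun k => Finset.orderEmbOfFin_mem D rfl k
        obtain ⟨f, hf, hf2⟩ := hRED V G hG (Rest c D v) ⟨c, hcRest⟩ D.card (fun _ => r u)
          (fun k => r (e k)) (fun k => {v (e (σ k))}) (fun k => hrRest u) (fun k => hrRest _)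
          (fun k h => hDu _ (heD k) (hg.inj h).symm)
          (fun k => Set.disjoint_left.2 (by
            rintro w rfl hw
            exact hvRest _ (heD _) hw))
          (fun j k hjk => Set.disjoint_left.2 (by
            rintro w rfl hw
            exact hjk (σ.injective (e.injective (hg.vinj _ (heD _) _ (heD _) hw)))))
          (fun k => lk1 (hrv _ (heD _) u (hDu _ (heD _)).symm)
            (hrv _ (heD _) (e k) (fun h => hσ k (e.injective h).symm)).symm)
        refine ⟨f, hf, fun y hy => ?_⟩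
        have hy' : y ∈ Set.range e := by
          rw [Finset.range_orderEmbOfFin]
          exact hy
        obtain ⟨k, rfl⟩ := hy'
        exact hf2 k
      · have hD1 : D.card = 1 := by
          have := Finset.card_pos.2 hg.D0
          omega
        obtain ⟨y, rfl⟩ := Finset.card_eq_one.1 hD1
        have hyD : y ∈ ({y} : Finset (Fin 4)) := Finset.mem_singleton_self y
        obtain ⟨f, hf, hf2⟩ := hRED V G hG (Rest c {y} v) ⟨c, hcRest⟩ 1 (fun _ => r u)
          (fun _ => r y) (fun _ => {v y, c}) (fun k => hrRest u) (fun k => hrRest _)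
          (fun k h => hDu _ hyD (hg.inj h).symm)
          (fun k => Set.disjoint_left.2 (by
            rintro w (rfl | rfl) hw
            · exact hvRest _ hyD hw
            · exact hcRest hw))
          (fun j k hjk => absurd (Subsingleton.elim j k) hjk)
          (fun k => lk2 (hrv _ hyD u (hDu _ hyD).symm) ((hg.Nv y hyD c).2 (Or.inl rfl))
            (hci y (hDu _ hyD)))
        refine ⟨f, hf, fun y' hy' => ?_⟩
        rw [Finset.mem_singleton.1 hy']
        exact hf2 0
    obtain ⟨h3, h4⟩ := hIMG V G hG r c D v hg f hf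
    by_cases hinj : Function.Injective fun i => f (r i)
    · obtain ⟨d, hd, hd2⟩ := hEXT V G hG r c D v hg f hf (f (r u)) (by
        intro i hi h
        have hiu : i = u := hinj h
        exact hcu (hiu ▸ hi))
      obtain ⟨i, hid, hi⟩ := hd2 (f (r d)) (fun h => hDu d hd (hinj h))
      exact hid (hinj hi)
    · have hlt : (Finset.univ.image fun i => f (r i)).card < 4 := by
        rcases Nat.lt_or_ge (Finset.univ.image fun i => f (r i)).card 4 with h | h
        · exact h
        · exfalso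
          apply hinj
          have h5 : (Finset.univ.image fun i => f (r i)).card = (Finset.univ : Finset (Fin 4)).card :=
            le_antisymm Finset.card_image_le (by simpa using h)
          have h6 := Finset.card_image_iff.1 h5
          intro a b hab
          exact h6 (Finset.mem_coe.2 (Finset.mem_univ a)) (Finset.mem_coe.2 (Finset.mem_univ b)) hab
      obtain ⟨i, hi1, hi2⟩ := h4 (by omega) u
      have hiu : i ≠ u := fun h => hcu (h ▸ hi1)
      have hiD : i ∉ D := fun h => hfD i h hi2.symm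
      obtain ⟨κ, hκ⟩ : ∃ κ, κ ∉ (Finset.univ.image fun i => f (r i)) := by
        by_contra hcon
        push Not at hcon
        have : (Finset.univ.image fun i => f (r i)) = Finset.univ :=
          Finset.eq_univ_iff_forall.2 hcon
        rw [this] at hlt
        simp at hlt
      obtain ⟨d, hd, hd2⟩ := hEXT V G hG r c D v hg f hf κ (by
        intro j _ h
        exact hκ (Finset.mem_image.2 ⟨j, Finset.mem_univ _, h⟩))
      have hsub : Finset.univ.erase κ ⊆ (((Finset.univ : Finset (Fin 4)).erase d).erase u).image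
          fun i => f (r i) := by
        intro κ' hκ'
        obtain ⟨j, hjd, hj⟩ := hd2 κ' (Finset.mem_erase.1 hκ').1
        by_cases hju : j = u
        · refine Finset.mem_image.2 ⟨i, Finset.mem_erase.2 ⟨hiu, Finset.mem_erase.2
            ⟨fun h => hiD (h ▸ hd), Finset.mem_univ _⟩⟩, ?_⟩
          rw [hi2, ← hj, hju]
        · exact Finset.mem_image.2 ⟨j, Finset.mem_erase.2 ⟨hju, Finset.mem_erase.2
            ⟨hjd, Finset.mem_univ _⟩⟩, hj⟩
      have hc1 := (Finset.card_le_card hsub).trans Finset.card_image_le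
      rw [Finset.card_erase_of_mem (Finset.mem_univ κ), Finset.card_erase_of_mem
        (Finset.mem_erase.2 ⟨(hDu d hd).symm, Finset.mem_univ u⟩),
        Finset.card_erase_of_mem (Finset.mem_univ d)] at hc1
      simp at hc1

end Pool.Agent.Lib.MPc67b86
end

section
/-!
# MP_c67b86_co, module RDC: the gadget with `c` adjacent to all `r i`
From RED, EDG, EXT, IMG.
-/
set_option autoImplicit false

namespace Pool.Agent.Lib.MPc67b86

namespace RDCM

open Finset

variable {F : Fin 4 → Fin 4}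

theorem miss {S : Finset (Fin 4)} (h : S.card ≤ 3) : ∃ κ, κ ∉ S := by
  by_contra hc
  push Not at hc
  have : S = univ := by
    ext x
    simp [hc x]
  rw [this, card_univ, Fintype.card_fin] at h
  omega

theorem img_eq {i j : Fin 4} (hij : i ≠ j) (h : F i = F j) :
    univ.image F ⊆ (univ.erase i).image F := by
  intro x hx
  obtain ⟨k, -, rfl⟩ := mem_image.1 hx
  rw [mem_image]
  by_cases hk : k = i
  · exact ⟨j, mem_erase.2 ⟨hij.symm, mem_univ _⟩, by rw [hk, h]⟩
  · exact ⟨k, mem_erase.2 ⟨hk, mem_univ _⟩, rfl⟩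

theorem card_er (i : Fin 4) : (univ.erase i).card = 3 := by
  rw [card_erase_of_mem (mem_univ _), card_univ, Fintype.card_fin]

theorem img_le {i j : Fin 4} (hij : i ≠ j) (h : F i = F j) : (univ.image F).card ≤ 3 :=
  (card_le_card (img_eq hij h)).trans (card_image_le.trans (card_er i).le)

theorem no_three {i j d κ : Fin 4} (hij : i ≠ j) (h : F i = F j) (hi : d ≠ i) (hj : d ≠ j)
    (hk : ∀ κ', κ' ≠ κ → ∃ k, k ≠ d ∧ F k = κ') : False := by
  have hs : univ.erase κ ⊆ ((univ.erase d).erase i).image F := by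
    intro x hx
    obtain ⟨k, hkd, hkx⟩ := hk x (mem_erase.1 hx).1
    rw [mem_image]
    by_cases hki : k = i
    · exact ⟨j, mem_erase.2 ⟨hij.symm, mem_erase.2 ⟨hj.symm, mem_univ _⟩⟩, by
        rw [← h, ← hki, hkx]⟩
    · exact ⟨k, mem_erase.2 ⟨hki, mem_erase.2 ⟨hkd, mem_univ _⟩⟩, hkx⟩
  have h1 := (card_le_card hs).trans card_image_le
  rw [card_er, card_erase_of_mem (mem_erase.2 ⟨hi.symm, mem_univ _⟩), card_er] at h1
  omega

theorem no_two {a b κ d : Fin 4} (hab : a ≠ b)
    (h1 : ∀ k, k ≠ d → F k ≠ a ∧ F k ≠ b)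
    (hk : ∀ κ', κ' ≠ κ → ∃ k, k ≠ d ∧ F k = κ') : False := by
  have hs : univ.erase κ ⊆ (univ.erase a).erase b := by
    intro x hx
    obtain ⟨k, hkd, hkx⟩ := hk x (mem_erase.1 hx).1
    rw [mem_erase, mem_erase, ← hkx]
    exact ⟨(h1 k hkd).2, (h1 k hkd).1, mem_univ _⟩
  have h2 := card_le_card hs
  rw [card_er, card_erase_of_mem (mem_erase.2 ⟨hab.symm, mem_univ _⟩), card_er] at h2
  omega

theorem img_two {a b d : Fin 4} (hab : a ≠ b) (h1 : ∀ k, k ≠ d → F k ≠ a ∧ F k ≠ b) :
    (univ.image F).card ≤ 3 := by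
  have hs : univ.image F ⊆ insert (F d) ((univ.erase a).erase b) := by
    intro x hx
    obtain ⟨k, -, rfl⟩ := mem_image.1 hx
    rw [mem_insert]
    by_cases hk : k = d
    · exact Or.inl (by rw [hk])
    · exact Or.inr (mem_erase.2 ⟨(h1 k hk).2, mem_erase.2 ⟨(h1 k hk).1, mem_univ _⟩⟩)
  refine (card_le_card hs).trans ((card_insert_le _ _).trans ?_)
  rw [card_erase_of_mem (mem_erase.2 ⟨hab.symm, mem_univ _⟩), card_er]

end RDCM

open RDCM Finset in
theorem specRDC (hRED : SpecRED) (hEDG : SpecEDG) (hEXT : SpecEXT) (hIMG : SpecIMG) :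
    SpecRDC := by
  intro V _ G hm r c D v hg hful
  have q1 : ∀ f, IsCol G (Rest c D v) f → 3 ≤ (Finset.univ.image fun i => f (r i)).card :=
    fun f hf => (hIMG V G hm r c D v hg f hf).1
  have q2 : ∀ f, IsCol G (Rest c D v) f → ∀ i j, i ≠ j → f (r i) = f (r j) → i ∈ D ∨ j ∈ D := by
    intro f hf i j hij hfe
    by_contra hc
    push Not at hc
    obtain ⟨κ, hκ⟩ := miss (img_le (F := fun i => f (r i)) hij hfe)
    obtain ⟨d, hd, hd2⟩ := hEXT V G hm r c D v hg f hf κ (fun i _ h =>
      hκ (mem_image.2 ⟨i, mem_univ _, h⟩))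
    exact no_three (F := fun i => f (r i)) hij hfe (fun h => hc.1 (h ▸ hd))
      (fun h => hc.2 (h ▸ hd)) hd2
  refine ⟨hg, hful, ?_, ?_, q1, q2⟩
  · by_contra hlt
    have hD1 : D.card = 1 := by
      have := hg.D0.card_pos
      omega
    obtain ⟨d, rfl⟩ := card_eq_one.1 hD1
    have hd : d ∈ ({d} : Finset (Fin 4)) := mem_singleton_self d
    obtain ⟨f, hf⟩ := hEDG V G hm c (r d) (hful d)
    have hcol : IsCol G (Rest c {d} v) f := by
      intro u hu w hw huw
      apply hf u w huw
      intro he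
      rw [Sym2.eq_iff] at he
      rcases he with h | h
      · exact hu.1 h.1
      · exact hw.1 h.2
    have hvc : G.Adj (v d) c := (hg.Nv d hd c).2 (Or.inl rfl)
    have hab : f c ≠ f (v d) := by
      apply hf c (v d) hvc.symm
      intro he
      rw [Sym2.eq_iff] at he
      rcases he with h | h
      · exact hg.vr d hd d h.2
      · exact hg.cr d h.1.symm
    have h1 : ∀ k, k ≠ d → f (r k) ≠ f c ∧ f (r k) ≠ f (v d) := by
      intro k hk
      constructor
      · apply hf (r k) c (hful k).symm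
        intro he
        rw [Sym2.eq_iff] at he
        rcases he with h | h
        · exact hg.cr k h.1
        · exact hk (hg.inj h.1)
      · apply hf (r k) (v d) ((hg.Nv d hd (r k)).2 (Or.inr ⟨k, hk, rfl⟩)).symm
        intro he
        rw [Sym2.eq_iff] at he
        rcases he with h | h
        · exact hg.cr k h.1
        · exact hg.vc d hd h.2
    obtain ⟨κ, hκ⟩ := miss (img_two (F := fun i => f (r i)) hab h1)
    obtain ⟨d', hd', hd2⟩ := hEXT V G hm r c {d} v hg f hcol κ (fun i _ h =>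
      hκ (mem_image.2 ⟨i, mem_univ _, h⟩))
    rw [mem_singleton] at hd'
    subst hd'
    exact no_two (F := fun i => f (r i)) hab h1 hd2
  · by_contra hlt
    have hDu : ∀ d, d ∈ D := by
      intro d
      have h4 : D = univ := by
        apply eq_univ_of_card
        have := card_le_univ D
        rw [Fintype.card_fin] at this ⊢
        omega
      rw [h4]
      exact mem_univ d
    obtain ⟨f, hf, -⟩ := hRED V G hm {v 0}ᶜ ⟨v 0, by simp⟩ 0 Fin.elim0 Fin.elim0 Fin.elim0
      (fun j => j.elim0) (fun j => j.elim0) (fun j => j.elim0) (fun j => j.elim0)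
      (fun j => j.elim0) (fun j => j.elim0)
    have hcW : c ∈ ({v 0}ᶜ : Set V) := by
      rw [Set.mem_compl_iff, Set.mem_singleton_iff]
      exact (hg.vc 0 (hDu 0)).symm
    have hrW : ∀ i, r i ∈ ({v 0}ᶜ : Set V) := by
      intro i
      rw [Set.mem_compl_iff, Set.mem_singleton_iff]
      exact (hg.vr 0 (hDu 0) i).symm
    have hcol : IsCol G (Rest c D v) f := by
      intro u hu w hw huw
      apply hf u _ w _ huw
      · rw [Set.mem_compl_iff, Set.mem_singleton_iff]
        exact hu.2 0 (hDu 0)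
      · rw [Set.mem_compl_iff, Set.mem_singleton_iff]
        exact hw.2 0 (hDu 0)
    have hfc : ∀ i, f (r i) ≠ f c := fun i => hf _ (hrW i) _ hcW (hful i).symm
    have h3 := q1 f hcol
    have hsub : univ.image (fun i => f (r i)) ⊆ univ.erase (f c) := by
      intro x hx
      obtain ⟨k, -, rfl⟩ := mem_image.1 hx
      exact mem_erase.2 ⟨hfc k, mem_univ _⟩
    have heq : univ.image (fun i => f (r i)) = univ.erase (f c) :=
      eq_of_subset_of_card_le hsub (by rw [card_er]; exact h3)
    have hni : ¬ Function.Injective (fun i => f (r i)) := by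
      intro hinj
      have := card_image_of_injective univ hinj
      rw [heq, card_er, card_univ, Fintype.card_fin] at this
      omega
    -- two indices with the same colour, the first one not zero
    obtain ⟨i, j, hij, hfe, hi0⟩ : ∃ i j : Fin 4, i ≠ j ∧ f (r i) = f (r j) ∧ i ≠ 0 := by
      unfold Function.Injective at hni
      push Not at hni
      obtain ⟨i, j, h1, h2⟩ := hni
      by_cases hi : i = 0
      · exact ⟨j, i, h2.symm, h1.symm, fun h => h2 (by rw [hi, h])⟩
      · exact ⟨i, j, h2, h1, hi⟩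
    have hvW : v i ∈ ({v 0}ᶜ : Set V) := by
      rw [Set.mem_compl_iff, Set.mem_singleton_iff]
      exact fun h => hi0 (hg.vinj i (hDu i) 0 (hDu 0) h)
    have hv1 : f (v i) ≠ f c := hf _ hvW _ hcW ((hg.Nv i (hDu i) c).2 (Or.inl rfl))
    have hv2 : f (v i) ∈ univ.image (fun i => f (r i)) := by
      rw [heq]
      exact mem_erase.2 ⟨hv1, mem_univ _⟩
    obtain ⟨k, hk, hkf⟩ := mem_image.1 (img_eq (F := fun i => f (r i)) hij hfe hv2)
    exact hf _ hvW _ (hrW k) ((hg.Nv i (hDu i) (r k)).2 (Or.inr ⟨k, (mem_erase.1 hk).1, rfl⟩))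
      hkf.symm

end Pool.Agent.Lib.MPc67b86
end

section
/-!
# MP_c67b86_co, module STR: there is a gadget
-/
set_option autoImplicit false

namespace Pool.Agent.Lib.MPc67b86

namespace STRM

variable {V : Type}

/-- eliminate the vertices of the independent set `L` -/
def fill (G : SimpleGraph V) (L : Set V) : SimpleGraph V where
  Adj a b := a ≠ b ∧ a ∉ L ∧ b ∉ L ∧ (G.Adj a b ∨ ∃ v ∈ L, G.Adj a v ∧ G.Adj v b)
  symm := ⟨fun _ _ h => ⟨h.1.symm, h.2.2.1, h.2.1, h.2.2.2.imp (fun h => h.symm)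
    (fun ⟨v, hv, h⟩ => ⟨v, hv, h.2.symm, h.1.symm⟩)⟩⟩
  loopless := ⟨fun _ h => h.1 rfl⟩

theorem fill_empty (G : SimpleGraph V) : fill G ∅ = G := by
  ext a b
  constructor
  · rintro ⟨_, _, _, h | ⟨v, hv, _⟩⟩
    · exact h
    · exact absurd hv (Set.notMem_empty v)
  · intro h
    exact ⟨h.ne, Set.notMem_empty _, Set.notMem_empty _, Or.inl h⟩

theorem two_of {S : Set V} (h : 4 ≤ S.ncard) : ∃ a ∈ S, ∃ b ∈ S, a ≠ b := by
  have h1 : 1 < S.ncard := by omega
  obtain ⟨a, ha, b, hb, hab⟩ := (Set.one_lt_ncard_iff (Set.finite_of_ncard_pos (by omega))).1 h1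
  exact ⟨a, b, ha, hb, hab⟩

theorem claim [Finite V] [Nonempty V] {G : SimpleGraph V}
    (hd : ∀ v, 4 ≤ (G.neighborSet v).ncard) {H : SimpleGraph V} (h : Elim H) :
    ∀ L : Set V, (∀ u ∈ L, ∀ v ∈ L, ¬ G.Adj u v) → (∀ v ∈ L, (G.neighborSet v).ncard ≤ 4) →
      H = fill G L →
      ∃ (L' : Set V) (c : V), (∀ u ∈ L', ∀ v ∈ L', ¬ G.Adj u v) ∧
        (∀ v ∈ L', (G.neighborSet v).ncard ≤ 4) ∧ c ∉ L' ∧ (∃ v ∈ L', G.Adj c v) ∧
        ((fill G L').neighborSet c).ncard ≤ 4 := by
  induction h with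
  | nil =>
    intro L hL _ hH
    exfalso
    have hin : ∀ v ∈ L, False := by
      intro v hv
      obtain ⟨a, ha, b, hb, hab⟩ := two_of (hd v)
      have h1 : (fill G L).Adj a b :=
        ⟨hab, fun h => hL v hv a h ha, fun h => hL v hv b h hb, Or.inr ⟨v, hv, ha.symm, hb⟩⟩
      rw [← hH] at h1
      exact h1
    obtain ⟨v⟩ := ‹Nonempty V›
    obtain ⟨a, ha, _⟩ := two_of (hd v)
    have h1 : (fill G L).Adj v a := ⟨ha.ne, fun h => hin v h, fun h => hin a h, Or.inl ha⟩
    rw [← hH] at h1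
    exact h1
  | step H v hc hE ih =>
    intro L hL hL4 hH
    subst hH
    by_cases hv : v ∈ L
    · refine ih L hL hL4 ?_
      ext a b
      constructor
      · rintro ⟨_, _, _, h | h⟩
        · exact h
        · exact absurd hv h.1.2.2.1
      · intro h
        exact ⟨h.1, fun e => h.2.1 (e ▸ hv), fun e => h.2.2.1 (e ▸ hv), Or.inl h⟩
    · by_cases hN : ∃ u ∈ L, G.Adj v u
      · exact ⟨L, v, hL, hL4, hv, hN, hc⟩
      · have hN' : ∀ u ∈ L, ¬ G.Adj v u := fun u hu h => hN ⟨u, hu, h⟩
        refine ih (insert v L) ?_ ?_ ?_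
        · rintro u (rfl | hu) w (rfl | hw)
          · exact fun h => h.ne rfl
          · exact hN' w hw
          · exact fun h => hN' u hu h.symm
          · exact hL u hu w hw
        · rintro u (rfl | hu)
          · refine le_trans (Set.ncard_le_ncard ?_ (Set.toFinite _)) hc
            intro w hw
            have hw' : G.Adj u w := hw
            exact ⟨hw'.ne, hv, fun h => hN' w h hw', Or.inl hw'⟩
          · exact hL4 u hu
        · ext a b
          constructor
          · rintro ⟨h1, h2, h3, h | h⟩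
            · refine ⟨h1, ?_, ?_, ?_⟩
              · rintro (h' | h'); exacts [h2 h', h.2.1 h']
              · rintro (h' | h'); exacts [h3 h', h.2.2.1 h']
              · rcases h.2.2.2 with h4 | ⟨u, hu, h4⟩
                · exact Or.inl h4
                · exact Or.inr ⟨u, Or.inr hu, h4⟩
            · refine ⟨h1, ?_, ?_, Or.inr ⟨v, Or.inl rfl, ?_, ?_⟩⟩
              · rintro (h' | h'); exacts [h2 h', h.1.2.1 h']
              · rintro (h' | h'); exacts [h3 h', h.2.2.2.1 h']
              · rcases h.1.2.2.2 with h4 | ⟨u, hu, h4⟩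
                · exact h4
                · exact absurd h4.2.symm (hN' u hu)
              · rcases h.2.2.2.2 with h4 | ⟨u, hu, h4⟩
                · exact h4
                · exact absurd h4.1 (hN' u hu)
          · rintro ⟨h1, h2, h3, h⟩
            have ha : a ≠ v := fun e => h2 (Or.inl e)
            have hb : b ≠ v := fun e => h3 (Or.inl e)
            have haL : a ∉ L := fun e => h2 (Or.inr e)
            have hbL : b ∉ L := fun e => h3 (Or.inr e)
            refine ⟨h1, ha, hb, ?_⟩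
            rcases h with h | ⟨u, rfl | hu, h⟩
            · exact Or.inl ⟨h1, haL, hbL, Or.inl h⟩
            · exact Or.inr ⟨⟨ha, haL, hv, Or.inl h.1⟩, ⟨hb.symm, hv, hbL, Or.inl h.2⟩⟩
            · exact Or.inl ⟨h1, haL, hbL, Or.inr ⟨u, hu, h⟩⟩

theorem five (hTKB : SpecTKB) [Finite V] {G : SimpleGraph V}
    (hd : ∀ v, 4 ≤ (G.neighborSet v).ncard) (h5 : Nat.card V ≤ 5) [Nonempty V] : TK5 G := by
  have hadj : ∀ u v, u ≠ v → G.Adj u v := by
    intro u v huv
    have h1 : G.neighborSet u ⊆ {u}ᶜ := fun w hw => by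
      have hw' : G.Adj u w := hw
      exact fun e => hw'.ne e.symm
    have h2 : ({u}ᶜ : Set V).ncard ≤ (G.neighborSet u).ncard := by
      have h3 := Set.ncard_add_ncard_compl ({u} : Set V)
      rw [Set.ncard_singleton] at h3
      have := hd u
      omega
    have h4 := Set.eq_of_subset_of_ncard_le h1 h2 (Set.toFinite _)
    have h6 : v ∈ G.neighborSet u := by
      rw [h4]; exact fun e => huv e.symm
    exact h6
  have h6 : Nat.card V = 5 := by
    obtain ⟨u⟩ := ‹Nonempty V›
    have h1 : G.neighborSet u ⊆ {u}ᶜ := fun w hw => by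
      have hw' : G.Adj u w := hw
      exact fun e => hw'.ne e.symm
    have h2 := Set.ncard_le_ncard h1 (Set.toFinite _)
    have h3 := Set.ncard_add_ncard_compl ({u} : Set V)
    rw [Set.ncard_singleton] at h3
    have := hd u
    omega
  let e : V ≃ Fin 5 := Finite.equivFinOfCardEq h6
  refine hTKB V G (fun i => e.symm i) 0 Fin.elim0 Fin.elim0 Fin.elim0 e.symm.injective
    (fun j => j.elim0) (fun j => j.elim0) (fun j => j.elim0) ?_
  intro i k hik
  exact Or.inl (hadj _ _ fun h => hik (e.symm.injective h))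

end STRM

open STRM in
theorem specSTR (hDEG : SpecDEG) (hSP3 : SpecSP3) (hTKB : SpecTKB) : SpecSTR := by
  classical
  intro V _ G hG hE
  obtain ⟨hd, hdom⟩ := hDEG V G hG
  have hV : Nonempty V := by
    by_contra hne
    rw [not_nonempty_iff] at hne
    exact hG.bad.2.2 ⟨fun v => hne.elim v, fun v => hne.elim v⟩
  obtain ⟨L, c, hL, hL4, hcL, ⟨v₀, hv₀, hcv₀⟩, hR4⟩ := claim hd hE ∅
    (fun u hu => absurd hu (Set.notMem_empty u)) (fun u hu => absurd hu (Set.notMem_empty u))
    (fill_empty G).symm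
  set R := (fill G L).neighborSet c with hRdef
  have hRm : ∀ w, w ∈ R ↔ c ≠ w ∧ c ∉ L ∧ w ∉ L ∧ (G.Adj c w ∨ ∃ v ∈ L, G.Adj c v ∧ G.Adj v w) :=
    fun w => Iff.rfl
  have hNL : ∀ v ∈ L, G.Adj c v → G.neighborSet v \ {c} ⊆ R := by
    rintro v hv hcv w ⟨hw, hwc⟩
    exact ⟨fun e => hwc e.symm, hcL, fun h => hL v hv w h hw, Or.inr ⟨v, hv, hcv, hw⟩⟩
  have hN3 : ∀ v ∈ L, G.Adj c v → (G.neighborSet v \ {c}).ncard = 3 := by
    intro v hv hcv
    have h1 := Set.ncard_sdiff_singleton_of_mem (show c ∈ G.neighborSet v from hcv.symm)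
    have h2 := hL4 v hv
    have h3 := hd v
    omega
  have hcR : c ∉ R := fun h => h.1 rfl
  have hNc : ∀ w, G.Adj c w → w ∈ R ∨ w ∈ L := by
    intro w hw
    by_cases hwL : w ∈ L
    · exact Or.inr hwL
    · exact Or.inl ⟨hw.ne, hcL, hwL, Or.inl hw⟩
  by_cases hR3 : R.ncard ≤ 3
  · exfalso
    have hNeq : ∀ v ∈ L, G.Adj c v → G.neighborSet v \ {c} = R := fun v hv hcv =>
      Set.eq_of_subset_of_ncard_le (hNL v hv hcv) (by rw [hN3 v hv hcv]; exact hR3) (Set.toFinite _)
    have huniq : ∀ v ∈ L, G.Adj c v → v = v₀ := by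
      intro v hv hcv
      by_contra hne
      refine hdom v v₀ hne (hL v hv v₀ hv₀) ?_
      intro w hw
      by_cases hwc : w = c
      · subst hwc; exact hcv₀.symm
      · have h1 : w ∈ G.neighborSet v \ {c} := ⟨hw, hwc⟩
        rw [hNeq v hv hcv, ← hNeq v₀ hv₀ hcv₀] at h1
        exact h1.1
    by_cases hout : ∃ w, w ∉ R ∧ w ∉ ({c, v₀} : Set V)
    · refine hSP3 V G hG R {c, v₀} hR3 ⟨⟨c, by simp⟩, ?_, hout, ?_⟩
      · rintro v (rfl | rfl)
        · exact hcR
        · exact fun h => h.2.2.1 hv₀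
      · rintro u (rfl | rfl) v huv
        · rcases hNc v huv with h | h
          · exact Or.inr h
          · left; right; exact huniq v h huv
        · by_cases hvc : v = c
          · left; left; exact hvc
          · right; exact hNL u hv₀ hcv₀ ⟨huv, hvc⟩
    · push Not at hout
      refine hG.bad.2.1 (five hTKB hd ?_)
      have h1 : (Set.univ : Set V) ⊆ R ∪ {c, v₀} := by
        intro w _
        by_cases hw : w ∈ R
        · exact Or.inl hw
        · exact Or.inr (hout w hw)
      have h2 := Set.ncard_le_ncard h1 (Set.toFinite _)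
      rw [Set.ncard_univ] at h2
      have h3 := Set.ncard_union_le R {c, v₀}
      have h4 : ({c, v₀} : Set V).ncard = 2 := Set.ncard_pair hcv₀.ne
      omega
  · have hR : R.ncard = 4 := by omega
    let e : R ≃ Fin 4 := Finite.equivFinOfCardEq (by rw [Nat.card_coe_set_eq]; exact hR)
    let r : Fin 4 → V := fun i => (e.symm i).1
    have hrR : ∀ i, r i ∈ R := fun i => (e.symm i).2
    have hrinj : Function.Injective r := fun i j h => e.symm.injective (Subtype.ext h)
    have hrsurj : ∀ w ∈ R, ∃ i, w = r i := fun w hw => ⟨e ⟨w, hw⟩, by simp [r]⟩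
    -- the missing index
    have hmiss : ∀ v ∈ L, G.Adj c v → ∃ d, ¬ G.Adj v (r d) := by
      intro v hv hcv
      by_contra hall
      push Not at hall
      have h1 : R ⊆ G.neighborSet v \ {c} := by
        intro w hw
        obtain ⟨i, rfl⟩ := hrsurj w hw
        exact ⟨hall i, fun h => hcR (h ▸ hw)⟩
      have h2 := Set.ncard_le_ncard h1 (Set.toFinite _)
      rw [hN3 v hv hcv, hR] at h2
      omega
    have hfull : ∀ v ∈ L, G.Adj c v → ∀ d, ¬ G.Adj v (r d) → ∀ i, i ≠ d → G.Adj v (r i) := by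
      intro v hv hcv d hd' i hid
      have h1 : G.neighborSet v \ {c} ⊆ R \ {r d} := fun w hw =>
        ⟨hNL v hv hcv hw, fun h => hd' (by rw [← Set.mem_singleton_iff.1 h]; exact hw.1)⟩
      have h2 : (R \ {r d}).ncard = 3 := by
        have := Set.ncard_sdiff_singleton_of_mem (hrR d)
        omega
      have h3 := Set.eq_of_subset_of_ncard_le h1 (by rw [h2, hN3 v hv hcv]) (Set.toFinite _)
      have h4 : r i ∈ R \ {r d} := ⟨hrR i, fun h => hid (hrinj h)⟩
      rw [← h3] at h4
      exact h4.1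
    let D : Finset (Fin 4) := Finset.univ.filter fun d => ∃ v ∈ L, G.Adj c v ∧ ¬ G.Adj v (r d)
    have hDm : ∀ d, d ∈ D ↔ ∃ v ∈ L, G.Adj c v ∧ ¬ G.Adj v (r d) := fun d => by simp [D]
    let v : Fin 4 → V := fun d => if h : ∃ v ∈ L, G.Adj c v ∧ ¬ G.Adj v (r d) then h.choose else c
    have hv : ∀ d ∈ D, v d ∈ L ∧ G.Adj c (v d) ∧ ¬ G.Adj (v d) (r d) := by
      intro d hdD
      have h := (hDm d).1 hdD
      have hvd : v d = h.choose := dif_pos h
      rw [hvd]
      exact ⟨h.choose_spec.1, h.choose_spec.2⟩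
    have hLv : ∀ w ∈ L, G.Adj c w → ∃ d ∈ D, w = v d := by
      intro w hw hcw
      obtain ⟨d, hd'⟩ := hmiss w hw hcw
      have hdD : d ∈ D := (hDm d).2 ⟨w, hw, hcw, hd'⟩
      refine ⟨d, hdD, ?_⟩
      by_contra hne
      obtain ⟨h1, h2, h3⟩ := hv d hdD
      refine hdom w (v d) hne (hL w hw _ h1) ?_
      intro u hu
      by_cases huc : u = c
      · subst huc; exact h2.symm
      · obtain ⟨i, rfl⟩ := hrsurj u (hNL w hw hcw ⟨hu, huc⟩)
        exact hfull _ h1 h2 d h3 i fun h => hd' (h ▸ hu)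
    refine ⟨r, c, D, v, hrinj, ?_, ?_, ?_, ?_, ?_, ?_, ?_, ?_⟩
    · intro i h
      exact hcR (h ▸ hrR i)
    · intro d hdD i h
      exact (hrR i).2.2.1 (h ▸ (hv d hdD).1)
    · intro d hdD h
      exact hcL (h ▸ (hv d hdD).1)
    · intro d hdD e' heD hde
      by_contra hne
      obtain ⟨h1, h2, h3⟩ := hv d hdD
      obtain ⟨_, _, h6⟩ := hv e' heD
      rw [← hde] at h6
      exact h6 (hfull _ h1 h2 d h3 e' fun h => hne h.symm)
    · obtain ⟨d, hd', _⟩ := hLv v₀ hv₀ hcv₀
      exact ⟨d, hd'⟩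
    · intro d hdD w
      obtain ⟨h1, h2, h3⟩ := hv d hdD
      constructor
      · intro hw
        by_cases hwc : w = c
        · exact Or.inl hwc
        · obtain ⟨i, rfl⟩ := hrsurj w (hNL _ h1 h2 ⟨hw, hwc⟩)
          exact Or.inr ⟨i, fun h => h3 (h ▸ hw), rfl⟩
      · rintro (rfl | ⟨i, hi, rfl⟩)
        · exact h2.symm
        · exact hfull _ h1 h2 d h3 i hi
    · intro w hw
      rcases hNc w hw with h | h
      · exact Or.inl (hrsurj w h)
      · exact Or.inr (hLv w h hw)
    · intro i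
      rcases (hrR i).2.2.2 with h | ⟨w, hw, h1, h2⟩
      · exact Or.inl h
      · right
        obtain ⟨d, hdD, rfl⟩ := hLv w hw h1
        exact ⟨d, hdD, fun h => (hv d hdD).2.2 (h ▸ h2)⟩

end Pool.Agent.Lib.MPc67b86
end
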