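import Pool.Agent.Lib.MP_c67b86_co.Q.FIN
import Pool.Agent.Lib.MP_c67b86_co.TYP
import Pool.Agent.Lib.MP_c67b86_co.Q.All
import Pool.Agent.Lib.MP_c67b86_co.STR
import Pool.Agent.Lib.MP_c67b86_co.LST

/-!
# MP_c67b86_co: everything together
-/

set_option autoImplicit false

namespace Pool.Agent.Lib.MPc67b86

/-- a tree decomposition of width at most `k` -/
def TreewidthLE (k : ℕ) {V : Type} (G : SimpleGraph V) : Prop :=
  ∃ (ι : Type) (_ : Finite ι) (T : SimpleGraph ι) (bag : ι → Finset V), T.IsTree ∧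
    (∀ v, ∃ i, v ∈ bag i) ∧
    (∀ u v, G.Adj u v → ∃ i, u ∈ bag i ∧ v ∈ bag i) ∧
    (∀ v, (T.induce {i | v ∈ bag i}).Connected) ∧
    ∀ i, (bag i).card ≤ k + 1

theorem elim_of_tw (hTDE : SpecTDE) {V : Type} [Finite V] {G : SimpleGraph V}
    (h : TreewidthLE 4 G) : Elim G := by
  obtain ⟨ι, _, T, bag, h1, h2, h3, h4, h5⟩ := h
  refine hTDE V G ι T (fun i => (bag i : Set V)) h1 ?_ ?_ ?_ ?_
  · intro v
    obtain ⟨i, hi⟩ := h2 v
    exact ⟨i, hi⟩
  · intro u v huv
    obtain ⟨i, hi⟩ := h3 u v huv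
    exact ⟨i, hi⟩
  · intro v
    exact h4 v
  · intro i
    rw [Set.ncard_coe_finset]
    exact h5 i

theorem not_col4 {V : Type} {G : SimpleGraph V} (h : 5 ≤ G.chromaticNumber) : ¬ Col4 G := by
  rintro ⟨f, hf⟩
  have h1 : G.Colorable 4 := ⟨SimpleGraph.Coloring.mk f fun {a b} hab => hf a b hab⟩
  have h2 := h1.chromaticNumber_le
  have h3 : (5 : ℕ∞) ≤ 4 := h.trans h2
  exact absurd h3 (by decide)

theorem chi_of_not_col4 {V : Type} {G : SimpleGraph V} (h : ¬ Col4 G) :
    5 ≤ G.chromaticNumber := by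
  by_contra hlt
  rw [not_le] at hlt
  have h1 : G.chromaticNumber ≤ 4 := by
    have : G.chromaticNumber < (4 : ℕ∞) + 1 := hlt
    exact Order.le_of_lt_add_one this
  have h2 : G.Colorable 4 := SimpleGraph.chromaticNumber_le_iff_colorable.1 h1
  obtain ⟨C⟩ := h2
  exact h ⟨C, fun u v huv => C.valid huv⟩

theorem allELM : SpecELM := specELM
theorem allELC : SpecELC := specELC allELM
theorem allELL : SpecELL := specELL allELM allELC
theorem allTKL : SpecTKL := specTKL
theorem allCNT : SpecCNT := specCNT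
theorem allRED : SpecRED := specRED allTKL allCNT
theorem allEDG : SpecEDG := specEDG allTKL
theorem allNIV : SpecNIV := specNIV
theorem allTDE : SpecTDE := specTDE
theorem allTKW : SpecTKW := specTKW
theorem allTKB : SpecTKB := specTKB
theorem allFAN : SpecFAN := specFAN
theorem allKPT : SpecKPT := specKPT
theorem allDEG : SpecDEG := specDEG allRED
theorem allGLU : SpecGLU := specGLU
theorem allSP2 : SpecSP2 := specSP2 allRED allGLU
theorem allLKS : SpecLKS := specLKS allSP2
theorem allOPP : SpecOPP := specOPP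
theorem allGL3 : SpecGL3 := specGL3 allGLU
theorem allTYP : SpecTYP := specTYP allRED allLKS allOPP allGL3
theorem allSTA : SpecSTA := specSTA allRED allFAN allSP2 allLKS allGL3
theorem allTRI : SpecTRI := specTRI allTYP allSTA
theorem allCOR : SpecCOR := specCOR allRED allSP2 allOPP allGL3 allTYP allTRI
theorem allCSW : SpecCSW := specCSW
theorem allCYC : SpecCYC := specCYC allKPT allGLU
theorem allARC : SpecARC := specARC
theorem allTRG : SpecTRG := specTRG allARC
theorem allCAT : SpecCAT := specCAT allFAN allCYC allTRG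
theorem allDG2 : SpecDG2 := specDG2
theorem allCAP : SpecCAP := specCAP
theorem allIN1 : SpecIN1 := specIN1
theorem allIN2 : SpecIN2 := specIN2
theorem allIN3 : SpecIN3 := specIN3 allIN1 allIN2
theorem allSP3 : SpecSP3 := specSP3 allCOR allCSW allCAT allDG2 allCAP allIN3
theorem allSTR : SpecSTR := specSTR allDEG allSP3 allTKB
theorem allEXT : SpecEXT := specEXT
theorem allIMG : SpecIMG := specIMG allEXT
theorem allRDA : SpecRDA := specRDA allRED allDEG allIMG
theorem allRDB : SpecRDB := specRDB allRED allEXT allIMG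
theorem allRDC : SpecRDC := specRDC allRED allEDG allEXT allIMG
theorem allGLB : SpecGLB := specGLB
theorem allM2A : SpecM2A := specM2A allDEG allFAN allSP3 allTKB
theorem allM2B : SpecM2B := specM2B allSP3 allTKB allM2A
theorem allM3A : SpecM3A := specM3A allFAN allSP3 allTKB
theorem allLST : SpecLST := specLST
theorem allM3B : SpecM3B := specM3B allRED allDEG allSP3 allTKB allM3A allLST
theorem allGAD : SpecGAD := specGAD allRDA allRDB allRDC allGLB allM2B allM3B

end Pool.Agent.Lib.MPc67b86
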