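import Mathlib

/-!
# MP_c67b86_co (Hajós' conjecture for five colours): graphs of treewidth at most four

Definitions.  All graphs are `SimpleGraph V` on one fixed finite type `V : Type`.
-/

set_option autoImplicit false

namespace Pool.Agent.Lib.MPc67b86

variable {V : Type}

/-- the edges of `G` with both ends in `A` -/
def res (G : SimpleGraph V) (A : Set V) : SimpleGraph V where
  Adj u v := G.Adj u v ∧ u ∈ A ∧ v ∈ A
  symm := ⟨fun _ _ h => ⟨h.1.symm, h.2.2, h.2.1⟩⟩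
  loopless := ⟨fun _ h => h.1.ne rfl⟩

/-- `f` is a proper colouring of `G[A]` with four colours -/
def IsCol (G : SimpleGraph V) (A : Set V) (f : V → Fin 4) : Prop :=
  ∀ u ∈ A, ∀ v ∈ A, G.Adj u v → f u ≠ f v

/-- `G` has a proper colouring with four colours -/
def Col4 (G : SimpleGraph V) : Prop := ∃ f : V → Fin 4, ∀ u v, G.Adj u v → f u ≠ f v

/-- `x` and `y` are joined by a path of `G` all whose inner vertices are in `I` -/
def Lk (G : SimpleGraph V) (x y : V) (I : Set V) : Prop :=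
  (res G (insert x (insert y I))).Reachable x y

/-- `G` contains a subdivision of `K_5`: branch vertices `f i`, the inner vertices of the path from
`f i` to `f j` (`i < j`) are in `I i j` -/
def TK5 (G : SimpleGraph V) : Prop :=
  ∃ (f : Fin 5 → V) (I : Fin 5 → Fin 5 → Set V), Function.Injective f ∧
    (∀ i j k, i < j → f k ∉ I i j) ∧
    (∀ i j i' j', i < j → i' < j' → (i ≠ i' ∨ j ≠ j') → Disjoint (I i j) (I i' j')) ∧
    ∀ i j, i < j → Lk G (f i) (f j) (I i j)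

/-- delete `v` and join its neighbours pairwise -/
def elim (G : SimpleGraph V) (v : V) : SimpleGraph V where
  Adj a b := a ≠ b ∧ a ≠ v ∧ b ≠ v ∧ (G.Adj a b ∨ (G.Adj a v ∧ G.Adj v b))
  symm := ⟨fun _ _ h => ⟨h.1.symm, h.2.2.1, h.2.1, h.2.2.2.imp (fun h => h.symm)
    (fun h => ⟨h.2.symm, h.1.symm⟩)⟩⟩
  loopless := ⟨fun _ h => h.1 rfl⟩

/-- `G` becomes empty by eliminating vertices with at most four neighbours
(`G` has treewidth at most four) -/
inductive Elim : SimpleGraph V → Prop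
  | nil : Elim ⊥
  | step (G : SimpleGraph V) (v : V) (h : (G.neighborSet v).ncard ≤ 4) (h' : Elim (elim G v)) :
      Elim G

/-- contract `p` into `y` -/
def con (G : SimpleGraph V) (p y : V) : SimpleGraph V where
  Adj a b := a ≠ b ∧ a ≠ p ∧ b ≠ p ∧ (G.Adj a b ∨ (a = y ∧ G.Adj p b) ∨ (b = y ∧ G.Adj p a))
  symm := ⟨fun _ _ h => ⟨h.1.symm, h.2.2.1, h.2.1, h.2.2.2.imp (fun h => h.symm) Or.symm⟩⟩
  loopless := ⟨fun _ h => h.1 rfl⟩

/-- delete the vertices of `I` and add the edge `xy` -/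
def lop (G : SimpleGraph V) (I : Set V) (x y : V) : SimpleGraph V where
  Adj a b := a ≠ b ∧ ((G.Adj a b ∧ a ∉ I ∧ b ∉ I) ∨ (a = x ∧ b = y) ∨ (a = y ∧ b = x))
  symm := ⟨fun _ _ h => ⟨h.1.symm, h.2.imp (fun h => ⟨h.1.symm, h.2.2, h.2.1⟩)
    (fun h => h.elim (fun h => Or.inr ⟨h.2, h.1⟩) (fun h => Or.inl ⟨h.2, h.1⟩))⟩⟩
  loopless := ⟨fun _ h => h.1 rfl⟩

/-- a class of graphs (on the fixed vertex type) closed under subgraphs and `lop` -/
def Closed (P : SimpleGraph V → Prop) : Prop :=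
  (∀ G G' : SimpleGraph V, G' ≤ G → P G → P G') ∧
  ∀ (G : SimpleGraph V) (x y : V) (I : Set V), x ≠ y → x ∉ I → y ∉ I → Lk G x y I → P G →
    P (lop G I x y)

/-- a counterexample with the least number of edges in a closed class, without isolated vertices -/
structure Min (G : SimpleGraph V) : Prop where
  bad : True ∧ ¬ TK5 G ∧ ¬ Col4 G
  ex : ∃ P : SimpleGraph V → Prop, Closed P ∧ P G ∧
    ∀ G' : SimpleGraph V, P G' → ¬ TK5 G' → ¬ Col4 G' → ¬ G'.edgeSet.ncard < G.edgeSet.ncard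
  iso : ∀ v, ∃ w, G.Adj v w

/-- `S` separates `C` from a vertex outside -/
structure Sep (G : SimpleGraph V) (S C : Set V) : Prop where
  ne : C.Nonempty
  dis : ∀ v ∈ C, v ∉ S
  out : ∃ v, v ∉ S ∧ v ∉ C
  nb : ∀ u ∈ C, ∀ v, G.Adj u v → v ∈ C ∨ v ∈ S

/-- `G[A]` has a colouring in which `x`, `y`, `z` have different colours -/
def AccR (G : SimpleGraph V) (A : Set V) (x y z : V) : Prop :=
  ∃ f, IsCol G A f ∧ f x ≠ f y ∧ f x ≠ f z ∧ f y ≠ f z

/-- `G[A]` has a colouring in which `x` and `y` have the same colour and `z` has another one -/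
def AccS (G : SimpleGraph V) (A : Set V) (x y z : V) : Prop :=
  ∃ f, IsCol G A f ∧ f x = f y ∧ f x ≠ f z

/-- a smallest side `C` of a separation of order three which accepts different colours, with all
that is known about it -/
structure Core (G : SimpleGraph V) (x y z : V) (C : Set V) : Prop where
  xy : x ≠ y
  xz : x ≠ z
  yz : y ≠ z
  sep : Sep G {x, y, z} C
  nxy : ¬ G.Adj x y
  nxz : ¬ G.Adj x z
  nyz : ¬ G.Adj y z
  r : AccR G (C ∪ {x, y, z}) x y z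
  sxy : ¬ AccS G (C ∪ {x, y, z}) x y z
  sxz : ¬ AccS G (C ∪ {x, y, z}) x z y
  syz : ¬ AccS G (C ∪ {x, y, z}) y z x
  two : ∀ s, s = x ∨ s = y ∨ s = z → ∃ a ∈ C, ∃ b ∈ C, a ≠ b ∧ G.Adj s a ∧ G.Adj s b
  tri : ∀ I J K : Set V, I ⊆ C → J ⊆ C → K ⊆ C → Disjoint I J → Disjoint I K → Disjoint J K →
    Lk G x y I → Lk G x z J → Lk G y z K → False
  small : ∀ (u v w : V) (M : Set V), u ≠ v → u ≠ w → v ≠ w → Sep G {u, v, w} M →
    M.ncard < C.ncard →
    ¬ G.Adj u v ∧ ¬ G.Adj u w ∧ ¬ G.Adj v w ∧ ¬ AccR G (M ∪ {u, v, w}) u v w ∧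
      AccS G (M ∪ {u, v, w}) u v w ∧ AccS G (M ∪ {u, v, w}) u w v ∧ AccS G (M ∪ {u, v, w}) v w u
  no2 : ∀ S M : Set V, S.ncard ≤ 2 → ¬ Sep G S M

/-- inside the side `A = C ∪ {x, y, z}` the set `K ∋ x` is joined to the rest only through `p`, `q` -/
structure Att (G : SimpleGraph V) (x y z : V) (C K : Set V) (p q : V) : Prop where
  xK : x ∈ K
  KC : ∀ u ∈ K, u ≠ x → u ∈ C
  pq : p ≠ q
  pK : p ∉ K
  qK : q ∉ K
  pA : p ∈ C ∪ {y, z}
  qA : q ∈ C ∪ {y, z}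
  nb : ∀ u ∈ K, ∀ v ∈ C ∪ {x, y, z}, G.Adj u v → v ∈ K ∨ v = p ∨ v = q
  pr : ∃ c ∈ C, c ∉ K

/-- `x` can be given the fourth colour by a change inside `K` -/
def Flex (G : SimpleGraph V) (x y z : V) (C K : Set V) : Prop :=
  ∀ f, IsCol G (C ∪ {x, y, z}) f → f x ≠ f y → f x ≠ f z → f y ≠ f z →
    ∃ g, IsCol G (C ∪ {x, y, z}) g ∧ (∀ v, v ∉ K → g v = f v) ∧ g x ≠ f x ∧ g x ≠ f y ∧ g x ≠ f z

/-- in all colourings of the side without `K` with `y`, `z` different, the vertices `p, q, y, z` have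
different colours -/
def Ext (G : SimpleGraph V) (x y z : V) (C K : Set V) (p q : V) : Prop :=
  ∀ f, IsCol G {v | v ∈ C ∪ {x, y, z} ∧ v ∉ K} f → f y ≠ f z →
    f p ≠ f q ∧ f p ≠ f y ∧ f p ≠ f z ∧ f q ≠ f y ∧ f q ≠ f z

/-- the vertices outside the gadget -/
def Rest (c : V) (D : Finset (Fin 4)) (v : Fin 4 → V) : Set V := {w | w ≠ c ∧ ∀ d ∈ D, w ≠ v d}

/-- the gadget: `c` and vertices `v d` (`d ∈ D`) with the neighbours `c` and all `r i`, `i ≠ d`; the
neighbours of `c` are among the `r i` and `v d` -/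
structure Gad (G : SimpleGraph V) (r : Fin 4 → V) (c : V) (D : Finset (Fin 4)) (v : Fin 4 → V) :
    Prop where
  inj : Function.Injective r
  cr : ∀ i, r i ≠ c
  vr : ∀ d ∈ D, ∀ i, v d ≠ r i
  vc : ∀ d ∈ D, v d ≠ c
  vinj : ∀ d ∈ D, ∀ e ∈ D, v d = v e → d = e
  D0 : D.Nonempty
  Nv : ∀ d ∈ D, ∀ w, G.Adj (v d) w ↔ w = c ∨ ∃ i, i ≠ d ∧ w = r i
  Nc : ∀ w, G.Adj c w → (∃ i, w = r i) ∨ ∃ d ∈ D, w = v d
  cov : ∀ i, G.Adj c (r i) ∨ ∃ d ∈ D, d ≠ i

/-- a gadget in which `c` is adjacent to all `r i`, with all that is known about it -/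
structure Gad2 (G : SimpleGraph V) (r : Fin 4 → V) (c : V) (D : Finset (Fin 4)) (v : Fin 4 → V) :
    Prop where
  gad : Gad G r c D v
  full : ∀ i, G.Adj c (r i)
  two : 2 ≤ D.card
  three : D.card ≤ 3
  q1 : ∀ f, IsCol G (Rest c D v) f → 3 ≤ (Finset.univ.image fun i => f (r i)).card
  q2 : ∀ f, IsCol G (Rest c D v) f → ∀ i j, i ≠ j → f (r i) = f (r j) → i ∈ D ∨ j ∈ D

end Pool.Agent.Lib.MPc67b86
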