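import Pool.Agent.Lib.MP_c67b86_co.All
import Pool.Agent.Lib.MP_c67b86_co.Q.FIN

/-!
# MP_c67b86_co: counterexamples to Hajós' conjecture for five colours without star components
-/

set_option autoImplicit false

namespace Pool.Agent.Lib.MPc67b86.NoStarComponent

/-- `G` contains a subdivision of `H`: branch vertices `f a` and a path `P a b` for every edge `ab`
of `H`; a path contains no branch vertices except its ends, and a common vertex of the paths of two
different edges is a branch vertex -/
def ContainsSubdivision {V W : Type} (G : SimpleGraph V) (H : SimpleGraph W) : Prop :=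
  ∃ (f : W ↪ V) (P : ∀ a b : W, H.Adj a b → G.Walk (f a) (f b)),
    (∀ a b (h : H.Adj a b), (P a b h).IsPath) ∧
    (∀ a b (h : H.Adj a b) (c : W), f c ∈ (P a b h).support → c = a ∨ c = b) ∧
    ∀ a b (h : H.Adj a b) a' b' (h' : H.Adj a' b'), s(a, b) ≠ s(a', b') →
      ∀ v, v ∈ (P a b h).support → v ∈ (P a' b' h').support → v ∈ Set.range f

/-- `H` has at least five vertices and deleting at most three vertices leaves it connected -/
def FourConnected {n : ℕ} (H : SimpleGraph (Fin n)) : Prop :=
  5 ≤ n ∧ ∀ S : Finset (Fin n), S.card ≤ 3 → (H.induce (S : Set (Fin n))ᶜ).Connected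

/-- `G` is a counterexample to Hajós' conjecture for five colours -/
def Counterexample {V : Type} (G : SimpleGraph V) : Prop :=
  5 ≤ G.chromaticNumber ∧ ¬ ContainsSubdivision G (⊤ : SimpleGraph (Fin 5))

/-- the component of `H - R` which contains `c` is a star with centre `c` and at least one leaf, and
all leaves have degree four in `H` -/
def StarComponent {n : ℕ} (H : SimpleGraph (Fin n)) (R : Finset (Fin n)) (c : Fin n) : Prop :=
  c ∉ R ∧ (∃ v, H.Adj c v ∧ v ∉ R) ∧
    ∀ v, H.Adj c v → v ∉ R → (H.neighborSet v).ncard = 4 ∧ ∀ w, H.Adj v w → w ∈ R ∨ w = c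

open Pool.Agent.Lib.MPc67b86 in
/-- **Theorem.** Every counterexample to Hajós' conjecture for five colours contains a subdivision
of a counterexample `H` which is 4-connected and edge-critical, and in which deleting four vertices
never leaves a star whose leaves have degree four. -/
theorem result {V : Type} [Fintype V] (G : SimpleGraph V) (hG : Counterexample G) :
    ∃ (n : ℕ) (H : SimpleGraph (Fin n)), ContainsSubdivision G H ∧ Counterexample H ∧
      FourConnected H ∧ (∀ e ∈ H.edgeSet, (H.deleteEdges {e}).Colorable 4) ∧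
      ∀ (R : Finset (Fin n)) (c : Fin n), R.card = 4 → ¬ StarComponent H R c := by
  classical
  obtain ⟨hχ, hT⟩ := hG
  have hback : ∀ {W : Type} {G : SimpleGraph W}, TK5 G →
      ContainsSubdivision G (⊤ : SimpleGraph (Fin 5)) := fun {W G} h =>
    Q.FINM.walks_of_tk (nc := 4) le_rfl h
  obtain ⟨n, G', hG', hTC⟩ := mainB allNIV V G (fun h => hT (hback h)) (not_col4 hχ)
  have hn : Nonempty (Fin n) := by
    by_contra hn
    rw [not_nonempty_iff] at hn
    exact hG'.bad.2.2 ⟨fun _ => 0, fun u => (hn.false u).elim⟩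
  obtain ⟨h5, hconn⟩ := FINM.conn allDEG allSP3 hG' hn
  refine ⟨n, G', FINM.tc_walks hTC fun a => hG'.iso a, ⟨chi_of_not_col4 hG'.bad.2.2,
    fun h => hG'.bad.2.1 (Q.FINM.tk_of_walks (nc := 4) h)⟩,
    ⟨by simpa using h5, fun S hS => hconn S (by rwa [Set.ncard_coe_finset])⟩, ?_, ?_⟩
  · intro e he
    induction e using Sym2.ind with
    | _ a b =>
      obtain ⟨f, hf⟩ := allEDG (Fin n) G' hG' a b ((SimpleGraph.mem_edgeSet G').1 he)
      refine ⟨SimpleGraph.Coloring.mk f ?_⟩
      intro u v huv
      rw [SimpleGraph.deleteEdges_adj] at huv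
      exact hf u v huv.1 fun h => huv.2 (Set.mem_singleton_iff.2 h)
  · rintro R c hR ⟨hc, hne, hv⟩
    exact FINM.star allDEG allSP3 allGAD hG' (R : Set (Fin n)) c
      (by rw [Set.ncard_coe_finset]; exact hR) hc hne hv

end Pool.Agent.Lib.MPc67b86.NoStarComponent
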