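import Pool.Agent.Lib.MP_c67b86_co.Defs

/-!
# MP_c67b86_co: Hajós' conjecture for five colours, graphs of treewidth at most four

**Theorem.** Every finite graph of treewidth at most four with chromatic number at least five contains a
subdivision of `K_5` (partial answer to Q1).

Overview.  `G` = a counterexample with the least number of edges in a class closed under deleting edges and
replacing a connection through `I` by an edge (`lop`), no isolated vertices (`Min G`); all graphs
live on the same vertex type; so everything obtained in this way with fewer edges is 4-colourable (`RED`).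
Part B: `G` has no separation of order at most three.  Part C: eliminate vertices until the first one, `c`, is
adjacent to an eliminated one: this is the gadget `Gad`; it is reduced to the cases `|D| = 2`, `|D| = 3` and
these are impossible.

Rules: file `Lib/MP_c67b86_co/XXX.lean`, `import Pool.Agent.Lib.MP_c67b86_co.Spec`, namespace
`Pool.Agent.Lib.MPc67b86`, `theorem specXXX (hYYY : SpecYYY) .. : SpecXXX` (any Spec of this file may be a
hypothesis if the docstring names it), own lemmas in the namespace `XXXM`, no double quotes.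
-/

set_option autoImplicit false

namespace Pool.Agent.Lib.MPc67b86

/-! ## Part A: the class of graphs, subdivisions, reductions -/

/-- **ELM** (60 lines). A subgraph of a graph in the class `Elim` is in the class.
Proof. Induction on `Elim G` (generalizing `G'`): `G' ≤ ⊥` is `⊥`; `elim G' v ≤ elim G v` and `neighborSet G' v ⊆ neighborSet G v`. -/
def SpecELM : Prop :=
  ∀ (V : Type) [Finite V] (G G' : SimpleGraph V), G' ≤ G → Elim G → Elim G'

/-- **ELC** (150 lines, from ELM). The class is closed under the contraction of an edge `p y` (`p` into `y`).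
Proof. First: `Elim G → Elim (G.comap σ)` for a permutation `σ` of `V` (induction, `elim (G.comap σ) v = (elim G (σ v)).comap σ`).
Now induction on `Elim G` for fixed `p, y`: let `v` be the first vertex.
`v = p`: `con G p y ≤ elim G p` (as `y ∈ N(p)`), ELM. `v = y`: with `σ = swap p y`: `con G p y ≤ (elim G y).comap σ`: for
an edge `a b` of `con` with `a, b ≠ y` it is an edge of `G` not at `p, y`; for `a = y`: `b` is a `G`-neighbour of `y` or `p`, and `p`
has these neighbours in `elim G y`. Other `v`: `p y` is still an edge of `elim G v`, so `Elim (con (elim G v) p y)`;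
`elim (con G p y) v ≤ con (elim G v) p y` (case distinction); the neighbours of `v` in `con G p y` are the images of its `G`-neighbours
under `p ↦ y`, so at most four. `Elim.step`. (`Elim ⊥`: `p y` is not an edge.) -/
def SpecELC : Prop :=
  ∀ (V : Type) [Finite V] (G : SimpleGraph V) (p y : V), G.Adj p y → Elim G → Elim (con G p y)

/-- **ELL** (120 lines, from ELM, ELC). The class is closed under `lop`.
Proof. Strong induction on `I.ncard`, all `G`. If `G.Adj x y`: `lop G I x y ≤ G`, ELM. Otherwise the last edge of a walk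
from `x` to `y` in `res G ({x, y} ∪ I)` is `p y` with `p ∈ I`. In `con G p y` the map `p ↦ y` (identity elsewhere) sends edges of
`res G ({x, y} ∪ I)` to edges of `res (con G p y) ({x, y} ∪ (I \ {p}))` or to single vertices, so `Lk (con G p y) x y (I \ {p})`.
Induction for `con G p y`, `I \ {p}` and `lop G I x y ≤ lop (con G p y) (I \ {p}) x y`, ELM. -/
def SpecELL : Prop :=
  ∀ (V : Type) [Finite V] (G : SimpleGraph V) (x y : V) (I : Set V), x ≠ y → x ∉ I → y ∉ I →
    Lk G x y I → Elim G → Elim (lop G I x y)

/-- **TKL** (150 lines). A subdivision of `K_5` in a subgraph of `G`, or in `lop G I x y`, gives one in `G`.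
Proof. Second part: let `f, J` be the subdivision in `G' = lop G I x y`. Vertices of `I` are isolated in `G'`, so `f k ∉ I` (there is
`j ≠ k` and a reachable `f j ≠ f k`), and `J i j` may be replaced by `J i j \ I` (a walk in `res G' _` from `f i` to `f j ≠ f i` does not meet
`I`). For at most one pair `i < j` both `x, y ∈ {f i, f j} ∪ J i j` (disjointness; if `x, y` are branch vertices `f i, f j` it is this pair;
if `x = f i` and `y ∈ J i j` then `y` is in no other set). Let `J' i j = (J i j \ I) ∪ (I if x, y ∈ {f i, f j} ∪ J i j else ∅)`: an edge of `res G' _`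
is an edge of `G` not meeting `I` or it is `x y`, and then `x, y` are joined in `res G ({x, y} ∪ I)`. -/
def SpecTKL : Prop :=
  (∀ (V : Type) (G G' : SimpleGraph V), G' ≤ G → TK5 G' → TK5 G) ∧
  ∀ (V : Type) (G : SimpleGraph V) (x y : V) (I : Set V), x ≠ y → x ∉ I → y ∉ I →
    Lk G x y I → TK5 (lop G I x y) → TK5 G

/-- **CNT** (80 lines). If `x, y` are not adjacent then `lop G I x y` has fewer edges than `G`.
Proof. Edges of `lop`: `s(x, y)` and edges of `G` not meeting `I`. There is an edge `x a` with `a ∈ I` (first edge of a walk) and an edge `b y` with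
`b ∈ I` (last edge); they are different (`x ≠ y`, `x, y ∉ I`). So `|E(lop)| ≤ |E(G)| - 2 + 1`. -/
def SpecCNT : Prop :=
  ∀ (V : Type) [Finite V] (G : SimpleGraph V) (x y : V) (I : Set V), x ≠ y → x ∉ I → y ∉ I →
    Lk G x y I → ¬ G.Adj x y → (lop G I x y).edgeSet.ncard < G.edgeSet.ncard

/-- **RED** (150 lines, from TKL, CNT). The reduction theorem: keep the vertices of a proper subset `W`, and
replace disjoint connections outside `W` by edges: the result has a 4-colouring.
Proof. Let `H` be the graph with the edges of `G[W]` and the edges `x j y j`. Claim: for all `m` and all `G` in the class, `¬ TK5 G` (all other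
hypotheses as here, `W` any set): `H` is in the class, `¬ TK5 H`, and `H.edgeSet.ncard ≤ (number of edges of G)`, with `<` if some `x j y j` is not
an edge of `G` (or with `≤ |E(G[W])|` if all are edges). Induction on `m`: `m = 0`: `H = res G W ≤ G`. Step: `G₁ = lop G (I 0) (x 0) (y 0)` if `x 0, y 0` are not
adjacent, `G₁ = G` otherwise; the other connections avoid `I 0` and their ends are in `W`, so they are connections of `G₁`. At the end: if
all `x j y j` are edges of `G` then `H = res G W` has fewer edges as a vertex outside `W` is not isolated. So `|E(H)| < |E(G)|`,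
`¬ Bad H` (Min), so `Col4 H`. -/
def SpecRED : Prop :=
  ∀ (V : Type) [Finite V] (G : SimpleGraph V), Min G → ∀ (W : Set V), (∃ a, a ∉ W) →
    ∀ (m : ℕ) (x y : Fin m → V) (I : Fin m → Set V),
    (∀ j, x j ∈ W) → (∀ j, y j ∈ W) → (∀ j, x j ≠ y j) → (∀ j, Disjoint (I j) W) →
    (∀ j k, j ≠ k → Disjoint (I j) (I k)) → (∀ j, Lk G (x j) (y j) (I j)) →
    ∃ f : V → Fin 4, IsCol G W f ∧ ∀ j, f (x j) ≠ f (y j)

/-- **EDG** (40 lines, from TKL). `G` without one edge is 4-colourable. -/
def SpecEDG : Prop :=
  ∀ (V : Type) [Finite V] (G : SimpleGraph V), Min G → ∀ a b, G.Adj a b →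
    ∃ f : V → Fin 4, ∀ u v, G.Adj u v → s(u, v) ≠ s(a, b) → f u ≠ f v

/-- **NIV** (150 lines, from TKL). In a class `CC` of graphs which is closed (also under passing to induced subgraphs and renaming): if there is a counterexample there is a minimal one
without isolated vertices.
Proof. Number the vertices: `Bad` is invariant under isomorphism (`G.comap e`, `e : V ≃ Fin n`). Let `n` be minimal such that there is a bad
graph on `Fin n`, and `G` a bad graph on `Fin n` with the least number of edges. If `v` were isolated: let `e : Fin (n - 1) ↪ Fin n` have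
range `{v}ᶜ` (`Fin.succAboveEmb`); `G.comap e` is bad: a subdivision in `G.comap e` gives one in `G`, a colouring of `G.comap e` extends to `G`. -/
def SpecNIV : Prop :=
  ∀ (CC : ∀ (V : Type), SimpleGraph V → Prop),
    (∀ (V : Type) [Finite V], Closed (CC V)) →
    (∀ (V W : Type) [Finite V] [Finite W] (e : W ↪ V) (G : SimpleGraph V), CC V G →
      CC W (G.comap e)) →
    ∀ (V : Type) [Finite V] (G : SimpleGraph V), CC V G → ¬ TK5 G → ¬ Col4 G →
      ∃ (n : ℕ) (G' : SimpleGraph (Fin n)), Min G' ∧ CC (Fin n) G'

/-- **TDE** (200 lines, from ELM). A graph with a tree decomposition with bags of at most five vertices is in the class.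
Proof. Induction on (number of nodes of the tree) + (sum of the bag sizes), all `G`. If there are no edges: `G = ⊥`. One node: `G` has all its edges
in one bag `β`; take `v ∈ β`: at most four neighbours, and `elim G v` has the bag `β \ {v}`. At least two nodes: the tree has a leaf `t`
(degree one, neighbour `s`). If `bag t ⊆ bag s` delete the node `t` (`SimpleGraph.Connected.induce_compl_singleton_of_degree_eq_one` or the like;
vertices of `bag t` are in `bag s`). Otherwise let `v ∈ bag t \ bag s`: `v` is in no other bag (the nodes with `v` form a connected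
subgraph, `t` has only the neighbour `s`), so `N(v) ⊆ bag t \ {v}` has at most four elements and `elim G v` has the tree decomposition with `bag t`
replaced by `bag t \ {v}` (for the vertex `v` itself drop the condition that it is in a bag: prove the statement for tree decompositions in
which only the non isolated vertices must be covered). -/
def SpecTDE : Prop :=
  ∀ (V : Type) [Finite V] (G : SimpleGraph V) (ι : Type) [Finite ι] (T : SimpleGraph ι)
    (bag : ι → Set V), T.IsTree → (∀ v, ∃ i, v ∈ bag i) →
    (∀ u v, G.Adj u v → ∃ i, u ∈ bag i ∧ v ∈ bag i) →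
    (∀ v, (T.induce {i | v ∈ bag i}).Connected) → (∀ i, (bag i).ncard ≤ 5) → Elim G

/-- **TKW** (120 lines). The sets of a subdivision can be replaced by paths. -/
def SpecTKW : Prop :=
  ∀ (V : Type) (G : SimpleGraph V), TK5 G →
    ∃ f : Fin 5 ↪ V, ∃ P : ∀ i j : Fin 5, G.Walk (f i) (f j),
      (∀ i j : Fin 5, i < j → (P i j).IsPath) ∧
      (∀ i j : Fin 5, i < j → ∀ k : Fin 5, f k ∈ (P i j).support → k = i ∨ k = j) ∧
      (∀ i j i' j' : Fin 5, i < j → i' < j' → (i ≠ i' ∨ j ≠ j') →
        ∀ v : V, v ∈ (P i j).support → v ∈ (P i' j').support → v ∈ Set.range f)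

/-- **TKB** (100 lines). How to construct a subdivision: five vertices, some of the pairs adjacent, the others (listed by `a j, b j`)
joined by disjoint connections which avoid the branch vertices.
Proof. `I i k = ∅` if `f i, f k` are adjacent, otherwise `J j` for a `j` with `{a j, b j} = {i, k}` (choose one; different pairs get
different `j`). -/
def SpecTKB : Prop :=
  ∀ (V : Type) (G : SimpleGraph V) (f : Fin 5 → V) (m : ℕ) (a b : Fin m → Fin 5)
    (J : Fin m → Set V), Function.Injective f → (∀ j k, f k ∉ J j) →
    (∀ j k, j ≠ k → Disjoint (J j) (J k)) → (∀ j, Lk G (f (a j)) (f (b j)) (J j)) →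
    (∀ i k, i ≠ k → G.Adj (f i) (f k) ∨ ∃ j, (a j = i ∧ b j = k) ∨ (a j = k ∧ b j = i)) → TK5 G

/-- **FAN** (120 lines, from `DL.fan` in `Pool/Agent/DL/MENG.lean`). The fan lemma for sets: if no set `T ∌ v` of fewer than `k` vertices separates `v` from `B`
there are `k` disjoint connections from `v` to different vertices of `B`, avoiding `B`.
Proof. `DL.fan` (finite types: `Fintype.ofFinite`, classical decidability; `DL.del G T` is `res G Tᶜ`), `I i = vs (P i) \ {v, b i}`; a path in
the sense `DL.IsPth` gives reachability in `res G` of its vertex set. The inner vertices are not isolated. -/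
def SpecFAN : Prop :=
  ∀ (V : Type) [Finite V] (G : SimpleGraph V) (v : V) (B : Set V) (k : ℕ), v ∉ B →
    (∀ T : Set V, v ∉ T → T.ncard < k → ∃ b ∈ B, b ∉ T ∧ (res G Tᶜ).Reachable v b) →
    ∃ (b : Fin k → V) (I : Fin k → Set V), Function.Injective b ∧ (∀ i, b i ∈ B) ∧
      (∀ i, Disjoint (I i) B) ∧ (∀ i, v ∉ I i) ∧ (∀ i j, i ≠ j → Disjoint (I i) (I j)) ∧
      (∀ i, Lk G v (b i) (I i)) ∧ ∀ i, ∀ u ∈ I i, ∃ w, G.Adj u w

/-- **KPT** (120 lines, from `DL.kpaths` in `Pool/Agent/DL/MENG.lean`). Two internally disjoint paths between non adjacent `a` and `b` which no vertex separates. -/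
def SpecKPT : Prop :=
  ∀ (V : Type) [Finite V] (G : SimpleGraph V) (a b : V), a ≠ b → ¬ G.Adj a b →
    (∀ T : Set V, a ∉ T → b ∉ T → T.ncard < 2 → (res G Tᶜ).Reachable a b) →
    ∃ P Q : G.Walk a b, P.IsPath ∧ Q.IsPath ∧ ∀ v, v ∈ P.support → v ∈ Q.support → v = a ∨ v = b

/-! ## Part B: no separation of order at most three -/

/-- **DEG** (80 lines, from RED). Every vertex has at least four neighbours, and no vertex has all its neighbours among
those of a non adjacent vertex.
Proof. RED for `W = {v}ᶜ`, `m = 0`: a colouring `f` of `G - v`. If `v` has at most three neighbours some colour is free for `v`; in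
the second case give `v` the colour of `w`. Either way `G` is 4-colourable. -/
def SpecDEG : Prop :=
  ∀ (V : Type) [Finite V] (G : SimpleGraph V), Min G →
    (∀ v, 4 ≤ (G.neighborSet v).ncard) ∧
    ∀ v w, v ≠ w → ¬ G.Adj v w → ¬ G.neighborSet v ⊆ G.neighborSet w

/-- **GLU** (100 lines). Gluing of colourings with the same pattern on the intersection.
Proof. The pattern condition gives an injection `g '' (A ∩ B) → Fin 4` with `g s ↦ f s`, which extends to a permutation `σ` of `Fin 4`.
`h = f` on `A`, `σ ∘ g` outside `A`. -/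
def SpecGLU : Prop :=
  ∀ (V : Type) (G : SimpleGraph V) (A B : Set V) (f g : V → Fin 4), IsCol G A f → IsCol G B g →
    (∀ u ∈ A, u ∉ B → ∀ v ∈ B, v ∉ A → ¬ G.Adj u v) →
    (∀ s ∈ A, s ∈ B → ∀ t ∈ A, t ∈ B → (f s = f t ↔ g s = g t)) →
    ∃ h : V → Fin 4, IsCol G (A ∪ B) h ∧ (∀ u ∈ A, h u = f u) ∧
      ∃ σ : Equiv.Perm (Fin 4), ∀ u ∈ B, h u = σ (g u)

/-- **SP2** (200 lines, from RED, GLU). No separation of order at most two.
Proof. Let `A = C ∪ S`, `B = Cᶜ`; `A ∪ B` is everything, `A ∩ B = S`, no edges between `A \ B = C` and `B \ A`. RED with `m = 0` (`out`, `ne`): colourings `f` of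
`A` and `g` of `B`. If `|S| ≤ 1` glue (GLU): `G` is 4-colourable. Let `S = {x, y}`. By GLU no colouring of `A` has the same pattern on `x, y` as a
colouring of `B`. So one of the two sides, call it `Y`, has only colourings with `x, y` different, and the other side `X` only
colourings with `x, y` equal. `x, y` are joined in `res G Y`: otherwise let `K` be the set of vertices reachable from `x` in `res G Y`, `f` a colouring of `Y`,
`σ` the transposition of `f x` and `f y`: `σ ∘ f` on `K`, `f` outside is a colouring of `Y` with `x, y` equal. So `Lk G x y (Y \ {x, y})`, and RED for `W = X`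
and this connection gives a colouring of `X` with `x, y` different, a contradiction. -/
def SpecSP2 : Prop :=
  ∀ (V : Type) [Finite V] (G : SimpleGraph V), Min G → ∀ S C : Set V, S.ncard ≤ 2 → ¬ Sep G S C

/-- **LKS** (100 lines, from SP2). In a separation of order three every `s ∈ S` has a neighbour in `C`, and any two vertices of `S` are
connected through `C`.
Proof. Let `v ∈ C`, `K` = the set of vertices reachable from `v` in `res G C`. If `s ∈ S` has no neighbour in `K` then `Sep G (S \ {s}) K`, against
SP2. So all `s ∈ S` have a neighbour in `K`. -/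
def SpecLKS : Prop :=
  ∀ (V : Type) [Finite V] (G : SimpleGraph V), Min G → ∀ S C : Set V, S.ncard ≤ 3 → Sep G S C →
    (∀ s ∈ S, ∃ a ∈ C, G.Adj s a) ∧ ∀ s ∈ S, ∀ t ∈ S, s ≠ t → Lk G s t C

/-- **OPP** (20 lines). The opposite side of a separation. -/
def SpecOPP : Prop :=
  ∀ (V : Type) (G : SimpleGraph V) (S C : Set V), Sep G S C →
    Sep G S (C ∪ S)ᶜ ∧ ((C ∪ S)ᶜ ∪ S) = Cᶜ ∧ ((C ∪ S)ᶜ)ᶜ = C ∪ S

/-- **GL3** (80 lines, from GLU). The two sides of a separation of order three have no common pattern. -/
def SpecGL3 : Prop :=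
  ∀ (V : Type) [Finite V] (G : SimpleGraph V), Min G → ∀ (x y z : V) (C : Set V),
    x ≠ y → x ≠ z → y ≠ z → Sep G {x, y, z} C →
    ¬ (AccR G (C ∪ {x, y, z}) x y z ∧ AccR G Cᶜ x y z) ∧
    ¬ (AccS G (C ∪ {x, y, z}) x y z ∧ AccS G Cᶜ x y z) ∧
    ¬ (AccS G (C ∪ {x, y, z}) x z y ∧ AccS G Cᶜ x z y) ∧
    ¬ (AccS G (C ∪ {x, y, z}) y z x ∧ AccS G Cᶜ y z x)

/-- **TYP** (100 lines, from RED, LKS, OPP, GL3). One of the sides accepts three different colours, and if it is `C ∪ S` then the other
side accepts at least two of the three single patterns.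
Proof. RED for `W = C ∪ S` and the connection of `x, y` through the opposite side (LKS for OPP): a colouring of `C ∪ S` with `x, y` different,
so `AccR` or `AccS x z y` or `AccS y z x`. The same for the other pairs and (with LKS) for the side `Cᶜ`. Now with GL3 it is propositional. -/
def SpecTYP : Prop :=
  ∀ (V : Type) [Finite V] (G : SimpleGraph V), Min G → ∀ (x y z : V) (C : Set V),
    x ≠ y → x ≠ z → y ≠ z → Sep G {x, y, z} C →
    (AccR G (C ∪ {x, y, z}) x y z ∨ AccR G Cᶜ x y z) ∧
    (AccR G (C ∪ {x, y, z}) x y z →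
      (AccS G Cᶜ x y z ∧ AccS G Cᶜ x z y) ∨ (AccS G Cᶜ x y z ∧ AccS G Cᶜ y z x) ∨
        (AccS G Cᶜ x z y ∧ AccS G Cᶜ y z x))

/-- **STA** (200 lines, from RED, FAN, SP2, LKS, GL3). The star at `z`.
Proof. (1) `z` has two neighbours in `C`. Otherwise (LKS: at least one) exactly one, `w`. `AccS G Cᶜ x z y` and `AccS G Cᶜ y z x` have colourings with `x, z` equal resp. `y, z`
equal, so `z` is not adjacent to `x`, `y` (these are in `Cᶜ`). Let `f` be a colouring of `C ∪ S` with `x, y, z` different. `Function.update f z (f x)` has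
`x, z` equal and `y` different: by GL3 it is not a colouring, so `f w = f x`. In the same way `f w = f y`, a contradiction.
(2) FAN for `res G (C ∪ S)`, `v = z`, `B = {x, y}`, `k = 2`: let `T ∌ z` have at most one element and let no `b ∈ B \ T` be reachable from `z` in
`res (res G (C ∪ S)) Tᶜ`; let `K` be the set of reachable vertices. `x, y ∉ K`; `K \ {z} ⊆ C` has its `G`-neighbours in `K ∪ T`; it is nonempty by (1), so
`Sep G ({z} ∪ T) (K \ {z})` (one of `x, y` is outside), against SP2. So there are disjoint `I 0, I 1 ⊆ C` (they avoid `x, y, z` and their vertices are not isolated in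
`res G (C ∪ S)`) connecting `z` with `x` and `y`. RED for `W = Cᶜ`: a colouring of `Cᶜ` with `z` different from `x` and `y`: `AccR` (not possible by GL3) or `AccS x y z`. -/
def SpecSTA : Prop :=
  ∀ (V : Type) [Finite V] (G : SimpleGraph V), Min G → ∀ (x y z : V) (C : Set V),
    x ≠ y → x ≠ z → y ≠ z → Sep G {x, y, z} C → AccR G (C ∪ {x, y, z}) x y z →
    AccS G Cᶜ x z y → AccS G Cᶜ y z x →
    AccS G Cᶜ x y z ∧ ∃ a ∈ C, ∃ b ∈ C, a ≠ b ∧ G.Adj z a ∧ G.Adj z b

/-- **TRI** (100 lines, from TYP, STA). If `C ∪ S` accepts different colours the other side accepts all single patterns, and every vertex of `S` has two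
neighbours in `C`.
Proof. TYP, then STA for a permutation of `x, y, z` (`{x, y, z}` is the same set; `AccR`, `AccS` are symmetric: `AccS G A x y z ↔ AccS G A y x z`), and then STA for all
three choices of the third vertex. -/
def SpecTRI : Prop :=
  ∀ (V : Type) [Finite V] (G : SimpleGraph V), Min G → ∀ (x y z : V) (C : Set V),
    x ≠ y → x ≠ z → y ≠ z → Sep G {x, y, z} C → AccR G (C ∪ {x, y, z}) x y z →
    AccS G Cᶜ x y z ∧ AccS G Cᶜ x z y ∧ AccS G Cᶜ y z x ∧
      ∀ s, s = x ∨ s = y ∨ s = z → ∃ a ∈ C, ∃ b ∈ C, a ≠ b ∧ G.Adj s a ∧ G.Adj s b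

/-- **COR** (150 lines, from RED, SP2, OPP, GL3, TYP, TRI). A separation of order at most three gives a `Core`.
Proof. SP2: all separations of order at most three have `|S| = 3`, `S = {x, y, z}`. By TYP (and OPP) there is one with `AccR G (C ∪ S)`; take one with `C.ncard`
minimal. `nxy` etc.: TRI gives colourings of `Cᶜ` in which `x, y` have the same colour. `sxy` etc.: GL3 with TRI. `two`: TRI. `tri`: RED for `W = Cᶜ` and the three
connections gives `AccR G Cᶜ`, against GL3. `no2`: SP2. `small`: by minimality `¬ AccR G (M ∪ {u, v, w})`, so by TYP `AccR G Mᶜ u v w`; TRI for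
the opposite side `(M ∪ {u, v, w})ᶜ` (OPP) gives the three `AccS` for `M ∪ {u, v, w}`, and these give the non adjacencies. -/
def SpecCOR : Prop :=
  ∀ (V : Type) [Finite V] (G : SimpleGraph V), Min G → ∀ S C : Set V, S.ncard ≤ 3 → Sep G S C →
    ∃ x y z C', Core G x y z C'

/-- **CSW** (60 lines). A core is symmetric in `x, y, z`. -/
def SpecCSW : Prop :=
  ∀ (V : Type) (G : SimpleGraph V) (x y z : V) (C : Set V), Core G x y z C →
    Core G y x z C ∧ Core G x z y C

/-- **CYC** (200 lines, from KPT, GLU). There are two disjoint paths from `y` to `z` in the side without `x`.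
Proof. KPT for `res G (C ∪ {y, z})`. Let `T ∌ y, z` have at most one element and suppose `y, z` are not connected in `res (res G (C ∪ {y, z})) Tᶜ`; `K, L` = the sets of
vertices reachable from `y` resp. `z`; they are disjoint. By `two` (and the non adjacencies) `y` has a neighbour in `C \ T`, so `K \ {y}` is nonempty, the same for `L \ {z}`.
`K \ {y} ⊆ C` has its neighbours in `K ∪ {x} ∪ T`. If `T ∩ C = ∅`: `Sep G {x, y} (K \ {y})`, against `no2`. So `T = {w}`, `w ∈ C`, and `Sep G {x, w, y} (K \ {y})` with
`(K \ {y}).ncard < C.ncard` (`w ∈ C \ K`): `small` gives a colouring `f` of `K ∪ {x, w}` with `f w = f y ≠ f x`. In the same way a colouring `g` of `L ∪ {x, w}` with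
`g w = g z ≠ g x`. The rest `Q = C \ (K ∪ L ∪ {w})` has its neighbours in `Q ∪ {x, w}`, so it is empty by `no2`. GLU for `K ∪ {x, w}`, `L ∪ {x, w}` (intersection `{x, w}`, no edges
between `K` and `L`): a colouring `h` of `C ∪ {x, y, z}` with `h y = h w = h z ≠ h x`: against `syz`. -/
def SpecCYC : Prop :=
  ∀ (V : Type) [Finite V] (G : SimpleGraph V) (x y z : V) (C : Set V), Core G x y z C →
    ∃ P Q : G.Walk y z, P.IsPath ∧ Q.IsPath ∧ (∀ v ∈ P.support, v ∈ C ∪ {y, z}) ∧
      (∀ v ∈ Q.support, v ∈ C ∪ {y, z}) ∧ ∀ v, v ∈ P.support → v ∈ Q.support → v = y ∨ v = z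

/-- **ARC** (120 lines). Two vertices `u, v` on a path: in the order of the path (`u'` before `v'`) the start of the path and its end give disjoint connections.
Proof. `P.takeUntil`, `P.dropUntil`: if `u` is in the support of `P.takeUntil v` then `u' = u, v' = v`, otherwise `u' = v, v' = u`.
`J` = the support of the part up to `u'` without `a, u'`, `K` = the support of the part from `v'` without `v', b`. -/
def SpecARC : Prop :=
  ∀ (V : Type) (G : SimpleGraph V) (a b : V) (P : G.Walk a b) (u v : V), P.IsPath → a ≠ b →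
    u ∈ P.support → v ∈ P.support → u ≠ v →
    ∃ (u' v' : V) (J K : Set V), ((u' = u ∧ v' = v) ∨ (u' = v ∧ v' = u)) ∧ u' ≠ b ∧ v' ≠ a ∧
      (∀ w ∈ J, w ∈ P.support ∧ w ≠ a ∧ w ≠ b ∧ w ≠ u ∧ w ≠ v) ∧
      (∀ w ∈ K, w ∈ P.support ∧ w ≠ a ∧ w ≠ b ∧ w ≠ u ∧ w ≠ v) ∧ Disjoint J K ∧
      Lk G a u' J ∧ Lk G v' b K

/-- **TRG** (150 lines, from ARC). A fan with three connections from `x` to the cycle is not possible.
Proof. Two of the three ends are on `P` or two are on `Q` (pigeonhole); by symmetry on `P`, `b i ≠ b j`. ARC for `P` and `b i, b j`: `u', v', J, K`. Connections: `y, x` through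
`(J ∪ {u'} ∪ I_{u'}) \ {y}` (if `u' = y` through `I_{u'}`), `v', z`: `x, z` through `(K ∪ {v'} ∪ I_{v'}) \ {z}`, and `y, z` through the inner vertices of `Q`. They are disjoint subsets of `C`:
against `Core.tri`. -/
def SpecTRG : Prop :=
  ∀ (V : Type) [Finite V] (G : SimpleGraph V) (x y z : V) (C : Set V), Core G x y z C →
    ∀ P Q : G.Walk y z, P.IsPath → Q.IsPath → (∀ v ∈ P.support, v ∈ C ∪ {y, z}) →
    (∀ v ∈ Q.support, v ∈ C ∪ {y, z}) → (∀ v, v ∈ P.support → v ∈ Q.support → v = y ∨ v = z) →
    ∀ (b : Fin 3 → V) (I : Fin 3 → Set V), Function.Injective b →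
    (∀ i, b i ∈ P.support ∨ b i ∈ Q.support) → (∀ i, I i ⊆ C) →
    (∀ i, ∀ v ∈ I i, v ∉ P.support ∧ v ∉ Q.support) → (∀ i j, i ≠ j → Disjoint (I i) (I j)) →
    (∀ i, Lk G x (b i) (I i)) → False

/-- **CAT** (200 lines, from FAN, CYC, TRG). There is a set attached to two vertices.
Proof. `P, Q` from CYC, `Z` = the vertices on `P` or `Q`; each of `P`, `Q` has an inner vertex (`nyz`). FAN for `res G (C ∪ {x, y, z})`, `v = x`, `B = Z`, `k = 3` would contradict TRG
(inner vertices avoid `Z ∋ y, z` and `x`, and are in the side: so in `C`). So there is `T ∌ x`, `|T| ≤ 2`, such that no vertex of `Z \ T` is reachable from `x` in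
`res (res G (C ∪ {x, y, z})) Tᶜ`; make `T ⊆ C ∪ {y, z}` by intersecting. `K` = the set of reachable vertices. `K ⊆ C ∪ {x}`: `y, z ∈ Z` (if `y ∈ T` then `y ∉ K` anyway).
All neighbours of `K` in the side are in `K ∪ T`. If `|T| ≤ 1`: `x` has two neighbours in `C` (`two`), so `K \ {x}` is nonempty and `Sep G ({x} ∪ T) (K \ {x})`, against `no2`.
So `T = {p, q}`. `pr`: if `p ∈ C` or `q ∈ C` take it; otherwise `T = {y, z}` and an inner vertex of `P` is in `Z \ T`, in `C` and not in `K`. -/
def SpecCAT : Prop :=
  ∀ (V : Type) [Finite V] (G : SimpleGraph V) (x y z : V) (C : Set V), Core G x y z C →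
    ∃ (K : Set V) (p q : V), Att G x y z C K p q

/-- **DG2** (60 lines). The case `K = {x}`.
Proof. All neighbours of `x` in the side are `p` or `q`; by `two` both are in `C` and adjacent to `x`. Let `f` be a colouring with `x, y, z` different. `update f x (f y)` has `x, y` equal and `z`
different, so it is not a colouring (`sxy`): `f p = f y` or `f q = f y`. In the same way `f p = f z` or `f q = f z` (`sxz`). So `p, q` have the colours of `y, z` and `x` can be given the
fourth colour. -/
def SpecDG2 : Prop :=
  ∀ (V : Type) [Finite V] (G : SimpleGraph V) (x y z : V) (C : Set V), Core G x y z C →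
    ∀ p q : V, Att G x y z C {x} p q → p ∈ C ∧ q ∈ C ∧ Flex G x y z C {x}

/-- **CAP** (180 lines, from GLU). The case `K ≠ {x}`.
Proof. `M = K \ {x}` is a nonempty subset of `C`, `Sep G {x, p, q} M`, `M.ncard < C.ncard` (`pr`). `small`: `x, p, q` are not adjacent, and `M ∪ {x, p, q}` has colourings with exactly two
of `x, p, q` equal, for each pair.
(E1) Let `f` be a colouring of the side without `K`, and `c` a colour with `c ≠ f p` if `f p = f q`, and `c = f p ∨ c = f q` if `f p ≠ f q`. Then there is a colouring `g` of the side with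
`g = f` outside `K` and `g x = c`: the right colouring of `M ∪ {x, p, q}`, composed with a permutation of the colours (GLU, or directly: a permutation with given values at
two different colours), on `K`; edges from `K` to the rest go to `p, q` only.
(E2) `Ext`: let `f y ≠ f z`. If `f p = f q` choose `c ∈ {f y, f z}`, `c ≠ f p`: (E1) gives a colouring against `sxy` or `sxz`. If `f p ≠ f q` and one of them is `f y` or `f z` choose this
colour as `c`: the same contradiction.
`p, q ∈ C`: a colouring from `Core.r`, restricted: by `Ext` `p, q ≠ y, z`. `Flex`: by `Ext` the colours of `p, q` are the two colours different from those of `y, z`: one of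
them is not the colour of `x`; (E1) with this colour. -/
def SpecCAP : Prop :=
  ∀ (V : Type) [Finite V] (G : SimpleGraph V) (x y z : V) (C : Set V), Core G x y z C →
    ∀ (K : Set V) (p q : V), Att G x y z C K p q → K ≠ {x} →
    p ∈ C ∧ q ∈ C ∧ Flex G x y z C K ∧ Ext G x y z C K p q

/-- **IN1** (150 lines). Two attached sets: counting.
Proof. (1) `N₂ = ({p, q} \ L) ∪ ({r, s} \ K)` has at least two elements. All neighbours in the side of a vertex of `K ∪ L` are in `K ∪ L ∪ N₂`. Suppose `|N₂| ≤ 1`. Let
`Q = C \ (K ∪ L ∪ N₂)`: its neighbours are in `Q ∪ N₂ ∪ {z}` (a neighbour in `K ∪ L` would put the vertex of `Q` into `N₂`; `x ∈ K`, `y ∈ L`), so `Q = ∅` by `no2` (`x` is outside).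
`z` has two neighbours in `C` (`two`); they are not in `K ∪ L` (otherwise `z ∈ K ∪ L ∪ N₂`; but `z ∉ K ∪ L` by `KC`, and `N₂ ⊆ C`). So both are in `N₂`, a contradiction.
(2) `K ∩ L = ∅`. Otherwise `M = K ∩ L ⊆ C` (`x ∉ L`, `y ∉ K` by `KC`), its neighbours are in `M ∪ N₁`, `N₁ = (K ∩ {r, s}) ∪ ({p, q} ∩ L) ∪ ({p, q} ∩ {r, s})`, so `|N₁| ≥ 3` by `no2`. With
`a = |K ∩ {r, s}|`, `b = |{p, q} ∩ L|`, `c = |{p, q} ∩ {r, s}|` (`a + b + c ≥ 3`): `|N₂| ≤ (2 - b) + (2 - a) - c ≤ 1`, against (1). -/
def SpecIN1 : Prop :=
  ∀ (V : Type) [Finite V] (G : SimpleGraph V) (x y z : V) (C : Set V), Core G x y z C →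
    ∀ (K : Set V) (p q : V), Att G x y z C K p q → p ∈ C → q ∈ C →
    ∀ (L : Set V) (r s : V), Att G y x z C L r s → r ∈ C → s ∈ C →
    2 ≤ (({p, q} \ L) ∪ ({r, s} \ K) : Set V).ncard ∧ Disjoint K L

/-- **IN2** (150 lines). Two attached sets: the colours.
Proof. Let `f` be a colouring of the side with `x, y, z` different (`Core.r`), `A' = {v | v ∈ side ∧ v ∉ K}`. `Ext` for `K` and `f`: `{f p, f q}` are the two colours different from `f y, f z`, that is `f x`
and the fourth colour `δ`; `Ext` for `L`: `{f r, f s} = {f y, δ}`. The neighbours of `L` in `A'` are in `L ∪ {s}` (`r ∈ K`). So for every permutation `θ` of the colours with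
`θ (f s) = f s` the map `g = θ ∘ f` on `L`, `f` outside `L`, is a colouring of `A'`; `g y = θ (f y)`, `g z = f z`, `g p = θ (f p)`, `g q = f q`. `Ext` for `K` and `g` is contradicted by: if
`f s = f y`: `θ` = transposition of `f x` and `δ`: `g p = g q`, `g y = f y ≠ g z`. If `f s = δ` and `f p = δ`: `θ` = transposition of `f x` and `f y`: `g y = f x = f q = g q`, `g y ≠ g z`. If `f s = δ` and
`f p = f x`: `θ` = transposition of `f x` and `f z`: `g p = f z = g z`, `g y = f y ≠ g z`. -/
def SpecIN2 : Prop :=
  ∀ (V : Type) [Finite V] (G : SimpleGraph V) (x y z : V) (C : Set V), Core G x y z C →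
    ∀ (K : Set V) (p q : V), Att G x y z C K p q → p ∈ C → q ∈ C → Ext G x y z C K p q →
    ∀ (L : Set V) (r s : V), Att G y x z C L r s → r ∈ C → s ∈ C → Ext G y x z C L r s →
    Disjoint K L → p ∈ L → q ∉ L → r ∈ K → s ∉ K → False

/-- **IN3** (120 lines, from IN1, IN2). There are no edges between the two attached sets.
Proof. `Disjoint K L` by IN1. Let `u ∈ K`, `v ∈ L` be adjacent. `v ∈ {p, q}`, `u ∈ {r, s}` (`nb`). If `K = {x}`: `u = x ∈ {r, s} ⊆ C`, but `x ∉ C` (`sep.dis`); the same if
`L = {y}`. So both `Ext` hold. If `p, q ∈ L` then `{p, q} \ L = ∅` and `{r, s} \ K` has at most one element (`u`), against IN1; the same for `r, s ∈ K`. So exactly one of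
`p, q` is in `L` and exactly one of `r, s` in `K`; exchange names (`Att` and `Ext` are symmetric in `p, q`) and apply IN2. -/
def SpecIN3 : Prop :=
  ∀ (V : Type) [Finite V] (G : SimpleGraph V) (x y z : V) (C : Set V), Core G x y z C →
    ∀ (K : Set V) (p q : V), Att G x y z C K p q → p ∈ C → q ∈ C →
    (K = {x} ∨ Ext G x y z C K p q) →
    ∀ (L : Set V) (r s : V), Att G y x z C L r s → r ∈ C → s ∈ C →
    (L = {y} ∨ Ext G y x z C L r s) → Disjoint K L ∧ ∀ u ∈ K, ∀ v ∈ L, ¬ G.Adj u v

/-- **SP3** (120 lines, from COR, CSW, CAT, DG2, CAP, IN3). No separation of order at most three.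
Proof. COR: a core. CAT for it and for `Core G y x z C` (CSW; the side is the same set): `K, p, q` and `L, r, s`, with DG2 / CAP: `p, q, r, s ∈ C`, `Flex` for both, and the
alternatives of IN3: `K, L` disjoint without edges between them. Let `f` be a colouring of the side with `x, y, z` different, `g` from `Flex` for `K`, `h` from `Flex` for `L`. The map equal to
`g` on `K`, `h` on `L`, `f` elsewhere is a colouring of the side, `x, y` have both the fourth colour, `z` has `f z`: against `sxy`. -/
def SpecSP3 : Prop :=
  ∀ (V : Type) [Finite V] (G : SimpleGraph V), Min G → ∀ S C : Set V, S.ncard ≤ 3 → ¬ Sep G S C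

end Pool.Agent.Lib.MPc67b86
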